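import Pool.Agent.Lib.MP_6babc4_nt.G2.Defs

/-!
# Module Agm: the arithmetic-geometric mean at a decomposable vector

`v` is an infinite tree over `u = v []` with `u 0 * u 3 = u 1 * u 2`, `u ≠ 0`. There is a path `s 0 = []`,
`s (j+1) = h j :: s j` such that the vectors `w j = act I (h j) (v (s j))` satisfy `w_(j+1),b ^ 2 = st (w j) b` and
`w j = (a c, a d, b c, b d)` with `d/c, b/a → 1`, `|w j 0| ≥ c 2^j`.
PROOF. `u = (ac, ad, bc, bd)` with `(a, b) ≠ 0 ≠ (c, d)` (a matrix of rank one). `h 0 = inr (i, j)`: one of the six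
matrices makes `Re (b conj a) > 0`: the six values are `±Re(b ā)`, `±Im(b ā)`, `±(|a|² - |b|²)`; the same for `c, d`. Step: `w = (a, b) ⊗ (c, d)` with
`Re (b ā) > 0`, `Re (d c̄) > 0`: `st w = ((a²+b²)(c²+d²), 2cd(a²+b²), 2ab(c²+d²), 4abcd)`. Choose `a'² = a²+b²`, `b'² = 2ab` with
`|a'-b'| ≤ |a'+b'|`, and `c'`, `d'` in the same way. `v (h :: s) b = ± ((a',b') ⊗ (c',d')) b`: the next `h` is `inl e` with the signs `e`.
With `r = |a-b|/|a+b| < 1`, `r' = |a'-b'|/|a'+b'| ≤ 1`: `(a'²-b'²)/(a'²+b'²) = ((a-b)/(a+b))²`, and `(x²-y²)/(x²+y²) = 2ρ/(1+ρ²)` for `ρ = (x-y)/(x+y)`, so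
`2 r' = r² |1+ρ'²| ≤ 2 r²`. So `r_j ≤ r_0^(2^j) → 0`, `b_j/a_j = (1-ρ_j)/(1+ρ_j) → 1`. SIZE: `a²+b² = 2a² (1+ρ²)/(1+ρ)²`, so
`|a'|² ≥ 2|a|² (1-r²)/(1+r)² ≥ 2|a|² (1-r)²`; the product of the `1 - r_j` is positive (`r_j ≤ r_0^(2^j)` is summable); so `|a_j| ≥ c 2^(j/2)`, the same for `c_j`.
-/

set_option autoImplicit false

open Filter Topology

namespace FreyG2

section agm

/-- one step: the sums and differences -/
private theorem Agm_step {a b a' b' : ℂ} (h : ‖a - b‖ < ‖a + b‖) (h1 : a' ^ 2 = a ^ 2 + b ^ 2)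
    (h2 : b' ^ 2 = 2 * (a * b)) (h3 : ‖a' - b'‖ ≤ ‖a' + b'‖) :
    ‖a' - b'‖ < ‖a' + b'‖ ∧ ‖a' - b'‖ / ‖a' + b'‖ ≤ (‖a - b‖ / ‖a + b‖) ^ 2 ∧
      2 * ‖a + b‖ ^ 2 ≤ ‖a' + b'‖ ^ 2 * (1 + (‖a' - b'‖ / ‖a' + b'‖) ^ 2) := by
  have hS : 0 < ‖a + b‖ := (norm_nonneg _).trans_lt h
  have e1 : ‖a' - b'‖ * ‖a' + b'‖ = ‖a - b‖ ^ 2 := by
    rw [← norm_mul, ← norm_pow]
    congr 1
    linear_combination h1 - h2
  have e2 : 2 * ‖a + b‖ ^ 2 ≤ ‖a' + b'‖ ^ 2 + ‖a' - b'‖ ^ 2 := by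
    have : 2 * (a + b) ^ 2 = (a' + b') ^ 2 + (a' - b') ^ 2 := by
      linear_combination -2 * h1 - 2 * h2
    calc 2 * ‖a + b‖ ^ 2 = ‖2 * (a + b) ^ 2‖ := by rw [norm_mul, norm_pow]; norm_num
      _ = ‖(a' + b') ^ 2 + (a' - b') ^ 2‖ := by rw [this]
      _ ≤ ‖(a' + b') ^ 2‖ + ‖(a' - b') ^ 2‖ := norm_add_le _ _
      _ = _ := by rw [norm_pow, norm_pow]
  have e3 : ‖a' - b'‖ ^ 2 ≤ ‖a' + b'‖ ^ 2 := pow_le_pow_left₀ (norm_nonneg _) h3 2
  have e4 : ‖a + b‖ ^ 2 ≤ ‖a' + b'‖ ^ 2 := by linarith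
  have hS2 : 0 < ‖a + b‖ ^ 2 := pow_pos hS 2
  have hS'2 : 0 < ‖a' + b'‖ ^ 2 := hS2.trans_le e4
  have hS' : 0 < ‖a' + b'‖ := by
    rcases (norm_nonneg (a' + b')).lt_or_eq with h' | h'
    · exact h'
    · rw [← h'] at hS'2
      norm_num at hS'2
  have e5 : ‖a' - b'‖ / ‖a' + b'‖ ≤ (‖a - b‖ / ‖a + b‖) ^ 2 := by
    rw [div_pow, ← e1]
    have : ‖a' - b'‖ / ‖a' + b'‖ = ‖a' - b'‖ * ‖a' + b'‖ / ‖a' + b'‖ ^ 2 := by
      rw [sq, mul_div_mul_right _ _ hS'.ne']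
    rw [this]
    exact div_le_div_of_nonneg_left (mul_nonneg (norm_nonneg _) (norm_nonneg _)) hS2 e4
  have e6 : ‖a - b‖ / ‖a + b‖ < 1 := (div_lt_one hS).2 h
  refine ⟨?_, e5, ?_⟩
  · have : ‖a' - b'‖ / ‖a' + b'‖ < 1 :=
      e5.trans_lt (pow_lt_one₀ (div_nonneg (norm_nonneg _) hS.le) e6 two_ne_zero)
    exact (div_lt_one hS').1 this
  · have : ‖a' + b'‖ ^ 2 * (1 + (‖a' - b'‖ / ‖a' + b'‖) ^ 2) = ‖a' + b'‖ ^ 2 + ‖a' - b'‖ ^ 2 := by
      field_simp
    rw [this]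
    exact e2

/-- square roots -/
private theorem Agm_root (a b : ℂ) : ∃ a' b' : ℂ, a' ^ 2 = a ^ 2 + b ^ 2 ∧
    b' ^ 2 = 2 * (a * b) ∧ ‖a' - b'‖ ≤ ‖a' + b'‖ := by
  obtain ⟨x, hx⟩ := IsAlgClosed.exists_pow_nat_eq (a ^ 2 + b ^ 2) (n := 2) two_pos
  obtain ⟨y, hy⟩ := IsAlgClosed.exists_pow_nat_eq (2 * (a * b)) (n := 2) two_pos
  by_cases h : ‖x - y‖ ≤ ‖x + y‖
  · exact ⟨x, y, hx, hy, h⟩
  · refine ⟨x, -y, hx, ?_, ?_⟩
    · rw [neg_sq, hy]
    · rw [sub_neg_eq_add, ← sub_eq_add_neg]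
      exact (not_le.1 h).le

/-- the sequences -/
private theorem Agm_seq {a b : ℂ} (h : ‖a - b‖ < ‖a + b‖) :
    ∃ x y : ℕ → ℂ, x 0 = a ∧ y 0 = b ∧
      (∀ j, x (j + 1) ^ 2 = x j ^ 2 + y j ^ 2 ∧ y (j + 1) ^ 2 = 2 * (x j * y j)) ∧
      (∃ C : ℝ, 0 < C ∧ ∀ j, C * 2 ^ j ≤ ‖x j‖ ^ 2) ∧
      Tendsto (fun j => y j / x j) atTop (𝓝 1) := by
  choose f g h1 h2 h3 using Agm_root
  set q : ℕ → ℂ × ℂ := fun j => (fun z : ℂ × ℂ => (f z.1 z.2, g z.1 z.2))^[j] (a, b) with hq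
  have q0 : q 0 = (a, b) := rfl
  have qs : ∀ j, q (j + 1) = (f (q j).1 (q j).2, g (q j).1 (q j).2) := by
    intro j
    simp only [hq]
    rw [Function.iterate_succ_apply']
  set S : ℕ → ℝ := fun j => ‖(q j).1 + (q j).2‖ with hS
  set D : ℕ → ℝ := fun j => ‖(q j).1 - (q j).2‖ with hD
  set r : ℕ → ℝ := fun j => D j / S j with hr
  have key : ∀ j, D j < S j → D (j + 1) < S (j + 1) ∧ r (j + 1) ≤ r j ^ 2 ∧
      2 * S j ^ 2 ≤ S (j + 1) ^ 2 * (1 + r (j + 1) ^ 2) := by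
    intro j hj
    have := Agm_step hj (h1 (q j).1 (q j).2) (h2 (q j).1 (q j).2) (h3 (q j).1 (q j).2)
    simp only [hr, hD, hS, qs j]
    exact this
  have hlt : ∀ j, D j < S j := by
    intro j
    induction j with
    | zero => exact h
    | succ j ih => exact (key j ih).1
  have hSpos : ∀ j, 0 < S j := fun j => (norm_nonneg _).trans_lt (hlt j)
  have hr0 : ∀ j, 0 ≤ r j := fun j => div_nonneg (norm_nonneg _) (norm_nonneg _)
  have hr1 : ∀ j, r j < 1 := fun j => (div_lt_one (hSpos j)).2 (hlt j)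
  have hrle : ∀ j, r j ≤ r 0 := by
    intro j
    induction j with
    | zero => exact le_rfl
    | succ j ih =>
      have e := (key j (hlt j)).2.1
      have e' : r j ^ 2 ≤ r j * 1 := by
        rw [sq]
        exact mul_le_mul_of_nonneg_left (hr1 j).le (hr0 j)
      linarith
  have hrpow : ∀ j, r j ≤ r 0 ^ (j + 1) := by
    intro j
    induction j with
    | zero => rw [zero_add, pow_one]
    | succ j ih =>
      have e := (key j (hlt j)).2.1
      calc r (j + 1) ≤ r j * r j := by rw [← sq]; exact e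
        _ ≤ r 0 ^ (j + 1) * r 0 := mul_le_mul ih (hrle j) (hr0 j) (pow_nonneg (hr0 0) _)
        _ = r 0 ^ (j + 1 + 1) := (pow_succ _ _).symm
  have hPhi : ∀ j, 2 ^ j * (S 0 ^ 2 * (1 - r 0)) ≤ S j ^ 2 * (1 - r j) := by
    intro j
    induction j with
    | zero => simp
    | succ j ih =>
      obtain ⟨-, e1, e2⟩ := key j (hlt j)
      have f1 := hr0 j
      have f2 := hr1 j
      have f3 := hr0 (j + 1)
      have f4 := hr1 (j + 1)
      have g1 : (1 - r j) * (1 + r (j + 1) ^ 2) ≤ 1 - r (j + 1) := by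
        have g2 : r (j + 1) ^ 2 ≤ r j := by
          have : r (j + 1) ^ 2 ≤ r (j + 1) := by
            rw [sq]
            exact mul_le_of_le_one_left f3 f4.le
          have : r j ^ 2 ≤ r j := by
            rw [sq]
            exact mul_le_of_le_one_left f1 f2.le
          linarith
        have g3 : (1 - r j) * r (j + 1) ^ 2 ≤ (1 - r j) * r j :=
          mul_le_mul_of_nonneg_left g2 (by linarith)
        nlinarith
      have g4 : 0 < 1 + r (j + 1) ^ 2 := by positivity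
      have g5 : 2 * (S j ^ 2 * (1 - r j)) ≤ S (j + 1) ^ 2 * (1 - r (j + 1)) := by
        calc 2 * (S j ^ 2 * (1 - r j)) = 2 * S j ^ 2 * (1 - r j) := by ring
          _ ≤ S (j + 1) ^ 2 * (1 + r (j + 1) ^ 2) * (1 - r j) :=
              mul_le_mul_of_nonneg_right e2 (by linarith)
          _ = S (j + 1) ^ 2 * ((1 - r j) * (1 + r (j + 1) ^ 2)) := by ring
          _ ≤ S (j + 1) ^ 2 * (1 - r (j + 1)) :=
              mul_le_mul_of_nonneg_left g1 (by positivity)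
      calc 2 ^ (j + 1) * (S 0 ^ 2 * (1 - r 0)) = 2 * (2 ^ j * (S 0 ^ 2 * (1 - r 0))) := by ring
        _ ≤ 2 * (S j ^ 2 * (1 - r j)) := by linarith
        _ ≤ _ := g5
  have hx : ∀ j, S j * (1 - r j) ≤ 2 * ‖(q j).1‖ := by
    intro j
    have e1 : S j * (1 - r j) = S j - D j := by
      simp only [hr]
      have := (hSpos j).ne'
      field_simp
    rw [e1]
    have e2 : (q j).1 + (q j).2 = 2 * (q j).1 - ((q j).1 - (q j).2) := by ring
    have e3 : S j ≤ 2 * ‖(q j).1‖ + D j := by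
      simp only [hS, hD]
      calc ‖(q j).1 + (q j).2‖ = ‖2 * (q j).1 - ((q j).1 - (q j).2)‖ := by rw [← e2]
        _ ≤ ‖2 * (q j).1‖ + ‖(q j).1 - (q j).2‖ := norm_sub_le _ _
        _ = _ := by rw [norm_mul]; norm_num
    linarith
  have hx1 : ∀ j, S j * (1 - r 0) ≤ 2 * ‖(q j).1‖ := fun j =>
    (mul_le_mul_of_nonneg_left (by linarith [hrle j]) (hSpos j).le).trans (hx j)
  have h10 : 0 < 1 - r 0 := by linarith [hr1 0]
  have hxpos : ∀ j, 0 < ‖(q j).1‖ := by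
    intro j
    have := hx1 j
    have := mul_pos (hSpos j) h10
    linarith
  refine ⟨fun j => (q j).1, fun j => (q j).2, rfl, rfl, ?_, ?_, ?_⟩
  · intro j
    constructor
    · change (q (j + 1)).1 ^ 2 = _
      rw [qs]
      exact h1 _ _
    · change (q (j + 1)).2 ^ 2 = _
      rw [qs]
      exact h2 _ _
  · refine ⟨(1 - r 0) ^ 2 / 4 * (S 0 ^ 2 * (1 - r 0)), ?_, ?_⟩
    · have := hSpos 0
      positivity
    · intro j
      have e1 : S j ^ 2 * (1 - r j) ≤ S j ^ 2 := mul_le_of_le_one_right (sq_nonneg _)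
        (by linarith [hr0 j])
      have e2 : (S j * (1 - r 0)) ^ 2 ≤ (2 * ‖(q j).1‖) ^ 2 :=
        pow_le_pow_left₀ (mul_nonneg (hSpos j).le h10.le) (hx1 j) 2
      have e3 := (hPhi j).trans e1
      have e4 : (1 - r 0) ^ 2 * (2 ^ j * (S 0 ^ 2 * (1 - r 0))) ≤ (1 - r 0) ^ 2 * S j ^ 2 :=
        mul_le_mul_of_nonneg_left e3 (sq_nonneg _)
      have e5 : (1 - r 0) ^ 2 / 4 * (S 0 ^ 2 * (1 - r 0)) * 2 ^ j =
          (1 - r 0) ^ 2 * (2 ^ j * (S 0 ^ 2 * (1 - r 0))) / 4 := by ring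
      have e6 : (S j * (1 - r 0)) ^ 2 = (1 - r 0) ^ 2 * S j ^ 2 := by ring
      have e7 : (2 * ‖(q j).1‖) ^ 2 = 4 * ‖(q j).1‖ ^ 2 := by ring
      rw [e5]
      rw [e6, e7] at e2
      linarith
  · rw [tendsto_iff_norm_sub_tendsto_zero]
    have hb : ∀ j, ‖(q j).2 / (q j).1 - 1‖ ≤ r 0 ^ (j + 1) * (2 / (1 - r 0)) := by
      intro j
      have hne : (q j).1 ≠ 0 := norm_pos_iff.1 (hxpos j)
      have e1 : (q j).2 / (q j).1 - 1 = -(((q j).1 - (q j).2) / (q j).1) := by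
        field_simp
        ring
      rw [e1, norm_neg, norm_div]
      have e2 : ‖(q j).1 - (q j).2‖ = r j * S j := by
        simp only [hr]
        exact (div_mul_cancel₀ _ (hSpos j).ne').symm
      rw [e2, div_le_iff₀ (hxpos j)]
      have e3 : S j ≤ 2 / (1 - r 0) * ‖(q j).1‖ := by
        rw [div_mul_eq_mul_div, le_div_iff₀ h10]
        exact hx1 j
      calc r j * S j ≤ r 0 ^ (j + 1) * (2 / (1 - r 0) * ‖(q j).1‖) :=
            mul_le_mul (hrpow j) e3 (hSpos j).le (pow_nonneg (hr0 0) _)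
        _ = r 0 ^ (j + 1) * (2 / (1 - r 0)) * ‖(q j).1‖ := by ring
    have hlim : Tendsto (fun j : ℕ => r 0 ^ (j + 1) * (2 / (1 - r 0))) atTop (𝓝 0) := by
      have := ((tendsto_pow_atTop_nhds_zero_of_lt_one (hr0 0) (hr1 0)).comp
        (tendsto_add_atTop_nat 1)).mul_const (2 / (1 - r 0))
      rw [zero_mul] at this
      exact this
    exact squeeze_zero (fun j => norm_nonneg _) hb hlim

/-- the choice of the first matrix -/
private theorem Agm_start {x y : ℂ} (h : x ≠ 0 ∨ y ≠ 0) :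
    ∃ j : Fin 6, ‖(m6 Complex.I j x y).1 - (m6 Complex.I j x y).2‖ <
      ‖(m6 Complex.I j x y).1 + (m6 Complex.I j x y).2‖ := by
  by_contra hcon
  push Not at hcon
  have k0 := hcon 0
  have k1 := hcon 1
  have k2 := hcon 2
  have k3 := hcon 3
  have k4 := hcon 4
  have k5 := hcon 5
  simp only [m6, Fin.isValue, Matrix.cons_val, Matrix.cons_val_zero, Matrix.cons_val_one] at k0 k1 k2 k3 k4 k5
  rw [sub_neg_eq_add, ← sub_eq_add_neg] at k1 k3
  have c1 : x + y + (x - y) = 2 * x := by ring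
  have c2 : x + y - (x - y) = 2 * y := by ring
  have c3 : x + y + (y - x) = 2 * y := by ring
  have c4 : x + y - (y - x) = 2 * x := by ring
  rw [c1, c2, norm_mul, norm_mul] at k4
  rw [c3, c4, norm_mul, norm_mul] at k5
  have n2 : ‖(2 : ℂ)‖ = 2 := by norm_num
  rw [n2] at k4 k5
  have s1 : ‖x + y‖ ^ 2 = ‖x - y‖ ^ 2 := by rw [le_antisymm k0 k1]
  have s2 : ‖x + Complex.I * y‖ ^ 2 = ‖x - Complex.I * y‖ ^ 2 := by rw [le_antisymm k2 k3]
  have s3 : ‖x‖ ^ 2 = ‖y‖ ^ 2 := by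
    have : ‖x‖ = ‖y‖ := by linarith
    rw [this]
  simp only [Complex.sq_norm, Complex.normSq_apply, Complex.add_re, Complex.add_im, Complex.sub_re,
    Complex.sub_im, Complex.mul_re, Complex.mul_im, Complex.I_re, Complex.I_im] at s1 s2 s3
  have t1 : x.re * y.re + x.im * y.im = 0 := by linarith
  have t2 : x.im * y.re - x.re * y.im = 0 := by linarith
  have t3 : (x.re * x.re + x.im * x.im) * (x.re * x.re + x.im * x.im) = 0 := by
    have : (x.re * x.re + x.im * x.im) * (y.re * y.re + y.im * y.im) = 0 := by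
      have : (x.re * x.re + x.im * x.im) * (y.re * y.re + y.im * y.im) =
        (x.re * y.re + x.im * y.im) ^ 2 + (x.im * y.re - x.re * y.im) ^ 2 := by ring
      rw [this, t1, t2]
      ring
    rw [← s3] at this
    exact this
  have t4 : x.re * x.re + x.im * x.im = 0 := mul_self_eq_zero.1 t3
  have t5 : y.re * y.re + y.im * y.im = 0 := by rw [← s3]; exact t4
  have hx : x = 0 := by
    rw [← Complex.normSq_eq_zero, Complex.normSq_apply]
    exact t4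
  have hy : y = 0 := by
    rw [← Complex.normSq_eq_zero, Complex.normSq_apply]
    exact t5
  rcases h with h | h
  · exact h hx
  · exact h hy

/-- a matrix of rank one -/
private theorem Agm_fac {u : Fin 4 → ℂ} (hu : u 0 * u 3 = u 1 * u 2) (h0 : u ≠ 0) :
    ∃ a b c d : ℂ, (a ≠ 0 ∨ b ≠ 0) ∧ (c ≠ 0 ∨ d ≠ 0) ∧ u 0 = a * c ∧ u 1 = a * d ∧
      u 2 = b * c ∧ u 3 = b * d := by
  by_cases k0 : u 0 = 0
  · by_cases k1 : u 1 = 0
    · refine ⟨0, 1, u 2, u 3, Or.inr one_ne_zero, ?_, by rw [k0, zero_mul], by rw [k1, zero_mul],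
        (one_mul _).symm, (one_mul _).symm⟩
      by_contra hc
      push Not at hc
      apply h0
      funext i
      fin_cases i
      · exact k0
      · exact k1
      · exact hc.1
      · exact hc.2
    · refine ⟨1, u 3 / u 1, u 0, u 1, Or.inl one_ne_zero, Or.inr k1, (one_mul _).symm,
        (one_mul _).symm, ?_, (div_mul_cancel₀ _ k1).symm⟩
      rw [k0, mul_zero]
      rw [k0, zero_mul] at hu
      exact (mul_eq_zero.1 hu.symm).resolve_left k1
  · refine ⟨1, u 2 / u 0, u 0, u 1, Or.inl one_ne_zero, Or.inl k0, (one_mul _).symm,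
      (one_mul _).symm, (div_mul_cancel₀ _ k0).symm, ?_⟩
    field_simp
    linear_combination hu

/-- the decomposable vector -/
private def AgmT (a b c d : ℂ) : Fin 4 → ℂ := ![a * c, a * d, b * c, b * d]

private theorem Agm_m6 (j : Fin 6) (z x y : ℂ) : m6 Complex.I j (x * z) (y * z) =
    ((m6 Complex.I j x y).1 * z, (m6 Complex.I j x y).2 * z) := by
  fin_cases j <;> simp [m6, Prod.ext_iff] <;> (try constructor) <;> ring

private theorem Agm_m6' (j : Fin 6) (z x y : ℂ) : m6 Complex.I j (z * x) (z * y) =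
    (z * (m6 Complex.I j x y).1, z * (m6 Complex.I j x y).2) := by
  fin_cases j <;> simp [m6, Prod.ext_iff] <;> (try constructor) <;> ring

private theorem Agm_act {u : Fin 4 → ℂ} {a b c d : ℂ} (h0 : u 0 = a * c) (h1 : u 1 = a * d)
    (h2 : u 2 = b * c) (h3 : u 3 = b * d) (i j : Fin 6) :
    act Complex.I (Sum.inr (i, j)) u = AgmT (m6 Complex.I i a b).1 (m6 Complex.I i a b).2
      (m6 Complex.I j c d).1 (m6 Complex.I j c d).2 := by
  simp only [act, AgmT, h0, h1, h2, h3, Agm_m6, Agm_m6']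

private theorem Agm_st {a b c d a' b' c' d' : ℂ} (h1 : a' ^ 2 = a ^ 2 + b ^ 2)
    (h2 : b' ^ 2 = 2 * (a * b)) (h3 : c' ^ 2 = c ^ 2 + d ^ 2) (h4 : d' ^ 2 = 2 * (c * d))
    (i : Fin 4) : AgmT a' b' c' d' i ^ 2 = st (AgmT a b c d) i := by
  fin_cases i
  · simp [st, qf, AgmT, mul_pow, h1, h2, h3, h4]
    ring
  · simp [st, qf, AgmT, mul_pow, h1, h2, h3, h4]
    ring
  · simp [st, qf, AgmT, mul_pow, h1, h2, h3, h4]
    ring
  · simp [st, qf, AgmT, mul_pow, h1, h2, h3, h4]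
    ring

end agm

/-- The path in the tree at a decomposable vector. -/
theorem agm_path {v : List GG → Fin 4 → ℂ}
    (hv : ∀ s g b, v (g :: s) b ^ 2 = st (act Complex.I g (v s)) b)
    (hu : v [] 0 * v [] 3 = v [] 1 * v [] 2) (h0 : v [] ≠ 0) :
    ∃ (h : ℕ → GG) (s : ℕ → List GG), s 0 = [] ∧ (∀ j, s (j + 1) = h j :: s j) ∧
      (∀ j b, act Complex.I (h (j + 1)) (v (s (j + 1))) b ^ 2 =
        st (act Complex.I (h j) (v (s j))) b) ∧
      (∃ e : ℕ → Fin 4 → Bool, ∀ j, h (j + 1) = Sum.inl (e j)) ∧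
      (∃ c : ℝ, 0 < c ∧ ∀ j, c * 2 ^ j ≤ ‖act Complex.I (h j) (v (s j)) 0‖) ∧
      ∀ b, Tendsto (fun j => act Complex.I (h j) (v (s j)) b / act Complex.I (h j) (v (s j)) 0)
        atTop (𝓝 1) := by
  classical
  obtain ⟨a, b, c, d, hab, hcd, u0, u1, u2, u3⟩ := Agm_fac hu h0
  obtain ⟨i₁, hi₁⟩ := Agm_start hab
  obtain ⟨i₂, hi₂⟩ := Agm_start hcd
  obtain ⟨x, y, hx0, hy0, hxy, ⟨C₁, hC₁, hC₁'⟩, hlim₁⟩ := Agm_seq hi₁
  obtain ⟨z, t, hz0, ht0, hzt, ⟨C₂, hC₂, hC₂'⟩, hlim₂⟩ := Agm_seq hi₂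
  set T : ℕ → Fin 4 → ℂ := fun j => AgmT (x j) (y j) (z j) (t j) with hT
  set E : ℕ → List GG → Fin 4 → Bool := fun j l i => decide (v l i ≠ T (j + 1) i) with hE
  set q : ℕ → GG × List GG := fun j => Nat.rec (Sum.inr (i₁, i₂), [])
    (fun j p => (Sum.inl (E j (p.1 :: p.2)), p.1 :: p.2)) j with hq
  have q0 : q 0 = (Sum.inr (i₁, i₂), []) := rfl
  have qs : ∀ j, q (j + 1) = (Sum.inl (E j ((q j).1 :: (q j).2)), (q j).1 :: (q j).2) :=
    fun j => rfl
  have hTs : ∀ j i, T (j + 1) i ^ 2 = st (T j) i := fun j i =>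
    Agm_st (hxy j).1 (hxy j).2 (hzt j).1 (hzt j).2 i
  have hw : ∀ j, act Complex.I (q j).1 (v (q j).2) = T j := by
    intro j
    induction j with
    | zero =>
      rw [q0]
      simp only [hT, hx0, hy0, hz0, ht0]
      exact Agm_act u0 u1 u2 u3 i₁ i₂
    | succ j ih =>
      rw [qs]
      funext i
      have e1 : v ((q j).1 :: (q j).2) i ^ 2 = T (j + 1) i ^ 2 := by
        rw [hv, ih, hTs]
      simp only [act, hE]
      by_cases hc : v ((q j).1 :: (q j).2) i = T (j + 1) i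
      · simp [hc]
      · have : v ((q j).1 :: (q j).2) i = -T (j + 1) i :=
          (sq_eq_sq_iff_eq_or_eq_neg.1 e1).resolve_left hc
        rw [if_pos (by simpa using hc), this, neg_neg]
  refine ⟨fun j => (q j).1, fun j => (q j).2, rfl, fun j => by simp only [qs], ?_, ?_, ?_, ?_⟩
  · intro j i
    have e1 := hTs j i
    have e2 := congrFun (hw (j + 1)) i
    rw [← hw j, ← e2] at e1
    exact e1
  · exact ⟨fun j => E j ((q j).1 :: (q j).2), fun j => by simp only [qs]⟩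
  · refine ⟨Real.sqrt (C₁ * C₂), Real.sqrt_pos.2 (mul_pos hC₁ hC₂), ?_⟩
    intro j
    change _ ≤ ‖act Complex.I (q j).1 (v (q j).2) 0‖
    rw [hw]
    have e1 : T j 0 = x j * z j := rfl
    rw [e1, norm_mul]
    apply le_of_sq_le_sq _ (mul_nonneg (norm_nonneg _) (norm_nonneg _))
    rw [mul_pow, mul_pow, Real.sq_sqrt (mul_pos hC₁ hC₂).le]
    have e2 := mul_le_mul (hC₁' j) (hC₂' j) (by positivity) (by positivity)
    calc C₁ * C₂ * (2 ^ j) ^ 2 = C₁ * 2 ^ j * (C₂ * 2 ^ j) := by ring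
      _ ≤ _ := e2
  · intro i
    change Tendsto (fun j => act Complex.I (q j).1 (v (q j).2) i /
      act Complex.I (q j).1 (v (q j).2) 0) atTop (𝓝 1)
    simp only [hw]
    have hx : ∀ j, x j ≠ 0 := by
      intro j hj
      have k1 := hC₁' j
      rw [hj, norm_zero, zero_pow two_ne_zero] at k1
      have k2 : 0 < C₁ * 2 ^ j := by positivity
      linarith
    have hz : ∀ j, z j ≠ 0 := by
      intro j hj
      have k1 := hC₂' j
      rw [hj, norm_zero, zero_pow two_ne_zero] at k1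
      have k2 : 0 < C₂ * 2 ^ j := by positivity
      linarith
    fin_cases i
    · have : ∀ j, T j 0 / T j 0 = 1 := fun j => div_self (mul_ne_zero (hx j) (hz j))
      simp only [Fin.zero_eta, this]
      exact tendsto_const_nhds
    · have : ∀ j, T j 1 / T j 0 = t j / z j := fun j => mul_div_mul_left _ _ (hx j)
      simp only [Fin.mk_one, this]
      exact hlim₂
    · have : ∀ j, T j 2 / T j 0 = y j / x j := fun j => mul_div_mul_right _ _ (hz j)
      simp only [Fin.reduceFinMk, this]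
      exact hlim₁
    · have : ∀ j, T j 3 / T j 0 = y j / x j * (t j / z j) := fun j =>
        (div_mul_div_comm _ _ _ _).symm
      simp only [Fin.reduceFinMk, this]
      have := hlim₁.mul hlim₂
      rw [one_mul] at this
      exact this

end FreyG2
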