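import Pool.Agent.Lib.MP_6babc4_nt.G2.Defs

/-!
# Module App: on a congruence class the tree consists of polynomials modulo powers of `p`; a determinant

`approx`. PROOF. Induction on the length of `s`, for all `T`. `s = []`: `G = X b + C (u x₀ b)`. `s = g :: s'`: `q(x) := st (act ι g (v x s')) b = v x s b ^ 2` is
a polynomial in the `v x s' i`, so it is approximated by some `Q_T` modulo `p^T`, for each `T`. If `v x₀ s b = 0`: for each `x`, `p ∣ v x s b`,
so `v x s b` is not coprime to `p` (`p` is not a unit): it is `0`, `G = 0`. Otherwise `v x₀ s b` is coprime to `p`; NEWTON, induction on `T ≥ 1` (`T = 0`: `G = 0`): `T = 1`: `G = C (v x₀ s b)`.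
Given `G` for `T`: choose `c` with `2 c v x₀ s b ≡ 1 (mod p)`; `G' = G + c (Q_(T+1) - G²)`. With `w = v x s b`, `G = G(δ x)`: modulo `p^(T+1)`
`w - G' ≡ w - G - c (w² - G²) = (w - G)(1 - c (w + G))`, `p^T ∣ w - G` and `w + G ≡ 2 v x₀ s b`, `1 - c (w + G) ≡ 0` modulo `p`.

`det_dvd`. PROOF. Replace `w r (x c)` by the values of the polynomials `G_r` (the determinant changes by a multiple of `π^(t^5)`). The determinant of
`∑_α g_(r,α) δ(x_c)^α` is multilinear and alternating in the rows: a sum over maps `r ↦ α_r` (exponents) of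
`(∏ g_(r,α_r)) det(δ(x_c)^(α_r))`; if `α` is not injective the determinant is `0`; if it is injective, at most `t^4` of the `2 t^4` exponents
have degree `< t` (all four entries are `< t`), so at least `t^4` rows are divisible by `π^t` (a monomial of degree `≥ t` in multiples of `π`).
-/

set_option autoImplicit false

namespace FreyG2

private theorem app_m6 {R S : Type*} [CommRing R] [CommRing S] (f : R →+* S) (ι : R) (j : Fin 6)
    (x y : R) :
    f (m6 ι j x y).1 = (m6 (f ι) j (f x) (f y)).1 ∧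
      f (m6 ι j x y).2 = (m6 (f ι) j (f x) (f y)).2 := by
  fin_cases j <;> simp [m6]

private theorem app_act {R S : Type*} [CommRing R] [CommRing S] (f : R →+* S) (ι : R) (g : GG)
    (v : Fin 4 → R) (i : Fin 4) :
    f (act ι g v i) = act (f ι) g (fun i => f (v i)) i := by
  have h1 := fun j x y => (app_m6 f ι j x y).1
  have h2 := fun j x y => (app_m6 f ι j x y).2
  rcases g with e | ⟨a, b⟩
  · simp only [act]
    split_ifs <;> simp
  · fin_cases i <;> simp [act, h1, h2]

private theorem app_st {R S : Type*} [CommRing R] [CommRing S] (f : R →+* S)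
    (v : Fin 4 → R) (b : Fin 4) :
    f (st v b) = st (fun i => f (v i)) b := by
  have h2 : f 2 = 2 := map_ofNat f 2
  fin_cases b <;> simp [st, qf, h2]

private theorem app_nat {R S : Type*} [CommRing R] [CommRing S] (f : R →+* S) (ι : R) (g : GG)
    (v : Fin 4 → R) (b : Fin 4) :
    f (st (act ι g v) b) = st (act (f ι) g (fun i => f (v i))) b := by
  rw [app_st]
  congr 1
  funext i
  exact app_act f ι g v i

/-- Congruent vectors have congruent images. -/
private theorem app_congr {R : Type*} [CommRing R] (ι : R) (g : GG) (q : R) (v w : Fin 4 → R)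
    (h : ∀ i, q ∣ v i - w i) (b : Fin 4) :
    q ∣ st (act ι g v) b - st (act ι g w) b := by
  have key : ∀ a c : R, q ∣ a - c ↔
      Ideal.Quotient.mk (Ideal.span {q}) a = Ideal.Quotient.mk (Ideal.span {q}) c := by
    intro a c
    rw [Ideal.Quotient.eq, Ideal.mem_span_singleton]
  rw [key, app_nat, app_nat]
  congr 2
  funext i
  exact (key _ _).1 (h i)

/-- Newton iteration. -/
private theorem app_newton {R : Type} [CommRing R] {p : R} (h2 : IsCoprime (2 : R) p)
    {X : Type} (δ : X → Fin 4 → R) (w : X → R) (x₀ : X) (hc : ∀ x, p ∣ w x - w x₀)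
    (h0 : IsCoprime (w x₀) p)
    (hQ : ∀ T : ℕ, ∃ Q : MvPolynomial (Fin 4) R, ∀ x,
      p ^ T ∣ w x ^ 2 - MvPolynomial.eval (δ x) Q) (T : ℕ) :
    ∃ G : MvPolynomial (Fin 4) R, ∀ x, p ^ (T + 1) ∣ w x - MvPolynomial.eval (δ x) G := by
  obtain ⟨c, d, hcd⟩ := h2.mul_left h0
  induction T with
  | zero =>
    refine ⟨MvPolynomial.C (w x₀), fun x => ?_⟩
    simpa using hc x
  | succ T ih =>
    obtain ⟨G, hG⟩ := ih
    obtain ⟨Q, hQ⟩ := hQ (T + 1 + 1)
    refine ⟨G + MvPolynomial.C c * (Q - G ^ 2), fun x => ?_⟩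
    simp only [map_add, map_mul, map_sub, map_pow, MvPolynomial.eval_C]
    set γ := MvPolynomial.eval (δ x) G with hγ
    have e1 : w x - (γ + c * (MvPolynomial.eval (δ x) Q - γ ^ 2))
        = (w x - γ) * (1 - c * (w x + γ)) + c * (w x ^ 2 - MvPolynomial.eval (δ x) Q) := by
      ring
    rw [e1]
    have hG' := hG x
    rw [← hγ] at hG'
    refine dvd_add ?_ ((hQ x).mul_left _)
    rw [pow_succ p (T + 1)]
    refine mul_dvd_mul hG' ?_
    have hp1 : p ∣ w x - γ := (dvd_pow_self p (Nat.succ_ne_zero T)).trans hG'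
    have hp2 := hc x
    have e2 : 1 - c * (w x + γ) = d * p + c * ((w x - γ) - 2 * (w x - w x₀)) := by
      linear_combination -hcd
    rw [e2]
    exact dvd_add (Dvd.intro_left d rfl) ((dvd_sub hp1 (hp2.mul_left 2)).mul_left c)

theorem approx {R : Type} [CommRing R] {p : R} (h2 : IsCoprime (2 : R) p) (hp : ¬ IsUnit p) {ι : R}
    {X : Type} (u : X → Fin 4 → R) (v : X → List GG → Fin 4 → R) {k : ℕ}
    (hv : ∀ x, Tree ι k (u x) (v x)) (x₀ : X)
    (hc : ∀ x s b, s.length ≤ k → p ∣ v x s b - v x₀ s b)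
    (hn : ∀ x s b, s ≠ [] → s.length ≤ k → v x s b = 0 ∨ IsCoprime (v x s b) p)
    (T : ℕ) (s : List GG) (hs : s.length ≤ k) (b : Fin 4) :
    ∃ G : MvPolynomial (Fin 4) R, ∀ x,
      p ^ T ∣ v x s b - MvPolynomial.eval (fun i => u x i - u x₀ i) G := by
  induction s generalizing T b with
  | nil =>
    refine ⟨MvPolynomial.X b + MvPolynomial.C (u x₀ b), fun x => ?_⟩
    have h1 : v x [] b = u x b := by rw [(hv x).1]
    simp [h1]
  | cons g s ih =>
    have hs' : s.length < k := by
      simpa [Nat.succ_le_iff] using hs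
    by_cases hT : T = 0
    · subst hT
      exact ⟨0, fun x => by simp⟩
    obtain ⟨T, rfl⟩ := Nat.exists_eq_succ_of_ne_zero hT
    rcases hn x₀ (g :: s) b (List.cons_ne_nil _ _) hs with h0 | h0
    · refine ⟨0, fun x => ?_⟩
      have hx : v x (g :: s) b = 0 := by
        rcases hn x (g :: s) b (List.cons_ne_nil _ _) hs with h | h
        · exact h
        · exfalso
          have h3 := hc x (g :: s) b hs
          rw [h0, sub_zero] at h3
          exact hp (h.symm.isUnit_of_dvd' dvd_rfl h3)
      simp [hx]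
    · refine app_newton h2 (fun x i => u x i - u x₀ i) (fun x => v x (g :: s) b) x₀
        (fun x => hc x (g :: s) b hs) h0 ?_ T
      intro T
      choose G hG using fun i => ih T (le_of_lt hs') i
      refine ⟨st (act (MvPolynomial.C ι) g G) b, fun x => ?_⟩
      have h4 := (hv x).2 s hs' g b
      have h5 := app_nat (MvPolynomial.eval (fun i => u x i - u x₀ i)) (MvPolynomial.C ι) g G b
      rw [MvPolynomial.eval_C] at h5
      rw [h4, h5]
      exact app_congr ι g _ _ _ (fun i => hG i x) b

private theorem app_count {t : ℕ} (α : Fin (2 * t ^ 4) → (Fin 4 →₀ ℕ))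
    (hα : Function.Injective α) : t ^ 5 ≤ ∑ r, ∑ i, α r i := by
  classical
  set S : Finset (Fin (2 * t ^ 4)) := Finset.univ.filter (fun r => ∑ i, α r i < t) with hS
  have h1 : S.card ≤ t ^ 4 := by
    have h2 : ∀ r ∈ S, ∀ i, α r i < t := by
      intro r hr i
      rw [hS, Finset.mem_filter] at hr
      exact lt_of_le_of_lt (Finset.single_le_sum (f := fun i => α r i)
        (fun _ _ => Nat.zero_le _) (Finset.mem_univ i)) hr.2
    have h3 : Fintype.card S ≤ Fintype.card (Fin 4 → Fin t) := by
      refine Fintype.card_le_of_injective (fun r : S => fun i => ⟨α r.1 i, h2 r.1 r.2 i⟩) ?_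
      intro r r' h
      apply Subtype.ext
      apply hα
      ext i
      have := congrFun h i
      simpa using this
    simpa using h3
  have h4 : t ^ 4 ≤ (Finset.univ.filter (fun r => ¬ ∑ i, α r i < t)).card := by
    have h5 := Finset.card_filter_add_card_filter_not (s := (Finset.univ : Finset (Fin (2 * t ^ 4))))
      (fun r => ∑ i, α r i < t)
    rw [← hS, Finset.card_univ, Fintype.card_fin] at h5
    omega
  calc t ^ 5 = t ^ 4 * t := by ring
    _ ≤ (Finset.univ.filter (fun r => ¬ ∑ i, α r i < t)).card * t := Nat.mul_le_mul_right _ h4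
    _ = ∑ r ∈ Finset.univ.filter (fun r => ¬ ∑ i, α r i < t), t := by
        rw [Finset.sum_const, smul_eq_mul]
    _ ≤ ∑ r ∈ Finset.univ.filter (fun r => ¬ ∑ i, α r i < t), ∑ i, α r i := by
        refine Finset.sum_le_sum fun r hr => ?_
        rw [Finset.mem_filter] at hr
        exact not_lt.1 hr.2
    _ ≤ ∑ r, ∑ i, α r i := Finset.sum_le_univ_sum_of_nonneg (fun _ => Nat.zero_le _)

/-- The determinant of values of polynomials. -/
private theorem app_det {R : Type} [CommRing R] {π : R} {t : ℕ} (δ : Fin (2 * t ^ 4) → Fin 4 → R)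
    (hδ : ∀ x i, π ∣ δ x i) (G : Fin (2 * t ^ 4) → MvPolynomial (Fin 4) R) :
    π ^ (t ^ 5) ∣ Matrix.det (Matrix.of fun r c => MvPolynomial.eval (δ c) (G r)) := by
  classical
  choose ε hε using hδ
  have e1 : (Matrix.of fun r c => MvPolynomial.eval (δ c) (G r)) =
      fun r => ∑ α ∈ (G r).support, (G r).coeff α • fun c => ∏ i, δ c i ^ α i := by
    funext r c
    rw [Finset.sum_apply]
    simp only [Matrix.of_apply, Pi.smul_apply, smul_eq_mul]
    exact MvPolynomial.eval_eq' (δ c) (G r)
  have e2 : Matrix.det (Matrix.of fun r c => MvPolynomial.eval (δ c) (G r)) =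
      (Matrix.detRowAlternating (R := R) (n := Fin (2 * t ^ 4))).toMultilinearMap
        (fun r => ∑ α ∈ (G r).support, (G r).coeff α • fun c => ∏ i, δ c i ^ α i) := by
    rw [← e1]
    rfl
  rw [e2, MultilinearMap.map_sum_finset]
  refine Finset.dvd_sum fun α _ => ?_
  rw [MultilinearMap.map_smul_univ, smul_eq_mul]
  refine Dvd.dvd.mul_left ?_ _
  by_cases hα : Function.Injective α
  · have e3 : (fun r => (fun c => ∏ i, δ c i ^ α r i : Fin (2 * t ^ 4) → R)) =
        fun r => (π ^ (∑ i, α r i)) • (fun c => ∏ i, ε c i ^ α r i) := by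
      funext r c
      rw [Pi.smul_apply, smul_eq_mul, ← Finset.prod_pow_eq_pow_sum, ← Finset.prod_mul_distrib]
      refine Finset.prod_congr rfl fun i _ => ?_
      rw [hε c i, mul_pow]
    rw [e3, MultilinearMap.map_smul_univ, smul_eq_mul, Finset.prod_pow_eq_pow_sum]
    exact (pow_dvd_pow π (app_count α hα)).mul_right _
  · rw [Function.not_injective_iff] at hα
    obtain ⟨r, r', h, hne⟩ := hα
    have h0 : (Matrix.detRowAlternating (R := R) (n := Fin (2 * t ^ 4))).toMultilinearMap
        (fun r => (fun c => ∏ i, δ c i ^ α r i : Fin (2 * t ^ 4) → R)) = 0 := by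
      refine (Matrix.detRowAlternating (R := R) (n := Fin (2 * t ^ 4))).map_eq_zero_of_eq _ ?_ hne
      simp only [h]
    rw [h0]
    exact dvd_zero _

theorem det_dvd {R : Type} [CommRing R] {π : R} {t : ℕ} {X : Type} (δ : X → Fin 4 → R)
    (hδ : ∀ x i, π ∣ δ x i) (w : Fin (2 * t ^ 4) → X → R) (x : Fin (2 * t ^ 4) → X)
    (hw : ∀ r, ∃ G : MvPolynomial (Fin 4) R, ∀ y,
      π ^ (t ^ 5) ∣ w r y - MvPolynomial.eval (δ y) G) :
    π ^ (t ^ 5) ∣ Matrix.det (Matrix.of fun r c => w r (x c)) := by
  choose G hG using hw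
  have key : ∀ a c : R, π ^ (t ^ 5) ∣ a - c ↔
      Ideal.Quotient.mk (Ideal.span {π ^ (t ^ 5)}) a =
        Ideal.Quotient.mk (Ideal.span {π ^ (t ^ 5)}) c := by
    intro a c
    rw [Ideal.Quotient.eq, Ideal.mem_span_singleton]
  have h1 := app_det (π := π) (t := t) (fun c => δ (x c)) (fun c i => hδ (x c) i) G
  have h2 : π ^ (t ^ 5) ∣ Matrix.det (Matrix.of fun r c => w r (x c)) -
      Matrix.det (Matrix.of fun r c => MvPolynomial.eval (δ (x c)) (G r)) := by
    rw [key, RingHom.map_det, RingHom.map_det]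
    congr 1
    ext r c
    exact (key _ _).1 (hG r (x c))
  exact (dvd_sub_left h1).1 h2

end FreyG2
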