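import Pool.Agent.Lib.MP_6babc4_nt.Cy3.ECr

/-!
# Module Cr4: the number of the cross ratios for `N = 2` and four branch points

PROOF. `N = 2`, `n = 3` or `4`: four branch points (`n = 3`: the three roots and infinity), all of weight `1`. For a prime `P` of `Spl (tot 2 f)` with `2 condE 2 f ∉ P` every split fits (see `types` in Cy3/ETyp and `condE_mem` in Cy3/ECnd), but a split of four points has two elements on each side, `gcd(2, 2) = 2` divides no weight `1`: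
there is no split, so all cross ratios of four different branch points have order `0` (if `ord P (cr a b c d) = t > 0` then `{a, b}` is a split of thickness `t`, up to the choice of the minimum; if it is negative take the inverse `cr a c b d`). For a cross ratio `x` also `x - 1` (minus a cross ratio) has order `0`.
Let `E ⊇ Spl` contain a primitive third root of unity (`ebase_cyc` in Cy3/EBase is private: copy with `q = 3`; `discr_galois`, `kummer_unram` in Cyc/Kum). With `w = 6 condE 2 f` `x` has the type `Ty w 3 3 3` (Cy3/ETyp) in `E` (orders `0`), so `ι x ∈ TSet 3 M D R 3 3 3` (Cy3/ECtD) for an extension `ι` of `τ`,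
and `count_d` with `N = q = 3` (`3 ∣ 3`) gives the bound; `cr_quot` for the size. The set `CRsetE K σ 2 n H Y` is contained in this `TSet` (each of its elements is such an `x`). Constants as in `cr_countE` (Cy3/ECr).
-/

set_option autoImplicit false

open Polynomial NumberField IsDedekindDomain Module

namespace FreyG2

open FreySparse FreyCyc

private lemma cr4_cyc (L : Type) [Field L] [NumberField L] (q : ℕ) (hq : 0 < q) :
    ∃ (E : Type) (_ : Field E) (_ : NumberField E) (_ : Algebra L E) (ζ : E),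
      IsPrimitiveRoot ζ q ∧ finrank L E ≤ q ∧
      |(discr E : ℝ)| ≤ (|(discr L : ℝ)| * ((q : ℝ) * q) ^ finrank ℚ L) ^ q := by
  have : NeZero q := ⟨hq.ne'⟩
  obtain ⟨ζ, hζ⟩ := (CyclotomicField.isCyclotomicExtension q L).exists_isPrimitiveRoot rfl hq.ne'
  have hgal : IsGalois L (CyclotomicField q L) :=
    IsCyclotomicExtension.isGalois {q} L (CyclotomicField q L)
  have htop : IntermediateField.adjoin L {ζ} = ⊤ := by
    have h1 := IsCyclotomicExtension.adjoin_primitive_root_eq_top (A := L) hζ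
    rw [← IntermediateField.toSubalgebra_injective.eq_iff, IntermediateField.top_toSubalgebra,
      eq_top_iff, ← h1]
    exact IntermediateField.algebra_adjoin_le_adjoin L {ζ}
  have hfin : finrank L (CyclotomicField q L) ≤ q := by
    have h1 : finrank L (IntermediateField.adjoin L {ζ}) ≤ q := by
      rw [IntermediateField.adjoin.finrank (hζ.isIntegral hq).tower_top]
      have h2 : (X ^ q - 1 : L[X]) ≠ 0 := X_pow_sub_C_ne_zero hq 1
      have h3 : minpoly L ζ ∣ X ^ q - 1 := minpoly.dvd L ζ (by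
        rw [map_sub, map_pow, aeval_X, map_one, hζ.pow_eq_one, sub_self])
      refine (natDegree_le_of_dvd h3 h2).trans ?_
      exact (natDegree_X_pow_sub_C (n := q) (r := (1 : L))).le
    rw [htop, IntermediateField.finrank_top'] at h1
    exact h1
  refine ⟨CyclotomicField q L, inferInstance, inferInstance, inferInstance, ζ, hζ, hfin, ?_⟩
  refine discr_galois hq.ne' hfin fun P P' hPP' => ?_
  by_contra hP
  refine kummer_unram hq htop one_ne_zero (by rw [hζ.pow_eq_one, map_one]) P hP ?_ P' hPP'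
  rw [ord_one]
  exact dvd_zero _

private lemma cr4_base (d n N q : ℕ) (hN : N ≠ 0) (hq : 1 ≤ q) : ∃ A : ℕ, 1 ≤ A ∧
    ∀ (K : Type) [Field K] [NumberField K], finrank ℚ K = d → ∀ f : ℕ → (𝓞 K)[X],
      (tot N f).natDegree = n → ((tot N f).map (algebraMap (𝓞 K) K)).Separable →
        ∃ (E : Type) (_ : Field E) (_ : NumberField E) (_ : Algebra (Spl (tot N f)) E) (ζ : E),
          IsPrimitiveRoot ζ q ∧ finrank ℚ E ≤ A ∧
          |(discr E : ℝ)| ≤ (A * (|(discr K : ℝ)| * condE N f)) ^ A := by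
  obtain ⟨A₀, hA₀, hspl⟩ := spl_disc d n N 1 hN
  have hN1 : 1 ≤ q := hq
  refine ⟨A₀ * (q * q) + 2 * A₀ * q, ?_, ?_⟩
  · have h1 : 1 ≤ A₀ * (q * q) := Nat.mul_pos hA₀ (Nat.mul_pos hN1 hN1)
    omega
  intro K _ _ hK f hn hf
  obtain ⟨hL, hLd⟩ := hspl K hK f hn hf
  obtain ⟨E, iF, iN, iA, ζ, hζ, hfin, hdisc⟩ := cr4_cyc (Spl (tot N f)) q hN1
  refine ⟨E, iF, iN, iA, ζ, hζ, ?_, ?_⟩
  · rw [← finrank_mul_finrank ℚ (Spl (tot N f)) E]
    calc finrank ℚ (Spl (tot N f)) * finrank (Spl (tot N f)) E ≤ A₀ * q :=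
          Nat.mul_le_mul hL hfin
      _ ≤ A₀ * (q * q) + 2 * A₀ * q := by nlinarith
  · have hD : (1 : ℝ) ≤ |(discr K : ℝ)| := by
      have h : (1 : ℤ) ≤ |discr K| := Int.one_le_abs (discr_ne_zero K)
      exact_mod_cast h
    have hc : (1 : ℝ) ≤ (condE N f : ℝ) := by exact_mod_cast condE_pos N f
    have hcc : (cond N 1 f : ℝ) ≤ (condE N f : ℝ) := by exact_mod_cast cond_one_le N hf
    have hN' : (1 : ℝ) ≤ q := by exact_mod_cast hN1
    have hA' : (1 : ℝ) ≤ A₀ := by exact_mod_cast hA₀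
    set D : ℝ := |(discr K : ℝ)| with hDdef
    set c : ℝ := (condE N f : ℝ) with hcdef
    have hNN : (1 : ℝ) ≤ q * q := one_le_mul_of_one_le_of_one_le hN' hN'
    have hDc : 1 ≤ D * c := one_le_mul_of_one_le_of_one_le hD hc
    set Y : ℝ := A₀ * (q * q) * (D * c) with hY
    have hY1 : 1 ≤ Y := one_le_mul_of_one_le_of_one_le
      (one_le_mul_of_one_le_of_one_le hA' hNN) hDc
    have hYL : (A₀ : ℝ) * (D * (cond N 1 f : ℝ)) ≤ Y := by
      calc (A₀ : ℝ) * (D * (cond N 1 f : ℝ)) ≤ A₀ * (D * c) :=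
            mul_le_mul_of_nonneg_left (mul_le_mul_of_nonneg_left hcc (by positivity))
              (by positivity)
        _ = (A₀ * (D * c)) * 1 := by ring
        _ ≤ (A₀ * (D * c)) * (q * q) := mul_le_mul_of_nonneg_left hNN (by positivity)
        _ = Y := by rw [hY]; ring
    have hYN : (q : ℝ) * q ≤ Y := by
      calc (q : ℝ) * q = (q * q) * 1 := by ring
        _ ≤ (q * q) * (A₀ * (D * c)) := mul_le_mul_of_nonneg_left
            (one_le_mul_of_one_le_of_one_le hA' hDc) (by positivity)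
        _ = Y := by rw [hY]; ring
    have h1 : |(discr (Spl (tot N f)) : ℝ)| ≤ Y ^ A₀ :=
      hLd.trans (pow_le_pow_left₀ (by positivity) hYL _)
    have h2 : ((q : ℝ) * q) ^ finrank ℚ (Spl (tot N f)) ≤ Y ^ A₀ := by
      calc ((q : ℝ) * q) ^ finrank ℚ (Spl (tot N f)) ≤ Y ^ finrank ℚ (Spl (tot N f)) :=
            pow_le_pow_left₀ (by positivity) hYN _
        _ ≤ Y ^ A₀ := pow_le_pow_right₀ hY1 hL
    have h3 : |(discr E : ℝ)| ≤ Y ^ (2 * A₀ * q) := by
      refine hdisc.trans ?_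
      rw [pow_mul]
      refine pow_le_pow_left₀ (by positivity) ?_ _
      rw [two_mul, pow_add]
      exact mul_le_mul h1 h2 (by positivity) (by positivity)
    refine h3.trans ?_
    have h4 : Y ≤ ((A₀ * (q * q) + 2 * A₀ * q : ℕ) : ℝ) * (D * c) := by
      rw [hY]
      refine mul_le_mul_of_nonneg_right ?_ (by positivity)
      have : A₀ * (q * q) ≤ A₀ * (q * q) + 2 * A₀ * q := by omega
      exact_mod_cast this
    calc Y ^ (2 * A₀ * q) ≤ Y ^ (A₀ * (q * q) + 2 * A₀ * q) :=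
          pow_le_pow_right₀ hY1 (by omega)
      _ ≤ _ := pow_le_pow_left₀ (by positivity) h4 _

private lemma cr4_nosplit {F : Type} [Field F] [NumberField F] (P : HeightOneSpectrum (𝓞 F))
    {B : Set (OnePoint F)} {w : OnePoint F → ℕ} (hw : WSys 2 B w) (h4 : B.ncard = 4)
    (S : Set (OnePoint F)) (t : ℤ) (hS : Split P B S t) : ¬ Fits 2 w B S t := by
  obtain ⟨hSB, ht, -, a, ha, b, hb, c, hc, d, hd, hab, hcd, -⟩ := hS
  have hw1 : ∀ z ∈ B, w z = 1 := fun z hz => by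
    have := hw.lt z hz
    omega
  have hfin := hw.fin
  have hSfin : S.Finite := hfin.subset hSB
  have hDfin : (B \ S).Finite := hfin.subset Set.sdiff_subset
  have h2 : 2 ≤ S.ncard := by
    rw [← Set.ncard_pair hab]
    exact Set.ncard_le_ncard (Set.insert_subset ha (Set.singleton_subset_iff.2 hb)) hSfin
  have h2' : 2 ≤ (B \ S).ncard := by
    rw [← Set.ncard_pair hcd]
    exact Set.ncard_le_ncard (Set.insert_subset hc (Set.singleton_subset_iff.2 hd)) hDfin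
  have hsum : (B \ S).ncard + S.ncard = B.ncard := Set.ncard_sdiff_add_ncard_of_subset hSB hfin
  have hS2 : S.ncard = 2 := by omega
  have hs : ∑ᶠ z ∈ S, w z = 2 := by
    rw [finsum_mem_congr rfl (fun z hz => hw1 z (hSB hz)), finsum_one, hS2]
  rintro ⟨-, h | h⟩
  · have h5 := h a ha
    rw [hs, hw1 a (hSB ha)] at h5
    exact absurd h5 (by decide)
  · have h5 := h c hc
    rw [hs, hw1 c hc.1] at h5
    exact absurd h5 (by decide)

private lemma cr4_card {n : ℕ} (hn : n = 3 ∨ n = 4) {K : Type} [Field K] [NumberField K] {H : ℝ}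
    {f : ℕ → (𝓞 K)[X]} (hf : f ∈ FamE K 2 n H) : (bp 2 f).ncard = 4 := by
  have hn3 : 3 ≤ n := by omega
  obtain ⟨m, w, z, hnm, hm1, hinj, hw, hz, hwz, hsum, -, -⟩ := numbering hn3 hf.2.1 hf.2.2.1
  have hm : ∑ j ∈ Finset.range m, w j = m := by
    rw [Finset.sum_congr rfl (fun j hj => (by
      have := hw j (Finset.mem_range.1 hj)
      omega : w j = 1))]
    simp
  rw [hm] at hsum
  have h4 : m = 4 := by omega
  rw [← hz, hinj.ncard_image, ← Finset.coe_range, Set.ncard_coe_finset,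
    Finset.card_range, h4]

private theorem cr4_ne {F : Type} [Field F] {a b c d : OnePoint F} (hab : a ≠ b) (hac : a ≠ c)
    (hbd : b ≠ d) (hcd : c ≠ d) : cr a b c d ≠ 0 :=
  div_ne_zero (mul_ne_zero (dt_ne hab) (dt_ne hcd)) (mul_ne_zero (dt_ne hac) (dt_ne hbd))

private theorem cr4_inv {F : Type} [Field F] {a b c d : OnePoint F} (hab : a ≠ b) (hac : a ≠ c)
    (hbd : b ≠ d) (hcd : c ≠ d) : cr a b c d * cr a c b d = 1 := by
  have h1 := dt_ne hab
  have h2 := dt_ne hac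
  have h3 := dt_ne hbd
  have h4 := dt_ne hcd
  unfold cr
  field_simp

private lemma cr4_ty {n : ℕ} (hn : n = 3 ∨ n = 4) {K : Type} [Field K] [NumberField K] {H : ℝ}
    {f : ℕ → (𝓞 K)[X]} (hf : f ∈ FamE K 2 n H) {w : ℕ} (h2 : 2 ∣ w) (hc : condE 2 f ∣ w)
    {a b c e : OnePoint (Spl (tot 2 f))} (ha : a ∈ bp 2 f) (hb : b ∈ bp 2 f) (hcb : c ∈ bp 2 f)
    (he : e ∈ bp 2 f) (hab : a ≠ b) (hac : a ≠ c) (hae : a ≠ e) (hbc : b ≠ c) (hbe : b ≠ e)
    (hce : c ≠ e) : Ty w 3 3 3 (cr a b c e) := by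
  have hn3 : 3 ≤ n := by omega
  have hw : WSys 2 (bp 2 f) (wt 2 f) := wsys hn3 hf
  have h4 := cr4_card hn hf
  have hsep := hf.2.2.1
  have hno : ∀ P : HeightOneSpectrum (𝓞 (Spl (tot 2 f))),
      (w : 𝓞 (Spl (tot 2 f))) ∉ P.asIdeal → ∀ S t, ¬ Split P (bp 2 f) S t := by
    intro P hP S t hS
    have hnof := cr4_nosplit P hw h4 S t hS
    obtain ⟨v, hv⟩ := exists_below (K := K) P
    have hmem : ∀ m : ℕ, m ∣ w → (m : 𝓞 K) ∉ v.asIdeal := by
      intro m hm hmv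
      apply hP
      have h5 := (mem_iff_of_above hv (m : 𝓞 K)).mpr hmv
      rw [map_natCast] at h5
      obtain ⟨t, ht⟩ := hm
      rw [ht, Nat.cast_mul]
      exact P.asIdeal.mul_mem_right _ h5
    exact hmem (condE 2 f) hc
      (condE_mem 2 hsep ⟨hmem 2 h2, Or.inr ⟨P, hv, Or.inl ⟨S, t, hS, hnof⟩⟩⟩)
  have hle : ∀ P : HeightOneSpectrum (𝓞 (Spl (tot 2 f))),
      (w : 𝓞 (Spl (tot 2 f))) ∉ P.asIdeal →
      ∀ x ∈ bp 2 f, ∀ y ∈ bp 2 f, ∀ z ∈ bp 2 f, ∀ u ∈ bp 2 f, x ≠ y → x ≠ z → x ≠ u → y ≠ z →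
        y ≠ u → z ≠ u → ord P (cr x y z u) ≤ 0 := by
    intro P hP x hx y hy z hz u hu hxy hxz hxu hyz hyu hzu
    by_contra hpos
    push Not at hpos
    have h5 := tel P hw.fin hx hy hz hu hxy hxz hxu hyz hyu hzu (ord P (cr x y z u) + 1)
      (fun S t hS _ _ _ _ => absurd hS (hno P hP S t)) hpos
    have h6 := Int.le_of_dvd hpos h5
    omega
  have h0 : cr a b c e ≠ 0 := cr4_ne hab hac hbe hce
  have h0' : cr a c b e ≠ 0 := cr4_ne hac hab hce hbe
  have hsub : cr a b c e - 1 = - cr a e c b := cr_sub_one hac hbe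
  refine ⟨h0, ?_, fun P hP => ?_⟩
  · intro h1
    rw [h1, sub_self] at hsub
    exact cr4_ne hae hac hbe.symm hbc.symm (neg_eq_zero.mp hsub.symm)
  have g0 := hle P hP a ha b hb c hcb e he hab hac hae hbc hbe hce
  have g1 := hle P hP a ha e he c hcb b hb hae hac hab hce.symm hbe.symm hbc.symm
  have g2 := hle P hP a ha c hcb b hb e he hac hab hae hbc.symm hce hbe
  have h3 : ord P (cr a b c e) + ord P (cr a c b e) = 0 := by
    rw [← ord_mul P h0 h0', cr4_inv hab hac hbe hce, ord_one]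
  refine ⟨fun h => absurd h (not_lt.2 g0), fun h => ?_, fun h => ?_⟩
  · rw [hsub, ord_neg] at h
    exact absurd h (not_lt.2 g1)
  · exfalso
    omega

private lemma cr4_ext {L F : Type} [Field L] [NumberField L] [Field F] [NumberField F]
    (g : L →+* F) (τ : L →+* ℂ) : ∃ ι : F →+* ℂ, ∀ x, ι (g x) = τ x := by
  let _ : Algebra L F := g.toAlgebra
  let _ : Algebra L ℂ := τ.toAlgebra
  have hA : Algebra.IsAlgebraic L F := Algebra.IsAlgebraic.tower_top (K := ℚ) L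
  let ι : F →ₐ[L] ℂ := IsAlgClosed.lift
  exact ⟨ι.toRingHom, fun x => ι.commutes x⟩

/-- The image of an integer in a larger field. -/
private lemma cr4_int {L E : Type} [Field L] [NumberField L] [Field E] [NumberField E]
    (g : L →+* E) (ν : 𝓞 L) {R : ℝ} (hν : ∀ τ : L →+* ℂ, ‖τ ν‖ ≤ R) :
    ∃ ν' : 𝓞 E, (ν' : E) = g (ν : L) ∧ ∀ τ : E →+* ℂ, ‖τ ν'‖ ≤ R := by
  have hi : IsIntegral ℤ (g (ν : L)) := map_isIntegral_int g (RingOfIntegers.isIntegral_coe ν)
  obtain ⟨ν', h⟩ : ∃ ν' : 𝓞 E, (ν' : E) = g (ν : L) := ⟨⟨g (ν : L), hi⟩, rfl⟩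
  refine ⟨ν', h, fun τ => ?_⟩
  rw [h]
  exact hν (τ.comp g)

private lemma cr4_discr (K : Type) [Field K] [NumberField K] : 1 ≤ |(discr K : ℝ)| := by
  have h := Int.one_le_abs (discr_ne_zero K)
  exact_mod_cast h

/-- The quotient of two integers in a larger field. -/
private lemma cr4_quo {L E : Type} [Field L] [NumberField L] [Field E] [NumberField E]
    (g : L →+* E) {x : L} {R : ℝ} (h : ∃ ν δ : 𝓞 L, δ ≠ 0 ∧ x = (ν : L) / δ ∧
      (∀ τ : L →+* ℂ, ‖τ ν‖ ≤ R) ∧ ∀ τ : L →+* ℂ, ‖τ δ‖ ≤ R) :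
    ∃ ν δ : 𝓞 E, δ ≠ 0 ∧ g x = (ν : E) / δ ∧ (∀ τ : E →+* ℂ, ‖τ ν‖ ≤ R) ∧
      ∀ τ : E →+* ℂ, ‖τ δ‖ ≤ R := by
  obtain ⟨ν, δ, hδ0, hx, hν, hδ⟩ := h
  obtain ⟨ν', hν', hνb⟩ := cr4_int g ν hν
  obtain ⟨δ', hδ', hδb⟩ := cr4_int g δ hδ
  refine ⟨ν', δ', ?_, ?_, hνb, hδb⟩
  · rintro rfl
    have h1 : g (δ : L) = 0 := by
      rw [← hδ']
      exact map_zero _
    have h2 : (δ : L) = 0 := (map_eq_zero _).1 h1
    exact hδ0 (RingOfIntegers.coe_eq_zero_iff.1 h2)
  · rw [hx, map_div₀, hν', hδ']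

theorem cr_count_four (d n : ℕ) (hn : n = 3 ∨ n = 4) {ε : ℝ} (hε : 0 < ε) :
    ∃ A C : ℝ, 0 < A ∧ 1 ≤ C ∧ ∀ (K : Type) [Field K] [NumberField K], finrank ℚ K = d →
      ∀ σ : K →+* ℂ, ∀ H Y : ℝ, 1 ≤ H → 1 ≤ Y → (CRsetE K σ 2 n H Y).Finite ∧
        ((CRsetE K σ 2 n H Y).ncard : ℝ) ≤ C * Y ^ A * H ^ ε := by
  obtain ⟨A₀, hA₀, hbase⟩ := cr4_base d n 2 3 (by norm_num) (by norm_num)
  obtain ⟨C₁, hC₁, hcr⟩ := cr_quot n 2 1 (by norm_num)
  have h0 : (1 : ℝ) ≤ A₀ := by exact_mod_cast hA₀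
  have hε2 : 0 < ε / 4 := by positivity
  obtain ⟨A, C, hA, hC, hU⟩ := count_d (N := 3) (q := 3) (by norm_num) le_rfl dvd_rfl A₀ hε2
  obtain ⟨B, hB⟩ : ∃ B : ℝ, B = 6 * (A₀ : ℝ) ^ A₀ := ⟨_, rfl⟩
  have hB1 : 1 ≤ B := by
    rw [hB]
    exact one_le_mul_of_one_le_of_one_le (by norm_num) (one_le_pow₀ h0)
  refine ⟨((A₀ : ℝ) + 1) * A, C * B ^ A * C₁ ^ ε, by positivity, ?_, ?_⟩
  · exact one_le_mul_of_one_le_of_one_le (one_le_mul_of_one_le_of_one_le hC
      (Real.one_le_rpow hB1 hA.le)) (Real.one_le_rpow hC₁ hε.le)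
  intro K _ _ hd σ H Y hH hY
  have hY0 : 0 < Y := by linarith
  have hCH : 1 ≤ C₁ * H := one_le_mul_of_one_le_of_one_le hC₁ hH
  have hR1 : 1 ≤ (C₁ * H) ^ 4 := one_le_pow₀ hCH
  obtain ⟨D, hD⟩ : ∃ D : ℝ, D = (6 * Y) * (A₀ * Y) ^ A₀ := ⟨_, rfl⟩
  have hDe : D = B * Y ^ (A₀ + 1) := by
    rw [hD, hB, mul_pow, pow_succ]
    ring
  have hD1 : 1 ≤ D := by
    rw [hDe]
    exact one_le_mul_of_one_le_of_one_le hB1 (one_le_pow₀ hY)
  obtain ⟨hfin, hcard⟩ := hU D ((C₁ * H) ^ 4) hD1 hR1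
  have hsub : CRsetE K σ 2 n H Y ⊆ TSet 3 A₀ D ((C₁ * H) ^ 4) 3 3 3 := by
    rintro z ⟨f, hf, hfY, τ, hτ, x, hx, y, hy, u, hu, v, hv, hxy, hxu, hxv, hyu, hyv, huv, rfl⟩
    obtain ⟨E, _, _, _, ζ, hζ, hME, hDE⟩ := hbase K hd f hf.2.1 hf.2.2.1
    obtain ⟨ι, hι⟩ := cr4_ext (algebraMap (Spl (tot 2 f)) E) τ
    have hT : Ty (6 * condE 2 f) 3 3 3 (algebraMap (Spl (tot 2 f)) E (cr x y u v)) :=
      ty_map (cr4_ty hn hf (Dvd.dvd.mul_right (by norm_num) _) (dvd_mul_left _ _)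
        hx hy hu hv hxy hxu hxv hyu hyv huv)
    have hq := hcr K H hH f (mem_famE hf) x hx y hy u hu v hv hxy hxu hyv huv
    have hcond : (condE 2 f : ℝ) ≤ Y := by
      refine le_trans ?_ hfY
      exact le_mul_of_one_le_left (Nat.cast_nonneg _) (cr4_discr K)
    have h5 : 1 ≤ (A₀ * Y) ^ A₀ := one_le_pow₀ (one_le_mul_of_one_le_of_one_le h0 hY)
    have hNY : 1 ≤ 6 * Y := by linarith
    have hDE' : |(discr E : ℝ)| ≤ (A₀ * Y) ^ A₀ := by
      refine hDE.trans (pow_le_pow_left₀ (by positivity) ?_ _)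
      exact mul_le_mul_of_nonneg_left hfY (by positivity)
    have hc1 : 1 ≤ condE 2 f := condE_pos 2 f
    rw [← hι]
    refine ⟨E, inferInstance, inferInstance, ι, ζ, algebraMap (Spl (tot 2 f)) E (cr x y u v),
      6 * condE 2 f, hζ, hME, ?_, mul_ne_zero (by omega) (by omega),
      Dvd.dvd.mul_right (by norm_num) _, ?_, hT, rfl, ?_⟩
    · rw [hD]
      exact hDE'.trans (le_mul_of_one_le_left (by linarith) hNY)
    · rw [hD]
      have h6 : ((6 * condE 2 f : ℕ) : ℝ) ≤ 6 * Y := by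
        push_cast
        linarith
      exact h6.trans (le_mul_of_one_le_right (by linarith) h5)
    · exact cr4_quo (algebraMap (Spl (tot 2 f)) E) hq
  refine ⟨hfin.subset hsub, ?_⟩
  have hc1 : ((CRsetE K σ 2 n H Y).ncard : ℝ) ≤ (TSet 3 A₀ D ((C₁ * H) ^ 4) 3 3 3).ncard := by
    exact_mod_cast Set.ncard_le_ncard hsub hfin
  refine (hc1.trans hcard).trans (le_of_eq ?_)
  have hDp : D ^ A = B ^ A * Y ^ (((A₀ : ℝ) + 1) * A) := by
    rw [hDe, Real.mul_rpow (by linarith) (by positivity), ← Real.rpow_natCast Y (A₀ + 1),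
      ← Real.rpow_mul hY0.le]
    push_cast
    rfl
  have hRp : ((C₁ * H) ^ 4) ^ (ε / 4) = C₁ ^ ε * H ^ ε := by
    have hCH0 : 0 ≤ C₁ * H := by linarith
    rw [← Real.mul_rpow (by linarith) (by linarith), ← Real.rpow_natCast (C₁ * H),
      ← Real.rpow_mul hCH0]
    congr 1
    push_cast
    field_simp
  rw [hDp, hRp]
  ring

end FreyG2
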