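import Pool.Agent.Lib.MP_6babc4_nt.G2.Pnt
import Pool.Agent.Lib.MP_6babc4_nt.Cy3.ECr

/-!
# Module Crt: the number of the cross ratios for `N = 2`

`cr_count_two` (`n = 5, 6`). PROOF. As `cr_countE` in Cy3/ECr. `pnt` gives `M₀, A', C₁`; `pset_count M₀` with `ε' = ε / (4 A' + 4)` gives `k`; `pnt` for this `k` gives `M`; `pset_count` gives `A, C`. `S = {s | s⁻¹ ∈ PSet ..}` (finite, the same cardinality: `z ↦ z⁻¹` is a bijection) in `crset_card` (Cy3/EInv):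
for `z = τ (cr x y u v)` in `CRsetE`: `a, b, c` from `pnt`; `crC τ a b c e` is `∞`, `1`, `0` for `e = b, a, c`, and `s⁻¹` for the others, `s = (τ (cr a b c e))⁻¹` (as in `ECr_sub`).
-/

set_option autoImplicit false

open Polynomial NumberField IsDedekindDomain Module

namespace FreyG2

open FreySparse FreyCyc

/-- The cross ratios are functions of the special ones. -/
private lemma crt_sub {d n k M₀ A' M : ℕ} {C₁ : ℝ}
    (hp : ∀ (K : Type) [Field K] [NumberField K], finrank ℚ K = d → ∀ H Y : ℝ, 1 ≤ H → 1 ≤ Y →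
      ∀ f ∈ FamE K 2 n H, |(discr K : ℝ)| * condE 2 f ≤ Y → ∀ τ : Spl (tot 2 f) →+* ℂ,
        ∃ a ∈ bp 2 f, ∃ b ∈ bp 2 f, ∃ c ∈ bp 2 f, a ≠ b ∧ a ≠ c ∧ b ≠ c ∧
          ∀ e ∈ bp 2 f, a ≠ e → b ≠ e → c ≠ e →
            τ (cr a b c e) ∈ PSet k M₀ M ((M * Y) ^ M) ((C₁ * H) ^ A'))
    {K : Type} [Field K] [NumberField K] (hd : finrank ℚ K = d) {H Y : ℝ} (hH : 1 ≤ H)
    (hY : 1 ≤ Y) (σ : K →+* ℂ) :
    CRsetE K σ 2 n H Y ⊆ {z : ℂ | ∃ x y u v : OnePoint ℂ, z = cr x y u v ∧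
      ∀ p ∈ ({x, y, u, v} : Set (OnePoint ℂ)), p = OnePoint.infty ∨ p = ((0 : ℂ) : OnePoint ℂ) ∨
        p = ((1 : ℂ) : OnePoint ℂ) ∨
          ∃ s ∈ (fun z : ℂ => z⁻¹) '' PSet k M₀ M ((M * Y) ^ M) ((C₁ * H) ^ A'),
            p = ((s⁻¹ : ℂ) : OnePoint ℂ) ∨ p = ((1 - s⁻¹ : ℂ) : OnePoint ℂ)} := by
  rintro z ⟨f, hf, hfY, τ, -, x, hx, y, hy, u, hu, v, hv, -, -, -, -, -, -, rfl⟩
  obtain ⟨a, ha, b, hb, c, hc, hab, hac, hbc, hT⟩ := hp K hd H Y hH hY f hf hfY τ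
  have key : ∀ e ∈ bp 2 f, crC τ a b c e = OnePoint.infty ∨
      crC τ a b c e = ((0 : ℂ) : OnePoint ℂ) ∨ crC τ a b c e = ((1 : ℂ) : OnePoint ℂ) ∨
        ∃ s ∈ (fun z : ℂ => z⁻¹) '' PSet k M₀ M ((M * Y) ^ M) ((C₁ * H) ^ A'),
          crC τ a b c e = ((s⁻¹ : ℂ) : OnePoint ℂ) ∨
            crC τ a b c e = ((1 - s⁻¹ : ℂ) : OnePoint ℂ) := by
    intro e he
    by_cases heb : e = b
    · left
      unfold crC
      rw [if_pos heb]
    have hcrC : crC τ a b c e = ((τ (cr a b c e) : ℂ) : OnePoint ℂ) := by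
      unfold crC
      rw [if_neg heb]
    right
    by_cases hea : e = a
    · right
      left
      rw [hcrC, hea]
      have h1 : cr a b c a = 1 := by
        have h3 := dt_ne hac
        have h4 := dt_ne hab.symm
        have h5 : dt a b = -dt b a := by
          unfold dt
          ring
        have h6 : dt c a = -dt a c := by
          unfold dt
          ring
        unfold cr
        rw [h5, h6]
        field_simp
      rw [h1, map_one]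
    by_cases hec : e = c
    · left
      rw [hcrC, hec]
      have h1 : cr a b c c = 0 := by
        have h2 : dt c c = 0 := by
          unfold dt
          ring
        unfold cr
        rw [h2, mul_zero, zero_div]
      rw [h1, map_zero]
    right
    right
    have h1 := hT e he (fun h => hea h.symm) (fun h => heb h.symm) (fun h => hec h.symm)
    refine ⟨(τ (cr a b c e))⁻¹, ⟨_, h1, rfl⟩, Or.inl ?_⟩
    rw [hcrC, inv_inv]
  refine ⟨crC τ a b c x, crC τ a b c y, crC τ a b c u, crC τ a b c v,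
    (crC_eq τ hab hac hbc x y u v).symm, ?_⟩
  rintro p hp
  simp only [Set.mem_insert_iff, Set.mem_singleton_iff] at hp
  rcases hp with rfl | rfl | rfl | rfl
  · exact key x hx
  · exact key y hy
  · exact key u hu
  · exact key v hv

theorem cr_count_two (d n : ℕ) (hn : n = 5 ∨ n = 6) {ε : ℝ} (hε : 0 < ε) :
    ∃ A C : ℝ, 0 < A ∧ 1 ≤ C ∧ ∀ (K : Type) [Field K] [NumberField K], finrank ℚ K = d →
      ∀ σ : K →+* ℂ, ∀ H Y : ℝ, 1 ≤ H → 1 ≤ Y → (CRsetE K σ 2 n H Y).Finite ∧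
        ((CRsetE K σ 2 n H Y).ncard : ℝ) ≤ C * Y ^ A * H ^ ε := by
  obtain ⟨M₀, A', C₁, hC₁, hk⟩ := pnt d n hn
  have hε2 : 0 < ε / (4 * A' + 4) := by positivity
  obtain ⟨k, hM⟩ := pset_count M₀ hε2
  obtain ⟨M, hM1, hp⟩ := hk k
  obtain ⟨A, C, hC, hU⟩ := hM M
  have h2 : (1 : ℝ) ≤ M := by exact_mod_cast hM1
  have hC0 : 0 < C := by linarith
  refine ⟨4 * A * M + 1, 625 * C ^ 4 * (M : ℝ) ^ (4 * A * M) * C₁ ^ ε, by positivity, ?_, ?_⟩
  · refine one_le_mul_of_one_le_of_one_le (one_le_mul_of_one_le_of_one_le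
      (one_le_mul_of_one_le_of_one_le (by norm_num) (one_le_pow₀ hC)) (one_le_pow₀ h2))
      (Real.one_le_rpow hC₁ hε.le)
  intro K _ _ hd σ H Y hH hY
  have hY0 : 0 < Y := by linarith
  have hCH : 1 ≤ C₁ * H := one_le_mul_of_one_le_of_one_le hC₁ hH
  have hMY : 1 ≤ (M : ℝ) * Y := one_le_mul_of_one_le_of_one_le h2 hY
  have hR1 : 1 ≤ (C₁ * H) ^ A' := one_le_pow₀ hCH
  have hD1 : 1 ≤ ((M : ℝ) * Y) ^ M := one_le_pow₀ hMY
  obtain ⟨hfin, hcard⟩ := hU (((M : ℝ) * Y) ^ M) ((C₁ * H) ^ A') hD1 hR1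
  have hsub := crt_sub (fun K _ _ => hp K) hd hH hY σ
  obtain ⟨hfin2, hcard2⟩ := crset_card (hfin.image (fun z : ℂ => z⁻¹))
  refine ⟨hfin2.subset hsub, ?_⟩
  have hc1 := (Set.ncard_le_ncard hsub hfin2).trans hcard2
  have hc0 := Set.ncard_image_le (f := fun z : ℂ => z⁻¹) hfin
  have hc3 := hc1.trans (Nat.pow_le_pow_left (Nat.add_le_add_right
    (Nat.mul_le_mul_left 2 hc0) 3) 4)
  have hc2 : ((CRsetE K σ 2 n H Y).ncard : ℝ) ≤
      (2 * ((PSet k M₀ M (((M : ℝ) * Y) ^ M) ((C₁ * H) ^ A')).ncard : ℝ) + 3) ^ 4 := by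
    exact_mod_cast hc3
  refine hc2.trans ?_
  obtain ⟨V, hV⟩ : ∃ V : ℝ, V = C * (((M : ℝ) * Y) ^ M) ^ A *
      ((C₁ * H) ^ A') ^ (ε / (4 * A' + 4)) := ⟨_, rfl⟩
  rw [← hV] at hcard
  have hV1 : 1 ≤ V := by
    rw [hV]
    exact one_le_mul_of_one_le_of_one_le
      (one_le_mul_of_one_le_of_one_le hC (one_le_pow₀ hD1))
      (Real.one_le_rpow hR1 hε2.le)
  have h5 : (2 * ((PSet k M₀ M (((M : ℝ) * Y) ^ M) ((C₁ * H) ^ A')).ncard : ℝ) + 3) ^ 4 ≤
      (5 * V) ^ 4 := by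
    refine pow_le_pow_left₀ (by positivity) ?_ _
    linarith
  refine h5.trans ?_
  have hCH0 : 0 ≤ C₁ * H := by linarith
  have hRp : (((C₁ * H) ^ A') ^ (ε / (4 * A' + 4))) ^ 4 ≤ C₁ ^ ε * H ^ ε := by
    rw [← Real.mul_rpow (by linarith) (by linarith),
      ← Real.rpow_natCast (((C₁ * H) ^ A') ^ (ε / (4 * A' + 4))) 4,
      ← Real.rpow_mul (by positivity), ← Real.rpow_natCast (C₁ * H), ← Real.rpow_mul hCH0]
    refine Real.rpow_le_rpow_of_exponent_le hCH ?_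
    have h6 : (0 : ℝ) < 4 * A' + 4 := by positivity
    have h7 : (A' : ℝ) * (ε / (4 * A' + 4) * ((4 : ℕ) : ℝ)) = ε * (4 * A') / (4 * A' + 4) := by
      push_cast
      ring
    rw [h7, div_le_iff₀ h6]
    exact mul_le_mul_of_nonneg_left (by linarith) hε.le
  have hDp : ((((M : ℝ) * Y) ^ M) ^ A) ^ 4 ≤
      (M : ℝ) ^ (4 * A * M) * Y ^ ((4 : ℝ) * A * M + 1) := by
    have h6 : ((((M : ℝ) * Y) ^ M) ^ A) ^ 4 = (M : ℝ) ^ (4 * A * M) * Y ^ (4 * A * M) := by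
      rw [← pow_mul, ← pow_mul, mul_pow]
      congr 2 <;> ring
    rw [h6]
    refine mul_le_mul_of_nonneg_left ?_ (by positivity)
    rw [← Real.rpow_natCast Y]
    refine Real.rpow_le_rpow_of_exponent_le hY ?_
    push_cast
    linarith
  calc (5 * V) ^ 4 = 625 * C ^ 4 * ((((M : ℝ) * Y) ^ M) ^ A) ^ 4 *
        (((C₁ * H) ^ A') ^ (ε / (4 * A' + 4))) ^ 4 := by
        rw [hV]
        ring
    _ ≤ 625 * C ^ 4 * ((M : ℝ) ^ (4 * A * M) * Y ^ ((4 : ℝ) * A * M + 1)) * (C₁ ^ ε * H ^ ε) :=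
        mul_le_mul (mul_le_mul_of_nonneg_left hDp (by positivity)) hRp (by positivity)
          (by positivity)
    _ = _ := by ring

end FreyG2
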