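import Pool.Agent.Lib.MP_6babc4_nt.G2.Kmn
import Pool.Agent.Lib.MP_6babc4_nt.G2.Crt
import Pool.Agent.Lib.MP_6babc4_nt.G2.Cr4
import Pool.Agent.Lib.MP_6babc4_nt.Cy3.EFin

/-!
# Module Fn2: Frey's inequality for the cyclic covers and for the curves of genus two

PROOF. `N ≥ 3`: `allFrey` (Cy3/EFin). `N = 2`: `all_of_cr` (Kmn) with the number of the cross ratios from
`cr_count_four` (Cr4: `n = 3, 4`) and `cr_count_two` (Crt: `n = 5, 6`).
-/

set_option autoImplicit false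

open Polynomial NumberField IsDedekindDomain Module

namespace FreyG2

open FreySparse FreyCyc

theorem all_covers (d n N : ℕ) (hn : 3 ≤ n) (h : 3 ≤ N ∨ N = 2 ∧ n ≤ 6) {ε : ℝ} (hε : 0 < ε) :
    ∃ B c : ℝ, 0 < B ∧ ∀ κ : ℝ, 0 < κ → ∀ H : ℝ, 1 ≤ H →
      ∃ (𝒦 : Finset (IntermediateField ℚ (AlgebraicClosure ℚ)))
        (T : ∀ K : IntermediateField ℚ (AlgebraicClosure ℚ), Finset (ℕ → (𝓞 K)[X])),
        (∑ K ∈ 𝒦, ((T K).card : ℝ)) ≤ c * H ^ (B / κ + ε) ∧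
        ∀ (K : IntermediateField ℚ (AlgebraicClosure ℚ)) [NumberField K], finrank ℚ K = d →
          ∀ f ∈ FamE K N n H, ¬ FreyE N κ c f → K ∈ 𝒦 ∧ ∃ g ∈ T K, IsoK N f g := by
  rcases h with hN | ⟨rfl, hn6⟩
  · exact allFrey d n N hN hn hε
  · refine all_of_cr d n 2 le_rfl hn (fun δ hδ => ?_) hε
    by_cases h4 : n ≤ 4
    · exact cr_count_four d n (by omega) hδ
    · exact cr_count_two d n (by omega) hδ

end FreyG2
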