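import Pool.Agent.Lib.MP_6babc4_nt.G2.Gen
import Pool.Agent.Lib.MP_6babc4_nt.G2.Fn2

/-!
# Module Brg: from the cyclic covers with `N = 2` to the curves of genus two

The definitions of Gen are those of Cyc and Cy3 for `N = 2` and the constant function `fun _ => f`.
-/

set_option autoImplicit false

open Polynomial NumberField IsDedekindDomain Module MeasureTheory

namespace FreyTwo

open FreySparse FreyCyc

private lemma brg_Ico : Finset.Ico 1 2 = ({1} : Finset ℕ) := rfl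

private lemma brg_tot {R : Type*} [CommRing R] (f : ℕ → R[X]) : tot 2 f = f 1 := by
  unfold tot
  rw [brg_Ico, Finset.prod_singleton]

private lemma brg_sdeg {R : Type*} [CommRing R] (f : ℕ → R[X]) : sdeg 2 1 f = (f 1).natDegree := by
  unfold sdeg
  rw [brg_Ico, Finset.sum_singleton]
  norm_num

private lemma brg_det (G : ℕ → ℂ[X]) (h : (G 1).natDegree = 5 ∨ (G 1).natDegree = 6) :
    (FreyCyc.gram 2 1 G).det = (FreyAvg.gram 2 (G 1)).det := by
  have h1 : FreyCyc.forms 2 1 G = 2 := by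
    unfold FreyCyc.forms
    rw [brg_sdeg]
    rcases h with h | h <;> rw [h]
  rw [← Matrix.det_submatrix_equiv_self (finCongr h1.symm)]
  congr 1
  ext i j
  rw [Matrix.submatrix_apply]
  unfold FreyCyc.gram FreyAvg.gram
  rw [Matrix.of_apply, Matrix.of_apply]
  congr 1
  apply integral_congr_ae
  refine Filter.Eventually.of_forall fun z => ?_
  simp only [brg_Ico, Finset.prod_singleton]
  norm_num

variable {K : Type*} [Field K] [NumberField K]

private lemma brg_height (f : (𝓞 K)[X]) (h : f.natDegree = 5 ∨ f.natDegree = 6) :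
    FreyCyc.height 2 (fun _ => f) = FreyAvg.height 2 f := by
  unfold FreyCyc.height FreyAvg.height
  congr 1
  refine Finset.sum_congr rfl fun σ _ => ?_
  rw [brg_Ico, Finset.sum_singleton, brg_det]
  · rfl
  · unfold im
    rw [natDegree_map_eq_of_injective]
    · exact h
    · exact σ.injective.comp (FaithfulSMul.algebraMap_injective (𝓞 K) K)

private lemma brg_winf (f : ℕ → (𝓞 K)[X]) (h : (f 1).natDegree = 5 ∨ (f 1).natDegree = 6) :
    (winf 2 f = 1 ∧ (f 1).natDegree = 5) ∨ (winf 2 f = 0 ∧ (f 1).natDegree = 6) := by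
  unfold winf
  rw [brg_sdeg]
  rcases h with h | h <;> rw [h]
  · left
    exact ⟨rfl, rfl⟩
  · right
    exact ⟨rfl, rfl⟩

private lemma brg_bp (f : ℕ → (𝓞 K)[X]) (h1 : f 1 = tot 2 f)
    (h : (f 1).natDegree = 5 ∨ (f 1).natDegree = 6) : FreyCyc.bp 2 f = bp (tot 2 f) := by
  ext z
  unfold FreyCyc.bp bp
  constructor
  · rintro (hz | ⟨hz, hw⟩)
    · exact Or.inl hz
    · refine Or.inr ⟨hz, ?_⟩
      rw [← h1]
      rcases brg_winf f h with ⟨_, h3⟩ | ⟨h2, _⟩
      · exact h3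
      · exact absurd h2 hw
  · rintro (hz | ⟨hz, hw⟩)
    · exact Or.inl hz
    · refine Or.inr ⟨hz, ?_⟩
      rw [← h1] at hw
      rcases brg_winf f h with ⟨h2, _⟩ | ⟨_, h3⟩
      · rw [h2]
        exact one_ne_zero
      · omega

private lemma brg_root (f : ℕ → (𝓞 K)[X]) (h1 : f 1 = tot 2 f) (x : Spl (tot 2 f))
    (hx : x ∈ rts (tot 2 f)) : aeval x (f 1) = 0 := by
  have h2 : aeval x ((tot 2 f).map (algebraMap (𝓞 K) K)) = 0 := hx
  rw [aeval_map_algebraMap] at h2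
  rw [h1]
  exact h2

open Classical in
private lemma brg_wt (f : ℕ → (𝓞 K)[X]) (h1 : f 1 = tot 2 f)
    (h : (f 1).natDegree = 5 ∨ (f 1).natDegree = 6) (z : OnePoint (Spl (tot 2 f)))
    (hz : z ∈ bp (tot 2 f)) : wt 2 f z = 1 := by
  rcases hz with ⟨x, hx, rfl⟩ | ⟨rfl, hd⟩
  · unfold wt
    change (∑ i ∈ Finset.Ico 1 2, if aeval x (f i) = 0 then i else 0) = 1
    rw [brg_Ico, Finset.sum_singleton, if_pos (brg_root f h1 x hx)]
  · change winf 2 f = 1
    rw [← h1] at hd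
    rcases brg_winf f h with ⟨h2, _⟩ | ⟨_, h3⟩
    · exact h2
    · omega

private lemma brg_one {α : Type*} (S : Set α) : ∑ᶠ _z ∈ S, (1 : ℕ) = S.ncard := by
  by_cases h : S.Finite
  · rw [finsum_mem_eq_finite_toFinset_sum _ h, Finset.sum_const, smul_eq_mul, mul_one,
      Set.ncard_eq_toFinset_card S h]
  · rw [Set.Infinite.ncard h]
    apply finsum_mem_eq_zero_of_infinite
    have h1 : S ∩ Function.support (fun _ : α => (1 : ℕ)) = S := by
      ext x
      simp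
    rw [h1]
    exact h

private lemma brg_fits {α : Type*} {w : α → ℕ} {B S : Set α} (hw : ∀ z ∈ B, w z = 1)
    (hS : S ⊆ B) (h1 : ∃ z, z ∈ S) (h2 : ∃ z, z ∈ B \ S) (t : ℤ) :
    Fits 2 w B S t ↔ Odd S.ncard ∧ Even t := by
  have hs : ∑ᶠ z ∈ S, w z = S.ncard := by
    rw [finsum_mem_congr rfl (fun z hz => hw z (hS hz)), brg_one]
  unfold Fits
  rw [hs]
  obtain ⟨z, hz⟩ := h1
  obtain ⟨z', hz'⟩ := h2
  rcases Nat.even_or_odd S.ncard with he | ho
  · have hg : Nat.gcd 2 S.ncard = 2 := Nat.gcd_eq_left he.two_dvd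
    rw [hg]
    constructor
    · rintro ⟨-, h3 | h3⟩
      · have h4 := h3 z hz
        rw [hw z (hS hz)] at h4
        omega
      · have h4 := h3 z' hz'
        rw [hw z' hz'.1] at h4
        omega
    · rintro ⟨h3, -⟩
      exact absurd he (Nat.not_even_iff_odd.2 h3)
  · have hg : Nat.gcd 2 S.ncard = 1 := (Nat.coprime_two_left.2 ho)
    rw [hg]
    constructor
    · rintro ⟨h3, -⟩
      refine ⟨ho, even_iff_two_dvd.2 ?_⟩
      exact_mod_cast h3
    · rintro ⟨-, h3⟩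
      refine ⟨?_, Or.inl fun z _ => one_dvd _⟩
      have h4 := even_iff_two_dvd.1 h3
      exact_mod_cast h4

private lemma brg_gauss (f : ℕ → (𝓞 K)[X]) (h1 : f 1 = tot 2 f)
    (h : (f 1).natDegree = 5 ∨ (f 1).natDegree = 6) (P : HeightOneSpectrum (𝓞 (Spl (tot 2 f))))
    (a b c : Spl (tot 2 f)) (hb : b ∈ rts (tot 2 f)) :
    FreyCyc.gauss 2 f P a b c = gauss (tot 2 f) P a b c := by
  unfold FreyCyc.gauss gauss
  congr 1
  · unfold tw lead
    rw [brg_wt f h1 h _ (Or.inl ⟨b, hb, rfl⟩), pow_one, brg_Ico, Finset.prod_singleton,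
      if_pos (brg_root f h1 b hb), pow_one, h1]
  · rw [brg_bp f h1 h]
    refine finsum_mem_congr rfl fun z hz => ?_
    rw [brg_wt f h1 h z hz.1, Nat.cast_one, one_mul]

private lemma brg_bad (f : ℕ → (𝓞 K)[X]) (F : (𝓞 K)[X]) (hF : tot 2 f = F) (h1 : f 1 = F)
    (h : (f 1).natDegree = 5 ∨ (f 1).natDegree = 6) (v : HeightOneSpectrum (𝓞 K)) :
    BadE 2 f v ↔ Bad F v := by
  subst hF
  unfold BadE Bad
  refine and_congr (by rw [Nat.cast_ofNat]) (or_congr Iff.rfl (exists_congr fun P =>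
    and_congr Iff.rfl (or_congr ?_ ?_)))
  · refine exists_congr fun S => exists_congr fun t => ?_
    rw [brg_bp f h1 h]
    refine and_congr_right fun hS => not_congr ?_
    obtain ⟨hSB, -, -, a, ha, -, -, c, hc, -⟩ := hS
    exact brg_fits (fun z hz => brg_wt f h1 h z hz) hSB ⟨a, ha⟩ ⟨c, hc⟩ t
  · refine exists_congr fun a => and_congr Iff.rfl (exists_congr fun b => ?_)
    refine and_congr_right fun hb => exists_congr fun c => and_congr Iff.rfl ?_
    rw [brg_gauss f h1 h P a b c hb, Nat.cast_ofNat, ← even_iff_two_dvd, Int.not_even_iff_odd]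

private lemma brg_cond (f : (𝓞 K)[X]) (h : f.natDegree = 5 ∨ f.natDegree = 6) :
    condE 2 (fun _ => f) = cond f := by
  unfold condE cond
  refine finprod_congr fun v => ?_
  rw [brg_bad (fun _ => f) f (brg_tot _) rfl h v]

private lemma brg_frey (κ c : ℝ) (f : (𝓞 K)[X]) (h : f.natDegree = 5 ∨ f.natDegree = 6) :
    FreyE 2 κ c (fun _ => f) ↔ Frey κ c f := by
  unfold FreyE Frey
  rw [brg_height f h, brg_cond f h]

private lemma brg_fam {H : ℝ} {n : ℕ} (f : (𝓞 K)[X]) (hf : f ∈ Fam K H) (hn : f.natDegree = n) :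
    (fun _ => f) ∈ FamE K 2 n H := by
  obtain ⟨h0, h2, h3⟩ := hf
  refine ⟨fun i _ k => h2 k, ?_, ?_, ?_⟩
  · rw [brg_tot]
    exact hn
  · rw [brg_tot]
    exact h3
  · intro m _ h4
    have h5 := h4 1 (by decide) (by
      change f.natDegree ≠ 0
      omega)
    exact Nat.dvd_one.1 h5

private lemma brg_form (f : (𝓞 K)[X]) (h : f.natDegree = 5 ∨ f.natDegree = 6) (x y : K) :
    FreyCyc.form 2 (fun _ => f) x y = form f x y := by
  unfold FreyCyc.form form
  rw [brg_Ico, Finset.prod_singleton, pow_one]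
  rcases brg_winf (fun _ => f) h with ⟨h2, h3⟩ | ⟨h2, h3⟩
  · have h3' : f.natDegree = 5 := h3
    rw [h2, h3', pow_one, Finset.sum_range_succ _ 6, coeff_eq_zero_of_natDegree_lt (by omega),
      Finset.mul_sum]
    rw [map_zero, zero_mul, zero_mul, add_zero]
    refine Finset.sum_congr rfl fun k hk => ?_
    have h4 : 6 - k = (5 - k) + 1 := by
      have := Finset.mem_range.1 hk
      omega
    rw [h4, pow_succ]
    ring
  · have h3' : f.natDegree = 6 := h3
    rw [h2, h3', pow_zero, one_mul]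

/-- Two curves isomorphic to the same third one. -/
private lemma brg_iso {f f' : (𝓞 K)[X]} {g : ℕ → (𝓞 K)[X]}
    (hf : f.natDegree = 5 ∨ f.natDegree = 6) (hf' : f'.natDegree = 5 ∨ f'.natDegree = 6)
    (h : IsoK 2 (fun _ => f) g) (h' : IsoK 2 (fun _ => f') g) : Iso f f' := by
  obtain ⟨a, b, c, e, t, hdet, ht, hform⟩ := h
  obtain ⟨a', b', c', e', t', hdet', ht', hform'⟩ := h'
  obtain ⟨D, hD⟩ : ∃ D : K, D = a' * e' - b' * c' := ⟨_, rfl⟩
  rw [← hD] at hdet'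
  refine ⟨(e' * a - b' * c) / D, (e' * b - b' * e) / D, (a' * c - c' * a) / D,
    (a' * e - c' * b) / D, t / t', ?_, div_ne_zero ht ht', fun y z => ?_⟩
  · have h1 : (e' * a - b' * c) / D * ((a' * e - c' * b) / D) -
        (e' * b - b' * e) / D * ((a' * c - c' * a) / D) = (a * e - b * c) / D := by
      rw [div_mul_div_comm, div_mul_div_comm, ← sub_div, div_eq_div_iff (mul_ne_zero hdet' hdet')
        hdet']
      rw [hD]
      ring
    rw [h1]
    exact div_ne_zero hdet hdet'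
  · have h1 := hform' ((e' * a - b' * c) / D * y + (e' * b - b' * e) / D * z)
      ((a' * c - c' * a) / D * y + (a' * e - c' * b) / D * z)
    have h2 : a' * ((e' * a - b' * c) / D * y + (e' * b - b' * e) / D * z) +
        b' * ((a' * c - c' * a) / D * y + (a' * e - c' * b) / D * z) = a * y + b * z := by
      field_simp
      rw [hD]
      ring
    have h3 : c' * ((e' * a - b' * c) / D * y + (e' * b - b' * e) / D * z) +
        e' * ((a' * c - c' * a) / D * y + (a' * e - c' * b) / D * z) = c * y + e * z := by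
      field_simp
      rw [hD]
      ring
    rw [h2, h3, hform y z, brg_form f hf, brg_form f' hf'] at h1
    apply mul_left_cancel₀ (pow_ne_zero 2 ht')
    rw [← h1, div_pow, ← mul_assoc, mul_div_cancel₀ _ (pow_ne_zero 2 ht')]

/-- A finite set of polynomials in place of a finite set of tuples. -/
private lemma brg_set (L : IntermediateField ℚ (AlgebraicClosure ℚ))
    (T : Finset (ℕ → (𝓞 L)[X])) :
    ∃ T' : Finset (𝓞 L)[X], T'.card ≤ T.card ∧ ∀ [NumberField L], ∀ f : (𝓞 L)[X],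
      (f.natDegree = 5 ∨ f.natDegree = 6) → (∃ g ∈ T, IsoK 2 (fun _ => f) g) →
        ∃ g ∈ T', Iso f g := by
  classical
  by_cases hL : NumberField L
  · refine ⟨T.image fun g => if h : ∃ f : (𝓞 L)[X], (f.natDegree = 5 ∨ f.natDegree = 6) ∧
      IsoK 2 (fun _ => f) g then h.choose else 0, Finset.card_image_le, ?_⟩
    intro _ f hf hg
    obtain ⟨g, hgT, hg⟩ := hg
    have h : ∃ f : (𝓞 L)[X], (f.natDegree = 5 ∨ f.natDegree = 6) ∧
      IsoK 2 (fun _ => f) g := ⟨f, hf, hg⟩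
    refine ⟨_, Finset.mem_image_of_mem _ hgT, ?_⟩
    rw [dif_pos h]
    exact brg_iso hf h.choose_spec.1 hg h.choose_spec.2
  · refine ⟨∅, by simp, ?_⟩
    intro h
    exact absurd h hL

/-- **Frey's inequality for almost all curves of genus two.** -/
theorem genus_two (d : ℕ) {ε : ℝ} (hε : 0 < ε) :
    ∃ B c : ℝ, 0 < B ∧ ∀ κ : ℝ, 0 < κ → ∀ H : ℝ, 1 ≤ H →
      ∃ (𝒦 : Finset (IntermediateField ℚ (AlgebraicClosure ℚ)))
        (T : ∀ K : IntermediateField ℚ (AlgebraicClosure ℚ), Finset (𝓞 K)[X]),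
        (∑ K ∈ 𝒦, ((T K).card : ℝ)) ≤ c * H ^ (B / κ + ε) ∧
        ∀ (K : IntermediateField ℚ (AlgebraicClosure ℚ)) [NumberField K], finrank ℚ K = d →
          ∀ f ∈ Fam K H, ¬ Frey κ c f → K ∈ 𝒦 ∧ ∃ g ∈ T K, Iso f g := by
  classical
  obtain ⟨B₅, c₅, hB₅, h₅⟩ := FreyG2.all_covers d 5 2 (by norm_num) (Or.inr ⟨rfl, by norm_num⟩) hε
  obtain ⟨B₆, c₆, hB₆, h₆⟩ := FreyG2.all_covers d 6 2 (by norm_num) (Or.inr ⟨rfl, le_rfl⟩) hε
  refine ⟨B₅ + B₆, 2 * (|c₅| + |c₆|), by positivity, fun κ hκ H hH => ?_⟩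
  obtain ⟨𝒦₅, T₅, hc₅, hT₅⟩ := h₅ κ hκ H hH
  obtain ⟨𝒦₆, T₆, hc₆, hT₆⟩ := h₆ κ hκ H hH
  have hex : ∀ K : IntermediateField ℚ (AlgebraicClosure ℚ), ∃ T' : Finset (𝓞 K)[X],
      T'.card ≤ (if K ∈ 𝒦₅ then (T₅ K).card else 0) + (if K ∈ 𝒦₆ then (T₆ K).card else 0) ∧
      ∀ [NumberField K], ∀ f : (𝓞 K)[X], (f.natDegree = 5 ∨ f.natDegree = 6) →
        ((K ∈ 𝒦₅ ∧ ∃ g ∈ T₅ K, IsoK 2 (fun _ => f) g) ∨
          (K ∈ 𝒦₆ ∧ ∃ g ∈ T₆ K, IsoK 2 (fun _ => f) g)) → ∃ g ∈ T', Iso f g := by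
    intro K
    obtain ⟨T', hT'1, hT'2⟩ := brg_set K
      ((if K ∈ 𝒦₅ then T₅ K else ∅) ∪ (if K ∈ 𝒦₆ then T₆ K else ∅))
    refine ⟨T', hT'1.trans ((Finset.card_union_le _ _).trans (le_of_eq ?_)), ?_⟩
    · split_ifs <;> simp
    · intro _ f hf hg
      refine hT'2 f hf ?_
      rcases hg with ⟨hK, g, hg, hfg⟩ | ⟨hK, g, hg, hfg⟩
      · refine ⟨g, Finset.mem_union_left _ ?_, hfg⟩
        rw [if_pos hK]
        exact hg
      · refine ⟨g, Finset.mem_union_right _ ?_, hfg⟩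
        rw [if_pos hK]
        exact hg
  choose T' hT'1 hT'2 using hex
  have hH0 : 0 < H := by linarith
  have hle : ∀ B c : ℝ, 0 < B → B ≤ B₅ + B₆ → c * H ^ (B / κ + ε) ≤
      |c| * H ^ ((B₅ + B₆) / κ + ε) := by
    intro B c hB hBB
    refine (mul_le_mul_of_nonneg_right (le_abs_self c)
      (Real.rpow_nonneg hH0.le _)).trans (mul_le_mul_of_nonneg_left ?_ (abs_nonneg c))
    refine Real.rpow_le_rpow_of_exponent_le hH ?_
    gcongr
  refine ⟨𝒦₅ ∪ 𝒦₆, T', ?_, fun K _ hd f hf hF => ?_⟩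
  · have h1 : (∑ K ∈ 𝒦₅ ∪ 𝒦₆, ((T' K).card : ℝ)) ≤
        ∑ K ∈ 𝒦₅ ∪ 𝒦₆, ((if K ∈ 𝒦₅ then ((T₅ K).card : ℝ) else 0) +
          (if K ∈ 𝒦₆ then ((T₆ K).card : ℝ) else 0)) := by
      refine Finset.sum_le_sum fun K _ => ?_
      have h2 := hT'1 K
      have h3 : ((T' K).card : ℝ) ≤ (((if K ∈ 𝒦₅ then (T₅ K).card else 0) +
        (if K ∈ 𝒦₆ then (T₆ K).card else 0) : ℕ) : ℝ) := by exact_mod_cast h2
      refine h3.trans (le_of_eq ?_)
      push_cast
      rfl
    rw [Finset.sum_add_distrib, Finset.sum_ite_mem, Finset.sum_ite_mem,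
      Finset.union_inter_cancel_left, Finset.union_inter_cancel_right] at h1
    have h2 := hle B₅ c₅ hB₅ (by linarith)
    have h3 := hle B₆ c₆ hB₆ (by linarith)
    have h4 : 0 ≤ (|c₅| + |c₆|) * H ^ ((B₅ + B₆) / κ + ε) := by positivity
    calc (∑ K ∈ 𝒦₅ ∪ 𝒦₆, ((T' K).card : ℝ)) ≤ _ := h1
      _ ≤ |c₅| * H ^ ((B₅ + B₆) / κ + ε) + |c₆| * H ^ ((B₅ + B₆) / κ + ε) := by linarith
      _ ≤ 2 * (|c₅| + |c₆|) * H ^ ((B₅ + B₆) / κ + ε) := by linarith
  · have h5 : c₅ ≤ 2 * (|c₅| + |c₆|) := by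
      have := le_abs_self c₅
      have := abs_nonneg c₅
      have := abs_nonneg c₆
      linarith
    have h6 : c₆ ≤ 2 * (|c₅| + |c₆|) := by
      have := le_abs_self c₆
      have := abs_nonneg c₅
      have := abs_nonneg c₆
      linarith
    have hF' : ∀ c : ℝ, c ≤ 2 * (|c₅| + |c₆|) → ¬ FreyE 2 κ c (fun _ => f) := by
      intro c hc h7
      rw [brg_frey κ c f hf.1] at h7
      apply hF
      unfold Frey at h7 ⊢
      linarith
    rcases hf.1 with h7 | h7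
    · obtain ⟨h8, h9⟩ := hT₅ K hd (fun _ => f) (brg_fam f hf h7) (hF' _ h5)
      exact ⟨Finset.mem_union_left _ h8, hT'2 K f hf.1 (Or.inl ⟨h8, h9⟩)⟩
    · obtain ⟨h8, h9⟩ := hT₆ K hd (fun _ => f) (brg_fam f hf h7) (hF' _ h6)
      exact ⟨Finset.mem_union_right _ h8, hT'2 K f hf.1 (Or.inr ⟨h8, h9⟩)⟩

end FreyTwo
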