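import Mathlib

/-!
# Module Ctb: algebras of countable dimension; closed cones

PROOF. `alg_of_units`: if the inverses of `f - z`, `z ∈ S`, were linearly independent, `S` would be countable
(`LinearIndependent.cardinal_le_rank`). A relation `∑ c_z (f - z)⁻¹ = 0` over a finite set, multiplied by
`∏ (f - z)`, gives `P(f) = 0` with `P = ∑ c_z ∏_(z' ≠ z) (X - z')`, `P(z) ≠ 0` if `c_z ≠ 0`.
`rank_mv`: `MvPolynomial (Fin n) ℂ` has a countable basis, the quotient map is surjective. `finite_values`: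
if a polynomial `h` omits on the zero set of `I` an uncountable set of values, it takes there only
finitely many: the Nullstellensatz and `alg_of_units` in the quotient by `I`.
`cone_exists`: `coneIdeal φ S` for an infinite set `S`, maximal among these ideals. It is prime (restrict to the
lines: polynomials in one variable). `zero`: otherwise the slice `G = 1` of the cone is bounded, so the
coordinates take finitely many values there; but it contains a multiple of each `φ x`. `ratio`: on the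
slice `q = 1` the function `p` omits all values `z` with `‖z‖ ≠ 1`.
-/

set_option autoImplicit false

open Cardinal

namespace FreyG2

/-- If `f - z` is a unit for all `z` in an uncountable set then `f` is algebraic. -/
theorem alg_of_units {A : Type} [CommRing A] [Algebra ℂ A] (hA : Module.rank ℂ A ≤ ℵ₀) (f : A)
    (S : Set ℂ) (hS : ¬ S.Countable) (h : ∀ z ∈ S, IsUnit (f - algebraMap ℂ A z)) :
    ∃ P : Polynomial ℂ, P ≠ 0 ∧ Polynomial.aeval f P = 0 := by
  classical
  choose g hg using fun z : S => (h z.1 z.2).exists_left_inv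
  by_cases hli : LinearIndependent ℂ g
  · exfalso
    have h1 := hli.cardinal_le_rank
    have h2 : #S ≤ ℵ₀ := h1.trans hA
    exact hS (Cardinal.le_aleph0_iff_set_countable.1 h2)
  · rw [linearIndependent_iff'] at hli
    push Not at hli
    obtain ⟨s, c, hc, z₀, hz₀, hcz⟩ := hli
    refine ⟨∑ z ∈ s, Polynomial.C (c z) * ∏ w ∈ s.erase z, (Polynomial.X - Polynomial.C (w : ℂ)),
      ?_, ?_⟩
    · intro h0
      have h1 := congrArg (Polynomial.eval (z₀ : ℂ)) h0
      rw [Polynomial.eval_finsetSum, Finset.sum_eq_single z₀] at h1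
      · rw [Polynomial.eval_mul, Polynomial.eval_C, Polynomial.eval_prod, Polynomial.eval_zero] at h1
        rcases mul_eq_zero.1 h1 with h2 | h2
        · exact hcz h2
        · rw [Finset.prod_eq_zero_iff] at h2
          obtain ⟨w, hw, hw2⟩ := h2
          rw [Polynomial.eval_sub, Polynomial.eval_X, Polynomial.eval_C, sub_eq_zero] at hw2
          exact (Finset.mem_erase.1 hw).1 (Subtype.ext hw2.symm)
      · intro z hz hne
        rw [Polynomial.eval_mul, Polynomial.eval_prod, Finset.prod_eq_zero (i := z₀), mul_zero]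
        · exact Finset.mem_erase.2 ⟨hne.symm, hz₀⟩
        · rw [Polynomial.eval_sub, Polynomial.eval_X, Polynomial.eval_C, sub_self]
      · intro h2
        exact absurd hz₀ h2
    · have h2 : ∀ z ∈ s, Polynomial.aeval f (Polynomial.C (c z) *
          ∏ w ∈ s.erase z, (Polynomial.X - Polynomial.C (w : ℂ))) =
          (∏ w ∈ s, (f - algebraMap ℂ A w)) * (c z • g z) := by
        intro z hz
        rw [map_mul, Polynomial.aeval_C, map_prod, ← Finset.mul_prod_erase s _ hz]
        simp only [map_sub, Polynomial.aeval_X, Polynomial.aeval_C]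
        rw [Algebra.smul_def]
        have h3 := hg z
        linear_combination (-(algebraMap ℂ A (c z)) * ∏ w ∈ s.erase z, (f - algebraMap ℂ A w)) * h3
      rw [map_sum, Finset.sum_congr rfl h2, ← Finset.mul_sum, hc, mul_zero]

theorem rank_mv (n : ℕ) (I : Ideal (MvPolynomial (Fin n) ℂ)) :
    Module.rank ℂ (MvPolynomial (Fin n) ℂ ⧸ I) ≤ ℵ₀ := by
  refine (LinearMap.rank_le_of_surjective (Ideal.Quotient.mkₐ ℂ I).toLinearMap
    (Ideal.Quotient.mkₐ_surjective ℂ I)).trans ?_
  rw [← (MvPolynomial.basisMonomials (Fin n) ℂ).mk_eq_rank'']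
  exact Cardinal.mk_le_aleph0

/-- The Nullstellensatz: an ideal without zeros. -/
private lemma ctb_top {n : ℕ} (I : Ideal (MvPolynomial (Fin n) ℂ))
    (h : ∀ y : Fin n → ℂ, ∃ f ∈ I, MvPolynomial.eval y f ≠ 0) : I = ⊤ := by
  by_contra hI
  obtain ⟨M, hM, hIM⟩ := Ideal.exists_le_maximal I hI
  obtain ⟨y, hy⟩ := MvPolynomial.isMaximal_iff_eq_vanishingIdeal_singleton.1 hM
  obtain ⟨f, hf, hf0⟩ := h y
  have h1 := hIM hf
  rw [hy, MvPolynomial.mem_vanishingIdeal_singleton_iff] at h1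
  apply hf0
  rw [← h1, MvPolynomial.aeval_def, MvPolynomial.eval₂_eq_eval_map]
  simp

/-- A polynomial that omits uncountably many values on the zero set of `I` is algebraic there. -/
theorem finite_values {n : ℕ} (I : Ideal (MvPolynomial (Fin n) ℂ)) (h : MvPolynomial (Fin n) ℂ)
    (S : Set ℂ) (hS : ¬ S.Countable)
    (hh : ∀ y, (∀ f ∈ I, MvPolynomial.eval y f = 0) → MvPolynomial.eval y h ∉ S) :
    ∃ P : Polynomial ℂ, P ≠ 0 ∧ ∀ y, (∀ f ∈ I, MvPolynomial.eval y f = 0) →
      P.eval (MvPolynomial.eval y h) = 0 := by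
  obtain ⟨P, hP0, hP⟩ := alg_of_units (rank_mv n I) (Ideal.Quotient.mk I h) S hS (by
    intro z hz
    have h1 : I ⊔ Ideal.span {h - MvPolynomial.C z} = ⊤ := by
      apply ctb_top
      intro y
      by_contra hy
      push Not at hy
      refine hh y (fun f hf => hy f (Ideal.mem_sup_left hf)) ?_
      have h2 := hy (h - MvPolynomial.C z)
        (Ideal.mem_sup_right (Ideal.mem_span_singleton_self _))
      rw [map_sub, MvPolynomial.eval_C, sub_eq_zero] at h2
      rw [h2]
      exact hz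
    have h2 : (1 : MvPolynomial (Fin n) ℂ) ∈ I ⊔ Ideal.span {h - MvPolynomial.C z} := by
      rw [h1]
      exact Submodule.mem_top
    obtain ⟨a, ha, b, hb, hab⟩ := Submodule.mem_sup.1 h2
    obtain ⟨c, rfl⟩ := Ideal.mem_span_singleton'.1 hb
    have h3 : Ideal.Quotient.mk I h - algebraMap ℂ (MvPolynomial (Fin n) ℂ ⧸ I) z =
        Ideal.Quotient.mk I (h - MvPolynomial.C z) := by
      rw [map_sub]
      rfl
    rw [h3]
    refine IsUnit.of_mul_eq_one (Ideal.Quotient.mk I c) ?_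
    rw [← map_mul, ← map_one (Ideal.Quotient.mk I), Ideal.Quotient.eq]
    have h4 : (h - MvPolynomial.C z) * c - 1 = -a := by
      rw [← hab]
      ring
    rw [h4]
    exact I.neg_mem ha)
  refine ⟨P, hP0, fun y hy => ?_⟩
  have h1 : Polynomial.aeval h P ∈ I := by
    rw [← Ideal.Quotient.eq_zero_iff_mem]
    have h2 := Polynomial.aeval_algHom_apply (Ideal.Quotient.mkₐ ℂ I) h P
    rw [Ideal.Quotient.mkₐ_eq_mk] at h2
    rw [← h2]
    exact hP
  have h2 := hy _ h1
  have h3 := Polynomial.aeval_algHom_apply (MvPolynomial.aeval y : _ →ₐ[ℂ] ℂ) h P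
  have h4 : ∀ g : MvPolynomial (Fin n) ℂ, MvPolynomial.aeval y g = MvPolynomial.eval y g :=
    fun g => congrArg (fun F => F g) (MvPolynomial.coe_aeval_eq_eval y)
  rw [h4, h4, h2] at h3
  rw [← h3]
  exact congrArg (fun F => F P) (Polynomial.coe_aeval_eq_eval (MvPolynomial.eval y h)).symm

/-- A closed cone with the properties that are used. -/
structure IsCone {B : ℕ} (V : Set (Fin B → ℂ)) : Prop where
  closed : IsClosed V
  smul : ∀ t : ℂ, ∀ y ∈ V, t • y ∈ V
  prime : ∀ f g : MvPolynomial (Fin B) ℂ,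
    (∀ y ∈ V, MvPolynomial.eval y f * MvPolynomial.eval y g = 0) →
      (∀ y ∈ V, MvPolynomial.eval y f = 0) ∨ ∀ y ∈ V, MvPolynomial.eval y g = 0
  zero : ∀ (D : ℕ) (G : MvPolynomial (Fin B) ℂ), G.IsHomogeneous D → D ≠ 0 →
    ∃ y ∈ V, y ≠ 0 ∧ MvPolynomial.eval y G = 0
  ratio : ∀ p q : (Fin B → ℂ) →ₗ[ℂ] ℂ, (∀ y ∈ V, ‖p y‖ = ‖q y‖) → ∃ c : ℂ, ∀ y ∈ V, p y = c * q y

/-- The polynomials that vanish on the lines of the `φ x`, `x ∈ S`. -/
private def coneIdeal {X : Type} {B : ℕ} (φ : X → Fin B → ℂ) (S : Set X) :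
    Ideal (MvPolynomial (Fin B) ℂ) where
  carrier := {f | ∀ x ∈ S, ∀ t : ℂ, MvPolynomial.eval (t • φ x) f = 0}
  add_mem' := by
    intro f g hf hg x hx t
    rw [map_add, hf x hx t, hg x hx t, add_zero]
  zero_mem' := fun x _ t => map_zero _
  smul_mem' := by
    intro c f hf x hx t
    rw [smul_eq_mul, map_mul, hf x hx t, mul_zero]

private lemma mem_coneIdeal {X : Type} {B : ℕ} (φ : X → Fin B → ℂ) (S : Set X)
    (f : MvPolynomial (Fin B) ℂ) :
    f ∈ coneIdeal φ S ↔ ∀ x ∈ S, ∀ t : ℂ, MvPolynomial.eval (t • φ x) f = 0 := Iff.rfl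

/-- The restriction to a line. -/
private noncomputable def line {B : ℕ} (a : Fin B → ℂ) (f : MvPolynomial (Fin B) ℂ) :
    Polynomial ℂ :=
  MvPolynomial.aeval (fun i => Polynomial.C (a i) * Polynomial.X) f

private lemma line_eval {B : ℕ} (a : Fin B → ℂ) (f : MvPolynomial (Fin B) ℂ) (t : ℂ) :
    (line a f).eval t = MvPolynomial.eval (t • a) f := by
  unfold line
  have h1 : (Polynomial.evalRingHom t).comp (MvPolynomial.aeval
      (fun i => Polynomial.C (a i) * Polynomial.X : Fin B → Polynomial ℂ)).toRingHom =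
      (MvPolynomial.eval (t • a)) := by
    apply MvPolynomial.ringHom_ext
    · intro r
      rw [RingHom.comp_apply, AlgHom.toRingHom_eq_coe, RingHom.coe_coe, MvPolynomial.algHom_C,
        MvPolynomial.eval_C]
      exact Polynomial.eval_C
    · intro i
      rw [RingHom.comp_apply, AlgHom.toRingHom_eq_coe, RingHom.coe_coe, MvPolynomial.aeval_X,
        MvPolynomial.eval_X, Polynomial.coe_evalRingHom, Polynomial.eval_mul, Polynomial.eval_C,
        Polynomial.eval_X, Pi.smul_apply, smul_eq_mul, mul_comm]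
  exact congrArg (fun F => F f) h1

private lemma line_zero {B : ℕ} {a : Fin B → ℂ} {f : MvPolynomial (Fin B) ℂ} :
    line a f = 0 ↔ ∀ t : ℂ, MvPolynomial.eval (t • a) f = 0 := by
  constructor
  · intro h t
    rw [← line_eval, h, Polynomial.eval_zero]
  · intro h
    apply Polynomial.funext
    intro t
    rw [line_eval, h t, Polynomial.eval_zero]

private lemma line_mul {B : ℕ} (a : Fin B → ℂ) (f g : MvPolynomial (Fin B) ℂ) :
    line a (f * g) = line a f * line a g := map_mul _ f g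

private lemma cone_max {X : Type} [Infinite X] {B : ℕ} (φ : X → Fin B → ℂ) :
    ∃ S₀ : Set X, S₀.Infinite ∧ ∀ S : Set X, S.Infinite → S ⊆ S₀ →
      ∀ f ∈ coneIdeal φ S, f ∈ coneIdeal φ S₀ := by
  have h1 : IsNoetherian (MvPolynomial (Fin B) ℂ) (MvPolynomial (Fin B) ℂ) :=
    (inferInstance : IsNoetherianRing (MvPolynomial (Fin B) ℂ))
  obtain ⟨M, ⟨S₀, hS₀, rfl⟩, hM⟩ := set_has_maximal_iff_noetherian.2 h1
    {I | ∃ S : Set X, S.Infinite ∧ coneIdeal φ S = I} ⟨_, Set.univ, Set.infinite_univ, rfl⟩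
  refine ⟨S₀, hS₀, fun S hS hSS f hf => ?_⟩
  by_contra hf0
  refine hM _ ⟨S, hS, rfl⟩ (lt_of_le_of_ne ?_ ?_)
  · intro g hg x hx t
    exact hg x (hSS hx) t
  · intro h2
    apply hf0
    rw [h2]
    exact hf

private lemma cone_prime {X : Type} {B : ℕ} (φ : X → Fin B → ℂ) (S₀ : Set X) (hS₀ : S₀.Infinite)
    (hmax : ∀ S : Set X, S.Infinite → S ⊆ S₀ → ∀ f ∈ coneIdeal φ S, f ∈ coneIdeal φ S₀)
    (f g : MvPolynomial (Fin B) ℂ) (h : f * g ∈ coneIdeal φ S₀) :
    f ∈ coneIdeal φ S₀ ∨ g ∈ coneIdeal φ S₀ := by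
  have h1 : S₀ = {x ∈ S₀ | line (φ x) f = 0} ∪ {x ∈ S₀ | line (φ x) g = 0} := by
    ext x
    constructor
    · intro hx
      have h2 : line (φ x) (f * g) = 0 := line_zero.2 (h x hx)
      rw [line_mul] at h2
      rcases mul_eq_zero.1 h2 with h3 | h3
      · exact Or.inl ⟨hx, h3⟩
      · exact Or.inr ⟨hx, h3⟩
    · rintro (hx | hx)
      · exact hx.1
      · exact hx.1
  have h2 := hS₀
  rw [h1, Set.infinite_union] at h2
  rcases h2 with h3 | h3
  · left
    apply hmax _ h3 (fun x hx => hx.1)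
    intro x hx
    exact line_zero.1 hx.2
  · right
    apply hmax _ h3 (fun x hx => hx.1)
    intro x hx
    exact line_zero.1 hx.2

private lemma not_countable_of_isOpen {S : Set ℂ} (h1 : IsOpen S) (h2 : S.Nonempty) :
    ¬ S.Countable := by
  intro h3
  obtain ⟨z, hz, hz2⟩ := (h3.dense_compl ℂ).inter_open_nonempty S h1 h2
  exact hz2 hz

private lemma eval_hom {B D : ℕ} {G : MvPolynomial (Fin B) ℂ} (h : G.IsHomogeneous D) (t : ℂ)
    (y : Fin B → ℂ) : MvPolynomial.eval (t • y) G = t ^ D * MvPolynomial.eval y G := by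
  rw [MvPolynomial.eval_eq, MvPolynomial.eval_eq, Finset.mul_sum]
  apply Finset.sum_congr rfl
  intro d hd
  have hdeg : ∑ i ∈ d.support, d i = D := (h.degree_eq_sum_deg_support hd).symm
  simp only [Pi.smul_apply, smul_eq_mul, mul_pow]
  rw [Finset.prod_mul_distrib, Finset.prod_pow_eq_pow_sum, hdeg]
  ring

/-- The zero set. -/
private def zset {B : ℕ} (J : Ideal (MvPolynomial (Fin B) ℂ)) : Set (Fin B → ℂ) :=
  {y | ∀ f ∈ J, MvPolynomial.eval y f = 0}

private lemma zset_closed {B : ℕ} (J : Ideal (MvPolynomial (Fin B) ℂ)) : IsClosed (zset J) := by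
  have h1 : zset J = ⋂ f ∈ J, {y | MvPolynomial.eval y f = 0} := by
    ext y
    simp [zset]
  rw [h1]
  refine isClosed_biInter fun f _ => ?_
  exact isClosed_eq (MvPolynomial.continuous_eval f) continuous_const

private lemma slice_bound {B D : ℕ} (V : Set (Fin B → ℂ)) (hV : IsClosed V)
    (hs : ∀ t : ℂ, ∀ y ∈ V, t • y ∈ V) (G : MvPolynomial (Fin B) ℂ) (hG : G.IsHomogeneous D)
    (hD : D ≠ 0) (h0 : ∀ y ∈ V, y ≠ 0 → MvPolynomial.eval y G ≠ 0) :
    ∃ M : ℝ, ∀ y ∈ V, MvPolynomial.eval y G = 1 → ‖y‖ ≤ M := by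
  have hK : IsCompact (V ∩ Metric.sphere (0 : Fin B → ℂ) 1) :=
    (isCompact_sphere _ _).inter_left hV
  rcases (V ∩ Metric.sphere (0 : Fin B → ℂ) 1).eq_empty_or_nonempty with he | hne
  · refine ⟨0, fun y hy _ => ?_⟩
    by_contra h1
    have h2 : y ≠ 0 := by
      intro h3
      apply h1
      rw [h3, norm_zero]
    have h3 : ((‖y‖⁻¹ : ℝ) : ℂ) • y ∈ V ∩ Metric.sphere (0 : Fin B → ℂ) 1 := by
      refine ⟨hs _ y hy, ?_⟩
      rw [mem_sphere_zero_iff_norm, norm_smul, Complex.norm_real, norm_inv, norm_norm,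
        inv_mul_cancel₀ (norm_ne_zero_iff.2 h2)]
    rw [he] at h3
    exact h3
  · obtain ⟨w, hw, hmin⟩ := hK.exists_isMinOn hne
      (f := fun y => ‖MvPolynomial.eval y G‖) ((MvPolynomial.continuous_eval G).norm.continuousOn)
    have hw0 : w ≠ 0 := by
      intro h1
      have h2 := hw.2
      rw [mem_sphere_zero_iff_norm, h1, norm_zero] at h2
      exact zero_ne_one h2
    have hc : 0 < ‖MvPolynomial.eval w G‖ := norm_pos_iff.2 (h0 w hw.1 hw0)
    refine ⟨max 1 (‖MvPolynomial.eval w G‖⁻¹), fun y hy hy1 => ?_⟩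
    by_cases h1 : ‖y‖ ≤ 1
    · exact h1.trans (le_max_left _ _)
    · refine le_trans ?_ (le_max_right _ _)
      have h1' : 1 ≤ ‖y‖ := (not_le.1 h1).le
      have hpos : 0 < ‖y‖ := lt_of_lt_of_le one_pos h1'
      have h3 : ((‖y‖⁻¹ : ℝ) : ℂ) • y ∈ V ∩ Metric.sphere (0 : Fin B → ℂ) 1 := by
        refine ⟨hs _ y hy, ?_⟩
        rw [mem_sphere_zero_iff_norm, norm_smul, Complex.norm_real, norm_inv, norm_norm,
          inv_mul_cancel₀ hpos.ne']
      have h4 : ‖MvPolynomial.eval w G‖ ≤ ‖MvPolynomial.eval (((‖y‖⁻¹ : ℝ) : ℂ) • y) G‖ :=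
        hmin h3
      rw [eval_hom hG, hy1, mul_one, norm_pow, Complex.norm_real, norm_inv, norm_norm] at h4
      have h5 : ‖y‖⁻¹ ^ D ≤ ‖y‖⁻¹ := pow_le_of_le_one (inv_nonneg.2 hpos.le)
        (inv_le_one_of_one_le₀ h1') hD
      have h6 := h4.trans h5
      rwa [le_inv_comm₀ hc hpos] at h6

private lemma slice_finite {B D : ℕ} (J : Ideal (MvPolynomial (Fin B) ℂ))
    (hs : ∀ t : ℂ, ∀ y ∈ zset J, t • y ∈ zset J) (G : MvPolynomial (Fin B) ℂ)
    (hG : G.IsHomogeneous D) (hD : D ≠ 0)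
    (h0 : ∀ y ∈ zset J, y ≠ 0 → MvPolynomial.eval y G ≠ 0) :
    {y ∈ zset J | MvPolynomial.eval y G = 1}.Finite := by
  obtain ⟨M, hM⟩ := slice_bound (zset J) (zset_closed J) hs G hG hD h0
  have hI : ∀ y, (∀ f ∈ J ⊔ Ideal.span {G - 1}, MvPolynomial.eval y f = 0) ↔
      y ∈ {y ∈ zset J | MvPolynomial.eval y G = 1} := by
    intro y
    constructor
    · intro h
      refine ⟨fun f hf => h f (Ideal.mem_sup_left hf), ?_⟩
      have h2 := h (G - 1) (Ideal.mem_sup_right (Ideal.mem_span_singleton_self _))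
      rw [map_sub, map_one, sub_eq_zero] at h2
      exact h2
    · rintro ⟨h1, h2⟩ f hf
      obtain ⟨a, ha, b, hb, rfl⟩ := Submodule.mem_sup.1 hf
      obtain ⟨c, rfl⟩ := Ideal.mem_span_singleton'.1 hb
      rw [map_add, h1 a ha, map_mul, map_sub, map_one, h2, sub_self, mul_zero, add_zero]
  have h2 : ∀ i : Fin B, ∃ P : Polynomial ℂ, P ≠ 0 ∧
      ∀ y ∈ {y ∈ zset J | MvPolynomial.eval y G = 1}, P.eval (y i) = 0 := by
    intro i
    obtain ⟨P, hP, hP2⟩ := finite_values (J ⊔ Ideal.span {G - 1}) (MvPolynomial.X i)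
      {z : ℂ | M < ‖z‖} (not_countable_of_isOpen (isOpen_lt continuous_const continuous_norm)
        (by
          refine ⟨((|M| + 1 : ℝ) : ℂ), ?_⟩
          rw [Set.mem_setOf_eq, Complex.norm_real, Real.norm_eq_abs, abs_of_pos (by positivity)]
          exact lt_of_le_of_lt (le_abs_self M) (lt_add_one _))) (by
        intro y hy h3
        have h4 := (hI y).1 hy
        rw [MvPolynomial.eval_X, Set.mem_setOf_eq] at h3
        exact absurd (hM y h4.1 h4.2) (not_le.2 (h3.trans_le (norm_le_pi_norm y i))))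
    refine ⟨P, hP, fun y hy => ?_⟩
    have h3 := hP2 y ((hI y).2 hy)
    rwa [MvPolynomial.eval_X] at h3
  choose P hP0 hP using h2
  refine (Set.Finite.pi' (t := fun i => {z : ℂ | (P i).IsRoot z}) (fun i => ?_)).subset ?_
  · exact Polynomial.finite_setOf_isRoot (hP0 i)
  · intro y hy i
    exact hP i y hy

/-- A linear form as a polynomial. -/
private noncomputable def lpol {B : ℕ} (p : (Fin B → ℂ) →ₗ[ℂ] ℂ) : MvPolynomial (Fin B) ℂ :=
  ∑ i, MvPolynomial.C (p (Pi.single i 1)) * MvPolynomial.X i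

private lemma lpol_eval {B : ℕ} (p : (Fin B → ℂ) →ₗ[ℂ] ℂ) (y : Fin B → ℂ) :
    MvPolynomial.eval y (lpol p) = p y := by
  unfold lpol
  rw [map_sum]
  have h1 : y = ∑ i, y i • (Pi.single i 1 : Fin B → ℂ) := by
    ext j
    rw [Finset.sum_apply, Finset.sum_eq_single j]
    · rw [Pi.smul_apply, Pi.single_eq_same, smul_eq_mul, mul_one]
    · intro k _ hk
      rw [Pi.smul_apply, Pi.single_eq_of_ne' hk, smul_zero]
    · intro h
      exact absurd (Finset.mem_univ j) h
  conv_rhs => rw [h1, map_sum]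
  refine Finset.sum_congr rfl fun i _ => ?_
  rw [map_mul, MvPolynomial.eval_C, MvPolynomial.eval_X, map_smul, smul_eq_mul, mul_comm]

private lemma cone_ratio {B : ℕ} (J : Ideal (MvPolynomial (Fin B) ℂ))
    (hs : ∀ t : ℂ, ∀ y ∈ zset J, t • y ∈ zset J)
    (hprime : ∀ f g : MvPolynomial (Fin B) ℂ,
      (∀ y ∈ zset J, MvPolynomial.eval y f * MvPolynomial.eval y g = 0) →
      (∀ y ∈ zset J, MvPolynomial.eval y f = 0) ∨ ∀ y ∈ zset J, MvPolynomial.eval y g = 0)
    (p q : (Fin B → ℂ) →ₗ[ℂ] ℂ) (hpq : ∀ y ∈ zset J, ‖p y‖ = ‖q y‖) :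
    ∃ c : ℂ, ∀ y ∈ zset J, p y = c * q y := by
  classical
  by_cases hq : ∀ y ∈ zset J, q y = 0
  · refine ⟨0, fun y hy => ?_⟩
    rw [zero_mul, ← norm_eq_zero, hpq y hy, hq y hy, norm_zero]
  push Not at hq
  obtain ⟨y₀, hy₀, hqy₀⟩ := hq
  obtain ⟨P, hP, hP2⟩ := finite_values (J ⊔ Ideal.span {lpol q - 1}) (lpol p)
    {z : ℂ | ‖z‖ ≠ 1} (not_countable_of_isOpen
      (isOpen_ne_fun continuous_norm continuous_const) ⟨0, by
        change ‖(0 : ℂ)‖ ≠ 1
        rw [norm_zero]
        exact zero_ne_one⟩) (by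
      intro y hy h3
      apply h3
      have h1 : y ∈ zset J := fun f hf => hy f (Ideal.mem_sup_left hf)
      have h2 := hy (lpol q - 1) (Ideal.mem_sup_right (Ideal.mem_span_singleton_self _))
      rw [map_sub, map_one, sub_eq_zero, lpol_eval] at h2
      rw [lpol_eval, hpq y h1, h2, norm_one])
  have hroot : ∀ y ∈ zset J, q y ≠ 0 → p y / q y ∈ P.roots.toFinset := by
    intro y hy hqy
    rw [Multiset.mem_toFinset, Polynomial.mem_roots hP]
    have h1 : (q y)⁻¹ • y ∈ zset J := hs _ y hy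
    have h2 := hP2 ((q y)⁻¹ • y) (by
      intro f hf
      obtain ⟨a, ha, b, hb, rfl⟩ := Submodule.mem_sup.1 hf
      obtain ⟨c, rfl⟩ := Ideal.mem_span_singleton'.1 hb
      rw [map_add, h1 a ha, map_mul, map_sub, map_one, lpol_eval, map_smul, smul_eq_mul,
        inv_mul_cancel₀ hqy, sub_self, mul_zero, add_zero])
    rw [lpol_eval, map_smul, smul_eq_mul] at h2
    rw [Polynomial.IsRoot.def, div_eq_inv_mul]
    exact h2
  have hprod : ∀ y ∈ zset J, MvPolynomial.eval y (lpol q) * MvPolynomial.eval y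
      (∏ c ∈ P.roots.toFinset, (lpol p - MvPolynomial.C c * lpol q)) = 0 := by
    intro y hy
    rw [lpol_eval]
    by_cases hqy : q y = 0
    · rw [hqy, zero_mul]
    · rw [map_prod, Finset.prod_eq_zero (hroot y hy hqy), mul_zero]
      rw [map_sub, map_mul, lpol_eval, lpol_eval, MvPolynomial.eval_C, div_mul_cancel₀ _ hqy,
        sub_self]
  have hex : ∀ s : Finset ℂ, (∀ y ∈ zset J, MvPolynomial.eval y
      (∏ c ∈ s, (lpol p - MvPolynomial.C c * lpol q)) = 0) →
      ∃ c : ℂ, ∀ y ∈ zset J, MvPolynomial.eval y (lpol p - MvPolynomial.C c * lpol q) = 0 := by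
    intro s
    induction s using Finset.induction_on with
    | empty =>
      intro h1
      have h2 := h1 y₀ hy₀
      rw [Finset.prod_empty, map_one] at h2
      exact absurd h2 one_ne_zero
    | insert c s hcs ih =>
      intro h1
      rcases hprime _ _ (fun y hy => by
        rw [← map_mul, ← Finset.prod_insert hcs]
        exact h1 y hy) with h2 | h2
      · exact ⟨c, h2⟩
      · exact ih h2
  obtain ⟨c, hc⟩ := hex P.roots.toFinset (by
    rcases hprime _ _ hprod with h1 | h1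
    · have h2 := h1 y₀ hy₀
      rw [lpol_eval] at h2
      exact absurd h2 hqy₀
    · exact h1)
  refine ⟨c, fun y hy => ?_⟩
  have h1 := hc y hy
  rw [map_sub, map_mul, lpol_eval, lpol_eval, MvPolynomial.eval_C, sub_eq_zero] at h1
  exact h1

/-- The cone over an infinite set of points; it contains infinitely many of them. -/
theorem cone_exists_mem {X : Type} [Infinite X] {B : ℕ} (φ : X → Fin B → ℂ)
    (h : ∀ x y, x ≠ y → LinearIndependent ℂ ![φ x, φ y]) :
    ∃ V : Set (Fin B → ℂ), IsCone V ∧ {x | φ x ∈ V}.Infinite ∧ ∀ f : MvPolynomial (Fin B) ℂ,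
      (∀ x, ∀ t : ℂ, MvPolynomial.eval (t • φ x) f = 0) → ∀ y ∈ V, MvPolynomial.eval y f = 0 := by
  obtain ⟨S₀, hS₀, hmax⟩ := cone_max φ
  have hmem : ∀ x ∈ S₀, ∀ t : ℂ, t • φ x ∈ zset (coneIdeal φ S₀) :=
    fun x hx t f hf => hf x hx t
  have hprime : ∀ f g : MvPolynomial (Fin B) ℂ,
      (∀ y ∈ zset (coneIdeal φ S₀), MvPolynomial.eval y f * MvPolynomial.eval y g = 0) →
      (∀ y ∈ zset (coneIdeal φ S₀), MvPolynomial.eval y f = 0) ∨
        ∀ y ∈ zset (coneIdeal φ S₀), MvPolynomial.eval y g = 0 := by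
    intro f g hfg
    have h1 : f * g ∈ coneIdeal φ S₀ := by
      intro x hx t
      rw [map_mul]
      exact hfg _ (hmem x hx t)
    rcases cone_prime φ S₀ hS₀ hmax f g h1 with h2 | h2
    · exact Or.inl fun y hy => hy f h2
    · exact Or.inr fun y hy => hy g h2
  have hsmul : ∀ t : ℂ, ∀ y ∈ zset (coneIdeal φ S₀), t • y ∈ zset (coneIdeal φ S₀) := by
    intro t y hy f hf
    have h1 : ∀ z : Fin B → ℂ, MvPolynomial.eval z (MvPolynomial.aeval
        (fun i => MvPolynomial.C t * MvPolynomial.X i : Fin B → MvPolynomial (Fin B) ℂ) f) =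
        MvPolynomial.eval (t • z) f := by
      intro z
      have h2 : (MvPolynomial.eval z).comp (MvPolynomial.aeval
          (fun i => MvPolynomial.C t * MvPolynomial.X i :
            Fin B → MvPolynomial (Fin B) ℂ)).toRingHom = MvPolynomial.eval (t • z) := by
        apply MvPolynomial.ringHom_ext
        · intro r
          rw [RingHom.comp_apply, AlgHom.toRingHom_eq_coe, RingHom.coe_coe, MvPolynomial.algHom_C,
            MvPolynomial.eval_C]
          exact MvPolynomial.eval_C r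
        · intro i
          rw [RingHom.comp_apply, AlgHom.toRingHom_eq_coe, RingHom.coe_coe, MvPolynomial.aeval_X,
            MvPolynomial.eval_X, map_mul, MvPolynomial.eval_C, MvPolynomial.eval_X,
            Pi.smul_apply, smul_eq_mul]
      exact congrArg (fun F => F f) h2
    rw [← h1]
    apply hy
    intro x hx s
    rw [h1, smul_smul]
    exact hf x hx _
  have hφ0 : ∀ x, φ x ≠ 0 := by
    intro x
    obtain ⟨y, hy⟩ := exists_ne x
    exact (h x y hy.symm).ne_zero 0
  refine ⟨zset (coneIdeal φ S₀), ⟨zset_closed _, hsmul, hprime, ?_, ?_⟩,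
    hS₀.mono fun x hx => ?_, ?_⟩
  · intro D G hG hD
    by_contra hcon
    push Not at hcon
    have hfin := slice_finite (coneIdeal φ S₀) hsmul G hG hD hcon
    have h1 : ∀ x ∈ S₀, ∃ t : ℂ, t ≠ 0 ∧ MvPolynomial.eval (t • φ x) G = 1 := by
      intro x hx
      have h2 : MvPolynomial.eval (φ x) G ≠ 0 := by
        have h3 := hmem x hx 1
        rw [one_smul] at h3
        exact hcon _ h3 (hφ0 x)
      obtain ⟨t, ht⟩ := IsAlgClosed.exists_pow_nat_eq (MvPolynomial.eval (φ x) G)⁻¹
        (Nat.pos_of_ne_zero hD)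
      refine ⟨t, ?_, ?_⟩
      · rintro rfl
        rw [zero_pow hD] at ht
        exact inv_ne_zero h2 ht.symm
      · rw [eval_hom hG, ht, inv_mul_cancel₀ h2]
    choose! t ht0 ht using h1
    have hmaps : Set.MapsTo (fun x => t x • φ x) S₀
        {y ∈ zset (coneIdeal φ S₀) | MvPolynomial.eval y G = 1} :=
      fun x hx => ⟨hmem x hx _, ht x hx⟩
    obtain ⟨x, hx, y, hy, hxy, he⟩ := hS₀.exists_ne_map_eq_of_mapsTo hmaps hfin
    have h2 := h x y hxy
    rw [LinearIndependent.pair_iff] at h2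
    have h3 := (h2 (t x) (-t y) (by
      have h4 : t x • φ x = t y • φ y := he
      rw [h4, neg_smul, add_neg_cancel])).1
    exact ht0 x hx h3
  · intro p q hpq
    exact cone_ratio (coneIdeal φ S₀) hsmul hprime p q hpq
  · have h1 := hmem x hx 1
    rw [one_smul] at h1
    exact h1
  · intro f hf y hy
    exact hy f fun x _ t => hf x t

/-- The cone over an infinite set of points. -/
theorem cone_exists {X : Type} [Infinite X] {B : ℕ} (φ : X → Fin B → ℂ)
    (h : ∀ x y, x ≠ y → LinearIndependent ℂ ![φ x, φ y]) :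
    ∃ V : Set (Fin B → ℂ), IsCone V ∧ ∀ f : MvPolynomial (Fin B) ℂ,
      (∀ x, ∀ t : ℂ, MvPolynomial.eval (t • φ x) f = 0) → ∀ y ∈ V, MvPolynomial.eval y f = 0 := by
  obtain ⟨V, h1, -, h2⟩ := cone_exists_mem φ h
  exact ⟨V, h1, h2⟩

end FreyG2
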