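import Mathlib
import Pool.Agent.Lib.MP_6babc4_nt.Sp.Defs

/-!
# Curves of genus two: definitions for the proof

`u = (A, B, C, D)` is a point of the three dimensional projective space (the moduli space of abelian surfaces
with a level structure). `qf u` are the ten quadratic forms (squares of the theta constants), `st u` four of
them. A `Tree` over `u`: for each word `s` in the finite set `GG` of matrices a vector `v s`, the coordinates of
`v (g :: s)` are square roots of the four forms of `g v s`. `Good P v`: the ten forms have minimal order at `P`,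
up to at most one, whose order is even.
-/

set_option autoImplicit false

open NumberField IsDedekindDomain Module

namespace FreyG2

open FreySparse

section forms

variable {R : Type*} [CommRing R]

/-- The ten quadratic forms. -/
def qf (v : Fin 4 → R) : Fin 10 → R :=
  ![v 0 ^ 2 + v 1 ^ 2 + v 2 ^ 2 + v 3 ^ 2,
    v 0 ^ 2 + v 1 ^ 2 - v 2 ^ 2 - v 3 ^ 2,
    v 0 ^ 2 - v 1 ^ 2 + v 2 ^ 2 - v 3 ^ 2,
    v 0 ^ 2 - v 1 ^ 2 - v 2 ^ 2 + v 3 ^ 2,
    2 * (v 0 * v 1 + v 2 * v 3), 2 * (v 0 * v 1 - v 2 * v 3),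
    2 * (v 0 * v 2 + v 1 * v 3), 2 * (v 0 * v 2 - v 1 * v 3),
    2 * (v 0 * v 3 + v 1 * v 2), 2 * (v 0 * v 3 - v 1 * v 2)]

/-- The four forms of the step. -/
def st (v : Fin 4 → R) : Fin 4 → R := ![qf v 0, qf v 4, qf v 6, qf v 8]

/-- The index set of the finite set of matrices: sign changes, and products of two `2 × 2` matrices. -/
abbrev GG : Type := (Fin 4 → Bool) ⊕ (Fin 6 × Fin 6)

/-- The six `2 × 2` matrices, applied to the vector `(x, y)`. -/
def m6 (ι : R) (j : Fin 6) (x y : R) : R × R :=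
  ![(x, y), (x, -y), (x, ι * y), (x, -(ι * y)), (x + y, x - y), (x + y, y - x)] j

/-- The action: `v` is the `2 × 2` matrix `(v 0, v 1; v 2, v 3)`, the first matrix acts on the columns and
the second one on the rows. -/
def act (ι : R) (g : GG) (v : Fin 4 → R) : Fin 4 → R :=
  match g with
  | Sum.inl e => fun i => if e i then -v i else v i
  | Sum.inr (a, b) =>
    ![(m6 ι b (m6 ι a (v 0) (v 2)).1 (m6 ι a (v 1) (v 3)).1).1,
      (m6 ι b (m6 ι a (v 0) (v 2)).1 (m6 ι a (v 1) (v 3)).1).2,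
      (m6 ι b (m6 ι a (v 0) (v 2)).2 (m6 ι a (v 1) (v 3)).2).1,
      (m6 ι b (m6 ι a (v 0) (v 2)).2 (m6 ι a (v 1) (v 3)).2).2]

/-- A tree of level `k` over `u`. -/
def Tree (ι : R) (k : ℕ) (u : Fin 4 → R) (v : List GG → Fin 4 → R) : Prop :=
  v [] = u ∧ ∀ s : List GG, s.length < k → ∀ g b, v (g :: s) b ^ 2 = st (act ι g (v s)) b

/-- The vectors are not proportional. -/
def NProp (u w : Fin 4 → R) : Prop := ∃ i j, u i * w j ≠ u j * w i

end forms

/-- `P` is a good prime for the vector `v`. -/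
def Good {E : Type*} [Field E] [NumberField E] (P : HeightOneSpectrum (𝓞 E)) (v : Fin 4 → E) :
    Prop :=
  ∃ μ : ℤ, (∀ i, v i ≠ 0 → μ ≤ ord P (v i)) ∧ (∃ i, v i ≠ 0 ∧ ord P (v i) = μ) ∧
    ∃ m₀ : Fin 10, (∀ m, m ≠ m₀ → qf v m ≠ 0 ∧ ord P (qf v m) = 2 * μ) ∧
      (qf v m₀ ≠ 0 → Even (ord P (qf v m₀)))

end FreyG2
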