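import Pool.Agent.Lib.MP_6babc4_nt.G2.Val
import Pool.Agent.Lib.MP_6babc4_nt.Cy3.ECr
import Pool.Agent.Lib.MP_6babc4_nt.Cy3.ETyp

/-!
# Module Fal: a curve `y ^ 2 = f(x)` of genus two at a good prime

`f ∈ FamE K 2 n H` with `n = 5` or `n = 6`: `bp 2 f` has six elements (for `n = 5` the five roots and infinity: `winf 2 f = 1`), all of weight `1`. `pts`: choose `b` and an enumeration `e : Fin 5 → bp` of the other points, put
`α i = cr (e 0) b (e 1) (e i)` (`= dt a b * dt c z / (dt a c * dt b z)` with `a = e 0`, `c = e 1`): so `α 0 = 1`, `α 1 = 0`, the `α i` are distinct, and the cross ratios are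
`cr (e i) (e j) (e k) b = (α i - α j)/(α i - α k)`, `cr (e i) (e j) (e k) (e l) = (α i - α j)(α k - α l)/((α i - α k)(α j - α l))`, and the ones with `b` at another place.
`pattern_pts`: PROOF. Let `v` be not bad, `v` not above `2` and `P` above `v` (for a prime `P` of `Spl` with `2 condE ∉ P`: the prime `v` below is not above `2` and not bad, because the norm of a bad prime divides `condE` and `v` contains its norm: `condE_mem` in Cy3/ECnd).
So every `Split P (bp 2 f) S t` fits. In `pattern_of` the hypotheses say that `e '' S` is a split of thickness `t` (`b ∉ e '' S`; all the cases of two points `c ≠ d` outside, one of them may be `b`; `cr` with two entries exchanged has the same order by the formula for the order: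
write `ord P (cr ..)` with the differences). `Fits 2 wt ..`: `∑ᶠ wt = #S`. If `#S` is even, `gcd 2 #S = 2` would have to divide the weight `1` of an element of `S` or of the complement (which contains `b`): no. So `#S` is odd, `gcd = 1`, `2 / 1 = 2 ∣ t`.
-/

set_option autoImplicit false

open Polynomial NumberField IsDedekindDomain Module

namespace FreyG2

open FreySparse FreyCyc

/-- The five points in the coordinate with the values `1, 0, ∞` at `e 0, e 1, b`. -/
noncomputable def al {F : Type} [Field F] (b : OnePoint F) (e : Fin 5 → OnePoint F) (i : Fin 5) : F :=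
  cr (e 0) b (e 1) (e i)

/-- The branch points of a curve of genus two. -/
theorem pts {K : Type} [Field K] [NumberField K] {n : ℕ} (hn : n = 5 ∨ n = 6) {H : ℝ}
    {f : ℕ → (𝓞 K)[X]} (hf : f ∈ FamE K 2 n H) :
    ∃ (b : OnePoint (Spl (tot 2 f))) (e : Fin 5 → OnePoint (Spl (tot 2 f))),
      Function.Injective e ∧ b ∉ Set.range e ∧ bp 2 f = insert b (Set.range e) ∧
      ∀ z ∈ bp 2 f, wt 2 f z = 1 := by
  obtain ⟨m, w, z, hnm, hm1, hinj, hw, hz, hwz, hsum, -, -⟩ :=
    numbering (N := 2) (by omega : 3 ≤ n) hf.2.1 hf.2.2.1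
  have hw1 : ∀ j < m, w j = 1 := by
    intro j hj
    have := hw j hj
    omega
  have h1 : ∑ j ∈ Finset.range m, w j = m := by
    rw [Finset.sum_congr rfl fun j hj => hw1 j (Finset.mem_range.mp hj), Finset.sum_const,
      Finset.card_range, smul_eq_mul, mul_one]
  rw [h1] at hsum
  have hm : m = 6 := by omega
  subst hm
  refine ⟨z 5, fun i => z i, ?_, ?_, ?_, ?_⟩
  · intro i j hij
    exact Fin.ext (hinj (Set.mem_Iio.mpr (by omega)) (Set.mem_Iio.mpr (by omega)) hij)
  · rintro ⟨i, hi⟩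
    have h2 := hinj (Set.mem_Iio.mpr (by omega)) (Set.mem_Iio.mpr (by omega)) hi
    omega
  · rw [← hz]
    ext x
    constructor
    · rintro ⟨j, hj, rfl⟩
      rw [Set.mem_Iio] at hj
      by_cases h5 : j = 5
      · rw [h5]
        exact Set.mem_insert _ _
      · exact Set.mem_insert_of_mem _ ⟨⟨j, by omega⟩, rfl⟩
    · rintro (rfl | ⟨i, rfl⟩)
      · exact ⟨5, Set.mem_Iio.mpr (by omega), rfl⟩
      · exact ⟨i, Set.mem_Iio.mpr (by omega), rfl⟩
  · intro x hx
    rw [← hz] at hx
    obtain ⟨j, hj, rfl⟩ := hx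
    rw [← hwz j hj]
    exact hw1 j hj

/-- The differences in the coordinate. -/
private theorem fal_sub {F : Type} [Field F] {b : OnePoint F} {e : Fin 5 → OnePoint F}
    (hb : b ∉ Set.range e) (i j : Fin 5) :
    al b e i - al b e j = dt (e 0) b * dt (e 1) b / dt (e 0) (e 1) *
      (dt (e i) (e j) / (dt b (e i) * dt b (e j))) := by
  have hi : dt b (e i) ≠ 0 := dt_ne fun h => hb ⟨i, h.symm⟩
  have hj : dt b (e j) ≠ 0 := dt_ne fun h => hb ⟨j, h.symm⟩
  have h1 : dt (e 1) (e i) * dt b (e j) - dt (e 1) (e j) * dt b (e i) =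
      dt (e 1) b * dt (e i) (e j) := by
    unfold dt
    ring
  have h2 : al b e i - al b e j = dt (e 0) b / dt (e 0) (e 1) *
      ((dt (e 1) (e i) * dt b (e j) - dt (e 1) (e j) * dt b (e i)) /
        (dt b (e i) * dt b (e j))) := by
    unfold al cr
    field_simp
  rw [h2, h1]
  ring

private theorem fal_ne {F : Type} [Field F] {b : OnePoint F} {e : Fin 5 → OnePoint F}
    (he : Function.Injective e) (hb : b ∉ Set.range e) :
    dt (e 0) b * dt (e 1) b / dt (e 0) (e 1) ≠ 0 :=
  div_ne_zero (mul_ne_zero (dt_ne fun h => hb ⟨0, h⟩) (dt_ne fun h => hb ⟨1, h⟩))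
    (dt_ne fun h => absurd (he h) (by decide))

theorem al_inj {F : Type} [Field F] {b : OnePoint F} {e : Fin 5 → OnePoint F}
    (he : Function.Injective e) (hb : b ∉ Set.range e) : Function.Injective (al b e) := by
  intro i j hij
  by_contra hne
  have h1 := fal_sub hb i j
  rw [hij, sub_self] at h1
  have hi : dt b (e i) ≠ 0 := dt_ne fun h => hb ⟨i, h.symm⟩
  have hj : dt b (e j) ≠ 0 := dt_ne fun h => hb ⟨j, h.symm⟩
  have hij' : dt (e i) (e j) ≠ 0 := dt_ne fun h => hne (he h)
  exact mul_ne_zero (fal_ne he hb) (div_ne_zero hij' (mul_ne_zero hi hj)) h1.symm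

theorem al_eq {F : Type} [Field F] {b : OnePoint F} {e : Fin 5 → OnePoint F}
    (he : Function.Injective e) (hb : b ∉ Set.range e) :
    al b e 0 = 1 ∧ al b e 1 = 0 ∧
    (∀ i j k, i ≠ k → cr (e i) (e j) (e k) b = (al b e i - al b e j) / (al b e i - al b e k)) ∧
    ∀ i j k l, i ≠ k → j ≠ l → cr (e i) (e j) (e k) (e l) =
      (al b e i - al b e j) * (al b e k - al b e l) /
        ((al b e i - al b e k) * (al b e j - al b e l)) := by
  have hbi : ∀ i, dt b (e i) ≠ 0 := fun i => dt_ne fun h => hb ⟨i, h.symm⟩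
  have hee : ∀ i j, i ≠ j → dt (e i) (e j) ≠ 0 := fun i j h => dt_ne fun h' => h (he h')
  have hκ := fal_ne he hb
  refine ⟨?_, ?_, ?_, ?_⟩
  · have h1 : dt (e 0) b = -dt b (e 0) := by
      unfold dt
      ring
    have h2 : dt (e 1) (e 0) = -dt (e 0) (e 1) := by
      unfold dt
      ring
    have h3 := hbi 0
    have h4 := hee 0 1 (by decide)
    unfold al cr
    rw [h1, h2]
    field_simp
  · have h1 : dt (e 1) (e 1) = 0 := by
      unfold dt
      ring
    unfold al cr
    rw [h1, mul_zero, zero_div]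
  · intro i j k hik
    have h1 : dt (e k) b = -dt b (e k) := by
      unfold dt
      ring
    have h2 : dt (e j) b = -dt b (e j) := by
      unfold dt
      ring
    rw [fal_sub hb i j, fal_sub hb i k, mul_div_mul_left _ _ hκ]
    have h3 := hbi i
    have h4 := hbi j
    have h5 := hbi k
    have h6 := hee i k hik
    unfold cr
    rw [h1, h2]
    field_simp
  · intro i j k l hik hjl
    rw [fal_sub hb i j, fal_sub hb k l, fal_sub hb i k, fal_sub hb j l]
    have h3 := hbi i
    have h4 := hbi j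
    have h5 := hbi k
    have h6 := hbi l
    have h7 := hee i k hik
    have h8 := hee j l hjl
    unfold cr
    obtain ⟨κ, hκ2⟩ : ∃ κ, κ = dt (e 0) b * dt (e 1) b / dt (e 0) (e 1) := ⟨_, rfl⟩
    rw [← hκ2] at hκ ⊢
    field_simp

private theorem fal_div {F : Type} [Field F] [NumberField F] (P : HeightOneSpectrum (𝓞 F))
    {x y : F} (hx : x ≠ 0) (hy : y ≠ 0) : ord P (x / y) = ord P x - ord P y := by
  have h1 : x = x / y * y := by field_simp
  have h2 := ord_mul P (div_ne_zero hx hy) hy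
  rw [← h1] at h2
  omega

theorem pattern_pts {K : Type} [Field K] [NumberField K] {n : ℕ} (hn : n = 5 ∨ n = 6) {H : ℝ}
    {f : ℕ → (𝓞 K)[X]} (hf : f ∈ FamE K 2 n H) {b : OnePoint (Spl (tot 2 f))}
    {e : Fin 5 → OnePoint (Spl (tot 2 f))} (he : Function.Injective e) (hb : b ∉ Set.range e)
    (hbp : bp 2 f = insert b (Set.range e)) (hwt : ∀ z ∈ bp 2 f, wt 2 f z = 1)
    (P : HeightOneSpectrum (𝓞 (Spl (tot 2 f))))
    (hP : ((2 * condE 2 f : ℕ) : 𝓞 (Spl (tot 2 f))) ∉ P.asIdeal) : Pattern P (al b e) := by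
  have hsep := hf.2.2.1
  -- the splits fit
  have hfit : ∀ S t, Split P (bp 2 f) S t → Fits 2 (wt 2 f) (bp 2 f) S t := by
    intro S t hS
    by_contra hno
    obtain ⟨v, hv⟩ := exists_below (K := K) P
    have hmem : ∀ m : ℕ, m ∣ 2 * condE 2 f → (m : 𝓞 K) ∉ v.asIdeal := by
      intro m hm hmv
      apply hP
      have h5 := (mem_iff_of_above hv (m : 𝓞 K)).mpr hmv
      rw [map_natCast] at h5
      obtain ⟨t, ht⟩ := hm
      rw [ht, Nat.cast_mul]
      exact P.asIdeal.mul_mem_right _ h5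
    have hNv : ((2 : ℕ) : 𝓞 K) ∉ v.asIdeal := hmem 2 (Dvd.intro _ rfl)
    exact hmem (condE 2 f) (Dvd.intro_left _ rfl)
      (condE_mem 2 hsep ⟨hNv, Or.inr ⟨P, hv, Or.inl ⟨S, t, hS, hno⟩⟩⟩)
  have hal := al_inj he hb
  have hne : ∀ i j, i ≠ j → al b e i - al b e j ≠ 0 := fun i j h => sub_ne_zero.mpr fun h' =>
    h (hal h')
  obtain ⟨-, -, hc3, hc4⟩ := al_eq he hb
  have ho3 : ∀ i j k, i ≠ j → i ≠ k → ord P (cr (e i) (e j) (e k) b) =
      ord P (al b e i - al b e j) - ord P (al b e i - al b e k) := by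
    intro i j k hij hik
    rw [hc3 i j k hik, fal_div P (hne i j hij) (hne i k hik)]
  have hsw : ∀ x y z u : OnePoint (Spl (tot 2 f)), cr x y z u = cr y x u z := by
    intro x y z u
    have h1 : dt x y = -dt y x := by
      unfold dt
      ring
    have h2 : dt z u = -dt u z := by
      unfold dt
      ring
    unfold cr
    rw [h1, h2, neg_mul_neg, mul_comm (dt x z)]
  refine pattern_of hal fun S t ht hS2 g1 g2 g3 => ?_
  have hmemS : ∀ k, k ∉ S → e k ∉ e '' (S : Set (Fin 5)) := by
    rintro k hk ⟨k', hk', hkk⟩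
    rw [he hkk] at hk'
    exact hk hk'
  have hbS : b ∉ e '' (S : Set (Fin 5)) := by
    rintro ⟨k, -, hk⟩
    exact hb ⟨k, hk⟩
  have hbB : b ∈ bp 2 f := by
    rw [hbp]
    exact Set.mem_insert _ _
  have heB : ∀ k, e k ∈ bp 2 f := by
    intro k
    rw [hbp]
    exact Set.mem_insert_of_mem _ ⟨k, rfl⟩
  have hsplit : Split P (bp 2 f) (e '' (S : Set (Fin 5))) t := by
    refine ⟨?_, ht, ?_, ?_⟩
    · rintro _ ⟨k, -, rfl⟩
      exact heB k
    · rintro _ ⟨i, hi, rfl⟩ _ ⟨j, hj, rfl⟩ c hc d hd hij hcd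
      have hij' : i ≠ j := fun h => hij (by rw [h])
      obtain ⟨hcB, hcS⟩ := hc
      obtain ⟨hdB, hdS⟩ := hd
      rw [hbp] at hcB hdB
      rcases hcB with rfl | ⟨k, rfl⟩
      · rcases hdB with rfl | ⟨l, rfl⟩
        · exact absurd rfl hcd
        · have hl : l ∉ S := fun h => hdS ⟨l, h, rfl⟩
          have hjl : j ≠ l := fun h => hl (by rw [← h]; exact hj)
          rw [hsw, ho3 j i l hij'.symm hjl]
          exact g1 j hj i hi l hl hij'.symm
      · have hk : k ∉ S := fun h => hcS ⟨k, h, rfl⟩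
        have hik : i ≠ k := fun h => hk (by rw [← h]; exact hi)
        rcases hdB with rfl | ⟨l, rfl⟩
        · rw [ho3 i j k hij' hik]
          exact g1 i hi j hj k hk hij'
        · have hl : l ∉ S := fun h => hdS ⟨l, h, rfl⟩
          have hjl : j ≠ l := fun h => hl (by rw [← h]; exact hj)
          have hkl : k ≠ l := fun h => hcd (by rw [h])
          rw [hc4 i j k l hik hjl, fal_div P (mul_ne_zero (hne i j hij') (hne k l hkl))
            (mul_ne_zero (hne i k hik) (hne j l hjl)), ord_mul P (hne i j hij') (hne k l hkl),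
            ord_mul P (hne i k hik) (hne j l hjl)]
          have h6 := g2 i hi j hj k hk l hl hij' hkl
          omega
    · obtain ⟨i, hi, j, hj, k, hk, hij, hteq⟩ := g3
      have hik : i ≠ k := fun h => hk (by rw [← h]; exact hi)
      refine ⟨e i, ⟨i, hi, rfl⟩, e j, ⟨j, hj, rfl⟩, e k, ⟨heB k, hmemS k hk⟩, b, ⟨hbB, hbS⟩,
        fun h => hij (he h), fun h => hb ⟨k, h⟩, ?_⟩
      rw [ho3 i j k hij hik, hteq]
  obtain ⟨hF1, hF2⟩ := hfit _ _ hsplit
  have hsum : ∑ᶠ z ∈ e '' (S : Set (Fin 5)), wt 2 f z = S.card := by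
    rw [finsum_mem_image he.injOn, finsum_mem_coe_finset,
      Finset.sum_congr rfl fun i _ => hwt (e i) (heB i), Finset.sum_const, smul_eq_mul, mul_one]
  rw [hsum] at hF1 hF2
  have hodd : Odd S.card := by
    by_contra hev
    rw [Nat.not_odd_iff_even] at hev
    have hg : Nat.gcd 2 S.card = 2 := Nat.gcd_eq_left hev.two_dvd
    rw [hg] at hF2
    rcases hF2 with h | h
    · obtain ⟨i, hi⟩ : S.Nonempty := Finset.card_pos.mp (by omega)
      have h7 := h (e i) ⟨i, hi, rfl⟩
      rw [hwt (e i) (heB i)] at h7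
      omega
    · have h7 := h b ⟨hbB, hbS⟩
      rw [hwt b hbB] at h7
      omega
  refine ⟨hodd, ?_⟩
  have hg : Nat.gcd 2 S.card = 1 := by
    rw [← Nat.Coprime]
    exact Nat.coprime_two_left.mpr hodd
  rw [hg] at hF1
  exact even_iff_two_dvd.mpr (by simpa using hF1)

end FreyG2
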