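import Pool.Agent.Lib.MP_6babc4_nt.G2.Rnk

/-!
# Module Fxd: the number of the points for a fixed pair of fields

`primes_list`: PROOF. Bertrand's postulate `T` times (`Nat.exists_prime_lt_and_le_two_mul`), starting from `⌈X⌉`.

`fixed_count`. PROOF. `η = ε / (4 M₀ + 1)`, `t ≥ 1` with `t η > 4`, `k, N` from `bound_B (2 t^4)`. Given `M`: `n` = number of the pairs `(s, b)` with `|s| ≤ k`; `T ∈ ℕ` with
`η T > n M`; `c₁ ≥ 2` a real number with `c₁^(t^5) > (2t⁴)! 8^(2 k t⁴)` and `c₁ ≥ 8^(k η) 2`; `X = c₁ R^η`; `C₂` from `classes k M`. Let `𝒫` be the `T` primes of `primes_list`; they are odd.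
For `u ∈ U` with its tree `v`: the product `Π` of the nonzero `v s b`, `1 ≤ |s| ≤ k`, has norm `1 ≤ |N(Π)| ≤ (8^k R)^(n M) < X^T`; if all `p ∈ 𝒫` divided the integer `N(Π)`, their product, `> X^T`, would
divide it. So some `p ∈ 𝒫` does not divide `N(Π)`: all these `v s b` are coprime to `p` (`a` divides `N(a)`: `Algebra.norm`; `IsCoprime (N a) p` in `ℤ`). For `p` fixed let `X_p` be the type of the `u ∈ U` with this `p`; by `classes` it
has at most `C₂ p^(4 M₀)` classes, and each class has at most `N` elements: `rank_lt` (`p^(t^5) > X^(t^5) = c₁^(t^5) R^(η t^5) ≥ (2t⁴)! (8^k R)^(2t⁴)`) and `bound_B`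
(for `F` with any embedding `ψ`, the vectors `u` mapped to `F`; `NProp` is preserved by the injective map `𝓞 E → F`). Total: `T C₂ (2^(T+1) X)^(4 M₀) N ≤ C R^ε`.
-/

set_option autoImplicit false

open NumberField Module

namespace FreyG2

private theorem fxd_qf_map {R S : Type*} [CommRing R] [CommRing S] (φ : R →+* S) (w : Fin 4 → R)
    (m : Fin 10) : φ (qf w m) = qf (fun i => φ (w i)) m := by
  have h2 : φ 2 = 2 := map_ofNat φ 2
  fin_cases m <;> simp [qf, h2]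

private theorem fxd_st_map {R S : Type*} [CommRing R] [CommRing S] (φ : R →+* S) (w : Fin 4 → R)
    (m : Fin 4) : φ (st w m) = st (fun i => φ (w i)) m := by
  fin_cases m
  · exact fxd_qf_map φ w 0
  · exact fxd_qf_map φ w 4
  · exact fxd_qf_map φ w 6
  · exact fxd_qf_map φ w 8

private theorem fxd_m6_map {R S : Type*} [CommRing R] [CommRing S] (φ : R →+* S) (ι : R)
    (j : Fin 6) (x y : R) :
    (φ (m6 ι j x y).1 = (m6 (φ ι) j (φ x) (φ y)).1) ∧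
      (φ (m6 ι j x y).2 = (m6 (φ ι) j (φ x) (φ y)).2) := by
  fin_cases j <;> simp [m6]

private theorem fxd_act_map {R S : Type*} [CommRing R] [CommRing S] (φ : R →+* S) (ι : R) (g : GG)
    (w : Fin 4 → R) (m : Fin 4) : φ (act ι g w m) = act (φ ι) g (fun i => φ (w i)) m := by
  rcases g with e | ⟨a, b⟩
  · simp only [act]
    split_ifs <;> simp
  · fin_cases m
    · simp only [act, Fin.zero_eta, Matrix.cons_val_zero]
      rw [(fxd_m6_map φ ι b _ _).1, (fxd_m6_map φ ι a _ _).1, (fxd_m6_map φ ι a _ _).1]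
    · simp only [act, Fin.mk_one, Matrix.cons_val_one, Matrix.cons_val_zero]
      rw [(fxd_m6_map φ ι b _ _).2, (fxd_m6_map φ ι a _ _).1, (fxd_m6_map φ ι a _ _).1]
    · simp only [act, Fin.reduceFinMk, Matrix.cons_val]
      rw [(fxd_m6_map φ ι b _ _).1, (fxd_m6_map φ ι a _ _).2, (fxd_m6_map φ ι a _ _).2]
    · simp only [act, Fin.reduceFinMk, Matrix.cons_val]
      rw [(fxd_m6_map φ ι b _ _).2, (fxd_m6_map φ ι a _ _).2, (fxd_m6_map φ ι a _ _).2]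

private theorem fxd_tree_map {R S : Type*} [CommRing R] [CommRing S] (φ : R →+* S) {ι : R} {k : ℕ}
    {u : Fin 4 → R} {v : List GG → Fin 4 → R} (h : Tree ι k u v) :
    Tree (φ ι) k (fun i => φ (u i)) (fun s i => φ (v s i)) := by
  refine ⟨by simp only [h.1], fun s hs g b => ?_⟩
  have h1 : φ (st (act ι g (v s)) b) = st (act (φ ι) g (fun i => φ (v s i))) b := by
    rw [fxd_st_map]
    congr 1
    funext i
    exact fxd_act_map φ ι g (v s) i
  rw [← h1, ← map_pow, h.2 s hs g b]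

private theorem fxd_absNorm {F : Type} [Field F] [NumberField F] (a : 𝓞 F) {R : ℝ}
    (hR : 1 ≤ R) (h : ∀ τ : F →+* ℂ, ‖τ (a : F)‖ ≤ R) {M : ℕ} (hM : finrank ℚ F ≤ M) :
    ((Ideal.absNorm (Ideal.span {a}) : ℕ) : ℝ) ≤ R ^ M := by
  have h1 : ((Algebra.norm ℚ (a : F) : ℚ) : ℂ) = ∏ σ : F →ₐ[ℚ] ℂ, σ (a : F) := by
    have := Algebra.norm_eq_prod_embeddings ℚ ℂ (a : F)
    simpa using this
  have h0 : ((Ideal.absNorm (Ideal.span {a}) : ℕ) : ℝ) = ‖((Algebra.norm ℚ (a : F) : ℚ) : ℂ)‖ := by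
    rw [Ideal.absNorm_span_singleton, ← Algebra.coe_norm_int]
    rw [Nat.cast_natAbs]
    simp
  rw [h0, h1, norm_prod]
  calc ∏ σ : F →ₐ[ℚ] ℂ, ‖σ (a : F)‖ ≤ ∏ _σ : F →ₐ[ℚ] ℂ, R :=
        Finset.prod_le_prod (fun _ _ => norm_nonneg _) (fun σ _ => h σ.toRingHom)
    _ = R ^ finrank ℚ F := by rw [Finset.prod_const, Finset.card_univ, AlgHom.card]
    _ ≤ R ^ M := pow_le_pow_right₀ hR hM

private theorem fxd_coprime {F : Type} [Field F] [NumberField F] (a : 𝓞 F) {p : ℕ}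
    (hp : p.Prime) (h : ¬ p ∣ Ideal.absNorm (Ideal.span {a})) : IsCoprime a (p : 𝓞 F) := by
  have h1 : Nat.Coprime (Ideal.absNorm (Ideal.span {a})) p :=
    ((Nat.Prime.coprime_iff_not_dvd hp).mpr h).symm
  have h2 : IsCoprime ((Ideal.absNorm (Ideal.span {a}) : ℕ) : ℤ) (p : ℤ) :=
    Nat.isCoprime_iff_coprime.mpr h1
  have h3 : IsCoprime ((Ideal.absNorm (Ideal.span {a}) : ℕ) : 𝓞 F) (p : 𝓞 F) := by
    have := h2.map (Int.castRingHom (𝓞 F))
    simpa using this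
  have h4 : a ∣ ((Ideal.absNorm (Ideal.span {a}) : ℕ) : 𝓞 F) :=
    Ideal.mem_span_singleton.mp (Ideal.absNorm_mem _)
  exact h3.of_isCoprime_of_dvd_left h4

private theorem fxd_prime {F : Type} [Field F] [NumberField F] {β : Type} (S : Finset β)
    (a : β → 𝓞 F) {R : ℝ} (hR : 1 ≤ R) (h : ∀ i ∈ S, ∀ τ : F →+* ℂ, ‖τ (a i : F)‖ ≤ R) {M : ℕ}
    (hM : finrank ℚ F ≤ M) (P : Finset ℕ) {X : ℝ} (hX : 0 ≤ X)
    (hP : ∀ p ∈ P, p.Prime ∧ X < p) (hbig : R ^ (M * S.card) < X ^ P.card) :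
    ∃ p ∈ P, ∀ i ∈ S, a i = 0 ∨ IsCoprime (a i) (p : 𝓞 F) := by
  classical
  by_contra hcon
  push Not at hcon
  set S' := S.filter (fun i => a i ≠ 0) with hS'
  set N : ℕ := ∏ i ∈ S', Ideal.absNorm (Ideal.span {a i}) with hN
  have hN0 : N ≠ 0 := by
    rw [hN, Finset.prod_ne_zero_iff]
    intro i hi
    rw [Ne, Ideal.absNorm_eq_zero_iff, Ideal.span_singleton_eq_bot]
    exact (Finset.mem_filter.mp hi).2
  have hdvd : ∀ p ∈ P, p ∣ N := by
    intro p hp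
    obtain ⟨i, hi, h0, hnc⟩ := hcon p hp
    by_contra hnd
    refine hnc (fxd_coprime (a i) (hP p hp).1 fun hd => hnd ?_)
    exact hd.trans (Finset.dvd_prod_of_mem _ (Finset.mem_filter.mpr ⟨hi, h0⟩))
  have hprod : ∏ p ∈ P, p ∣ N :=
    Finset.prod_primes_dvd N (fun p hp => (hP p hp).1.prime) hdvd
  have hle : ∏ p ∈ P, p ≤ N := Nat.le_of_dvd (Nat.pos_of_ne_zero hN0) hprod
  have h1 : X ^ P.card ≤ ((∏ p ∈ P, p : ℕ) : ℝ) := by
    rw [← Finset.prod_const, Nat.cast_prod]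
    exact Finset.prod_le_prod (fun _ _ => hX) (fun p hp => (hP p hp).2.le)
  have h2 : (N : ℝ) ≤ R ^ (M * S.card) := by
    rw [hN, Nat.cast_prod]
    calc ∏ i ∈ S', ((Ideal.absNorm (Ideal.span {a i}) : ℕ) : ℝ) ≤ ∏ _i ∈ S', R ^ M :=
          Finset.prod_le_prod (fun _ _ => Nat.cast_nonneg _)
            (fun i hi => fxd_absNorm (a i) hR (h i (Finset.mem_filter.mp hi).1) hM)
      _ = R ^ (M * S'.card) := by rw [Finset.prod_const, ← pow_mul]
      _ ≤ R ^ (M * S.card) :=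
          pow_le_pow_right₀ hR (Nat.mul_le_mul_left _ (Finset.card_filter_le _ _))
  have h3 : ((∏ p ∈ P, p : ℕ) : ℝ) ≤ N := by exact_mod_cast hle
  linarith

private theorem fxd_one {k t N C₂ : ℕ}
    (hN : ∀ (F X : Type) [Field F] [Fintype X] (_ψ : F →+* ℂ) (ι : F),
      ι ^ 2 = -1 → ∀ (u : X → Fin 4 → F) (v : X → List GG → Fin 4 → F),
        (∀ x, Tree ι k (u x) (v x)) → (∀ x y, x ≠ y → NProp (u x) (u y)) →
          RankLt k (2 * t ^ 4) v → Fintype.card X ≤ N)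
    {M : ℕ} (hC₂ : ∀ (E F : Type) [Field E] [NumberField E] [Field F]
      [NumberField F] [Algebra E F], finrank ℚ F ≤ M → ∀ p : ℕ, p.Prime → p ≠ 2 →
        ∀ (ι : 𝓞 F) (X : Type) (u : X → Fin 4 → 𝓞 E) (v : X → List GG → Fin 4 → 𝓞 F),
          (∀ x, Tree ι k (fun i => algebraMap (𝓞 E) (𝓞 F) (u x i)) (v x)) →
          (∀ x s b, s ≠ [] → s.length ≤ k → v x s b = 0 ∨ IsCoprime (v x s b) (p : 𝓞 F)) →
          ∃ (α : Type) (_ : Fintype α) (cls : X → α),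
            Fintype.card α ≤ C₂ * p ^ (4 * finrank ℚ E) ∧
            ∀ x y, cls x = cls y → ∀ s b, s.length ≤ k → (p : 𝓞 F) ∣ v x s b - v y s b)
    (E F : Type) [Field E] [NumberField E] [Field F] [NumberField F] [Algebra E F]
    (hF : finrank ℚ F ≤ M) {p : ℕ} (hp : p.Prime) (hp2 : p ≠ 2) {ι : 𝓞 F} (hι : ι ^ 2 = -1)
    (X : Type) [Fintype X] (u : X → Fin 4 → 𝓞 E) (v : X → List GG → Fin 4 → 𝓞 F)
    (hu : ∀ x y, x ≠ y → NProp (u x) (u y))
    (hv : ∀ x, Tree ι k (fun i => algebraMap (𝓞 E) (𝓞 F) (u x i)) (v x))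
    (hn : ∀ x s b, s ≠ [] → s.length ≤ k → v x s b = 0 ∨ IsCoprime (v x s b) (p : 𝓞 F))
    {R : ℝ} (hR : ∀ x s b, s.length ≤ k → ∀ τ : F →+* ℂ, ‖τ (v x s b : F)‖ ≤ R)
    (hbig : ((2 * t ^ 4).factorial : ℝ) * R ^ (2 * t ^ 4) < (p : ℝ) ^ (t ^ 5)) :
    Fintype.card X ≤ N * (C₂ * p ^ (4 * finrank ℚ E)) := by
  classical
  obtain ⟨α, hαf, cls, hα, hcl⟩ := hC₂ E F hF p hp hp2 ι X u v hv hn
  have hfib : ∀ c ∈ (Finset.univ : Finset α),
      ((Finset.univ : Finset X).filter (fun x => cls x = c)).card ≤ N := by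
    intro c _
    rw [← Fintype.card_subtype]
    obtain ⟨ψ⟩ : Nonempty (F →+* ℂ) := inferInstance
    have hrk := rank_lt (X := {x : X // cls x = c}) hp hp2
      (fun x => fun i => algebraMap (𝓞 E) (𝓞 F) (u x.1 i)) (fun x => v x.1)
      (fun x => hv x.1) (fun x y s b hs => hcl x.1 y.1 (x.2.trans y.2.symm) s b hs)
      (fun x s b h1 h2 => hn x.1 s b h1 h2) (fun x s b h1 => hR x.1 s b h1) hbig
    refine hN F {x : X // cls x = c} ψ (ι : F) ?_
      (fun x => fun i => ((algebraMap (𝓞 E) (𝓞 F) (u x.1 i) : 𝓞 F) : F))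
      (fun x s b => (v x.1 s b : F)) (fun x => ?_) (fun x y hxy => ?_) hrk
    · have := congrArg (algebraMap (𝓞 F) F) hι
      simpa using this
    · exact fxd_tree_map (algebraMap (𝓞 F) F) (hv x.1)
    · obtain ⟨i, j, hij⟩ := hu x.1 y.1 (fun h => hxy (Subtype.ext h))
      refine ⟨i, j, fun h => hij ?_⟩
      have hinj1 : Function.Injective (algebraMap (𝓞 F) F) := RingOfIntegers.coe_injective
      have hinj2 : Function.Injective (algebraMap (𝓞 E) (𝓞 F)) :=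
        FaithfulSMul.algebraMap_injective (𝓞 E) (𝓞 F)
      apply hinj2
      apply hinj1
      rw [map_mul, map_mul, map_mul, map_mul]
      exact h
  have h1 := Finset.card_le_mul_card_image_of_maps_to (f := cls) (s := (Finset.univ : Finset X))
    (t := (Finset.univ : Finset α)) (fun _ _ => Finset.mem_univ _) N hfib
  rw [Finset.card_univ, Finset.card_univ] at h1
  exact h1.trans (Nat.mul_le_mul_left _ hα)

theorem primes_list (T : ℕ) (X : ℝ) (hX : 2 ≤ X) : ∃ P : Finset ℕ, P.card = T ∧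
    ∀ p ∈ P, p.Prime ∧ X < p ∧ (p : ℝ) ≤ 2 ^ (T + 1) * X := by
  induction T with
  | zero => exact ⟨∅, rfl, by simp⟩
  | succ T ih =>
    obtain ⟨P, hP, hp⟩ := ih
    have hpow : (1 : ℝ) ≤ 2 ^ (T + 1) := one_le_pow₀ (by norm_num)
    have hY : X ≤ 2 ^ (T + 1) * X := by nlinarith
    have h1 : 1 ≤ (2 : ℝ) ^ (T + 1) * X := by linarith
    have hn0 : ⌊(2 : ℝ) ^ (T + 1) * X⌋₊ ≠ 0 := (Nat.floor_pos.mpr h1).ne'
    obtain ⟨p, hpp, hlt, hle⟩ := Nat.exists_prime_lt_and_le_two_mul _ hn0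
    have hlt' : (2 : ℝ) ^ (T + 1) * X < p := Nat.lt_of_floor_lt hlt
    have hle' : (p : ℝ) ≤ 2 * (2 ^ (T + 1) * X) := by
      calc (p : ℝ) ≤ ((2 * ⌊(2 : ℝ) ^ (T + 1) * X⌋₊ : ℕ) : ℝ) := by exact_mod_cast hle
        _ = 2 * (⌊(2 : ℝ) ^ (T + 1) * X⌋₊ : ℝ) := by push_cast; ring
        _ ≤ 2 * (2 ^ (T + 1) * X) := by
            have := Nat.floor_le (a := (2 : ℝ) ^ (T + 1) * X) (by linarith)
            linarith
    have hnot : p ∉ P := fun h => absurd (hp p h).2.2 (not_le.mpr hlt')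
    refine ⟨insert p P, by rw [Finset.card_insert_of_notMem hnot, hP], ?_⟩
    intro q hq
    rcases Finset.mem_insert.mp hq with rfl | hq
    · exact ⟨hpp, lt_of_le_of_lt hY hlt', by rw [pow_succ 2 (T + 1)]; linarith⟩
    · obtain ⟨a, b, c⟩ := hp q hq
      refine ⟨a, b, c.trans ?_⟩
      rw [pow_succ (2 : ℝ) (T + 1)]
      nlinarith

theorem fixed_count (M₀ : ℕ) {ε : ℝ} (hε : 0 < ε) : ∃ k : ℕ, ∀ M : ℕ, ∃ C : ℝ, 1 ≤ C ∧
    ∀ (E F : Type) [Field E] [NumberField E] [Field F] [NumberField F] [Algebra E F],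
      finrank ℚ E ≤ M₀ → finrank ℚ F ≤ M → ∀ ι : 𝓞 F, ι ^ 2 = -1 → ∀ R : ℝ, 1 ≤ R →
        ∀ U : Finset (Fin 4 → 𝓞 E), (∀ u ∈ U, ∀ w ∈ U, u ≠ w → NProp u w) →
          (∀ u ∈ U, ∃ v : List GG → Fin 4 → 𝓞 F,
            Tree ι k (fun i => algebraMap (𝓞 E) (𝓞 F) (u i)) v ∧
            ∀ s b, s.length ≤ k → ∀ τ : F →+* ℂ, ‖τ (v s b : F)‖ ≤ 8 ^ k * R) →
          (U.card : ℝ) ≤ C * R ^ ε := by
  classical
  set η : ℝ := ε / (4 * M₀ + 1) with hη
  have hηpos : 0 < η := by positivity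
  obtain ⟨t₀, ht₀⟩ := exists_nat_gt (2 / η)
  set t : ℕ := t₀ + 1 with ht
  have ht2 : 2 ≤ η * t := by
    have h1 : 2 / η < t := by
      refine ht₀.trans ?_
      rw [ht]; push_cast; linarith
    rw [div_lt_iff₀ hηpos] at h1
    linarith
  obtain ⟨k, N, hN⟩ := bound_B (2 * t ^ 4)
  refine ⟨k, fun M => ?_⟩
  obtain ⟨C₂, hC₂⟩ := classes k M
  have hfin : ({q : List GG | q.length ≤ k}).Finite := List.finite_length_le _ k
  set S : Finset (List GG × Fin 4) :=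
    (hfin.toFinset.filter (fun s => s ≠ [])) ×ˢ (Finset.univ : Finset (Fin 4)) with hS
  have hSmem : ∀ s b, ((s, b) ∈ S ↔ (s.length ≤ k ∧ s ≠ [])) := by
    intro s b
    rw [hS, Finset.mem_product, Finset.mem_filter, Set.Finite.mem_toFinset]
    simp
  obtain ⟨T₀, hT₀⟩ := exists_nat_gt ((M * S.card : ℕ) / η : ℝ)
  set T : ℕ := T₀ + M * S.card + 1 with hT
  have hT1 : 1 ≤ T := by omega
  have hT2 : M * S.card ≤ T := by omega
  have hT3 : ((M * S.card : ℕ) : ℝ) ≤ η * T := by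
    rw [div_lt_iff₀ hηpos] at hT₀
    have : (T₀ : ℝ) ≤ T := by rw [hT]; exact_mod_cast (by omega : T₀ ≤ T₀ + M * S.card + 1)
    nlinarith
  set f : ℝ := ((2 * t ^ 4).factorial : ℝ) with hf
  have hf1 : 1 ≤ f := by
    rw [hf]; exact_mod_cast Nat.succ_le_of_lt (Nat.factorial_pos _)
  set c₁ : ℝ := 2 * 8 ^ k * (f * (8 ^ k) ^ (2 * t ^ 4)) with hc₁
  have h8k : (1 : ℝ) ≤ 8 ^ k := one_le_pow₀ (by norm_num)
  have h8kt : (1 : ℝ) ≤ (8 ^ k) ^ (2 * t ^ 4) := one_le_pow₀ h8k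
  have hfk : (1 : ℝ) ≤ f * (8 ^ k) ^ (2 * t ^ 4) := one_le_mul_of_one_le_of_one_le hf1 h8kt
  have hc2 : 2 * 8 ^ k ≤ c₁ := by
    rw [hc₁]
    have : (0 : ℝ) ≤ 2 * 8 ^ k := by positivity
    nlinarith
  have hcf : f * (8 ^ k) ^ (2 * t ^ 4) ≤ c₁ := by
    rw [hc₁]
    have : (1 : ℝ) ≤ 2 * 8 ^ k := by linarith
    nlinarith
  have hc22 : 2 ≤ c₁ := by linarith
  set C : ℝ := 1 + N * (C₂ * (2 ^ (T + 1) * c₁) ^ (4 * M₀)) * T with hC
  refine ⟨C, ?_, ?_⟩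
  · rw [hC]
    have : (0 : ℝ) ≤ N * (C₂ * (2 ^ (T + 1) * c₁) ^ (4 * M₀)) * T := by positivity
    linarith
  intro E F _ _ _ _ _ hE hF ι hι R hR U hU hUv
  set Rη : ℝ := R ^ η with hRη
  have hRη1 : 1 ≤ Rη := Real.one_le_rpow hR hηpos.le
  set X : ℝ := c₁ * Rη with hX
  have hX2 : 2 ≤ X := by
    rw [hX]
    nlinarith
  obtain ⟨P, hPc, hP⟩ := primes_list T X hX2
  have hR8 : (1 : ℝ) ≤ 8 ^ k * R := one_le_mul_of_one_le_of_one_le h8k hR
  -- first inequality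
  have hpowη : ∀ m n : ℕ, (m : ℝ) ≤ η * n → R ^ m ≤ Rη ^ n := by
    intro m n hmn
    rw [hRη, ← Real.rpow_mul_natCast (by linarith), ← Real.rpow_natCast]
    exact Real.rpow_le_rpow_of_exponent_le hR hmn
  have hbig1 : (8 ^ k * R) ^ (M * S.card) < X ^ P.card := by
    rw [hPc, hX, mul_pow, mul_pow]
    have h1 : R ^ (M * S.card) ≤ Rη ^ T := hpowη _ _ hT3
    have h2 : ((8 : ℝ) ^ k) ^ (M * S.card) < c₁ ^ T := by
      calc ((8 : ℝ) ^ k) ^ (M * S.card) ≤ (8 ^ k) ^ T := pow_le_pow_right₀ h8k hT2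
        _ < c₁ ^ T := by
            apply pow_lt_pow_left₀ _ (by positivity) (by omega)
            linarith
    have h3 : (0 : ℝ) < R ^ (M * S.card) := by positivity
    calc ((8 : ℝ) ^ k) ^ (M * S.card) * R ^ (M * S.card) < c₁ ^ T * R ^ (M * S.card) :=
          mul_lt_mul_of_pos_right h2 h3
      _ ≤ c₁ ^ T * Rη ^ T := mul_le_mul_of_nonneg_left h1 (by positivity)
  have hbig2 : ∀ p ∈ P, f * (8 ^ k * R) ^ (2 * t ^ 4) < (p : ℝ) ^ (t ^ 5) := by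
    intro p hp
    have ht5 : t ^ 5 ≠ 0 := pow_ne_zero _ (by omega)
    have h1 : R ^ (2 * t ^ 4) ≤ Rη ^ (t ^ 5) := by
      apply hpowη
      push_cast
      have h4 : (0 : ℝ) ≤ (t : ℝ) ^ 4 := by positivity
      nlinarith
    have h2 : f * (8 ^ k) ^ (2 * t ^ 4) ≤ c₁ ^ (t ^ 5) :=
      hcf.trans (le_self_pow₀ (by linarith) ht5)
    calc f * (8 ^ k * R) ^ (2 * t ^ 4) = f * (8 ^ k) ^ (2 * t ^ 4) * R ^ (2 * t ^ 4) := by
          rw [mul_pow]; ring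
      _ ≤ c₁ ^ (t ^ 5) * Rη ^ (t ^ 5) := mul_le_mul h2 h1 (by positivity) (by positivity)
      _ = X ^ (t ^ 5) := (mul_pow c₁ Rη _).symm
      _ < (p : ℝ) ^ (t ^ 5) := pow_lt_pow_left₀ (hP p hp).2.1 (by linarith) ht5
  -- the trees and the primes
  choose v hvT hvR using fun u : {u // u ∈ U} => hUv u.1 u.2
  have hex : ∀ u : {u // u ∈ U}, ∃ p ∈ P, ∀ i ∈ S,
      v u i.1 i.2 = 0 ∨ IsCoprime (v u i.1 i.2) (p : 𝓞 F) := by
    intro u
    refine fxd_prime S (fun i => v u i.1 i.2) hR8 (fun i hi τ => ?_) hF P (by linarith : 0 ≤ X)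
      (fun p hp => ⟨(hP p hp).1, (hP p hp).2.1⟩) hbig1
    exact hvR u i.1 i.2 ((hSmem i.1 i.2).mp hi).1 τ
  choose pc hpcP hpc using hex
  set Q : ℕ := ⌊2 ^ (T + 1) * X⌋₊ with hQ
  have hXT : (1 : ℝ) ≤ 2 ^ (T + 1) * X := by
    have : (1 : ℝ) ≤ 2 ^ (T + 1) := one_le_pow₀ (by norm_num)
    nlinarith
  have hQ1 : 1 ≤ Q := Nat.le_floor (by exact_mod_cast hXT)
  have hfib : ∀ p ∈ P, ((Finset.univ : Finset {u // u ∈ U}).filter (fun x => pc x = p)).card ≤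
      N * (C₂ * Q ^ (4 * M₀)) := by
    intro p hp
    rw [← Fintype.card_subtype]
    have hpp := (hP p hp).1
    have hp2 : p ≠ 2 := by
      intro h
      have := (hP p hp).2.1
      rw [h] at this
      push_cast at this
      linarith
    have h1 := fxd_one hN hC₂ E F hF hpp hp2 hι {x : {u // u ∈ U} // pc x = p}
      (fun x => x.1.1) (fun x => v x.1)
      (fun x y hxy => hU x.1.1 x.1.2 y.1.1 y.1.2 (fun h => hxy (Subtype.ext (Subtype.ext h))))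
      (fun x => hvT x.1) (fun x s b hs hsk => by
        have h2 := hpc x.1 (s, b) ((hSmem s b).mpr ⟨hsk, hs⟩)
        rw [x.2] at h2
        exact h2)
      (fun x s b hs τ => hvR x.1 s b hs τ) (hbig2 p hp)
    refine h1.trans (Nat.mul_le_mul_left _ (Nat.mul_le_mul_left _ ?_))
    have hpQ : p ≤ Q := Nat.le_floor (hP p hp).2.2
    calc p ^ (4 * finrank ℚ E) ≤ Q ^ (4 * finrank ℚ E) := Nat.pow_le_pow_left hpQ _
      _ ≤ Q ^ (4 * M₀) := Nat.pow_le_pow_right hQ1 (by omega)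
  have hcard := Finset.card_le_mul_card_image_of_maps_to (f := pc)
    (s := (Finset.univ : Finset {u // u ∈ U})) (t := P) (fun x _ => hpcP x) _ hfib
  rw [Finset.card_univ, Fintype.card_coe, hPc] at hcard
  have hcardR : (U.card : ℝ) ≤ N * (C₂ * (Q : ℝ) ^ (4 * M₀)) * T := by exact_mod_cast hcard
  have hQR : (Q : ℝ) ^ (4 * M₀) ≤ (2 ^ (T + 1) * c₁) ^ (4 * M₀) * R ^ ε := by
    have h1 : (Q : ℝ) ≤ 2 ^ (T + 1) * X := Nat.floor_le (by linarith)
    calc (Q : ℝ) ^ (4 * M₀) ≤ (2 ^ (T + 1) * X) ^ (4 * M₀) :=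
          pow_le_pow_left₀ (by positivity) h1 _
      _ = (2 ^ (T + 1) * c₁) ^ (4 * M₀) * Rη ^ (4 * M₀) := by rw [hX]; rw [← mul_pow]; ring
      _ ≤ (2 ^ (T + 1) * c₁) ^ (4 * M₀) * R ^ ε := by
          apply mul_le_mul_of_nonneg_left _ (by positivity)
          rw [hRη, ← Real.rpow_mul_natCast (by linarith)]
          apply Real.rpow_le_rpow_of_exponent_le hR
          rw [hη]
          push_cast
          rw [div_mul_eq_mul_div, div_le_iff₀ (by positivity)]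
          nlinarith
  have hRε : 0 ≤ R ^ ε := by positivity
  calc (U.card : ℝ) ≤ N * (C₂ * (Q : ℝ) ^ (4 * M₀)) * T := hcardR
    _ ≤ N * (C₂ * ((2 ^ (T + 1) * c₁) ^ (4 * M₀) * R ^ ε)) * T := by gcongr
    _ = (N * (C₂ * (2 ^ (T + 1) * c₁) ^ (4 * M₀)) * T) * R ^ ε := by ring
    _ ≤ C * R ^ ε := by
        apply mul_le_mul_of_nonneg_right _ hRε
        rw [hC]
        linarith

end FreyG2
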