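import Pool.Agent.Lib.MP_6babc4_nt.Cy3.EDef

/-!
# Frey's inequality for the curves of genus two: definitions

`K` is a number field, `f` a polynomial of degree `5` or `6` over the ring of integers `𝓞 K`, without multiple
roots; the curve is `y ^ 2 = f(x)`. Every curve of genus two over `K` is of this form.

* `FreyAvg.Box K H`: the elements of `𝓞 K` all of whose conjugates have absolute value at most `H`.
* `FreyAvg.height 2 f`: minus `1 / (2 [K : ℚ])` times the sum over the embeddings `σ : K → ℂ` of
  `log |det G(σ f)|`, `G` the Gram matrix of the forms `dx / (2 y)`, `x dx / (2 y)`.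
* From `Sp/Defs.lean`: `FreySparse.Spl f` is the splitting field of `f` over `K`, `rts f` the set of the roots
  there, `ord P x` the order of `x` at the prime `P`, `Above v P`: `P` lies above `v`, `Ramified f v`: `v`
  is ramified in `Spl f`.
* From `Cyc/Defs.lean` and `Cy3/EDef.lean`: `FreyCyc.cr a b c d = (a - b) (c - d) / ((a - c) (b - d))` is the
  cross ratio of four points of the projective line; `FreyCyc.Split P B S t`: the sets `S` and `B \ S` are
  the two sides of an edge of thickness `t` of the stable tree of the points `B` at the prime `P`.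
-/

set_option autoImplicit false

open Polynomial NumberField IsDedekindDomain Module

namespace FreyTwo

open FreySparse FreyCyc

variable {K : Type*} [Field K] [NumberField K]

/-- The polynomials of degree `5` or `6` over `𝓞 K`, without multiple roots, with coefficients in `Box K H`:
the curves `y ^ 2 = f(x)` of genus two. -/
def Fam (K : Type*) [Field K] [NumberField K] (H : ℝ) : Set (𝓞 K)[X] :=
  {f | (f.natDegree = 5 ∨ f.natDegree = 6) ∧ (∀ i, f.coeff i ∈ FreyAvg.Box K H) ∧
    (f.map (algebraMap (𝓞 K) K)).Separable}

/-- The six branch points: the roots of `f` and, if the degree is `5`, infinity. -/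
def bp (f : (𝓞 K)[X]) : Set (OnePoint (Spl f)) :=
  {z | (∃ x ∈ rts f, z = (x : OnePoint (Spl f))) ∨ (z = OnePoint.infty ∧ f.natDegree = 5)}

/-- For three roots `a, b, c`: in the coordinate `X` that takes the values `1, ∞, 0` at `a, b, c` and the
value `cr a b c z` at `z`, the curve is `y ^ 2 = u ∏ (X - cr a b c z)`, the product over the branch points
`z ≠ b`, with `u = f'(b) (a - b) (c - b) / (a - c)`. This is the order at `P` of the right hand side (the
minimum of the orders of the coefficients). -/
noncomputable def gauss (f : (𝓞 K)[X]) (P : HeightOneSpectrum (𝓞 (Spl f))) (a b c : Spl f) : ℤ :=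
  ord P (aeval b (derivative f) * ((a - b) * (c - b) / (a - c))) +
    ∑ᶠ z ∈ bp f \ {(b : OnePoint (Spl f))}, min 0 (ord P (cr (a : OnePoint (Spl f)) b c z))

/-- The primes `v`, not above `2`, at which the Jacobian of `y ^ 2 = f(x)` has bad reduction: `v` is ramified in
the splitting field, or for some prime `P` above `v` some edge of the stable tree of the six branch points
does not have three points on each side and an even thickness, or `gauss f P a b c` is odd for some three roots.
(If neither is the case the curve reduces to a curve of genus two, or to two elliptic curves that meet in a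
point.) -/
def Bad (f : (𝓞 K)[X]) (v : HeightOneSpectrum (𝓞 K)) : Prop :=
  (2 : 𝓞 K) ∉ v.asIdeal ∧
    (Ramified f v ∨ ∃ P : HeightOneSpectrum (𝓞 (Spl f)), Above v P ∧
      ((∃ (S : Set (OnePoint (Spl f))) (t : ℤ), Split P (bp f) S t ∧ ¬ (Odd S.ncard ∧ Even t)) ∨
      ∃ a ∈ rts f, ∃ b ∈ rts f, ∃ c ∈ rts f, a ≠ b ∧ a ≠ c ∧ b ≠ c ∧ Odd (gauss f P a b c)))

/-- The product of the norms of the bad primes. -/
noncomputable def cond (f : (𝓞 K)[X]) : ℕ :=
  ∏ᶠ (v : HeightOneSpectrum (𝓞 K)) (_ : Bad f v), Ideal.absNorm v.asIdeal

/-- Frey's inequality for `f` with the constants `κ` and `c`. -/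
def Frey (κ c : ℝ) (f : (𝓞 K)[X]) : Prop :=
  FreyAvg.height 2 f ≤ κ * Real.log (|(NumberField.discr K : ℝ)| * cond f) + c

/-- The binary form of degree `6` with the coefficients of `f`. -/
noncomputable def form (f : (𝓞 K)[X]) (x y : K) : K :=
  ∑ k ∈ Finset.range 7, algebraMap (𝓞 K) K (f.coeff k) * x ^ k * y ^ (6 - k)

/-- The curves `w ^ 2 = form f x y` and `w ^ 2 = form g x y` of genus two are isomorphic over `K`, by a map
`(x, y, w) ↦ (a x + b y, c x + e y, t w)`. -/
def Iso (f g : (𝓞 K)[X]) : Prop :=
  ∃ a b c e t : K, a * e - b * c ≠ 0 ∧ t ≠ 0 ∧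
    ∀ x y : K, form g (a * x + b * y) (c * x + e * y) = t ^ 2 * form f x y

end FreyTwo
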