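import Pool.Agent.Lib.MP_6babc4_nt.G2.Nbd
import Pool.Agent.Lib.MP_6babc4_nt.Cyc.Tow

/-!
# Module Goo: good primes

PROOF. Scale by `z` with `ord P z = -μ` (`exists_ord` in Cyc/Kum): `μ = 0`, `v` is integral at `P`, one coordinate is a unit.
`good_even`: `ord P (st v b)` is `2 μ` or even. `good_act`: `qf_act` and `ord P (2 ^ e * ι ^ j) = 0`; the coordinates: `act_inv`
(and that `act ι g v` is integral at `P`). `good_step`: reduction modulo `P` (the residue field of the valuation ring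
of `P`, or `𝓞 E / P` after multiplication by denominators): `nb` there gives `m₀'`; `v'` has a unit coordinate (otherwise
all of `st v` would be `≡ 0`, but at most one form vanishes). Evenness: if `m₀' < 4` it is a square (`qf_sq`), otherwise
`qf_pr`: the other form of the pair is a unit, and both forms of `v` on the right have even order. `good_map`: `ord_algebraMap` (Cyc/Tow).
-/

set_option autoImplicit false

open NumberField IsDedekindDomain Module

namespace FreyG2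

open FreySparse FreyCyc

variable {E : Type} [Field E] [NumberField E]

private theorem val_le {P : HeightOneSpectrum (𝓞 E)} {x : E} (hx : x ≠ 0) :
    0 ≤ ord P x ↔ P.valuation E x ≤ 1 := by
  have h := WithZero.log_le_log (x := P.valuation E x) (y := 1)
    ((Valuation.ne_zero_iff _).2 hx) one_ne_zero
  rw [WithZero.log_one] at h
  unfold ord
  rw [← h, neg_nonneg]

private theorem val_eq {P : HeightOneSpectrum (𝓞 E)} {x : E} (hx : x ≠ 0) :
    ord P x = 0 ↔ P.valuation E x = 1 := by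
  unfold ord
  rw [neg_eq_zero]
  constructor
  · intro h
    rw [← WithZero.exp_log ((Valuation.ne_zero_iff (P.valuation E)).2 hx), h, WithZero.exp_zero]
  · intro h
    rw [h, WithZero.log_one]

/-- the ring of the elements integral at `P` -/
private noncomputable abbrev VR (P : HeightOneSpectrum (𝓞 E)) : ValuationSubring E :=
  (P.valuation E).valuationSubring

/-- its residue field -/
private abbrev KR (P : HeightOneSpectrum (𝓞 E)) : Type := IsLocalRing.ResidueField (VR P)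

/-- reduction -/
private noncomputable abbrev rd (P : HeightOneSpectrum (𝓞 E)) : VR P →+* KR P :=
  IsLocalRing.residue (VR P)

private theorem mem_vr {P : HeightOneSpectrum (𝓞 E)} {x : E} (h : x ≠ 0 → 0 ≤ ord P x) :
    x ∈ VR P := by
  rw [Valuation.mem_valuationSubring_iff]
  by_cases hx : x = 0
  · rw [hx, map_zero]
    exact zero_le_one
  · exact (val_le hx).1 (h hx)

private theorem ord_of_mem {P : HeightOneSpectrum (𝓞 E)} {x : E} (h : x ∈ VR P) (hx : x ≠ 0) :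
    0 ≤ ord P x := (val_le hx).2 ((Valuation.mem_valuationSubring_iff _ _).1 h)

private theorem rd_ne {P : HeightOneSpectrum (𝓞 E)} (x : VR P) :
    rd P x ≠ 0 ↔ (x : E) ≠ 0 ∧ ord P (x : E) = 0 := by
  rw [IsLocalRing.residue_ne_zero_iff_isUnit,
    (Valuation.valuationSubring.integers (P.valuation E)).isUnit_iff_valuation_eq_one]
  show P.valuation E (x : E) = 1 ↔ _
  constructor
  · intro h
    have hx : (x : E) ≠ 0 := by
      intro h0
      rw [h0, map_zero] at h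
      exact zero_ne_one h
    exact ⟨hx, (val_eq hx).2 h⟩
  · rintro ⟨hx, h⟩
    exact (val_eq hx).1 h

private theorem ord_two {P : HeightOneSpectrum (𝓞 E)} (h2 : (2 : 𝓞 E) ∉ P.asIdeal) :
    ord P (2 : E) = 0 := by
  have h0 : (2 : 𝓞 E) ≠ 0 := two_ne_zero
  have h1 := (ord_pos_iff P h0).not.2 h2
  have h3 := ord_nonneg P (2 : 𝓞 E)
  rw [map_ofNat] at h1 h3
  omega

private theorem ord_iota {P : HeightOneSpectrum (𝓞 E)} {ι : E} (hι : ι ^ 2 = -1) :
    ι ≠ 0 ∧ ord P ι = 0 := by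
  have h0 : ι ≠ 0 := by
    rintro rfl
    have h1 : (1 : E) = 0 := by linear_combination hι
    exact one_ne_zero h1
  refine ⟨h0, ?_⟩
  have h1 := ord_pow P h0 2
  rw [hι, ord_neg, ord_one] at h1
  push_cast at h1
  omega

/-- a good vector with minimal order zero -/
private def G0 (P : HeightOneSpectrum (𝓞 E)) (v : Fin 4 → E) : Prop :=
  (∀ i, v i ≠ 0 → 0 ≤ ord P (v i)) ∧ (∃ i, v i ≠ 0 ∧ ord P (v i) = 0) ∧
    ∃ m₀ : Fin 10, (∀ m, m ≠ m₀ → qf v m ≠ 0 ∧ ord P (qf v m) = 0) ∧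
      (qf v m₀ ≠ 0 → Even (ord P (qf v m₀)))

private theorem ord_scale {P : HeightOneSpectrum (𝓞 E)} {z : E} (hz : z ≠ 0) {v : Fin 4 → E}
    {m : Fin 10} (hm : qf v m ≠ 0) :
    ord P (qf (fun i => z * v i) m) = 2 * ord P z + ord P (qf v m) := by
  rw [qf_smul, ord_mul P (pow_ne_zero 2 hz) hm, ord_pow P hz]
  push_cast
  rfl

private theorem qf_scale_ne {z : E} (hz : z ≠ 0) {v : Fin 4 → E}
    {m : Fin 10} : qf (fun i => z * v i) m ≠ 0 ↔ qf v m ≠ 0 := by
  rw [qf_smul]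
  constructor
  · exact right_ne_zero_of_mul
  · exact mul_ne_zero (pow_ne_zero 2 hz)

private theorem good_to {P : HeightOneSpectrum (𝓞 E)} {v : Fin 4 → E} (h : Good P v) :
    ∃ z : E, z ≠ 0 ∧ G0 P (fun i => z * v i) := by
  obtain ⟨μ, h1, ⟨i, hi, hi2⟩, m₀, h3, h4⟩ := h
  obtain ⟨z, hz, hzo⟩ := exists_ord P (-μ)
  refine ⟨z, hz, ?_, ⟨i, mul_ne_zero hz hi, ?_⟩, m₀, ?_, ?_⟩
  · intro k hk
    have hvk : v k ≠ 0 := right_ne_zero_of_mul hk
    have h5 := h1 k hvk
    show 0 ≤ ord P (z * v k)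
    rw [ord_mul P hz hvk, hzo]
    omega
  · show ord P (z * v i) = 0
    rw [ord_mul P hz hi, hzo, hi2]
    omega
  · intro m hm
    obtain ⟨h5, h6⟩ := h3 m hm
    refine ⟨(qf_scale_ne hz).2 h5, ?_⟩
    rw [ord_scale hz h5, hzo, h6]
    omega
  · intro h5
    have h6 := (qf_scale_ne hz).1 h5
    obtain ⟨k, hk⟩ := h4 h6
    rw [ord_scale hz h6, hzo, hk]
    exact ⟨k - μ, by omega⟩

private theorem good_of {P : HeightOneSpectrum (𝓞 E)} {v : Fin 4 → E} {z : E} (hz : z ≠ 0)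
    (h : G0 P (fun i => z * v i)) : Good P v := by
  obtain ⟨h1, ⟨i, hi, hi2⟩, m₀, h3, h4⟩ := h
  refine ⟨-ord P z, ?_, ⟨i, right_ne_zero_of_mul hi, ?_⟩, m₀, ?_, ?_⟩
  · intro k hk
    have h5 : 0 ≤ ord P (z * v k) := h1 k (mul_ne_zero hz hk)
    rw [ord_mul P hz hk] at h5
    omega
  · have h5 : ord P (z * v i) = 0 := hi2
    rw [ord_mul P hz (right_ne_zero_of_mul hi)] at h5
    omega
  · intro m hm
    obtain ⟨h5, h6⟩ := h3 m hm
    have h7 := (qf_scale_ne hz).1 h5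
    rw [ord_scale hz h7] at h6
    exact ⟨h7, by omega⟩
  · intro h5
    obtain ⟨k, hk⟩ := h4 ((qf_scale_ne hz).2 h5)
    rw [ord_scale hz h5] at hk
    exact ⟨k - ord P z, by omega⟩

private theorem m6_smul (ι z : E) (j : Fin 6) (x y : E) :
    m6 ι j (z * x) (z * y) = (z * (m6 ι j x y).1, z * (m6 ι j x y).2) := by
  fin_cases j
  · rfl
  · show (z * x, -(z * y)) = (z * x, z * -y)
    congr 1; ring
  · show (z * x, ι * (z * y)) = (z * x, z * (ι * y))
    congr 1; ring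
  · show (z * x, -(ι * (z * y))) = (z * x, z * -(ι * y))
    congr 1; ring
  · show (z * x + z * y, z * x - z * y) = (z * (x + y), z * (x - y))
    congr 1 <;> ring
  · show (z * x + z * y, z * y - z * x) = (z * (x + y), z * (y - x))
    congr 1 <;> ring

private theorem act_smul (ι z : E) (g : GG) (v : Fin 4 → E) (i : Fin 4) :
    act ι g (fun i => z * v i) i = z * act ι g v i := by
  rcases g with e | ⟨a, b⟩
  · show (if e i then -(z * v i) else z * v i) = z * (if e i then -v i else v i)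
    split
    · ring
    · rfl
  · fin_cases i
    · show (m6 ι b (m6 ι a (z * v 0) (z * v 2)).1 (m6 ι a (z * v 1) (z * v 3)).1).1 =
        z * (m6 ι b (m6 ι a (v 0) (v 2)).1 (m6 ι a (v 1) (v 3)).1).1
      rw [m6_smul, m6_smul, m6_smul]
    · show (m6 ι b (m6 ι a (z * v 0) (z * v 2)).1 (m6 ι a (z * v 1) (z * v 3)).1).2 =
        z * (m6 ι b (m6 ι a (v 0) (v 2)).1 (m6 ι a (v 1) (v 3)).1).2
      rw [m6_smul, m6_smul, m6_smul]
    · show (m6 ι b (m6 ι a (z * v 0) (z * v 2)).2 (m6 ι a (z * v 1) (z * v 3)).2).1 =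
        z * (m6 ι b (m6 ι a (v 0) (v 2)).2 (m6 ι a (v 1) (v 3)).2).1
      rw [m6_smul, m6_smul, m6_smul]
    · show (m6 ι b (m6 ι a (z * v 0) (z * v 2)).2 (m6 ι a (z * v 1) (z * v 3)).2).2 =
        z * (m6 ι b (m6 ι a (v 0) (v 2)).2 (m6 ι a (v 1) (v 3)).2).2
      rw [m6_smul, m6_smul, m6_smul]

private theorem two_kr {P : HeightOneSpectrum (𝓞 E)} (h2 : (2 : 𝓞 E) ∉ P.asIdeal) :
    (2 : KR P) ≠ 0 := by
  have h := (rd_ne (P := P) 2).2 ⟨two_ne_zero, ord_two h2⟩
  rwa [map_ofNat] at h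

/-- The elements whose square roots are taken have even order at the good primes. -/
theorem good_even {P : HeightOneSpectrum (𝓞 E)} {v : Fin 4 → E} (h : Good P v) (b : Fin 4)
    (hb : st v b ≠ 0) : Even (ord P (st v b)) := by
  obtain ⟨μ, -, -, m₀, h3, h4⟩ := h
  have key : ∀ m : Fin 10, qf v m ≠ 0 → Even (ord P (qf v m)) := by
    intro m hm
    by_cases hmm : m = m₀
    · rw [hmm] at hm ⊢
      exact h4 hm
    · rw [(h3 m hmm).2]
      exact even_two_mul μ
  have hb4 : st v b = qf v (![0, 4, 6, 8] b) := by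
    fin_cases b <;> rfl
  rw [hb4] at hb ⊢
  exact key _ hb

private theorem g0_act {P : HeightOneSpectrum (𝓞 E)} (h2 : (2 : 𝓞 E) ∉ P.asIdeal) {ι : E}
    (hι : ι ^ 2 = -1) {v : Fin 4 → E} (h : G0 P v) (g : GG) : G0 P (act ι g v) := by
  obtain ⟨h1, ⟨i, hi, hi2⟩, m₀, h3, h4⟩ := h
  obtain ⟨hι0, hιo⟩ := ord_iota (P := P) hι
  obtain ⟨W, hW⟩ : ∃ W : Fin 4 → VR P, ∀ i, ((W i : VR P) : E) = v i :=
    ⟨fun i => ⟨v i, mem_vr (h1 i)⟩, fun i => rfl⟩
  obtain ⟨I, hI⟩ : ∃ I : VR P, ((I : VR P) : E) = ι := ⟨⟨ι, mem_vr (fun _ => hιo.ge)⟩, rfl⟩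
  have hI2 : I ^ 2 = -1 := by
    apply Subtype.ext
    show ((I : VR P) : E) ^ 2 = -1
    rw [hI, hι]
  have hact : ∀ k, ((act I g W k : VR P) : E) = act ι g v k := by
    intro k
    have h5 := act_map (VR P).subtype I g W k
    have h6 : (fun i => (VR P).subtype (W i)) = v := funext hW
    have h7 : (VR P).subtype I = ι := hI
    rw [h6, h7] at h5
    exact h5.symm
  obtain ⟨π, hπ⟩ := qf_act g
  refine ⟨?_, ?_, π.symm m₀, ?_, ?_⟩
  · intro k hk
    rw [← hact] at hk ⊢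
    exact ord_of_mem (act I g W k).2 hk
  · have hWi : rd P (W i) ≠ 0 := by
      rw [rd_ne, hW]
      exact ⟨hi, hi2⟩
    have hrI : (rd P I) ^ 2 = -1 := by rw [← map_pow, hI2, map_neg, map_one]
    obtain ⟨a, ha⟩ := act_inv g (KR P) (rd P I) hrI (fun k => rd P (W k)) i
    have h44 : (4 : KR P) ≠ 0 := by
      have h5 : (4 : KR P) = 2 * 2 := by norm_num
      rw [h5]
      exact mul_ne_zero (two_kr h2) (two_kr h2)
    by_contra hcon
    have hz : ∀ k, act (rd P I) g (fun k => rd P (W k)) k = 0 := by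
      intro k
      rw [act_map (rd P) I g W k]
      by_contra hk
      obtain ⟨h5, h6⟩ := (rd_ne _).1 hk
      rw [hact] at h5 h6
      exact hcon ⟨k, h5, h6⟩
    rw [Finset.sum_eq_zero (fun k _ => by rw [hz k, mul_zero])] at ha
    exact mul_ne_zero h44 hWi ha
  · intro m hm
    have h5 : π m ≠ m₀ := fun h => hm (by rw [← h, Equiv.symm_apply_apply])
    obtain ⟨h6, h7⟩ := h3 (π m) h5
    obtain ⟨e, j, hej⟩ := hπ m
    have h8 := hej E ι hι v
    have h9 : (2 : E) ^ e * ι ^ j ≠ 0 := mul_ne_zero (pow_ne_zero e two_ne_zero) (pow_ne_zero j hι0)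
    rw [h8]
    refine ⟨mul_ne_zero h9 h6, ?_⟩
    rw [ord_mul P h9 h6, ord_mul P (pow_ne_zero e two_ne_zero) (pow_ne_zero j hι0),
      ord_pow P two_ne_zero, ord_pow P hι0, ord_two h2, hιo, h7]
    ring
  · obtain ⟨e, j, hej⟩ := hπ (π.symm m₀)
    have h8 := hej E ι hι v
    rw [Equiv.apply_symm_apply] at h8
    have h9 : (2 : E) ^ e * ι ^ j ≠ 0 := mul_ne_zero (pow_ne_zero e two_ne_zero) (pow_ne_zero j hι0)
    rw [h8]
    intro h10
    have h6 := right_ne_zero_of_mul h10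
    rw [ord_mul P h9 h6, ord_mul P (pow_ne_zero e two_ne_zero) (pow_ne_zero j hι0),
      ord_pow P two_ne_zero, ord_pow P hι0, ord_two h2, hιo, mul_zero, mul_zero, add_zero, zero_add]
    exact h4 h6

theorem good_act {P : HeightOneSpectrum (𝓞 E)} (h2 : (2 : 𝓞 E) ∉ P.asIdeal) {ι : E}
    (hι : ι ^ 2 = -1) {v : Fin 4 → E} (h : Good P v) (g : GG) : Good P (act ι g v) := by
  obtain ⟨z, hz, hG⟩ := good_to h
  refine good_of hz ?_
  have h1 := g0_act h2 hι hG g
  have h3 : act ι g (fun i => z * v i) = fun i => z * act ι g v i :=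
    funext (act_smul ι z g v)
  rw [h3] at h1
  exact h1

private theorem even_sq {P : HeightOneSpectrum (𝓞 E)} {x y : E} (h : x = y ^ 2) (hx : x ≠ 0) :
    Even (ord P x) := by
  have hy : y ≠ 0 := by
    rintro rfl
    rw [zero_pow two_ne_zero] at h
    exact hx h
  rw [h, ord_pow P hy]
  exact ⟨ord P y, by push_cast; ring⟩

private theorem even_pr {P : HeightOneSpectrum (𝓞 E)} (h2 : (2 : 𝓞 E) ∉ P.asIdeal) {x y a b : E}
    (h : x * y = 4 * a * b) (hx : x ≠ 0) (hy : y ≠ 0) (hyo : ord P y = 0)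
    (ha : a ≠ 0 → Even (ord P a)) (hb : b ≠ 0 → Even (ord P b)) : Even (ord P x) := by
  have h0 : x * y ≠ 0 := mul_ne_zero hx hy
  have h1 : 4 * a * b ≠ 0 := by rwa [← h]
  have hb0 : b ≠ 0 := right_ne_zero_of_mul h1
  have h4a : 4 * a ≠ 0 := left_ne_zero_of_mul h1
  have ha0 : a ≠ 0 := right_ne_zero_of_mul h4a
  have h4 : (4 : E) ≠ 0 := left_ne_zero_of_mul h4a
  have ho4 : ord P (4 : E) = 0 := by
    have h5 : (4 : E) = 2 ^ 2 := by norm_num
    rw [h5, ord_pow P two_ne_zero, ord_two h2, mul_zero]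
  have h6 : ord P (x * y) = ord P (4 * a * b) := by rw [h]
  rw [ord_mul P hx hy, ord_mul P h4a hb0, ord_mul P h4 ha0, hyo, ho4, add_zero, zero_add] at h6
  rw [h6]
  exact (ha ha0).add (hb hb0)

private theorem g0_step {P : HeightOneSpectrum (𝓞 E)} (h2 : (2 : 𝓞 E) ∉ P.asIdeal)
    {v v' : Fin 4 → E} (h : G0 P v) (hv : ∀ b, v' b ^ 2 = st v b) : G0 P v' := by
  obtain ⟨h1, -, m₀, h3, h4⟩ := h
  obtain ⟨W, hW⟩ : ∃ W : Fin 4 → VR P, ∀ i, ((W i : VR P) : E) = v i :=
    ⟨fun i => ⟨v i, mem_vr (h1 i)⟩, fun i => rfl⟩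
  have hqW : ∀ m, ((qf W m : VR P) : E) = qf v m := by
    intro m
    have h5 := qf_map (VR P).subtype W m
    have h6 : (fun i => (VR P).subtype (W i)) = v := funext hW
    rw [h6] at h5
    exact h5.symm
  have hst : ∀ (S : Type) [CommRing S] (u : Fin 4 → S) (b : Fin 4),
      st u b = qf u (![0, 4, 6, 8] b) := by
    intro S _ u b
    fin_cases b <;> rfl
  have h1' : ∀ b, v' b ≠ 0 → 0 ≤ ord P (v' b) := by
    intro b hb
    have h5 : v' b ^ 2 ≠ 0 := pow_ne_zero 2 hb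
    have h6 : 0 ≤ ord P (v' b ^ 2) := by
      rw [hv b, hst E v b, ← hqW] at h5 ⊢
      exact ord_of_mem (qf W (![0, 4, 6, 8] b)).2 h5
    rw [ord_pow P hb] at h6
    push_cast at h6
    omega
  obtain ⟨W', hW'⟩ : ∃ W' : Fin 4 → VR P, ∀ i, ((W' i : VR P) : E) = v' i :=
    ⟨fun i => ⟨v' i, mem_vr (h1' i)⟩, fun i => rfl⟩
  have hqW' : ∀ m, ((qf W' m : VR P) : E) = qf v' m := by
    intro m
    have h5 := qf_map (VR P).subtype W' m
    have h6 : (fun i => (VR P).subtype (W' i)) = v' := funext hW'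
    rw [h6] at h5
    exact h5.symm
  have hWW : ∀ b, W' b ^ 2 = qf W (![0, 4, 6, 8] b) := by
    intro b
    apply Subtype.ext
    show ((W' b : VR P) : E) ^ 2 = _
    rw [hW', hv b, hst E v b, hqW]
  have hrr : ∀ b, (rd P (W' b)) ^ 2 = st (fun i => rd P (W i)) b := by
    intro b
    rw [hst (KR P), qf_map (rd P) W, ← map_pow, hWW b]
  obtain ⟨m₁, hm₁⟩ := nb (two_kr h2) (v := fun i => rd P (W i)) (v' := fun i => rd P (W' i)) hrr
    ⟨m₀, fun m hm => by
      rw [qf_map (rd P) W, rd_ne, hqW]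
      exact h3 m hm⟩
  have h3' : ∀ m, m ≠ m₁ → qf v' m ≠ 0 ∧ ord P (qf v' m) = 0 := by
    intro m hm
    have h5 := hm₁ m hm
    rw [qf_map (rd P) W', rd_ne, hqW'] at h5
    exact h5
  refine ⟨h1', ?_, m₁, h3', ?_⟩
  · by_contra hcon
    have hz : ∀ k, rd P (W' k) = 0 := by
      intro k
      by_contra hk
      obtain ⟨h5, h6⟩ := (rd_ne _).1 hk
      rw [hW'] at h5 h6
      exact hcon ⟨k, h5, h6⟩
    obtain ⟨m, hm⟩ : ∃ m : Fin 10, m ≠ m₁ := exists_ne m₁
    apply hm₁ m hm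
    have h5 : (fun i => rd P (W' i)) = fun i => (0 : KR P) * (fun _ => (0 : KR P)) i := by
      funext i
      rw [hz i, zero_mul]
    rw [h5, qf_smul, zero_pow two_ne_zero, zero_mul]
  · intro hne
    have hev : ∀ m, qf v m ≠ 0 → Even (ord P (qf v m)) := by
      intro m hm
      by_cases hmm : m = m₀
      · rw [hmm] at hm ⊢
        exact h4 hm
      · rw [(h3 m hmm).2]
        exact Even.zero
    obtain ⟨s0, s1, s2, s3⟩ := qf_sq hv
    obtain ⟨p4, p6, p8⟩ := qf_pr hv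
    fin_cases m₁
    · exact even_sq s0 hne
    · exact even_sq s1 hne
    · exact even_sq s2 hne
    · exact even_sq s3 hne
    · exact even_pr h2 p4 hne (h3' 5 (by decide)).1 (h3' 5 (by decide)).2 (hev 1) (hev 5)
    · exact even_pr h2 ((mul_comm _ _).trans p4) hne (h3' 4 (by decide)).1 (h3' 4 (by decide)).2
        (hev 1) (hev 5)
    · exact even_pr h2 p6 hne (h3' 7 (by decide)).1 (h3' 7 (by decide)).2 (hev 2) (hev 7)
    · exact even_pr h2 ((mul_comm _ _).trans p6) hne (h3' 6 (by decide)).1 (h3' 6 (by decide)).2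
        (hev 2) (hev 7)
    · exact even_pr h2 p8 hne (h3' 9 (by decide)).1 (h3' 9 (by decide)).2 (hev 3) (hev 9)
    · exact even_pr h2 ((mul_comm _ _).trans p8) hne (h3' 8 (by decide)).1 (h3' 8 (by decide)).2
        (hev 3) (hev 9)

theorem good_step {P : HeightOneSpectrum (𝓞 E)} (h2 : (2 : 𝓞 E) ∉ P.asIdeal)
    {v v' : Fin 4 → E} (h : Good P v) (hv : ∀ b, v' b ^ 2 = st v b) : Good P v' := by
  obtain ⟨z, hz, hG⟩ := good_to h
  refine good_of hz (g0_step h2 hG ?_)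
  intro b
  show (z * v' b) ^ 2 = st (fun i => z * v i) b
  rw [st_smul, mul_pow, hv b]

theorem good_map {E' : Type} [Field E'] [NumberField E'] [Algebra E E']
    {P : HeightOneSpectrum (𝓞 E)} {P' : HeightOneSpectrum (𝓞 E')} (hP : Above P P')
    {v : Fin 4 → E} (h : Good P v) : Good P' (fun i => algebraMap E E' (v i)) := by
  obtain ⟨P₁, e, hP₁, he, hord⟩ := ord_algebraMap (E := E) P'
  have hPP : P₁ = P := by
    apply HeightOneSpectrum.ext
    ext α
    rw [← mem_iff_of_above hP₁, ← mem_iff_of_above hP]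
  rw [hPP] at hord
  obtain ⟨μ, h1, ⟨i, hi, hi2⟩, m₀, h3, h4⟩ := h
  have hq : ∀ m, qf (fun i => algebraMap E E' (v i)) m = algebraMap E E' (qf v m) :=
    qf_map (algebraMap E E') v
  have hne : ∀ x : E, algebraMap E E' x ≠ 0 ↔ x ≠ 0 := fun x => by
    rw [ne_eq, map_eq_zero]
  refine ⟨e * μ, ?_, ⟨i, (hne _).2 hi, ?_⟩, m₀, ?_, ?_⟩
  · intro k hk
    rw [hord]
    exact mul_le_mul_of_nonneg_left (h1 k ((hne _).1 hk)) (Int.natCast_nonneg e)
  · rw [hord, hi2]
  · intro m hm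
    rw [hq, hord]
    refine ⟨(hne _).2 (h3 m hm).1, ?_⟩
    rw [(h3 m hm).2]
    ring
  · rw [hq, hord]
    intro h5
    exact (h4 ((hne _).1 h5)).mul_left _

end FreyG2
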