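import Pool.Agent.Lib.MP_6babc4_nt.G2.Defs

/-!
# Module Idn: identities between the forms

`v` and `v'` with `v'_b ^ 2 = st v b` (that is `v'_0² = q₀(v)`, `v'_1² = q₄(v)`, `v'_2² = q₆(v)`, `v'_3² = q₈(v)`).
* the first four forms of `v'` are squares of linear forms of `v`:
  `q₀(v') = (A+B+C+D)²`, `q₁(v') = (A+B-C-D)²`, `q₂(v') = (A-B+C-D)²`, `q₃(v') = (A-B-C+D)²`;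
* `q₄ q₅ (v') = 4 q₁ q₅ (v)`, `q₆ q₇ (v') = 4 q₂ q₇ (v)`, `q₈ q₉ (v') = 4 q₃ q₉ (v)`.
* `qf_act`: each matrix permutes the ten forms up to factors `2 ^ e * ι ^ j`.
PROOF of `qf_act`: for `inl e` sixteen cases; `act (inr (a, b)) = act (inr (0, b)) ∘ act (inr (a, 0))`, and the twelve
cases with one factor. The permutations are to be written explicitly (find them by computer).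
-/

set_option autoImplicit false

open NumberField IsDedekindDomain Module

namespace FreyG2

section ring

variable {R : Type*} [CommRing R]

private theorem q10 (P : Fin 10 → Prop) (h0 : P 0) (h1 : P 1) (h2 : P 2) (h3 : P 3) (h4 : P 4)
    (h5 : P 5) (h6 : P 6) (h7 : P 7) (h8 : P 8) (h9 : P 9) : ∀ m, P m := by
  intro m
  fin_cases m
  exacts [h0, h1, h2, h3, h4, h5, h6, h7, h8, h9]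

private theorem q6 (P : Fin 6 → Prop) (h0 : P 0) (h1 : P 1) (h2 : P 2) (h3 : P 3) (h4 : P 4)
    (h5 : P 5) : ∀ m, P m := by
  intro m
  fin_cases m
  exacts [h0, h1, h2, h3, h4, h5]

private theorem q4 (P : Fin 4 → Prop) (h0 : P 0) (h1 : P 1) (h2 : P 2) (h3 : P 3) : ∀ m, P m := by
  intro m
  fin_cases m
  exacts [h0, h1, h2, h3]

theorem qf_sq {v v' : Fin 4 → R} (h : ∀ b, v' b ^ 2 = st v b) :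
    qf v' 0 = (v 0 + v 1 + v 2 + v 3) ^ 2 ∧ qf v' 1 = (v 0 + v 1 - v 2 - v 3) ^ 2 ∧
      qf v' 2 = (v 0 - v 1 + v 2 - v 3) ^ 2 ∧ qf v' 3 = (v 0 - v 1 - v 2 + v 3) ^ 2 := by
  have h0 : v' 0 ^ 2 = v 0 ^ 2 + v 1 ^ 2 + v 2 ^ 2 + v 3 ^ 2 := h 0
  have h1 : v' 1 ^ 2 = 2 * (v 0 * v 1 + v 2 * v 3) := h 1
  have h2 : v' 2 ^ 2 = 2 * (v 0 * v 2 + v 1 * v 3) := h 2
  have h3 : v' 3 ^ 2 = 2 * (v 0 * v 3 + v 1 * v 2) := h 3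
  refine ⟨?_, ?_, ?_, ?_⟩
  · show v' 0 ^ 2 + v' 1 ^ 2 + v' 2 ^ 2 + v' 3 ^ 2 = _
    rw [h0, h1, h2, h3]; ring
  · show v' 0 ^ 2 + v' 1 ^ 2 - v' 2 ^ 2 - v' 3 ^ 2 = _
    rw [h0, h1, h2, h3]; ring
  · show v' 0 ^ 2 - v' 1 ^ 2 + v' 2 ^ 2 - v' 3 ^ 2 = _
    rw [h0, h1, h2, h3]; ring
  · show v' 0 ^ 2 - v' 1 ^ 2 - v' 2 ^ 2 + v' 3 ^ 2 = _
    rw [h0, h1, h2, h3]; ring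

theorem qf_pr {v v' : Fin 4 → R} (h : ∀ b, v' b ^ 2 = st v b) :
    qf v' 4 * qf v' 5 = 4 * qf v 1 * qf v 5 ∧ qf v' 6 * qf v' 7 = 4 * qf v 2 * qf v 7 ∧
      qf v' 8 * qf v' 9 = 4 * qf v 3 * qf v 9 := by
  have h0 : v' 0 ^ 2 = v 0 ^ 2 + v 1 ^ 2 + v 2 ^ 2 + v 3 ^ 2 := h 0
  have h1 : v' 1 ^ 2 = 2 * (v 0 * v 1 + v 2 * v 3) := h 1
  have h2 : v' 2 ^ 2 = 2 * (v 0 * v 2 + v 1 * v 3) := h 2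
  have h3 : v' 3 ^ 2 = 2 * (v 0 * v 3 + v 1 * v 2) := h 3
  refine ⟨?_, ?_, ?_⟩
  · show (2 * (v' 0 * v' 1 + v' 2 * v' 3)) * (2 * (v' 0 * v' 1 - v' 2 * v' 3)) =
      4 * (v 0 ^ 2 + v 1 ^ 2 - v 2 ^ 2 - v 3 ^ 2) * (2 * (v 0 * v 1 - v 2 * v 3))
    have e : (2 * (v' 0 * v' 1 + v' 2 * v' 3)) * (2 * (v' 0 * v' 1 - v' 2 * v' 3)) =
      4 * (v' 0 ^ 2 * v' 1 ^ 2 - v' 2 ^ 2 * v' 3 ^ 2) := by ring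
    rw [e, h0, h1, h2, h3]; ring
  · show (2 * (v' 0 * v' 2 + v' 1 * v' 3)) * (2 * (v' 0 * v' 2 - v' 1 * v' 3)) =
      4 * (v 0 ^ 2 - v 1 ^ 2 + v 2 ^ 2 - v 3 ^ 2) * (2 * (v 0 * v 2 - v 1 * v 3))
    have e : (2 * (v' 0 * v' 2 + v' 1 * v' 3)) * (2 * (v' 0 * v' 2 - v' 1 * v' 3)) =
      4 * (v' 0 ^ 2 * v' 2 ^ 2 - v' 1 ^ 2 * v' 3 ^ 2) := by ring
    rw [e, h0, h1, h2, h3]; ring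
  · show (2 * (v' 0 * v' 3 + v' 1 * v' 2)) * (2 * (v' 0 * v' 3 - v' 1 * v' 2)) =
      4 * (v 0 ^ 2 - v 1 ^ 2 - v 2 ^ 2 + v 3 ^ 2) * (2 * (v 0 * v 3 - v 1 * v 2))
    have e : (2 * (v' 0 * v' 3 + v' 1 * v' 2)) * (2 * (v' 0 * v' 3 - v' 1 * v' 2)) =
      4 * (v' 0 ^ 2 * v' 3 ^ 2 - v' 1 ^ 2 * v' 2 ^ 2) := by ring
    rw [e, h0, h1, h2, h3]; ring

theorem qf_smul (t : R) (v : Fin 4 → R) (m : Fin 10) : qf (fun i => t * v i) m = t ^ 2 * qf v m := by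
  revert m
  refine q10 _ ?_ ?_ ?_ ?_ ?_ ?_ ?_ ?_ ?_ ?_
  · show (t * v 0) ^ 2 + (t * v 1) ^ 2 + (t * v 2) ^ 2 + (t * v 3) ^ 2 = t ^ 2 * (v 0 ^ 2 + v 1 ^ 2 + v 2 ^ 2 + v 3 ^ 2)
    ring
  · show (t * v 0) ^ 2 + (t * v 1) ^ 2 - (t * v 2) ^ 2 - (t * v 3) ^ 2 = t ^ 2 * (v 0 ^ 2 + v 1 ^ 2 - v 2 ^ 2 - v 3 ^ 2)
    ring
  · show (t * v 0) ^ 2 - (t * v 1) ^ 2 + (t * v 2) ^ 2 - (t * v 3) ^ 2 = t ^ 2 * (v 0 ^ 2 - v 1 ^ 2 + v 2 ^ 2 - v 3 ^ 2)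
    ring
  · show (t * v 0) ^ 2 - (t * v 1) ^ 2 - (t * v 2) ^ 2 + (t * v 3) ^ 2 = t ^ 2 * (v 0 ^ 2 - v 1 ^ 2 - v 2 ^ 2 + v 3 ^ 2)
    ring
  · show 2 * ((t * v 0) * (t * v 1) + (t * v 2) * (t * v 3)) = t ^ 2 * (2 * (v 0 * v 1 + v 2 * v 3))
    ring
  · show 2 * ((t * v 0) * (t * v 1) - (t * v 2) * (t * v 3)) = t ^ 2 * (2 * (v 0 * v 1 - v 2 * v 3))
    ring
  · show 2 * ((t * v 0) * (t * v 2) + (t * v 1) * (t * v 3)) = t ^ 2 * (2 * (v 0 * v 2 + v 1 * v 3))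
    ring
  · show 2 * ((t * v 0) * (t * v 2) - (t * v 1) * (t * v 3)) = t ^ 2 * (2 * (v 0 * v 2 - v 1 * v 3))
    ring
  · show 2 * ((t * v 0) * (t * v 3) + (t * v 1) * (t * v 2)) = t ^ 2 * (2 * (v 0 * v 3 + v 1 * v 2))
    ring
  · show 2 * ((t * v 0) * (t * v 3) - (t * v 1) * (t * v 2)) = t ^ 2 * (2 * (v 0 * v 3 - v 1 * v 2))
    ring

theorem st_smul (t : R) (v : Fin 4 → R) (b : Fin 4) : st (fun i => t * v i) b = t ^ 2 * st v b := by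
  revert b
  exact q4 _ (qf_smul t v 0) (qf_smul t v 4) (qf_smul t v 6) (qf_smul t v 8)

theorem qf_map {S : Type*} [CommRing S] (f : R →+* S) (v : Fin 4 → R) (m : Fin 10) :
    qf (fun i => f (v i)) m = f (qf v m) := by
  revert m
  refine q10 _ ?_ ?_ ?_ ?_ ?_ ?_ ?_ ?_ ?_ ?_
  · show f (v 0) ^ 2 + f (v 1) ^ 2 + f (v 2) ^ 2 + f (v 3) ^ 2 = f (v 0 ^ 2 + v 1 ^ 2 + v 2 ^ 2 + v 3 ^ 2)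
    simp only [map_add, map_sub, map_mul, map_pow, map_ofNat]
  · show f (v 0) ^ 2 + f (v 1) ^ 2 - f (v 2) ^ 2 - f (v 3) ^ 2 = f (v 0 ^ 2 + v 1 ^ 2 - v 2 ^ 2 - v 3 ^ 2)
    simp only [map_add, map_sub, map_mul, map_pow, map_ofNat]
  · show f (v 0) ^ 2 - f (v 1) ^ 2 + f (v 2) ^ 2 - f (v 3) ^ 2 = f (v 0 ^ 2 - v 1 ^ 2 + v 2 ^ 2 - v 3 ^ 2)
    simp only [map_add, map_sub, map_mul, map_pow, map_ofNat]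
  · show f (v 0) ^ 2 - f (v 1) ^ 2 - f (v 2) ^ 2 + f (v 3) ^ 2 = f (v 0 ^ 2 - v 1 ^ 2 - v 2 ^ 2 + v 3 ^ 2)
    simp only [map_add, map_sub, map_mul, map_pow, map_ofNat]
  · show 2 * (f (v 0) * f (v 1) + f (v 2) * f (v 3)) = f (2 * (v 0 * v 1 + v 2 * v 3))
    simp only [map_add, map_sub, map_mul, map_pow, map_ofNat]
  · show 2 * (f (v 0) * f (v 1) - f (v 2) * f (v 3)) = f (2 * (v 0 * v 1 - v 2 * v 3))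
    simp only [map_add, map_sub, map_mul, map_pow, map_ofNat]
  · show 2 * (f (v 0) * f (v 2) + f (v 1) * f (v 3)) = f (2 * (v 0 * v 2 + v 1 * v 3))
    simp only [map_add, map_sub, map_mul, map_pow, map_ofNat]
  · show 2 * (f (v 0) * f (v 2) - f (v 1) * f (v 3)) = f (2 * (v 0 * v 2 - v 1 * v 3))
    simp only [map_add, map_sub, map_mul, map_pow, map_ofNat]
  · show 2 * (f (v 0) * f (v 3) + f (v 1) * f (v 2)) = f (2 * (v 0 * v 3 + v 1 * v 2))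
    simp only [map_add, map_sub, map_mul, map_pow, map_ofNat]
  · show 2 * (f (v 0) * f (v 3) - f (v 1) * f (v 2)) = f (2 * (v 0 * v 3 - v 1 * v 2))
    simp only [map_add, map_sub, map_mul, map_pow, map_ofNat]

private theorem m6_map {S : Type*} [CommRing S] (f : R →+* S) (ι : R) (j : Fin 6) (x y : R) :
    m6 (f ι) j (f x) (f y) = (f (m6 ι j x y).1, f (m6 ι j x y).2) := by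
  revert j
  refine q6 _ ?_ ?_ ?_ ?_ ?_ ?_
  · rfl
  · show (f x, -f y) = (f x, f (-y))
    rw [map_neg]
  · show (f x, f ι * f y) = (f x, f (ι * y))
    rw [map_mul]
  · show (f x, -(f ι * f y)) = (f x, f (-(ι * y)))
    rw [map_neg, map_mul]
  · show (f x + f y, f x - f y) = (f (x + y), f (x - y))
    rw [map_add, map_sub]
  · show (f x + f y, f y - f x) = (f (x + y), f (y - x))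
    rw [map_add, map_sub]

theorem act_map {S : Type*} [CommRing S] (f : R →+* S) (ι : R) (g : GG) (v : Fin 4 → R) (i : Fin 4) :
    act (f ι) g (fun i => f (v i)) i = f (act ι g v i) := by
  rcases g with e | ⟨a, b⟩
  · show (if e i then -f (v i) else f (v i)) = f (if e i then -v i else v i)
    split
    · rw [map_neg]
    · rfl
  · revert i
    refine q4 _ ?_ ?_ ?_ ?_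
    · show (m6 (f ι) b (m6 (f ι) a (f (v 0)) (f (v 2))).1 (m6 (f ι) a (f (v 1)) (f (v 3))).1).1 =
        f (m6 ι b (m6 ι a (v 0) (v 2)).1 (m6 ι a (v 1) (v 3)).1).1
      rw [m6_map, m6_map, m6_map]
    · show (m6 (f ι) b (m6 (f ι) a (f (v 0)) (f (v 2))).1 (m6 (f ι) a (f (v 1)) (f (v 3))).1).2 =
        f (m6 ι b (m6 ι a (v 0) (v 2)).1 (m6 ι a (v 1) (v 3)).1).2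
      rw [m6_map, m6_map, m6_map]
    · show (m6 (f ι) b (m6 (f ι) a (f (v 0)) (f (v 2))).2 (m6 (f ι) a (f (v 1)) (f (v 3))).2).1 =
        f (m6 ι b (m6 ι a (v 0) (v 2)).2 (m6 ι a (v 1) (v 3)).2).1
      rw [m6_map, m6_map, m6_map]
    · show (m6 (f ι) b (m6 (f ι) a (f (v 0)) (f (v 2))).2 (m6 (f ι) a (f (v 1)) (f (v 3))).2).2 =
        f (m6 ι b (m6 ι a (v 0) (v 2)).2 (m6 ι a (v 1) (v 3)).2).2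
      rw [m6_map, m6_map, m6_map]

/-- the statement for one matrix, with explicit data -/
private def Ok (g : GG) : Prop :=
  ∃ (π : Equiv.Perm (Fin 10)) (e j : Fin 10 → ℕ), ∀ (S : Type) [CommRing S]
    (ι : S), ι ^ 2 = -1 → ∀ v : Fin 4 → S, ∀ m, qf (act ι g v) m = 2 ^ e m * ι ^ j m * qf v (π m)

private theorem oka0 : Ok (Sum.inr (0, 0)) := by
  refine ⟨⟨![0, 1, 2, 3, 4, 5, 6, 7, 8, 9], ![0, 1, 2, 3, 4, 5, 6, 7, 8, 9], by decide, by decide⟩, ![0, 0, 0, 0, 0, 0, 0, 0, 0, 0], ![0, 0, 0, 0, 0, 0, 0, 0, 0, 0], ?_⟩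
  intro S _ ι hι v
  refine q10 _ ?_ ?_ ?_ ?_ ?_ ?_ ?_ ?_ ?_ ?_
  · show v 0 ^ 2 + v 1 ^ 2 + v 2 ^ 2 + v 3 ^ 2 = 2 ^ 0 * ι ^ 0 * (v 0 ^ 2 + v 1 ^ 2 + v 2 ^ 2 + v 3 ^ 2)
    ring
  · show v 0 ^ 2 + v 1 ^ 2 - v 2 ^ 2 - v 3 ^ 2 = 2 ^ 0 * ι ^ 0 * (v 0 ^ 2 + v 1 ^ 2 - v 2 ^ 2 - v 3 ^ 2)
    ring
  · show v 0 ^ 2 - v 1 ^ 2 + v 2 ^ 2 - v 3 ^ 2 = 2 ^ 0 * ι ^ 0 * (v 0 ^ 2 - v 1 ^ 2 + v 2 ^ 2 - v 3 ^ 2)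
    ring
  · show v 0 ^ 2 - v 1 ^ 2 - v 2 ^ 2 + v 3 ^ 2 = 2 ^ 0 * ι ^ 0 * (v 0 ^ 2 - v 1 ^ 2 - v 2 ^ 2 + v 3 ^ 2)
    ring
  · show 2 * (v 0 * v 1 + v 2 * v 3) = 2 ^ 0 * ι ^ 0 * (2 * (v 0 * v 1 + v 2 * v 3))
    ring
  · show 2 * (v 0 * v 1 - v 2 * v 3) = 2 ^ 0 * ι ^ 0 * (2 * (v 0 * v 1 - v 2 * v 3))
    ring
  · show 2 * (v 0 * v 2 + v 1 * v 3) = 2 ^ 0 * ι ^ 0 * (2 * (v 0 * v 2 + v 1 * v 3))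
    ring
  · show 2 * (v 0 * v 2 - v 1 * v 3) = 2 ^ 0 * ι ^ 0 * (2 * (v 0 * v 2 - v 1 * v 3))
    ring
  · show 2 * (v 0 * v 3 + v 1 * v 2) = 2 ^ 0 * ι ^ 0 * (2 * (v 0 * v 3 + v 1 * v 2))
    ring
  · show 2 * (v 0 * v 3 - v 1 * v 2) = 2 ^ 0 * ι ^ 0 * (2 * (v 0 * v 3 - v 1 * v 2))
    ring

private theorem oka1 : Ok (Sum.inr (1, 0)) := by
  refine ⟨⟨![0, 1, 2, 3, 4, 5, 6, 7, 8, 9], ![0, 1, 2, 3, 4, 5, 6, 7, 8, 9], by decide, by decide⟩, ![0, 0, 0, 0, 0, 0, 0, 0, 0, 0], ![0, 0, 0, 0, 0, 0, 2, 2, 2, 2], ?_⟩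
  intro S _ ι hι v
  refine q10 _ ?_ ?_ ?_ ?_ ?_ ?_ ?_ ?_ ?_ ?_
  · show v 0 ^ 2 + v 1 ^ 2 + (-v 2) ^ 2 + (-v 3) ^ 2 = 2 ^ 0 * ι ^ 0 * (v 0 ^ 2 + v 1 ^ 2 + v 2 ^ 2 + v 3 ^ 2)
    ring
  · show v 0 ^ 2 + v 1 ^ 2 - (-v 2) ^ 2 - (-v 3) ^ 2 = 2 ^ 0 * ι ^ 0 * (v 0 ^ 2 + v 1 ^ 2 - v 2 ^ 2 - v 3 ^ 2)
    ring
  · show v 0 ^ 2 - v 1 ^ 2 + (-v 2) ^ 2 - (-v 3) ^ 2 = 2 ^ 0 * ι ^ 0 * (v 0 ^ 2 - v 1 ^ 2 + v 2 ^ 2 - v 3 ^ 2)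
    ring
  · show v 0 ^ 2 - v 1 ^ 2 - (-v 2) ^ 2 + (-v 3) ^ 2 = 2 ^ 0 * ι ^ 0 * (v 0 ^ 2 - v 1 ^ 2 - v 2 ^ 2 + v 3 ^ 2)
    ring
  · show 2 * (v 0 * v 1 + (-v 2) * (-v 3)) = 2 ^ 0 * ι ^ 0 * (2 * (v 0 * v 1 + v 2 * v 3))
    ring
  · show 2 * (v 0 * v 1 - (-v 2) * (-v 3)) = 2 ^ 0 * ι ^ 0 * (2 * (v 0 * v 1 - v 2 * v 3))
    ring
  · show 2 * (v 0 * (-v 2) + v 1 * (-v 3)) = 2 ^ 0 * ι ^ 2 * (2 * (v 0 * v 2 + v 1 * v 3))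
    linear_combination ((-2) * v 1 ^ 1 * v 3 ^ 1 + (-2) * v 0 ^ 1 * v 2 ^ 1) * hι
  · show 2 * (v 0 * (-v 2) - v 1 * (-v 3)) = 2 ^ 0 * ι ^ 2 * (2 * (v 0 * v 2 - v 1 * v 3))
    linear_combination (2 * v 1 ^ 1 * v 3 ^ 1 + (-2) * v 0 ^ 1 * v 2 ^ 1) * hι
  · show 2 * (v 0 * (-v 3) + v 1 * (-v 2)) = 2 ^ 0 * ι ^ 2 * (2 * (v 0 * v 3 + v 1 * v 2))
    linear_combination ((-2) * v 1 ^ 1 * v 2 ^ 1 + (-2) * v 0 ^ 1 * v 3 ^ 1) * hι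
  · show 2 * (v 0 * (-v 3) - v 1 * (-v 2)) = 2 ^ 0 * ι ^ 2 * (2 * (v 0 * v 3 - v 1 * v 2))
    linear_combination (2 * v 1 ^ 1 * v 2 ^ 1 + (-2) * v 0 ^ 1 * v 3 ^ 1) * hι

private theorem oka2 : Ok (Sum.inr (2, 0)) := by
  refine ⟨⟨![1, 0, 3, 2, 5, 4, 6, 7, 8, 9], ![1, 0, 3, 2, 5, 4, 6, 7, 8, 9], by decide, by decide⟩, ![0, 0, 0, 0, 0, 0, 0, 0, 0, 0], ![0, 0, 0, 0, 0, 0, 1, 1, 1, 1], ?_⟩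
  intro S _ ι hι v
  refine q10 _ ?_ ?_ ?_ ?_ ?_ ?_ ?_ ?_ ?_ ?_
  · show v 0 ^ 2 + v 1 ^ 2 + (ι * v 2) ^ 2 + (ι * v 3) ^ 2 = 2 ^ 0 * ι ^ 0 * (v 0 ^ 2 + v 1 ^ 2 - v 2 ^ 2 - v 3 ^ 2)
    linear_combination (1 * v 3 ^ 2 + 1 * v 2 ^ 2) * hι
  · show v 0 ^ 2 + v 1 ^ 2 - (ι * v 2) ^ 2 - (ι * v 3) ^ 2 = 2 ^ 0 * ι ^ 0 * (v 0 ^ 2 + v 1 ^ 2 + v 2 ^ 2 + v 3 ^ 2)
    linear_combination ((-1) * v 3 ^ 2 + (-1) * v 2 ^ 2) * hι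
  · show v 0 ^ 2 - v 1 ^ 2 + (ι * v 2) ^ 2 - (ι * v 3) ^ 2 = 2 ^ 0 * ι ^ 0 * (v 0 ^ 2 - v 1 ^ 2 - v 2 ^ 2 + v 3 ^ 2)
    linear_combination ((-1) * v 3 ^ 2 + 1 * v 2 ^ 2) * hι
  · show v 0 ^ 2 - v 1 ^ 2 - (ι * v 2) ^ 2 + (ι * v 3) ^ 2 = 2 ^ 0 * ι ^ 0 * (v 0 ^ 2 - v 1 ^ 2 + v 2 ^ 2 - v 3 ^ 2)
    linear_combination (1 * v 3 ^ 2 + (-1) * v 2 ^ 2) * hι
  · show 2 * (v 0 * v 1 + (ι * v 2) * (ι * v 3)) = 2 ^ 0 * ι ^ 0 * (2 * (v 0 * v 1 - v 2 * v 3))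
    linear_combination (2 * v 2 ^ 1 * v 3 ^ 1) * hι
  · show 2 * (v 0 * v 1 - (ι * v 2) * (ι * v 3)) = 2 ^ 0 * ι ^ 0 * (2 * (v 0 * v 1 + v 2 * v 3))
    linear_combination ((-2) * v 2 ^ 1 * v 3 ^ 1) * hι
  · show 2 * (v 0 * (ι * v 2) + v 1 * (ι * v 3)) = 2 ^ 0 * ι ^ 1 * (2 * (v 0 * v 2 + v 1 * v 3))
    ring
  · show 2 * (v 0 * (ι * v 2) - v 1 * (ι * v 3)) = 2 ^ 0 * ι ^ 1 * (2 * (v 0 * v 2 - v 1 * v 3))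
    ring
  · show 2 * (v 0 * (ι * v 3) + v 1 * (ι * v 2)) = 2 ^ 0 * ι ^ 1 * (2 * (v 0 * v 3 + v 1 * v 2))
    ring
  · show 2 * (v 0 * (ι * v 3) - v 1 * (ι * v 2)) = 2 ^ 0 * ι ^ 1 * (2 * (v 0 * v 3 - v 1 * v 2))
    ring

private theorem oka3 : Ok (Sum.inr (3, 0)) := by
  refine ⟨⟨![1, 0, 3, 2, 5, 4, 6, 7, 8, 9], ![1, 0, 3, 2, 5, 4, 6, 7, 8, 9], by decide, by decide⟩, ![0, 0, 0, 0, 0, 0, 0, 0, 0, 0], ![0, 0, 0, 0, 0, 0, 3, 3, 3, 3], ?_⟩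
  intro S _ ι hι v
  refine q10 _ ?_ ?_ ?_ ?_ ?_ ?_ ?_ ?_ ?_ ?_
  · show v 0 ^ 2 + v 1 ^ 2 + (-(ι * v 2)) ^ 2 + (-(ι * v 3)) ^ 2 = 2 ^ 0 * ι ^ 0 * (v 0 ^ 2 + v 1 ^ 2 - v 2 ^ 2 - v 3 ^ 2)
    linear_combination (1 * v 3 ^ 2 + 1 * v 2 ^ 2) * hι
  · show v 0 ^ 2 + v 1 ^ 2 - (-(ι * v 2)) ^ 2 - (-(ι * v 3)) ^ 2 = 2 ^ 0 * ι ^ 0 * (v 0 ^ 2 + v 1 ^ 2 + v 2 ^ 2 + v 3 ^ 2)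
    linear_combination ((-1) * v 3 ^ 2 + (-1) * v 2 ^ 2) * hι
  · show v 0 ^ 2 - v 1 ^ 2 + (-(ι * v 2)) ^ 2 - (-(ι * v 3)) ^ 2 = 2 ^ 0 * ι ^ 0 * (v 0 ^ 2 - v 1 ^ 2 - v 2 ^ 2 + v 3 ^ 2)
    linear_combination ((-1) * v 3 ^ 2 + 1 * v 2 ^ 2) * hι
  · show v 0 ^ 2 - v 1 ^ 2 - (-(ι * v 2)) ^ 2 + (-(ι * v 3)) ^ 2 = 2 ^ 0 * ι ^ 0 * (v 0 ^ 2 - v 1 ^ 2 + v 2 ^ 2 - v 3 ^ 2)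
    linear_combination (1 * v 3 ^ 2 + (-1) * v 2 ^ 2) * hι
  · show 2 * (v 0 * v 1 + (-(ι * v 2)) * (-(ι * v 3))) = 2 ^ 0 * ι ^ 0 * (2 * (v 0 * v 1 - v 2 * v 3))
    linear_combination (2 * v 2 ^ 1 * v 3 ^ 1) * hι
  · show 2 * (v 0 * v 1 - (-(ι * v 2)) * (-(ι * v 3))) = 2 ^ 0 * ι ^ 0 * (2 * (v 0 * v 1 + v 2 * v 3))
    linear_combination ((-2) * v 2 ^ 1 * v 3 ^ 1) * hι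
  · show 2 * (v 0 * (-(ι * v 2)) + v 1 * (-(ι * v 3))) = 2 ^ 0 * ι ^ 3 * (2 * (v 0 * v 2 + v 1 * v 3))
    linear_combination ((-2) * ι ^ 1 * v 1 ^ 1 * v 3 ^ 1 + (-2) * ι ^ 1 * v 0 ^ 1 * v 2 ^ 1) * hι
  · show 2 * (v 0 * (-(ι * v 2)) - v 1 * (-(ι * v 3))) = 2 ^ 0 * ι ^ 3 * (2 * (v 0 * v 2 - v 1 * v 3))
    linear_combination (2 * ι ^ 1 * v 1 ^ 1 * v 3 ^ 1 + (-2) * ι ^ 1 * v 0 ^ 1 * v 2 ^ 1) * hι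
  · show 2 * (v 0 * (-(ι * v 3)) + v 1 * (-(ι * v 2))) = 2 ^ 0 * ι ^ 3 * (2 * (v 0 * v 3 + v 1 * v 2))
    linear_combination ((-2) * ι ^ 1 * v 1 ^ 1 * v 2 ^ 1 + (-2) * ι ^ 1 * v 0 ^ 1 * v 3 ^ 1) * hι
  · show 2 * (v 0 * (-(ι * v 3)) - v 1 * (-(ι * v 2))) = 2 ^ 0 * ι ^ 3 * (2 * (v 0 * v 3 - v 1 * v 2))
    linear_combination (2 * ι ^ 1 * v 1 ^ 1 * v 2 ^ 1 + (-2) * ι ^ 1 * v 0 ^ 1 * v 3 ^ 1) * hι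

private theorem oka4 : Ok (Sum.inr (4, 0)) := by
  refine ⟨⟨![0, 6, 2, 7, 4, 8, 1, 3, 5, 9], ![0, 6, 2, 7, 4, 8, 1, 3, 5, 9], by decide, by decide⟩, ![1, 1, 1, 1, 1, 1, 1, 1, 1, 1], ![0, 0, 0, 0, 0, 0, 0, 0, 0, 2], ?_⟩
  intro S _ ι hι v
  refine q10 _ ?_ ?_ ?_ ?_ ?_ ?_ ?_ ?_ ?_ ?_
  · show (v 0 + v 2) ^ 2 + (v 1 + v 3) ^ 2 + (v 0 - v 2) ^ 2 + (v 1 - v 3) ^ 2 = 2 ^ 1 * ι ^ 0 * (v 0 ^ 2 + v 1 ^ 2 + v 2 ^ 2 + v 3 ^ 2)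
    ring
  · show (v 0 + v 2) ^ 2 + (v 1 + v 3) ^ 2 - (v 0 - v 2) ^ 2 - (v 1 - v 3) ^ 2 = 2 ^ 1 * ι ^ 0 * (2 * (v 0 * v 2 + v 1 * v 3))
    ring
  · show (v 0 + v 2) ^ 2 - (v 1 + v 3) ^ 2 + (v 0 - v 2) ^ 2 - (v 1 - v 3) ^ 2 = 2 ^ 1 * ι ^ 0 * (v 0 ^ 2 - v 1 ^ 2 + v 2 ^ 2 - v 3 ^ 2)
    ring
  · show (v 0 + v 2) ^ 2 - (v 1 + v 3) ^ 2 - (v 0 - v 2) ^ 2 + (v 1 - v 3) ^ 2 = 2 ^ 1 * ι ^ 0 * (2 * (v 0 * v 2 - v 1 * v 3))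
    ring
  · show 2 * ((v 0 + v 2) * (v 1 + v 3) + (v 0 - v 2) * (v 1 - v 3)) = 2 ^ 1 * ι ^ 0 * (2 * (v 0 * v 1 + v 2 * v 3))
    ring
  · show 2 * ((v 0 + v 2) * (v 1 + v 3) - (v 0 - v 2) * (v 1 - v 3)) = 2 ^ 1 * ι ^ 0 * (2 * (v 0 * v 3 + v 1 * v 2))
    ring
  · show 2 * ((v 0 + v 2) * (v 0 - v 2) + (v 1 + v 3) * (v 1 - v 3)) = 2 ^ 1 * ι ^ 0 * (v 0 ^ 2 + v 1 ^ 2 - v 2 ^ 2 - v 3 ^ 2)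
    ring
  · show 2 * ((v 0 + v 2) * (v 0 - v 2) - (v 1 + v 3) * (v 1 - v 3)) = 2 ^ 1 * ι ^ 0 * (v 0 ^ 2 - v 1 ^ 2 - v 2 ^ 2 + v 3 ^ 2)
    ring
  · show 2 * ((v 0 + v 2) * (v 1 - v 3) + (v 1 + v 3) * (v 0 - v 2)) = 2 ^ 1 * ι ^ 0 * (2 * (v 0 * v 1 - v 2 * v 3))
    ring
  · show 2 * ((v 0 + v 2) * (v 1 - v 3) - (v 1 + v 3) * (v 0 - v 2)) = 2 ^ 1 * ι ^ 2 * (2 * (v 0 * v 3 - v 1 * v 2))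
    linear_combination (4 * v 1 ^ 1 * v 2 ^ 1 + (-4) * v 0 ^ 1 * v 3 ^ 1) * hι

private theorem oka5 : Ok (Sum.inr (5, 0)) := by
  refine ⟨⟨![0, 6, 2, 7, 4, 8, 1, 3, 5, 9], ![0, 6, 2, 7, 4, 8, 1, 3, 5, 9], by decide, by decide⟩, ![1, 1, 1, 1, 1, 1, 1, 1, 1, 1], ![0, 0, 0, 0, 0, 0, 2, 2, 2, 0], ?_⟩
  intro S _ ι hι v
  refine q10 _ ?_ ?_ ?_ ?_ ?_ ?_ ?_ ?_ ?_ ?_
  · show (v 0 + v 2) ^ 2 + (v 1 + v 3) ^ 2 + (v 2 - v 0) ^ 2 + (v 3 - v 1) ^ 2 = 2 ^ 1 * ι ^ 0 * (v 0 ^ 2 + v 1 ^ 2 + v 2 ^ 2 + v 3 ^ 2)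
    ring
  · show (v 0 + v 2) ^ 2 + (v 1 + v 3) ^ 2 - (v 2 - v 0) ^ 2 - (v 3 - v 1) ^ 2 = 2 ^ 1 * ι ^ 0 * (2 * (v 0 * v 2 + v 1 * v 3))
    ring
  · show (v 0 + v 2) ^ 2 - (v 1 + v 3) ^ 2 + (v 2 - v 0) ^ 2 - (v 3 - v 1) ^ 2 = 2 ^ 1 * ι ^ 0 * (v 0 ^ 2 - v 1 ^ 2 + v 2 ^ 2 - v 3 ^ 2)
    ring
  · show (v 0 + v 2) ^ 2 - (v 1 + v 3) ^ 2 - (v 2 - v 0) ^ 2 + (v 3 - v 1) ^ 2 = 2 ^ 1 * ι ^ 0 * (2 * (v 0 * v 2 - v 1 * v 3))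
    ring
  · show 2 * ((v 0 + v 2) * (v 1 + v 3) + (v 2 - v 0) * (v 3 - v 1)) = 2 ^ 1 * ι ^ 0 * (2 * (v 0 * v 1 + v 2 * v 3))
    ring
  · show 2 * ((v 0 + v 2) * (v 1 + v 3) - (v 2 - v 0) * (v 3 - v 1)) = 2 ^ 1 * ι ^ 0 * (2 * (v 0 * v 3 + v 1 * v 2))
    ring
  · show 2 * ((v 0 + v 2) * (v 2 - v 0) + (v 1 + v 3) * (v 3 - v 1)) = 2 ^ 1 * ι ^ 2 * (v 0 ^ 2 + v 1 ^ 2 - v 2 ^ 2 - v 3 ^ 2)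
    linear_combination (2 * v 3 ^ 2 + 2 * v 2 ^ 2 + (-2) * v 1 ^ 2 + (-2) * v 0 ^ 2) * hι
  · show 2 * ((v 0 + v 2) * (v 2 - v 0) - (v 1 + v 3) * (v 3 - v 1)) = 2 ^ 1 * ι ^ 2 * (v 0 ^ 2 - v 1 ^ 2 - v 2 ^ 2 + v 3 ^ 2)
    linear_combination ((-2) * v 3 ^ 2 + 2 * v 2 ^ 2 + 2 * v 1 ^ 2 + (-2) * v 0 ^ 2) * hι
  · show 2 * ((v 0 + v 2) * (v 3 - v 1) + (v 1 + v 3) * (v 2 - v 0)) = 2 ^ 1 * ι ^ 2 * (2 * (v 0 * v 1 - v 2 * v 3))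
    linear_combination (4 * v 2 ^ 1 * v 3 ^ 1 + (-4) * v 0 ^ 1 * v 1 ^ 1) * hι
  · show 2 * ((v 0 + v 2) * (v 3 - v 1) - (v 1 + v 3) * (v 2 - v 0)) = 2 ^ 1 * ι ^ 0 * (2 * (v 0 * v 3 - v 1 * v 2))
    ring

private theorem okb0 : Ok (Sum.inr (0, 0)) := by
  refine ⟨⟨![0, 1, 2, 3, 4, 5, 6, 7, 8, 9], ![0, 1, 2, 3, 4, 5, 6, 7, 8, 9], by decide, by decide⟩, ![0, 0, 0, 0, 0, 0, 0, 0, 0, 0], ![0, 0, 0, 0, 0, 0, 0, 0, 0, 0], ?_⟩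
  intro S _ ι hι v
  refine q10 _ ?_ ?_ ?_ ?_ ?_ ?_ ?_ ?_ ?_ ?_
  · show v 0 ^ 2 + v 1 ^ 2 + v 2 ^ 2 + v 3 ^ 2 = 2 ^ 0 * ι ^ 0 * (v 0 ^ 2 + v 1 ^ 2 + v 2 ^ 2 + v 3 ^ 2)
    ring
  · show v 0 ^ 2 + v 1 ^ 2 - v 2 ^ 2 - v 3 ^ 2 = 2 ^ 0 * ι ^ 0 * (v 0 ^ 2 + v 1 ^ 2 - v 2 ^ 2 - v 3 ^ 2)
    ring
  · show v 0 ^ 2 - v 1 ^ 2 + v 2 ^ 2 - v 3 ^ 2 = 2 ^ 0 * ι ^ 0 * (v 0 ^ 2 - v 1 ^ 2 + v 2 ^ 2 - v 3 ^ 2)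
    ring
  · show v 0 ^ 2 - v 1 ^ 2 - v 2 ^ 2 + v 3 ^ 2 = 2 ^ 0 * ι ^ 0 * (v 0 ^ 2 - v 1 ^ 2 - v 2 ^ 2 + v 3 ^ 2)
    ring
  · show 2 * (v 0 * v 1 + v 2 * v 3) = 2 ^ 0 * ι ^ 0 * (2 * (v 0 * v 1 + v 2 * v 3))
    ring
  · show 2 * (v 0 * v 1 - v 2 * v 3) = 2 ^ 0 * ι ^ 0 * (2 * (v 0 * v 1 - v 2 * v 3))
    ring
  · show 2 * (v 0 * v 2 + v 1 * v 3) = 2 ^ 0 * ι ^ 0 * (2 * (v 0 * v 2 + v 1 * v 3))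
    ring
  · show 2 * (v 0 * v 2 - v 1 * v 3) = 2 ^ 0 * ι ^ 0 * (2 * (v 0 * v 2 - v 1 * v 3))
    ring
  · show 2 * (v 0 * v 3 + v 1 * v 2) = 2 ^ 0 * ι ^ 0 * (2 * (v 0 * v 3 + v 1 * v 2))
    ring
  · show 2 * (v 0 * v 3 - v 1 * v 2) = 2 ^ 0 * ι ^ 0 * (2 * (v 0 * v 3 - v 1 * v 2))
    ring

private theorem okb1 : Ok (Sum.inr (0, 1)) := by
  refine ⟨⟨![0, 1, 2, 3, 4, 5, 6, 7, 8, 9], ![0, 1, 2, 3, 4, 5, 6, 7, 8, 9], by decide, by decide⟩, ![0, 0, 0, 0, 0, 0, 0, 0, 0, 0], ![0, 0, 0, 0, 2, 2, 0, 0, 2, 2], ?_⟩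
  intro S _ ι hι v
  refine q10 _ ?_ ?_ ?_ ?_ ?_ ?_ ?_ ?_ ?_ ?_
  · show v 0 ^ 2 + (-v 1) ^ 2 + v 2 ^ 2 + (-v 3) ^ 2 = 2 ^ 0 * ι ^ 0 * (v 0 ^ 2 + v 1 ^ 2 + v 2 ^ 2 + v 3 ^ 2)
    ring
  · show v 0 ^ 2 + (-v 1) ^ 2 - v 2 ^ 2 - (-v 3) ^ 2 = 2 ^ 0 * ι ^ 0 * (v 0 ^ 2 + v 1 ^ 2 - v 2 ^ 2 - v 3 ^ 2)
    ring
  · show v 0 ^ 2 - (-v 1) ^ 2 + v 2 ^ 2 - (-v 3) ^ 2 = 2 ^ 0 * ι ^ 0 * (v 0 ^ 2 - v 1 ^ 2 + v 2 ^ 2 - v 3 ^ 2)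
    ring
  · show v 0 ^ 2 - (-v 1) ^ 2 - v 2 ^ 2 + (-v 3) ^ 2 = 2 ^ 0 * ι ^ 0 * (v 0 ^ 2 - v 1 ^ 2 - v 2 ^ 2 + v 3 ^ 2)
    ring
  · show 2 * (v 0 * (-v 1) + v 2 * (-v 3)) = 2 ^ 0 * ι ^ 2 * (2 * (v 0 * v 1 + v 2 * v 3))
    linear_combination ((-2) * v 2 ^ 1 * v 3 ^ 1 + (-2) * v 0 ^ 1 * v 1 ^ 1) * hι
  · show 2 * (v 0 * (-v 1) - v 2 * (-v 3)) = 2 ^ 0 * ι ^ 2 * (2 * (v 0 * v 1 - v 2 * v 3))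
    linear_combination (2 * v 2 ^ 1 * v 3 ^ 1 + (-2) * v 0 ^ 1 * v 1 ^ 1) * hι
  · show 2 * (v 0 * v 2 + (-v 1) * (-v 3)) = 2 ^ 0 * ι ^ 0 * (2 * (v 0 * v 2 + v 1 * v 3))
    ring
  · show 2 * (v 0 * v 2 - (-v 1) * (-v 3)) = 2 ^ 0 * ι ^ 0 * (2 * (v 0 * v 2 - v 1 * v 3))
    ring
  · show 2 * (v 0 * (-v 3) + (-v 1) * v 2) = 2 ^ 0 * ι ^ 2 * (2 * (v 0 * v 3 + v 1 * v 2))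
    linear_combination ((-2) * v 1 ^ 1 * v 2 ^ 1 + (-2) * v 0 ^ 1 * v 3 ^ 1) * hι
  · show 2 * (v 0 * (-v 3) - (-v 1) * v 2) = 2 ^ 0 * ι ^ 2 * (2 * (v 0 * v 3 - v 1 * v 2))
    linear_combination (2 * v 1 ^ 1 * v 2 ^ 1 + (-2) * v 0 ^ 1 * v 3 ^ 1) * hι

private theorem okb2 : Ok (Sum.inr (0, 2)) := by
  refine ⟨⟨![2, 3, 0, 1, 4, 5, 7, 6, 8, 9], ![2, 3, 0, 1, 4, 5, 7, 6, 8, 9], by decide, by decide⟩, ![0, 0, 0, 0, 0, 0, 0, 0, 0, 0], ![0, 0, 0, 0, 1, 1, 0, 0, 1, 1], ?_⟩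
  intro S _ ι hι v
  refine q10 _ ?_ ?_ ?_ ?_ ?_ ?_ ?_ ?_ ?_ ?_
  · show v 0 ^ 2 + (ι * v 1) ^ 2 + v 2 ^ 2 + (ι * v 3) ^ 2 = 2 ^ 0 * ι ^ 0 * (v 0 ^ 2 - v 1 ^ 2 + v 2 ^ 2 - v 3 ^ 2)
    linear_combination (1 * v 3 ^ 2 + 1 * v 1 ^ 2) * hι
  · show v 0 ^ 2 + (ι * v 1) ^ 2 - v 2 ^ 2 - (ι * v 3) ^ 2 = 2 ^ 0 * ι ^ 0 * (v 0 ^ 2 - v 1 ^ 2 - v 2 ^ 2 + v 3 ^ 2)
    linear_combination ((-1) * v 3 ^ 2 + 1 * v 1 ^ 2) * hι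
  · show v 0 ^ 2 - (ι * v 1) ^ 2 + v 2 ^ 2 - (ι * v 3) ^ 2 = 2 ^ 0 * ι ^ 0 * (v 0 ^ 2 + v 1 ^ 2 + v 2 ^ 2 + v 3 ^ 2)
    linear_combination ((-1) * v 3 ^ 2 + (-1) * v 1 ^ 2) * hι
  · show v 0 ^ 2 - (ι * v 1) ^ 2 - v 2 ^ 2 + (ι * v 3) ^ 2 = 2 ^ 0 * ι ^ 0 * (v 0 ^ 2 + v 1 ^ 2 - v 2 ^ 2 - v 3 ^ 2)
    linear_combination (1 * v 3 ^ 2 + (-1) * v 1 ^ 2) * hι
  · show 2 * (v 0 * (ι * v 1) + v 2 * (ι * v 3)) = 2 ^ 0 * ι ^ 1 * (2 * (v 0 * v 1 + v 2 * v 3))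
    ring
  · show 2 * (v 0 * (ι * v 1) - v 2 * (ι * v 3)) = 2 ^ 0 * ι ^ 1 * (2 * (v 0 * v 1 - v 2 * v 3))
    ring
  · show 2 * (v 0 * v 2 + (ι * v 1) * (ι * v 3)) = 2 ^ 0 * ι ^ 0 * (2 * (v 0 * v 2 - v 1 * v 3))
    linear_combination (2 * v 1 ^ 1 * v 3 ^ 1) * hι
  · show 2 * (v 0 * v 2 - (ι * v 1) * (ι * v 3)) = 2 ^ 0 * ι ^ 0 * (2 * (v 0 * v 2 + v 1 * v 3))
    linear_combination ((-2) * v 1 ^ 1 * v 3 ^ 1) * hι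
  · show 2 * (v 0 * (ι * v 3) + (ι * v 1) * v 2) = 2 ^ 0 * ι ^ 1 * (2 * (v 0 * v 3 + v 1 * v 2))
    ring
  · show 2 * (v 0 * (ι * v 3) - (ι * v 1) * v 2) = 2 ^ 0 * ι ^ 1 * (2 * (v 0 * v 3 - v 1 * v 2))
    ring

private theorem okb3 : Ok (Sum.inr (0, 3)) := by
  refine ⟨⟨![2, 3, 0, 1, 4, 5, 7, 6, 8, 9], ![2, 3, 0, 1, 4, 5, 7, 6, 8, 9], by decide, by decide⟩, ![0, 0, 0, 0, 0, 0, 0, 0, 0, 0], ![0, 0, 0, 0, 3, 3, 0, 0, 3, 3], ?_⟩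
  intro S _ ι hι v
  refine q10 _ ?_ ?_ ?_ ?_ ?_ ?_ ?_ ?_ ?_ ?_
  · show v 0 ^ 2 + (-(ι * v 1)) ^ 2 + v 2 ^ 2 + (-(ι * v 3)) ^ 2 = 2 ^ 0 * ι ^ 0 * (v 0 ^ 2 - v 1 ^ 2 + v 2 ^ 2 - v 3 ^ 2)
    linear_combination (1 * v 3 ^ 2 + 1 * v 1 ^ 2) * hι
  · show v 0 ^ 2 + (-(ι * v 1)) ^ 2 - v 2 ^ 2 - (-(ι * v 3)) ^ 2 = 2 ^ 0 * ι ^ 0 * (v 0 ^ 2 - v 1 ^ 2 - v 2 ^ 2 + v 3 ^ 2)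
    linear_combination ((-1) * v 3 ^ 2 + 1 * v 1 ^ 2) * hι
  · show v 0 ^ 2 - (-(ι * v 1)) ^ 2 + v 2 ^ 2 - (-(ι * v 3)) ^ 2 = 2 ^ 0 * ι ^ 0 * (v 0 ^ 2 + v 1 ^ 2 + v 2 ^ 2 + v 3 ^ 2)
    linear_combination ((-1) * v 3 ^ 2 + (-1) * v 1 ^ 2) * hι
  · show v 0 ^ 2 - (-(ι * v 1)) ^ 2 - v 2 ^ 2 + (-(ι * v 3)) ^ 2 = 2 ^ 0 * ι ^ 0 * (v 0 ^ 2 + v 1 ^ 2 - v 2 ^ 2 - v 3 ^ 2)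
    linear_combination (1 * v 3 ^ 2 + (-1) * v 1 ^ 2) * hι
  · show 2 * (v 0 * (-(ι * v 1)) + v 2 * (-(ι * v 3))) = 2 ^ 0 * ι ^ 3 * (2 * (v 0 * v 1 + v 2 * v 3))
    linear_combination ((-2) * ι ^ 1 * v 2 ^ 1 * v 3 ^ 1 + (-2) * ι ^ 1 * v 0 ^ 1 * v 1 ^ 1) * hι
  · show 2 * (v 0 * (-(ι * v 1)) - v 2 * (-(ι * v 3))) = 2 ^ 0 * ι ^ 3 * (2 * (v 0 * v 1 - v 2 * v 3))
    linear_combination (2 * ι ^ 1 * v 2 ^ 1 * v 3 ^ 1 + (-2) * ι ^ 1 * v 0 ^ 1 * v 1 ^ 1) * hι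
  · show 2 * (v 0 * v 2 + (-(ι * v 1)) * (-(ι * v 3))) = 2 ^ 0 * ι ^ 0 * (2 * (v 0 * v 2 - v 1 * v 3))
    linear_combination (2 * v 1 ^ 1 * v 3 ^ 1) * hι
  · show 2 * (v 0 * v 2 - (-(ι * v 1)) * (-(ι * v 3))) = 2 ^ 0 * ι ^ 0 * (2 * (v 0 * v 2 + v 1 * v 3))
    linear_combination ((-2) * v 1 ^ 1 * v 3 ^ 1) * hι
  · show 2 * (v 0 * (-(ι * v 3)) + (-(ι * v 1)) * v 2) = 2 ^ 0 * ι ^ 3 * (2 * (v 0 * v 3 + v 1 * v 2))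
    linear_combination ((-2) * ι ^ 1 * v 1 ^ 1 * v 2 ^ 1 + (-2) * ι ^ 1 * v 0 ^ 1 * v 3 ^ 1) * hι
  · show 2 * (v 0 * (-(ι * v 3)) - (-(ι * v 1)) * v 2) = 2 ^ 0 * ι ^ 3 * (2 * (v 0 * v 3 - v 1 * v 2))
    linear_combination (2 * ι ^ 1 * v 1 ^ 1 * v 2 ^ 1 + (-2) * ι ^ 1 * v 0 ^ 1 * v 3 ^ 1) * hι

private theorem okb4 : Ok (Sum.inr (0, 4)) := by
  refine ⟨⟨![0, 1, 4, 5, 2, 3, 6, 8, 7, 9], ![0, 1, 4, 5, 2, 3, 6, 8, 7, 9], by decide, by decide⟩, ![1, 1, 1, 1, 1, 1, 1, 1, 1, 1], ![0, 0, 0, 0, 0, 0, 0, 0, 0, 2], ?_⟩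
  intro S _ ι hι v
  refine q10 _ ?_ ?_ ?_ ?_ ?_ ?_ ?_ ?_ ?_ ?_
  · show (v 0 + v 1) ^ 2 + (v 0 - v 1) ^ 2 + (v 2 + v 3) ^ 2 + (v 2 - v 3) ^ 2 = 2 ^ 1 * ι ^ 0 * (v 0 ^ 2 + v 1 ^ 2 + v 2 ^ 2 + v 3 ^ 2)
    ring
  · show (v 0 + v 1) ^ 2 + (v 0 - v 1) ^ 2 - (v 2 + v 3) ^ 2 - (v 2 - v 3) ^ 2 = 2 ^ 1 * ι ^ 0 * (v 0 ^ 2 + v 1 ^ 2 - v 2 ^ 2 - v 3 ^ 2)
    ring
  · show (v 0 + v 1) ^ 2 - (v 0 - v 1) ^ 2 + (v 2 + v 3) ^ 2 - (v 2 - v 3) ^ 2 = 2 ^ 1 * ι ^ 0 * (2 * (v 0 * v 1 + v 2 * v 3))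
    ring
  · show (v 0 + v 1) ^ 2 - (v 0 - v 1) ^ 2 - (v 2 + v 3) ^ 2 + (v 2 - v 3) ^ 2 = 2 ^ 1 * ι ^ 0 * (2 * (v 0 * v 1 - v 2 * v 3))
    ring
  · show 2 * ((v 0 + v 1) * (v 0 - v 1) + (v 2 + v 3) * (v 2 - v 3)) = 2 ^ 1 * ι ^ 0 * (v 0 ^ 2 - v 1 ^ 2 + v 2 ^ 2 - v 3 ^ 2)
    ring
  · show 2 * ((v 0 + v 1) * (v 0 - v 1) - (v 2 + v 3) * (v 2 - v 3)) = 2 ^ 1 * ι ^ 0 * (v 0 ^ 2 - v 1 ^ 2 - v 2 ^ 2 + v 3 ^ 2)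
    ring
  · show 2 * ((v 0 + v 1) * (v 2 + v 3) + (v 0 - v 1) * (v 2 - v 3)) = 2 ^ 1 * ι ^ 0 * (2 * (v 0 * v 2 + v 1 * v 3))
    ring
  · show 2 * ((v 0 + v 1) * (v 2 + v 3) - (v 0 - v 1) * (v 2 - v 3)) = 2 ^ 1 * ι ^ 0 * (2 * (v 0 * v 3 + v 1 * v 2))
    ring
  · show 2 * ((v 0 + v 1) * (v 2 - v 3) + (v 0 - v 1) * (v 2 + v 3)) = 2 ^ 1 * ι ^ 0 * (2 * (v 0 * v 2 - v 1 * v 3))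
    ring
  · show 2 * ((v 0 + v 1) * (v 2 - v 3) - (v 0 - v 1) * (v 2 + v 3)) = 2 ^ 1 * ι ^ 2 * (2 * (v 0 * v 3 - v 1 * v 2))
    linear_combination (4 * v 1 ^ 1 * v 2 ^ 1 + (-4) * v 0 ^ 1 * v 3 ^ 1) * hι

private theorem okb5 : Ok (Sum.inr (0, 5)) := by
  refine ⟨⟨![0, 1, 4, 5, 2, 3, 6, 8, 7, 9], ![0, 1, 4, 5, 2, 3, 6, 8, 7, 9], by decide, by decide⟩, ![1, 1, 1, 1, 1, 1, 1, 1, 1, 1], ![0, 0, 0, 0, 2, 2, 0, 0, 2, 0], ?_⟩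
  intro S _ ι hι v
  refine q10 _ ?_ ?_ ?_ ?_ ?_ ?_ ?_ ?_ ?_ ?_
  · show (v 0 + v 1) ^ 2 + (v 1 - v 0) ^ 2 + (v 2 + v 3) ^ 2 + (v 3 - v 2) ^ 2 = 2 ^ 1 * ι ^ 0 * (v 0 ^ 2 + v 1 ^ 2 + v 2 ^ 2 + v 3 ^ 2)
    ring
  · show (v 0 + v 1) ^ 2 + (v 1 - v 0) ^ 2 - (v 2 + v 3) ^ 2 - (v 3 - v 2) ^ 2 = 2 ^ 1 * ι ^ 0 * (v 0 ^ 2 + v 1 ^ 2 - v 2 ^ 2 - v 3 ^ 2)
    ring
  · show (v 0 + v 1) ^ 2 - (v 1 - v 0) ^ 2 + (v 2 + v 3) ^ 2 - (v 3 - v 2) ^ 2 = 2 ^ 1 * ι ^ 0 * (2 * (v 0 * v 1 + v 2 * v 3))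
    ring
  · show (v 0 + v 1) ^ 2 - (v 1 - v 0) ^ 2 - (v 2 + v 3) ^ 2 + (v 3 - v 2) ^ 2 = 2 ^ 1 * ι ^ 0 * (2 * (v 0 * v 1 - v 2 * v 3))
    ring
  · show 2 * ((v 0 + v 1) * (v 1 - v 0) + (v 2 + v 3) * (v 3 - v 2)) = 2 ^ 1 * ι ^ 2 * (v 0 ^ 2 - v 1 ^ 2 + v 2 ^ 2 - v 3 ^ 2)
    linear_combination (2 * v 3 ^ 2 + (-2) * v 2 ^ 2 + 2 * v 1 ^ 2 + (-2) * v 0 ^ 2) * hι
  · show 2 * ((v 0 + v 1) * (v 1 - v 0) - (v 2 + v 3) * (v 3 - v 2)) = 2 ^ 1 * ι ^ 2 * (v 0 ^ 2 - v 1 ^ 2 - v 2 ^ 2 + v 3 ^ 2)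
    linear_combination ((-2) * v 3 ^ 2 + 2 * v 2 ^ 2 + 2 * v 1 ^ 2 + (-2) * v 0 ^ 2) * hι
  · show 2 * ((v 0 + v 1) * (v 2 + v 3) + (v 1 - v 0) * (v 3 - v 2)) = 2 ^ 1 * ι ^ 0 * (2 * (v 0 * v 2 + v 1 * v 3))
    ring
  · show 2 * ((v 0 + v 1) * (v 2 + v 3) - (v 1 - v 0) * (v 3 - v 2)) = 2 ^ 1 * ι ^ 0 * (2 * (v 0 * v 3 + v 1 * v 2))
    ring
  · show 2 * ((v 0 + v 1) * (v 3 - v 2) + (v 1 - v 0) * (v 2 + v 3)) = 2 ^ 1 * ι ^ 2 * (2 * (v 0 * v 2 - v 1 * v 3))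
    linear_combination (4 * v 1 ^ 1 * v 3 ^ 1 + (-4) * v 0 ^ 1 * v 2 ^ 1) * hι
  · show 2 * ((v 0 + v 1) * (v 3 - v 2) - (v 1 - v 0) * (v 2 + v 3)) = 2 ^ 1 * ι ^ 0 * (2 * (v 0 * v 3 - v 1 * v 2))
    ring

private theorem oks0 : Ok (Sum.inl ![false, false, false, false]) := by
  refine ⟨⟨![0, 1, 2, 3, 4, 5, 6, 7, 8, 9], ![0, 1, 2, 3, 4, 5, 6, 7, 8, 9], by decide, by decide⟩, ![0, 0, 0, 0, 0, 0, 0, 0, 0, 0], ![0, 0, 0, 0, 0, 0, 0, 0, 0, 0], ?_⟩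
  intro S _ ι hι v
  refine q10 _ ?_ ?_ ?_ ?_ ?_ ?_ ?_ ?_ ?_ ?_
  · show v 0 ^ 2 + v 1 ^ 2 + v 2 ^ 2 + v 3 ^ 2 = 2 ^ 0 * ι ^ 0 * (v 0 ^ 2 + v 1 ^ 2 + v 2 ^ 2 + v 3 ^ 2)
    ring
  · show v 0 ^ 2 + v 1 ^ 2 - v 2 ^ 2 - v 3 ^ 2 = 2 ^ 0 * ι ^ 0 * (v 0 ^ 2 + v 1 ^ 2 - v 2 ^ 2 - v 3 ^ 2)
    ring
  · show v 0 ^ 2 - v 1 ^ 2 + v 2 ^ 2 - v 3 ^ 2 = 2 ^ 0 * ι ^ 0 * (v 0 ^ 2 - v 1 ^ 2 + v 2 ^ 2 - v 3 ^ 2)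
    ring
  · show v 0 ^ 2 - v 1 ^ 2 - v 2 ^ 2 + v 3 ^ 2 = 2 ^ 0 * ι ^ 0 * (v 0 ^ 2 - v 1 ^ 2 - v 2 ^ 2 + v 3 ^ 2)
    ring
  · show 2 * (v 0 * v 1 + v 2 * v 3) = 2 ^ 0 * ι ^ 0 * (2 * (v 0 * v 1 + v 2 * v 3))
    ring
  · show 2 * (v 0 * v 1 - v 2 * v 3) = 2 ^ 0 * ι ^ 0 * (2 * (v 0 * v 1 - v 2 * v 3))
    ring
  · show 2 * (v 0 * v 2 + v 1 * v 3) = 2 ^ 0 * ι ^ 0 * (2 * (v 0 * v 2 + v 1 * v 3))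
    ring
  · show 2 * (v 0 * v 2 - v 1 * v 3) = 2 ^ 0 * ι ^ 0 * (2 * (v 0 * v 2 - v 1 * v 3))
    ring
  · show 2 * (v 0 * v 3 + v 1 * v 2) = 2 ^ 0 * ι ^ 0 * (2 * (v 0 * v 3 + v 1 * v 2))
    ring
  · show 2 * (v 0 * v 3 - v 1 * v 2) = 2 ^ 0 * ι ^ 0 * (2 * (v 0 * v 3 - v 1 * v 2))
    ring

private theorem oks1 : Ok (Sum.inl ![true, false, false, false]) := by
  refine ⟨⟨![0, 1, 2, 3, 5, 4, 7, 6, 9, 8], ![0, 1, 2, 3, 5, 4, 7, 6, 9, 8], by decide, by decide⟩, ![0, 0, 0, 0, 0, 0, 0, 0, 0, 0], ![0, 0, 0, 0, 2, 2, 2, 2, 2, 2], ?_⟩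
  intro S _ ι hι v
  refine q10 _ ?_ ?_ ?_ ?_ ?_ ?_ ?_ ?_ ?_ ?_
  · show (-v 0) ^ 2 + v 1 ^ 2 + v 2 ^ 2 + v 3 ^ 2 = 2 ^ 0 * ι ^ 0 * (v 0 ^ 2 + v 1 ^ 2 + v 2 ^ 2 + v 3 ^ 2)
    ring
  · show (-v 0) ^ 2 + v 1 ^ 2 - v 2 ^ 2 - v 3 ^ 2 = 2 ^ 0 * ι ^ 0 * (v 0 ^ 2 + v 1 ^ 2 - v 2 ^ 2 - v 3 ^ 2)
    ring
  · show (-v 0) ^ 2 - v 1 ^ 2 + v 2 ^ 2 - v 3 ^ 2 = 2 ^ 0 * ι ^ 0 * (v 0 ^ 2 - v 1 ^ 2 + v 2 ^ 2 - v 3 ^ 2)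
    ring
  · show (-v 0) ^ 2 - v 1 ^ 2 - v 2 ^ 2 + v 3 ^ 2 = 2 ^ 0 * ι ^ 0 * (v 0 ^ 2 - v 1 ^ 2 - v 2 ^ 2 + v 3 ^ 2)
    ring
  · show 2 * ((-v 0) * v 1 + v 2 * v 3) = 2 ^ 0 * ι ^ 2 * (2 * (v 0 * v 1 - v 2 * v 3))
    linear_combination (2 * v 2 ^ 1 * v 3 ^ 1 + (-2) * v 0 ^ 1 * v 1 ^ 1) * hι
  · show 2 * ((-v 0) * v 1 - v 2 * v 3) = 2 ^ 0 * ι ^ 2 * (2 * (v 0 * v 1 + v 2 * v 3))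
    linear_combination ((-2) * v 2 ^ 1 * v 3 ^ 1 + (-2) * v 0 ^ 1 * v 1 ^ 1) * hι
  · show 2 * ((-v 0) * v 2 + v 1 * v 3) = 2 ^ 0 * ι ^ 2 * (2 * (v 0 * v 2 - v 1 * v 3))
    linear_combination (2 * v 1 ^ 1 * v 3 ^ 1 + (-2) * v 0 ^ 1 * v 2 ^ 1) * hι
  · show 2 * ((-v 0) * v 2 - v 1 * v 3) = 2 ^ 0 * ι ^ 2 * (2 * (v 0 * v 2 + v 1 * v 3))
    linear_combination ((-2) * v 1 ^ 1 * v 3 ^ 1 + (-2) * v 0 ^ 1 * v 2 ^ 1) * hι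
  · show 2 * ((-v 0) * v 3 + v 1 * v 2) = 2 ^ 0 * ι ^ 2 * (2 * (v 0 * v 3 - v 1 * v 2))
    linear_combination (2 * v 1 ^ 1 * v 2 ^ 1 + (-2) * v 0 ^ 1 * v 3 ^ 1) * hι
  · show 2 * ((-v 0) * v 3 - v 1 * v 2) = 2 ^ 0 * ι ^ 2 * (2 * (v 0 * v 3 + v 1 * v 2))
    linear_combination ((-2) * v 1 ^ 1 * v 2 ^ 1 + (-2) * v 0 ^ 1 * v 3 ^ 1) * hι

private theorem oks2 : Ok (Sum.inl ![false, true, false, false]) := by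
  refine ⟨⟨![0, 1, 2, 3, 5, 4, 7, 6, 9, 8], ![0, 1, 2, 3, 5, 4, 7, 6, 9, 8], by decide, by decide⟩, ![0, 0, 0, 0, 0, 0, 0, 0, 0, 0], ![0, 0, 0, 0, 2, 2, 0, 0, 0, 0], ?_⟩
  intro S _ ι hι v
  refine q10 _ ?_ ?_ ?_ ?_ ?_ ?_ ?_ ?_ ?_ ?_
  · show v 0 ^ 2 + (-v 1) ^ 2 + v 2 ^ 2 + v 3 ^ 2 = 2 ^ 0 * ι ^ 0 * (v 0 ^ 2 + v 1 ^ 2 + v 2 ^ 2 + v 3 ^ 2)
    ring
  · show v 0 ^ 2 + (-v 1) ^ 2 - v 2 ^ 2 - v 3 ^ 2 = 2 ^ 0 * ι ^ 0 * (v 0 ^ 2 + v 1 ^ 2 - v 2 ^ 2 - v 3 ^ 2)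
    ring
  · show v 0 ^ 2 - (-v 1) ^ 2 + v 2 ^ 2 - v 3 ^ 2 = 2 ^ 0 * ι ^ 0 * (v 0 ^ 2 - v 1 ^ 2 + v 2 ^ 2 - v 3 ^ 2)
    ring
  · show v 0 ^ 2 - (-v 1) ^ 2 - v 2 ^ 2 + v 3 ^ 2 = 2 ^ 0 * ι ^ 0 * (v 0 ^ 2 - v 1 ^ 2 - v 2 ^ 2 + v 3 ^ 2)
    ring
  · show 2 * (v 0 * (-v 1) + v 2 * v 3) = 2 ^ 0 * ι ^ 2 * (2 * (v 0 * v 1 - v 2 * v 3))
    linear_combination (2 * v 2 ^ 1 * v 3 ^ 1 + (-2) * v 0 ^ 1 * v 1 ^ 1) * hι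
  · show 2 * (v 0 * (-v 1) - v 2 * v 3) = 2 ^ 0 * ι ^ 2 * (2 * (v 0 * v 1 + v 2 * v 3))
    linear_combination ((-2) * v 2 ^ 1 * v 3 ^ 1 + (-2) * v 0 ^ 1 * v 1 ^ 1) * hι
  · show 2 * (v 0 * v 2 + (-v 1) * v 3) = 2 ^ 0 * ι ^ 0 * (2 * (v 0 * v 2 - v 1 * v 3))
    ring
  · show 2 * (v 0 * v 2 - (-v 1) * v 3) = 2 ^ 0 * ι ^ 0 * (2 * (v 0 * v 2 + v 1 * v 3))
    ring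
  · show 2 * (v 0 * v 3 + (-v 1) * v 2) = 2 ^ 0 * ι ^ 0 * (2 * (v 0 * v 3 - v 1 * v 2))
    ring
  · show 2 * (v 0 * v 3 - (-v 1) * v 2) = 2 ^ 0 * ι ^ 0 * (2 * (v 0 * v 3 + v 1 * v 2))
    ring

private theorem oks3 : Ok (Sum.inl ![true, true, false, false]) := by
  refine ⟨⟨![0, 1, 2, 3, 4, 5, 6, 7, 8, 9], ![0, 1, 2, 3, 4, 5, 6, 7, 8, 9], by decide, by decide⟩, ![0, 0, 0, 0, 0, 0, 0, 0, 0, 0], ![0, 0, 0, 0, 0, 0, 2, 2, 2, 2], ?_⟩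
  intro S _ ι hι v
  refine q10 _ ?_ ?_ ?_ ?_ ?_ ?_ ?_ ?_ ?_ ?_
  · show (-v 0) ^ 2 + (-v 1) ^ 2 + v 2 ^ 2 + v 3 ^ 2 = 2 ^ 0 * ι ^ 0 * (v 0 ^ 2 + v 1 ^ 2 + v 2 ^ 2 + v 3 ^ 2)
    ring
  · show (-v 0) ^ 2 + (-v 1) ^ 2 - v 2 ^ 2 - v 3 ^ 2 = 2 ^ 0 * ι ^ 0 * (v 0 ^ 2 + v 1 ^ 2 - v 2 ^ 2 - v 3 ^ 2)
    ring
  · show (-v 0) ^ 2 - (-v 1) ^ 2 + v 2 ^ 2 - v 3 ^ 2 = 2 ^ 0 * ι ^ 0 * (v 0 ^ 2 - v 1 ^ 2 + v 2 ^ 2 - v 3 ^ 2)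
    ring
  · show (-v 0) ^ 2 - (-v 1) ^ 2 - v 2 ^ 2 + v 3 ^ 2 = 2 ^ 0 * ι ^ 0 * (v 0 ^ 2 - v 1 ^ 2 - v 2 ^ 2 + v 3 ^ 2)
    ring
  · show 2 * ((-v 0) * (-v 1) + v 2 * v 3) = 2 ^ 0 * ι ^ 0 * (2 * (v 0 * v 1 + v 2 * v 3))
    ring
  · show 2 * ((-v 0) * (-v 1) - v 2 * v 3) = 2 ^ 0 * ι ^ 0 * (2 * (v 0 * v 1 - v 2 * v 3))
    ring
  · show 2 * ((-v 0) * v 2 + (-v 1) * v 3) = 2 ^ 0 * ι ^ 2 * (2 * (v 0 * v 2 + v 1 * v 3))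
    linear_combination ((-2) * v 1 ^ 1 * v 3 ^ 1 + (-2) * v 0 ^ 1 * v 2 ^ 1) * hι
  · show 2 * ((-v 0) * v 2 - (-v 1) * v 3) = 2 ^ 0 * ι ^ 2 * (2 * (v 0 * v 2 - v 1 * v 3))
    linear_combination (2 * v 1 ^ 1 * v 3 ^ 1 + (-2) * v 0 ^ 1 * v 2 ^ 1) * hι
  · show 2 * ((-v 0) * v 3 + (-v 1) * v 2) = 2 ^ 0 * ι ^ 2 * (2 * (v 0 * v 3 + v 1 * v 2))
    linear_combination ((-2) * v 1 ^ 1 * v 2 ^ 1 + (-2) * v 0 ^ 1 * v 3 ^ 1) * hι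
  · show 2 * ((-v 0) * v 3 - (-v 1) * v 2) = 2 ^ 0 * ι ^ 2 * (2 * (v 0 * v 3 - v 1 * v 2))
    linear_combination (2 * v 1 ^ 1 * v 2 ^ 1 + (-2) * v 0 ^ 1 * v 3 ^ 1) * hι

private theorem oks4 : Ok (Sum.inl ![false, false, true, false]) := by
  refine ⟨⟨![0, 1, 2, 3, 5, 4, 7, 6, 9, 8], ![0, 1, 2, 3, 5, 4, 7, 6, 9, 8], by decide, by decide⟩, ![0, 0, 0, 0, 0, 0, 0, 0, 0, 0], ![0, 0, 0, 0, 0, 0, 2, 2, 0, 0], ?_⟩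
  intro S _ ι hι v
  refine q10 _ ?_ ?_ ?_ ?_ ?_ ?_ ?_ ?_ ?_ ?_
  · show v 0 ^ 2 + v 1 ^ 2 + (-v 2) ^ 2 + v 3 ^ 2 = 2 ^ 0 * ι ^ 0 * (v 0 ^ 2 + v 1 ^ 2 + v 2 ^ 2 + v 3 ^ 2)
    ring
  · show v 0 ^ 2 + v 1 ^ 2 - (-v 2) ^ 2 - v 3 ^ 2 = 2 ^ 0 * ι ^ 0 * (v 0 ^ 2 + v 1 ^ 2 - v 2 ^ 2 - v 3 ^ 2)
    ring
  · show v 0 ^ 2 - v 1 ^ 2 + (-v 2) ^ 2 - v 3 ^ 2 = 2 ^ 0 * ι ^ 0 * (v 0 ^ 2 - v 1 ^ 2 + v 2 ^ 2 - v 3 ^ 2)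
    ring
  · show v 0 ^ 2 - v 1 ^ 2 - (-v 2) ^ 2 + v 3 ^ 2 = 2 ^ 0 * ι ^ 0 * (v 0 ^ 2 - v 1 ^ 2 - v 2 ^ 2 + v 3 ^ 2)
    ring
  · show 2 * (v 0 * v 1 + (-v 2) * v 3) = 2 ^ 0 * ι ^ 0 * (2 * (v 0 * v 1 - v 2 * v 3))
    ring
  · show 2 * (v 0 * v 1 - (-v 2) * v 3) = 2 ^ 0 * ι ^ 0 * (2 * (v 0 * v 1 + v 2 * v 3))
    ring
  · show 2 * (v 0 * (-v 2) + v 1 * v 3) = 2 ^ 0 * ι ^ 2 * (2 * (v 0 * v 2 - v 1 * v 3))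
    linear_combination (2 * v 1 ^ 1 * v 3 ^ 1 + (-2) * v 0 ^ 1 * v 2 ^ 1) * hι
  · show 2 * (v 0 * (-v 2) - v 1 * v 3) = 2 ^ 0 * ι ^ 2 * (2 * (v 0 * v 2 + v 1 * v 3))
    linear_combination ((-2) * v 1 ^ 1 * v 3 ^ 1 + (-2) * v 0 ^ 1 * v 2 ^ 1) * hι
  · show 2 * (v 0 * v 3 + v 1 * (-v 2)) = 2 ^ 0 * ι ^ 0 * (2 * (v 0 * v 3 - v 1 * v 2))
    ring
  · show 2 * (v 0 * v 3 - v 1 * (-v 2)) = 2 ^ 0 * ι ^ 0 * (2 * (v 0 * v 3 + v 1 * v 2))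
    ring

private theorem oks5 : Ok (Sum.inl ![true, false, true, false]) := by
  refine ⟨⟨![0, 1, 2, 3, 4, 5, 6, 7, 8, 9], ![0, 1, 2, 3, 4, 5, 6, 7, 8, 9], by decide, by decide⟩, ![0, 0, 0, 0, 0, 0, 0, 0, 0, 0], ![0, 0, 0, 0, 2, 2, 0, 0, 2, 2], ?_⟩
  intro S _ ι hι v
  refine q10 _ ?_ ?_ ?_ ?_ ?_ ?_ ?_ ?_ ?_ ?_
  · show (-v 0) ^ 2 + v 1 ^ 2 + (-v 2) ^ 2 + v 3 ^ 2 = 2 ^ 0 * ι ^ 0 * (v 0 ^ 2 + v 1 ^ 2 + v 2 ^ 2 + v 3 ^ 2)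
    ring
  · show (-v 0) ^ 2 + v 1 ^ 2 - (-v 2) ^ 2 - v 3 ^ 2 = 2 ^ 0 * ι ^ 0 * (v 0 ^ 2 + v 1 ^ 2 - v 2 ^ 2 - v 3 ^ 2)
    ring
  · show (-v 0) ^ 2 - v 1 ^ 2 + (-v 2) ^ 2 - v 3 ^ 2 = 2 ^ 0 * ι ^ 0 * (v 0 ^ 2 - v 1 ^ 2 + v 2 ^ 2 - v 3 ^ 2)
    ring
  · show (-v 0) ^ 2 - v 1 ^ 2 - (-v 2) ^ 2 + v 3 ^ 2 = 2 ^ 0 * ι ^ 0 * (v 0 ^ 2 - v 1 ^ 2 - v 2 ^ 2 + v 3 ^ 2)
    ring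
  · show 2 * ((-v 0) * v 1 + (-v 2) * v 3) = 2 ^ 0 * ι ^ 2 * (2 * (v 0 * v 1 + v 2 * v 3))
    linear_combination ((-2) * v 2 ^ 1 * v 3 ^ 1 + (-2) * v 0 ^ 1 * v 1 ^ 1) * hι
  · show 2 * ((-v 0) * v 1 - (-v 2) * v 3) = 2 ^ 0 * ι ^ 2 * (2 * (v 0 * v 1 - v 2 * v 3))
    linear_combination (2 * v 2 ^ 1 * v 3 ^ 1 + (-2) * v 0 ^ 1 * v 1 ^ 1) * hι
  · show 2 * ((-v 0) * (-v 2) + v 1 * v 3) = 2 ^ 0 * ι ^ 0 * (2 * (v 0 * v 2 + v 1 * v 3))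
    ring
  · show 2 * ((-v 0) * (-v 2) - v 1 * v 3) = 2 ^ 0 * ι ^ 0 * (2 * (v 0 * v 2 - v 1 * v 3))
    ring
  · show 2 * ((-v 0) * v 3 + v 1 * (-v 2)) = 2 ^ 0 * ι ^ 2 * (2 * (v 0 * v 3 + v 1 * v 2))
    linear_combination ((-2) * v 1 ^ 1 * v 2 ^ 1 + (-2) * v 0 ^ 1 * v 3 ^ 1) * hι
  · show 2 * ((-v 0) * v 3 - v 1 * (-v 2)) = 2 ^ 0 * ι ^ 2 * (2 * (v 0 * v 3 - v 1 * v 2))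
    linear_combination (2 * v 1 ^ 1 * v 2 ^ 1 + (-2) * v 0 ^ 1 * v 3 ^ 1) * hι

private theorem oks6 : Ok (Sum.inl ![false, true, true, false]) := by
  refine ⟨⟨![0, 1, 2, 3, 4, 5, 6, 7, 8, 9], ![0, 1, 2, 3, 4, 5, 6, 7, 8, 9], by decide, by decide⟩, ![0, 0, 0, 0, 0, 0, 0, 0, 0, 0], ![0, 0, 0, 0, 2, 2, 2, 2, 0, 0], ?_⟩
  intro S _ ι hι v
  refine q10 _ ?_ ?_ ?_ ?_ ?_ ?_ ?_ ?_ ?_ ?_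
  · show v 0 ^ 2 + (-v 1) ^ 2 + (-v 2) ^ 2 + v 3 ^ 2 = 2 ^ 0 * ι ^ 0 * (v 0 ^ 2 + v 1 ^ 2 + v 2 ^ 2 + v 3 ^ 2)
    ring
  · show v 0 ^ 2 + (-v 1) ^ 2 - (-v 2) ^ 2 - v 3 ^ 2 = 2 ^ 0 * ι ^ 0 * (v 0 ^ 2 + v 1 ^ 2 - v 2 ^ 2 - v 3 ^ 2)
    ring
  · show v 0 ^ 2 - (-v 1) ^ 2 + (-v 2) ^ 2 - v 3 ^ 2 = 2 ^ 0 * ι ^ 0 * (v 0 ^ 2 - v 1 ^ 2 + v 2 ^ 2 - v 3 ^ 2)
    ring
  · show v 0 ^ 2 - (-v 1) ^ 2 - (-v 2) ^ 2 + v 3 ^ 2 = 2 ^ 0 * ι ^ 0 * (v 0 ^ 2 - v 1 ^ 2 - v 2 ^ 2 + v 3 ^ 2)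
    ring
  · show 2 * (v 0 * (-v 1) + (-v 2) * v 3) = 2 ^ 0 * ι ^ 2 * (2 * (v 0 * v 1 + v 2 * v 3))
    linear_combination ((-2) * v 2 ^ 1 * v 3 ^ 1 + (-2) * v 0 ^ 1 * v 1 ^ 1) * hι
  · show 2 * (v 0 * (-v 1) - (-v 2) * v 3) = 2 ^ 0 * ι ^ 2 * (2 * (v 0 * v 1 - v 2 * v 3))
    linear_combination (2 * v 2 ^ 1 * v 3 ^ 1 + (-2) * v 0 ^ 1 * v 1 ^ 1) * hι
  · show 2 * (v 0 * (-v 2) + (-v 1) * v 3) = 2 ^ 0 * ι ^ 2 * (2 * (v 0 * v 2 + v 1 * v 3))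
    linear_combination ((-2) * v 1 ^ 1 * v 3 ^ 1 + (-2) * v 0 ^ 1 * v 2 ^ 1) * hι
  · show 2 * (v 0 * (-v 2) - (-v 1) * v 3) = 2 ^ 0 * ι ^ 2 * (2 * (v 0 * v 2 - v 1 * v 3))
    linear_combination (2 * v 1 ^ 1 * v 3 ^ 1 + (-2) * v 0 ^ 1 * v 2 ^ 1) * hι
  · show 2 * (v 0 * v 3 + (-v 1) * (-v 2)) = 2 ^ 0 * ι ^ 0 * (2 * (v 0 * v 3 + v 1 * v 2))
    ring
  · show 2 * (v 0 * v 3 - (-v 1) * (-v 2)) = 2 ^ 0 * ι ^ 0 * (2 * (v 0 * v 3 - v 1 * v 2))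
    ring

private theorem oks7 : Ok (Sum.inl ![true, true, true, false]) := by
  refine ⟨⟨![0, 1, 2, 3, 5, 4, 7, 6, 9, 8], ![0, 1, 2, 3, 5, 4, 7, 6, 9, 8], by decide, by decide⟩, ![0, 0, 0, 0, 0, 0, 0, 0, 0, 0], ![0, 0, 0, 0, 0, 0, 0, 0, 2, 2], ?_⟩
  intro S _ ι hι v
  refine q10 _ ?_ ?_ ?_ ?_ ?_ ?_ ?_ ?_ ?_ ?_
  · show (-v 0) ^ 2 + (-v 1) ^ 2 + (-v 2) ^ 2 + v 3 ^ 2 = 2 ^ 0 * ι ^ 0 * (v 0 ^ 2 + v 1 ^ 2 + v 2 ^ 2 + v 3 ^ 2)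
    ring
  · show (-v 0) ^ 2 + (-v 1) ^ 2 - (-v 2) ^ 2 - v 3 ^ 2 = 2 ^ 0 * ι ^ 0 * (v 0 ^ 2 + v 1 ^ 2 - v 2 ^ 2 - v 3 ^ 2)
    ring
  · show (-v 0) ^ 2 - (-v 1) ^ 2 + (-v 2) ^ 2 - v 3 ^ 2 = 2 ^ 0 * ι ^ 0 * (v 0 ^ 2 - v 1 ^ 2 + v 2 ^ 2 - v 3 ^ 2)
    ring
  · show (-v 0) ^ 2 - (-v 1) ^ 2 - (-v 2) ^ 2 + v 3 ^ 2 = 2 ^ 0 * ι ^ 0 * (v 0 ^ 2 - v 1 ^ 2 - v 2 ^ 2 + v 3 ^ 2)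
    ring
  · show 2 * ((-v 0) * (-v 1) + (-v 2) * v 3) = 2 ^ 0 * ι ^ 0 * (2 * (v 0 * v 1 - v 2 * v 3))
    ring
  · show 2 * ((-v 0) * (-v 1) - (-v 2) * v 3) = 2 ^ 0 * ι ^ 0 * (2 * (v 0 * v 1 + v 2 * v 3))
    ring
  · show 2 * ((-v 0) * (-v 2) + (-v 1) * v 3) = 2 ^ 0 * ι ^ 0 * (2 * (v 0 * v 2 - v 1 * v 3))
    ring
  · show 2 * ((-v 0) * (-v 2) - (-v 1) * v 3) = 2 ^ 0 * ι ^ 0 * (2 * (v 0 * v 2 + v 1 * v 3))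
    ring
  · show 2 * ((-v 0) * v 3 + (-v 1) * (-v 2)) = 2 ^ 0 * ι ^ 2 * (2 * (v 0 * v 3 - v 1 * v 2))
    linear_combination (2 * v 1 ^ 1 * v 2 ^ 1 + (-2) * v 0 ^ 1 * v 3 ^ 1) * hι
  · show 2 * ((-v 0) * v 3 - (-v 1) * (-v 2)) = 2 ^ 0 * ι ^ 2 * (2 * (v 0 * v 3 + v 1 * v 2))
    linear_combination ((-2) * v 1 ^ 1 * v 2 ^ 1 + (-2) * v 0 ^ 1 * v 3 ^ 1) * hι

private theorem oks8 : Ok (Sum.inl ![false, false, false, true]) := by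
  refine ⟨⟨![0, 1, 2, 3, 5, 4, 7, 6, 9, 8], ![0, 1, 2, 3, 5, 4, 7, 6, 9, 8], by decide, by decide⟩, ![0, 0, 0, 0, 0, 0, 0, 0, 0, 0], ![0, 0, 0, 0, 0, 0, 0, 0, 2, 2], ?_⟩
  intro S _ ι hι v
  refine q10 _ ?_ ?_ ?_ ?_ ?_ ?_ ?_ ?_ ?_ ?_
  · show v 0 ^ 2 + v 1 ^ 2 + v 2 ^ 2 + (-v 3) ^ 2 = 2 ^ 0 * ι ^ 0 * (v 0 ^ 2 + v 1 ^ 2 + v 2 ^ 2 + v 3 ^ 2)
    ring
  · show v 0 ^ 2 + v 1 ^ 2 - v 2 ^ 2 - (-v 3) ^ 2 = 2 ^ 0 * ι ^ 0 * (v 0 ^ 2 + v 1 ^ 2 - v 2 ^ 2 - v 3 ^ 2)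
    ring
  · show v 0 ^ 2 - v 1 ^ 2 + v 2 ^ 2 - (-v 3) ^ 2 = 2 ^ 0 * ι ^ 0 * (v 0 ^ 2 - v 1 ^ 2 + v 2 ^ 2 - v 3 ^ 2)
    ring
  · show v 0 ^ 2 - v 1 ^ 2 - v 2 ^ 2 + (-v 3) ^ 2 = 2 ^ 0 * ι ^ 0 * (v 0 ^ 2 - v 1 ^ 2 - v 2 ^ 2 + v 3 ^ 2)
    ring
  · show 2 * (v 0 * v 1 + v 2 * (-v 3)) = 2 ^ 0 * ι ^ 0 * (2 * (v 0 * v 1 - v 2 * v 3))
    ring
  · show 2 * (v 0 * v 1 - v 2 * (-v 3)) = 2 ^ 0 * ι ^ 0 * (2 * (v 0 * v 1 + v 2 * v 3))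
    ring
  · show 2 * (v 0 * v 2 + v 1 * (-v 3)) = 2 ^ 0 * ι ^ 0 * (2 * (v 0 * v 2 - v 1 * v 3))
    ring
  · show 2 * (v 0 * v 2 - v 1 * (-v 3)) = 2 ^ 0 * ι ^ 0 * (2 * (v 0 * v 2 + v 1 * v 3))
    ring
  · show 2 * (v 0 * (-v 3) + v 1 * v 2) = 2 ^ 0 * ι ^ 2 * (2 * (v 0 * v 3 - v 1 * v 2))
    linear_combination (2 * v 1 ^ 1 * v 2 ^ 1 + (-2) * v 0 ^ 1 * v 3 ^ 1) * hι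
  · show 2 * (v 0 * (-v 3) - v 1 * v 2) = 2 ^ 0 * ι ^ 2 * (2 * (v 0 * v 3 + v 1 * v 2))
    linear_combination ((-2) * v 1 ^ 1 * v 2 ^ 1 + (-2) * v 0 ^ 1 * v 3 ^ 1) * hι

private theorem oks9 : Ok (Sum.inl ![true, false, false, true]) := by
  refine ⟨⟨![0, 1, 2, 3, 4, 5, 6, 7, 8, 9], ![0, 1, 2, 3, 4, 5, 6, 7, 8, 9], by decide, by decide⟩, ![0, 0, 0, 0, 0, 0, 0, 0, 0, 0], ![0, 0, 0, 0, 2, 2, 2, 2, 0, 0], ?_⟩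
  intro S _ ι hι v
  refine q10 _ ?_ ?_ ?_ ?_ ?_ ?_ ?_ ?_ ?_ ?_
  · show (-v 0) ^ 2 + v 1 ^ 2 + v 2 ^ 2 + (-v 3) ^ 2 = 2 ^ 0 * ι ^ 0 * (v 0 ^ 2 + v 1 ^ 2 + v 2 ^ 2 + v 3 ^ 2)
    ring
  · show (-v 0) ^ 2 + v 1 ^ 2 - v 2 ^ 2 - (-v 3) ^ 2 = 2 ^ 0 * ι ^ 0 * (v 0 ^ 2 + v 1 ^ 2 - v 2 ^ 2 - v 3 ^ 2)
    ring
  · show (-v 0) ^ 2 - v 1 ^ 2 + v 2 ^ 2 - (-v 3) ^ 2 = 2 ^ 0 * ι ^ 0 * (v 0 ^ 2 - v 1 ^ 2 + v 2 ^ 2 - v 3 ^ 2)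
    ring
  · show (-v 0) ^ 2 - v 1 ^ 2 - v 2 ^ 2 + (-v 3) ^ 2 = 2 ^ 0 * ι ^ 0 * (v 0 ^ 2 - v 1 ^ 2 - v 2 ^ 2 + v 3 ^ 2)
    ring
  · show 2 * ((-v 0) * v 1 + v 2 * (-v 3)) = 2 ^ 0 * ι ^ 2 * (2 * (v 0 * v 1 + v 2 * v 3))
    linear_combination ((-2) * v 2 ^ 1 * v 3 ^ 1 + (-2) * v 0 ^ 1 * v 1 ^ 1) * hι
  · show 2 * ((-v 0) * v 1 - v 2 * (-v 3)) = 2 ^ 0 * ι ^ 2 * (2 * (v 0 * v 1 - v 2 * v 3))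
    linear_combination (2 * v 2 ^ 1 * v 3 ^ 1 + (-2) * v 0 ^ 1 * v 1 ^ 1) * hι
  · show 2 * ((-v 0) * v 2 + v 1 * (-v 3)) = 2 ^ 0 * ι ^ 2 * (2 * (v 0 * v 2 + v 1 * v 3))
    linear_combination ((-2) * v 1 ^ 1 * v 3 ^ 1 + (-2) * v 0 ^ 1 * v 2 ^ 1) * hι
  · show 2 * ((-v 0) * v 2 - v 1 * (-v 3)) = 2 ^ 0 * ι ^ 2 * (2 * (v 0 * v 2 - v 1 * v 3))
    linear_combination (2 * v 1 ^ 1 * v 3 ^ 1 + (-2) * v 0 ^ 1 * v 2 ^ 1) * hι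
  · show 2 * ((-v 0) * (-v 3) + v 1 * v 2) = 2 ^ 0 * ι ^ 0 * (2 * (v 0 * v 3 + v 1 * v 2))
    ring
  · show 2 * ((-v 0) * (-v 3) - v 1 * v 2) = 2 ^ 0 * ι ^ 0 * (2 * (v 0 * v 3 - v 1 * v 2))
    ring

private theorem oks10 : Ok (Sum.inl ![false, true, false, true]) := by
  refine ⟨⟨![0, 1, 2, 3, 4, 5, 6, 7, 8, 9], ![0, 1, 2, 3, 4, 5, 6, 7, 8, 9], by decide, by decide⟩, ![0, 0, 0, 0, 0, 0, 0, 0, 0, 0], ![0, 0, 0, 0, 2, 2, 0, 0, 2, 2], ?_⟩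
  intro S _ ι hι v
  refine q10 _ ?_ ?_ ?_ ?_ ?_ ?_ ?_ ?_ ?_ ?_
  · show v 0 ^ 2 + (-v 1) ^ 2 + v 2 ^ 2 + (-v 3) ^ 2 = 2 ^ 0 * ι ^ 0 * (v 0 ^ 2 + v 1 ^ 2 + v 2 ^ 2 + v 3 ^ 2)
    ring
  · show v 0 ^ 2 + (-v 1) ^ 2 - v 2 ^ 2 - (-v 3) ^ 2 = 2 ^ 0 * ι ^ 0 * (v 0 ^ 2 + v 1 ^ 2 - v 2 ^ 2 - v 3 ^ 2)
    ring
  · show v 0 ^ 2 - (-v 1) ^ 2 + v 2 ^ 2 - (-v 3) ^ 2 = 2 ^ 0 * ι ^ 0 * (v 0 ^ 2 - v 1 ^ 2 + v 2 ^ 2 - v 3 ^ 2)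
    ring
  · show v 0 ^ 2 - (-v 1) ^ 2 - v 2 ^ 2 + (-v 3) ^ 2 = 2 ^ 0 * ι ^ 0 * (v 0 ^ 2 - v 1 ^ 2 - v 2 ^ 2 + v 3 ^ 2)
    ring
  · show 2 * (v 0 * (-v 1) + v 2 * (-v 3)) = 2 ^ 0 * ι ^ 2 * (2 * (v 0 * v 1 + v 2 * v 3))
    linear_combination ((-2) * v 2 ^ 1 * v 3 ^ 1 + (-2) * v 0 ^ 1 * v 1 ^ 1) * hι
  · show 2 * (v 0 * (-v 1) - v 2 * (-v 3)) = 2 ^ 0 * ι ^ 2 * (2 * (v 0 * v 1 - v 2 * v 3))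
    linear_combination (2 * v 2 ^ 1 * v 3 ^ 1 + (-2) * v 0 ^ 1 * v 1 ^ 1) * hι
  · show 2 * (v 0 * v 2 + (-v 1) * (-v 3)) = 2 ^ 0 * ι ^ 0 * (2 * (v 0 * v 2 + v 1 * v 3))
    ring
  · show 2 * (v 0 * v 2 - (-v 1) * (-v 3)) = 2 ^ 0 * ι ^ 0 * (2 * (v 0 * v 2 - v 1 * v 3))
    ring
  · show 2 * (v 0 * (-v 3) + (-v 1) * v 2) = 2 ^ 0 * ι ^ 2 * (2 * (v 0 * v 3 + v 1 * v 2))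
    linear_combination ((-2) * v 1 ^ 1 * v 2 ^ 1 + (-2) * v 0 ^ 1 * v 3 ^ 1) * hι
  · show 2 * (v 0 * (-v 3) - (-v 1) * v 2) = 2 ^ 0 * ι ^ 2 * (2 * (v 0 * v 3 - v 1 * v 2))
    linear_combination (2 * v 1 ^ 1 * v 2 ^ 1 + (-2) * v 0 ^ 1 * v 3 ^ 1) * hι

private theorem oks11 : Ok (Sum.inl ![true, true, false, true]) := by
  refine ⟨⟨![0, 1, 2, 3, 5, 4, 7, 6, 9, 8], ![0, 1, 2, 3, 5, 4, 7, 6, 9, 8], by decide, by decide⟩, ![0, 0, 0, 0, 0, 0, 0, 0, 0, 0], ![0, 0, 0, 0, 0, 0, 2, 2, 0, 0], ?_⟩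
  intro S _ ι hι v
  refine q10 _ ?_ ?_ ?_ ?_ ?_ ?_ ?_ ?_ ?_ ?_
  · show (-v 0) ^ 2 + (-v 1) ^ 2 + v 2 ^ 2 + (-v 3) ^ 2 = 2 ^ 0 * ι ^ 0 * (v 0 ^ 2 + v 1 ^ 2 + v 2 ^ 2 + v 3 ^ 2)
    ring
  · show (-v 0) ^ 2 + (-v 1) ^ 2 - v 2 ^ 2 - (-v 3) ^ 2 = 2 ^ 0 * ι ^ 0 * (v 0 ^ 2 + v 1 ^ 2 - v 2 ^ 2 - v 3 ^ 2)
    ring
  · show (-v 0) ^ 2 - (-v 1) ^ 2 + v 2 ^ 2 - (-v 3) ^ 2 = 2 ^ 0 * ι ^ 0 * (v 0 ^ 2 - v 1 ^ 2 + v 2 ^ 2 - v 3 ^ 2)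
    ring
  · show (-v 0) ^ 2 - (-v 1) ^ 2 - v 2 ^ 2 + (-v 3) ^ 2 = 2 ^ 0 * ι ^ 0 * (v 0 ^ 2 - v 1 ^ 2 - v 2 ^ 2 + v 3 ^ 2)
    ring
  · show 2 * ((-v 0) * (-v 1) + v 2 * (-v 3)) = 2 ^ 0 * ι ^ 0 * (2 * (v 0 * v 1 - v 2 * v 3))
    ring
  · show 2 * ((-v 0) * (-v 1) - v 2 * (-v 3)) = 2 ^ 0 * ι ^ 0 * (2 * (v 0 * v 1 + v 2 * v 3))
    ring
  · show 2 * ((-v 0) * v 2 + (-v 1) * (-v 3)) = 2 ^ 0 * ι ^ 2 * (2 * (v 0 * v 2 - v 1 * v 3))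
    linear_combination (2 * v 1 ^ 1 * v 3 ^ 1 + (-2) * v 0 ^ 1 * v 2 ^ 1) * hι
  · show 2 * ((-v 0) * v 2 - (-v 1) * (-v 3)) = 2 ^ 0 * ι ^ 2 * (2 * (v 0 * v 2 + v 1 * v 3))
    linear_combination ((-2) * v 1 ^ 1 * v 3 ^ 1 + (-2) * v 0 ^ 1 * v 2 ^ 1) * hι
  · show 2 * ((-v 0) * (-v 3) + (-v 1) * v 2) = 2 ^ 0 * ι ^ 0 * (2 * (v 0 * v 3 - v 1 * v 2))
    ring
  · show 2 * ((-v 0) * (-v 3) - (-v 1) * v 2) = 2 ^ 0 * ι ^ 0 * (2 * (v 0 * v 3 + v 1 * v 2))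
    ring

private theorem oks12 : Ok (Sum.inl ![false, false, true, true]) := by
  refine ⟨⟨![0, 1, 2, 3, 4, 5, 6, 7, 8, 9], ![0, 1, 2, 3, 4, 5, 6, 7, 8, 9], by decide, by decide⟩, ![0, 0, 0, 0, 0, 0, 0, 0, 0, 0], ![0, 0, 0, 0, 0, 0, 2, 2, 2, 2], ?_⟩
  intro S _ ι hι v
  refine q10 _ ?_ ?_ ?_ ?_ ?_ ?_ ?_ ?_ ?_ ?_
  · show v 0 ^ 2 + v 1 ^ 2 + (-v 2) ^ 2 + (-v 3) ^ 2 = 2 ^ 0 * ι ^ 0 * (v 0 ^ 2 + v 1 ^ 2 + v 2 ^ 2 + v 3 ^ 2)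
    ring
  · show v 0 ^ 2 + v 1 ^ 2 - (-v 2) ^ 2 - (-v 3) ^ 2 = 2 ^ 0 * ι ^ 0 * (v 0 ^ 2 + v 1 ^ 2 - v 2 ^ 2 - v 3 ^ 2)
    ring
  · show v 0 ^ 2 - v 1 ^ 2 + (-v 2) ^ 2 - (-v 3) ^ 2 = 2 ^ 0 * ι ^ 0 * (v 0 ^ 2 - v 1 ^ 2 + v 2 ^ 2 - v 3 ^ 2)
    ring
  · show v 0 ^ 2 - v 1 ^ 2 - (-v 2) ^ 2 + (-v 3) ^ 2 = 2 ^ 0 * ι ^ 0 * (v 0 ^ 2 - v 1 ^ 2 - v 2 ^ 2 + v 3 ^ 2)
    ring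
  · show 2 * (v 0 * v 1 + (-v 2) * (-v 3)) = 2 ^ 0 * ι ^ 0 * (2 * (v 0 * v 1 + v 2 * v 3))
    ring
  · show 2 * (v 0 * v 1 - (-v 2) * (-v 3)) = 2 ^ 0 * ι ^ 0 * (2 * (v 0 * v 1 - v 2 * v 3))
    ring
  · show 2 * (v 0 * (-v 2) + v 1 * (-v 3)) = 2 ^ 0 * ι ^ 2 * (2 * (v 0 * v 2 + v 1 * v 3))
    linear_combination ((-2) * v 1 ^ 1 * v 3 ^ 1 + (-2) * v 0 ^ 1 * v 2 ^ 1) * hι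
  · show 2 * (v 0 * (-v 2) - v 1 * (-v 3)) = 2 ^ 0 * ι ^ 2 * (2 * (v 0 * v 2 - v 1 * v 3))
    linear_combination (2 * v 1 ^ 1 * v 3 ^ 1 + (-2) * v 0 ^ 1 * v 2 ^ 1) * hι
  · show 2 * (v 0 * (-v 3) + v 1 * (-v 2)) = 2 ^ 0 * ι ^ 2 * (2 * (v 0 * v 3 + v 1 * v 2))
    linear_combination ((-2) * v 1 ^ 1 * v 2 ^ 1 + (-2) * v 0 ^ 1 * v 3 ^ 1) * hι
  · show 2 * (v 0 * (-v 3) - v 1 * (-v 2)) = 2 ^ 0 * ι ^ 2 * (2 * (v 0 * v 3 - v 1 * v 2))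
    linear_combination (2 * v 1 ^ 1 * v 2 ^ 1 + (-2) * v 0 ^ 1 * v 3 ^ 1) * hι

private theorem oks13 : Ok (Sum.inl ![true, false, true, true]) := by
  refine ⟨⟨![0, 1, 2, 3, 5, 4, 7, 6, 9, 8], ![0, 1, 2, 3, 5, 4, 7, 6, 9, 8], by decide, by decide⟩, ![0, 0, 0, 0, 0, 0, 0, 0, 0, 0], ![0, 0, 0, 0, 2, 2, 0, 0, 0, 0], ?_⟩
  intro S _ ι hι v
  refine q10 _ ?_ ?_ ?_ ?_ ?_ ?_ ?_ ?_ ?_ ?_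
  · show (-v 0) ^ 2 + v 1 ^ 2 + (-v 2) ^ 2 + (-v 3) ^ 2 = 2 ^ 0 * ι ^ 0 * (v 0 ^ 2 + v 1 ^ 2 + v 2 ^ 2 + v 3 ^ 2)
    ring
  · show (-v 0) ^ 2 + v 1 ^ 2 - (-v 2) ^ 2 - (-v 3) ^ 2 = 2 ^ 0 * ι ^ 0 * (v 0 ^ 2 + v 1 ^ 2 - v 2 ^ 2 - v 3 ^ 2)
    ring
  · show (-v 0) ^ 2 - v 1 ^ 2 + (-v 2) ^ 2 - (-v 3) ^ 2 = 2 ^ 0 * ι ^ 0 * (v 0 ^ 2 - v 1 ^ 2 + v 2 ^ 2 - v 3 ^ 2)
    ring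
  · show (-v 0) ^ 2 - v 1 ^ 2 - (-v 2) ^ 2 + (-v 3) ^ 2 = 2 ^ 0 * ι ^ 0 * (v 0 ^ 2 - v 1 ^ 2 - v 2 ^ 2 + v 3 ^ 2)
    ring
  · show 2 * ((-v 0) * v 1 + (-v 2) * (-v 3)) = 2 ^ 0 * ι ^ 2 * (2 * (v 0 * v 1 - v 2 * v 3))
    linear_combination (2 * v 2 ^ 1 * v 3 ^ 1 + (-2) * v 0 ^ 1 * v 1 ^ 1) * hι
  · show 2 * ((-v 0) * v 1 - (-v 2) * (-v 3)) = 2 ^ 0 * ι ^ 2 * (2 * (v 0 * v 1 + v 2 * v 3))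
    linear_combination ((-2) * v 2 ^ 1 * v 3 ^ 1 + (-2) * v 0 ^ 1 * v 1 ^ 1) * hι
  · show 2 * ((-v 0) * (-v 2) + v 1 * (-v 3)) = 2 ^ 0 * ι ^ 0 * (2 * (v 0 * v 2 - v 1 * v 3))
    ring
  · show 2 * ((-v 0) * (-v 2) - v 1 * (-v 3)) = 2 ^ 0 * ι ^ 0 * (2 * (v 0 * v 2 + v 1 * v 3))
    ring
  · show 2 * ((-v 0) * (-v 3) + v 1 * (-v 2)) = 2 ^ 0 * ι ^ 0 * (2 * (v 0 * v 3 - v 1 * v 2))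
    ring
  · show 2 * ((-v 0) * (-v 3) - v 1 * (-v 2)) = 2 ^ 0 * ι ^ 0 * (2 * (v 0 * v 3 + v 1 * v 2))
    ring

private theorem oks14 : Ok (Sum.inl ![false, true, true, true]) := by
  refine ⟨⟨![0, 1, 2, 3, 5, 4, 7, 6, 9, 8], ![0, 1, 2, 3, 5, 4, 7, 6, 9, 8], by decide, by decide⟩, ![0, 0, 0, 0, 0, 0, 0, 0, 0, 0], ![0, 0, 0, 0, 2, 2, 2, 2, 2, 2], ?_⟩
  intro S _ ι hι v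
  refine q10 _ ?_ ?_ ?_ ?_ ?_ ?_ ?_ ?_ ?_ ?_
  · show v 0 ^ 2 + (-v 1) ^ 2 + (-v 2) ^ 2 + (-v 3) ^ 2 = 2 ^ 0 * ι ^ 0 * (v 0 ^ 2 + v 1 ^ 2 + v 2 ^ 2 + v 3 ^ 2)
    ring
  · show v 0 ^ 2 + (-v 1) ^ 2 - (-v 2) ^ 2 - (-v 3) ^ 2 = 2 ^ 0 * ι ^ 0 * (v 0 ^ 2 + v 1 ^ 2 - v 2 ^ 2 - v 3 ^ 2)
    ring
  · show v 0 ^ 2 - (-v 1) ^ 2 + (-v 2) ^ 2 - (-v 3) ^ 2 = 2 ^ 0 * ι ^ 0 * (v 0 ^ 2 - v 1 ^ 2 + v 2 ^ 2 - v 3 ^ 2)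
    ring
  · show v 0 ^ 2 - (-v 1) ^ 2 - (-v 2) ^ 2 + (-v 3) ^ 2 = 2 ^ 0 * ι ^ 0 * (v 0 ^ 2 - v 1 ^ 2 - v 2 ^ 2 + v 3 ^ 2)
    ring
  · show 2 * (v 0 * (-v 1) + (-v 2) * (-v 3)) = 2 ^ 0 * ι ^ 2 * (2 * (v 0 * v 1 - v 2 * v 3))
    linear_combination (2 * v 2 ^ 1 * v 3 ^ 1 + (-2) * v 0 ^ 1 * v 1 ^ 1) * hι
  · show 2 * (v 0 * (-v 1) - (-v 2) * (-v 3)) = 2 ^ 0 * ι ^ 2 * (2 * (v 0 * v 1 + v 2 * v 3))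
    linear_combination ((-2) * v 2 ^ 1 * v 3 ^ 1 + (-2) * v 0 ^ 1 * v 1 ^ 1) * hι
  · show 2 * (v 0 * (-v 2) + (-v 1) * (-v 3)) = 2 ^ 0 * ι ^ 2 * (2 * (v 0 * v 2 - v 1 * v 3))
    linear_combination (2 * v 1 ^ 1 * v 3 ^ 1 + (-2) * v 0 ^ 1 * v 2 ^ 1) * hι
  · show 2 * (v 0 * (-v 2) - (-v 1) * (-v 3)) = 2 ^ 0 * ι ^ 2 * (2 * (v 0 * v 2 + v 1 * v 3))
    linear_combination ((-2) * v 1 ^ 1 * v 3 ^ 1 + (-2) * v 0 ^ 1 * v 2 ^ 1) * hι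
  · show 2 * (v 0 * (-v 3) + (-v 1) * (-v 2)) = 2 ^ 0 * ι ^ 2 * (2 * (v 0 * v 3 - v 1 * v 2))
    linear_combination (2 * v 1 ^ 1 * v 2 ^ 1 + (-2) * v 0 ^ 1 * v 3 ^ 1) * hι
  · show 2 * (v 0 * (-v 3) - (-v 1) * (-v 2)) = 2 ^ 0 * ι ^ 2 * (2 * (v 0 * v 3 + v 1 * v 2))
    linear_combination ((-2) * v 1 ^ 1 * v 2 ^ 1 + (-2) * v 0 ^ 1 * v 3 ^ 1) * hι

private theorem oks15 : Ok (Sum.inl ![true, true, true, true]) := by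
  refine ⟨⟨![0, 1, 2, 3, 4, 5, 6, 7, 8, 9], ![0, 1, 2, 3, 4, 5, 6, 7, 8, 9], by decide, by decide⟩, ![0, 0, 0, 0, 0, 0, 0, 0, 0, 0], ![0, 0, 0, 0, 0, 0, 0, 0, 0, 0], ?_⟩
  intro S _ ι hι v
  refine q10 _ ?_ ?_ ?_ ?_ ?_ ?_ ?_ ?_ ?_ ?_
  · show (-v 0) ^ 2 + (-v 1) ^ 2 + (-v 2) ^ 2 + (-v 3) ^ 2 = 2 ^ 0 * ι ^ 0 * (v 0 ^ 2 + v 1 ^ 2 + v 2 ^ 2 + v 3 ^ 2)
    ring
  · show (-v 0) ^ 2 + (-v 1) ^ 2 - (-v 2) ^ 2 - (-v 3) ^ 2 = 2 ^ 0 * ι ^ 0 * (v 0 ^ 2 + v 1 ^ 2 - v 2 ^ 2 - v 3 ^ 2)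
    ring
  · show (-v 0) ^ 2 - (-v 1) ^ 2 + (-v 2) ^ 2 - (-v 3) ^ 2 = 2 ^ 0 * ι ^ 0 * (v 0 ^ 2 - v 1 ^ 2 + v 2 ^ 2 - v 3 ^ 2)
    ring
  · show (-v 0) ^ 2 - (-v 1) ^ 2 - (-v 2) ^ 2 + (-v 3) ^ 2 = 2 ^ 0 * ι ^ 0 * (v 0 ^ 2 - v 1 ^ 2 - v 2 ^ 2 + v 3 ^ 2)
    ring
  · show 2 * ((-v 0) * (-v 1) + (-v 2) * (-v 3)) = 2 ^ 0 * ι ^ 0 * (2 * (v 0 * v 1 + v 2 * v 3))
    ring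
  · show 2 * ((-v 0) * (-v 1) - (-v 2) * (-v 3)) = 2 ^ 0 * ι ^ 0 * (2 * (v 0 * v 1 - v 2 * v 3))
    ring
  · show 2 * ((-v 0) * (-v 2) + (-v 1) * (-v 3)) = 2 ^ 0 * ι ^ 0 * (2 * (v 0 * v 2 + v 1 * v 3))
    ring
  · show 2 * ((-v 0) * (-v 2) - (-v 1) * (-v 3)) = 2 ^ 0 * ι ^ 0 * (2 * (v 0 * v 2 - v 1 * v 3))
    ring
  · show 2 * ((-v 0) * (-v 3) + (-v 1) * (-v 2)) = 2 ^ 0 * ι ^ 0 * (2 * (v 0 * v 3 + v 1 * v 2))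
    ring
  · show 2 * ((-v 0) * (-v 3) - (-v 1) * (-v 2)) = 2 ^ 0 * ι ^ 0 * (2 * (v 0 * v 3 - v 1 * v 2))
    ring

private theorem ok_comp {g g1 g2 : GG} (h1 : Ok g1) (h2 : Ok g2)
    (h : ∀ (S : Type) [CommRing S] (ι : S) (v : Fin 4 → S), act ι g v = act ι g1 (act ι g2 v)) : Ok g := by
  obtain ⟨π1, e1, j1, H1⟩ := h1
  obtain ⟨π2, e2, j2, H2⟩ := h2
  refine ⟨π1.trans π2, fun m => e1 m + e2 (π1 m), fun m => j1 m + j2 (π1 m), ?_⟩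
  intro S _ ι hι v m
  rw [h, H1 S ι hι, H2 S ι hι]
  show _ = 2 ^ (e1 m + e2 (π1 m)) * ι ^ (j1 m + j2 (π1 m)) * qf v (π2 (π1 m))
  ring

private theorem ok_all (g : GG) : Ok g := by
  rcases g with e | ⟨a, b⟩
  · obtain ⟨b0, b1, b2, b3, rfl⟩ : ∃ b0 b1 b2 b3 : Bool, e = ![b0, b1, b2, b3] :=
      ⟨e 0, e 1, e 2, e 3, by ext i; fin_cases i <;> rfl⟩
    cases b0 <;> cases b1 <;> cases b2 <;> cases b3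
    exacts [oks0, oks8, oks4, oks12, oks2, oks10, oks6, oks14, oks1, oks9, oks5, oks13, oks3, oks11, oks7, oks15]
  · have ha : Ok (Sum.inr (a, 0)) := q6 (fun a => Ok (Sum.inr (a, 0))) oka0 oka1 oka2 oka3 oka4 oka5 a
    have hb : Ok (Sum.inr (0, b)) := q6 (fun b => Ok (Sum.inr (0, b))) okb0 okb1 okb2 okb3 okb4 okb5 b
    exact ok_comp hb ha (fun S _ ι v => rfl)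

/-- Each matrix permutes the ten forms up to factors. -/
theorem qf_act (g : GG) : ∃ π : Equiv.Perm (Fin 10), ∀ m, ∃ e j : ℕ, ∀ (S : Type) [CommRing S]
    (ι : S), ι ^ 2 = -1 → ∀ v : Fin 4 → S, qf (act ι g v) m = 2 ^ e * ι ^ j * qf v (π m) := by
  obtain ⟨π, e, j, H⟩ := ok_all g
  exact ⟨π, fun m => ⟨e m, j m, fun S _ ι hι v => H S ι hι v m⟩⟩

/-- the inverse of a `2 × 2` matrix up to the factor `2` -/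
private theorem m6_inv {S : Type*} [CommRing S] {ι : S} (hι : ι ^ 2 = -1) (j : Fin 6) :
    ∃ c1 c2 d1 d2 : S, ∀ x y : S, 2 * x = c1 * (m6 ι j x y).1 + c2 * (m6 ι j x y).2 ∧
      2 * y = d1 * (m6 ι j x y).1 + d2 * (m6 ι j x y).2 := by
  revert j
  refine q6 _ ?_ ?_ ?_ ?_ ?_ ?_
  · refine ⟨2, 0, 0, 2, fun x y => ⟨?_, ?_⟩⟩
    · show 2 * x = (2) * x + (0) * y
      ring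
    · show 2 * y = (0) * x + (2) * y
      ring
  · refine ⟨2, 0, 0, -2, fun x y => ⟨?_, ?_⟩⟩
    · show 2 * x = (2) * x + (0) * (-y)
      ring
    · show 2 * y = (0) * x + (-2) * (-y)
      ring
  · refine ⟨2, 0, 0, -(2 * ι), fun x y => ⟨?_, ?_⟩⟩
    · show 2 * x = (2) * x + (0) * (ι * y)
      ring
    · show 2 * y = (0) * x + (-(2 * ι)) * (ι * y)
      linear_combination (2 * y) * hι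
  · refine ⟨2, 0, 0, 2 * ι, fun x y => ⟨?_, ?_⟩⟩
    · show 2 * x = (2) * x + (0) * (-(ι * y))
      ring
    · show 2 * y = (0) * x + (2 * ι) * (-(ι * y))
      linear_combination (2 * y) * hι
  · refine ⟨1, 1, 1, -1, fun x y => ⟨?_, ?_⟩⟩
    · show 2 * x = (1) * (x + y) + (1) * (x - y)
      ring
    · show 2 * y = (1) * (x + y) + (-1) * (x - y)
      ring
  · refine ⟨1, -1, 1, 1, fun x y => ⟨?_, ?_⟩⟩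
    · show 2 * x = (1) * (x + y) + (-1) * (y - x)
      ring
    · show 2 * y = (1) * (x + y) + (1) * (y - x)
      ring

/-- The action is invertible up to a power of `2`. -/
theorem act_inv (g : GG) (S : Type) [CommRing S] (ι : S) (hι : ι ^ 2 = -1) (v : Fin 4 → S) (i : Fin 4) :
    ∃ a : Fin 4 → S, 4 * v i = ∑ j, a j * act ι g v j := by
  rcases g with e | ⟨a, b⟩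
  · refine ⟨fun j => if j = i then (if e i then -4 else 4) else 0, ?_⟩
    rw [Finset.sum_eq_single i]
    · show 4 * v i = (if i = i then (if e i then -4 else 4) else 0) * (if e i then -v i else v i)
      rw [if_pos rfl]
      split <;> ring
    · intro j _ hj
      show (if j = i then (if e i then -4 else 4) else 0) * _ = (0 : S)
      rw [if_neg hj, zero_mul]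
    · intro h
      exact absurd (Finset.mem_univ i) h
  · obtain ⟨a1, a2, a3, a4, ha⟩ := m6_inv hι a
    obtain ⟨b1, b2, b3, b4, hb⟩ := m6_inv hι b
    obtain ⟨p, hp⟩ : ∃ p, p = m6 ι a (v 0) (v 2) := ⟨_, rfl⟩
    obtain ⟨q, hq⟩ : ∃ q, q = m6 ι a (v 1) (v 3) := ⟨_, rfl⟩
    obtain ⟨r, hr⟩ : ∃ r, r = m6 ι b p.1 q.1 := ⟨_, rfl⟩
    obtain ⟨s, hs⟩ : ∃ s, s = m6 ι b p.2 q.2 := ⟨_, rfl⟩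
    have h02 := ha (v 0) (v 2)
    have h13 := ha (v 1) (v 3)
    rw [← hp] at h02
    rw [← hq] at h13
    have hr1 := hb p.1 q.1
    have hs1 := hb p.2 q.2
    rw [← hr] at hr1
    rw [← hs] at hs1
    have hact : act ι (Sum.inr (a, b)) v = ![r.1, r.2, s.1, s.2] := by
      rw [hr, hs, hp, hq]
      rfl
    rw [hact]
    revert i
    refine q4 _ ?_ ?_ ?_ ?_
    · refine ⟨![a1 * b1, a1 * b2, a2 * b1, a2 * b2], ?_⟩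
      rw [Fin.sum_univ_four]
      show 4 * v 0 = a1 * b1 * r.1 + a1 * b2 * r.2 + a2 * b1 * s.1 + a2 * b2 * s.2
      linear_combination 2 * h02.1 + a1 * hr1.1 + a2 * hs1.1
    · refine ⟨![a1 * b3, a1 * b4, a2 * b3, a2 * b4], ?_⟩
      rw [Fin.sum_univ_four]
      show 4 * v 1 = a1 * b3 * r.1 + a1 * b4 * r.2 + a2 * b3 * s.1 + a2 * b4 * s.2
      linear_combination 2 * h13.1 + a1 * hr1.2 + a2 * hs1.2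
    · refine ⟨![a3 * b1, a3 * b2, a4 * b1, a4 * b2], ?_⟩
      rw [Fin.sum_univ_four]
      show 4 * v 2 = a3 * b1 * r.1 + a3 * b2 * r.2 + a4 * b1 * s.1 + a4 * b2 * s.2
      linear_combination 2 * h02.2 + a3 * hr1.1 + a4 * hs1.1
    · refine ⟨![a3 * b3, a3 * b4, a4 * b3, a4 * b4], ?_⟩
      rw [Fin.sum_univ_four]
      show 4 * v 3 = a3 * b3 * r.1 + a3 * b4 * r.2 + a4 * b3 * s.1 + a4 * b4 * s.2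
      linear_combination 2 * h13.2 + a3 * hr1.2 + a4 * hs1.2

end ring

end FreyG2
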