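import Pool.Agent.Lib.MP_6babc4_nt.G2.Sqa

/-!
# Module Sqb: no such sequence of linear forms on a cone

PROOF (helper44). `seq_limit` gives `S`. (a) For `y ∈ S`: `x_b = l j b y / l j 0 y = 1 + δ_b` (`x_0 = 1`), `δ_j = max ‖δ_b‖ → 0`.
`st x 1 - st x 0 = -(x_0-x_1)² - (x_2-x_3)²`, `st x 2 - st x 0 = -(x_0-x_2)² - (x_1-x_3)²`,
`st x 3 - st x 0 = -(x_0-x_3)² - (x_1-x_2)²` (all `≤ 8 δ²` in modulus), `st x 0 → 4`. So the next ratios `x'_b` satisfy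
`x'_b² - 1 = (st x b - st x 0) / st x 0`, and `‖x'_b + 1‖ ≥ 1` for large `j`: `δ_(j+1) ≤ 8 δ_j²`; so `δ_(J+i) ≤ 8^(-i)` for large `J`.
`‖l j 0 y‖` is bounded (the sup norms of the vectors decrease).
(b) So `‖l j b y - l j 0 y‖ ≤ C 8^(-i)` for `y ∈ S`, `j = J + i`; these are linear in `y`: the same for `y` in the span of `S`, and
by the uniform boundedness principle `‖l j b y - l j 0 y‖ ≤ C 8^(-i) ‖y‖` for all `y` in the span of `S`.
(c) For each `j`: `hV.zero` for the linear form `l j 0` (a homogeneous polynomial of degree `1`) gives `y ∈ V`, `‖y‖ = 1`,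
`l j 0 y = 0`. So `‖l j b y‖ ≤ C 8^(-i)` for all `b`.
(d) `(w_0 + w_1 + w_2 + w_3)² = st w 0 + st w 1 + st w 2 + st w 3`, `(w_0 + w_1 - w_2 - w_3)² = st w 0 + st w 1 - st w 2 - st w 3` etc., so on `V`
`‖l j y‖_∞ ≤ 4 ‖l (j+1) y‖_∞`, so `c₀ ≤ ‖l 0 y‖_∞ ≤ 4^j ‖l j y‖_∞ ≤ 4^(J+i) C 8^(-i)`, where `c₀ > 0` is the minimum of
`‖l 0 y‖_∞` on the compact set of the `y ∈ V`, `‖y‖ = 1`. Contradiction for large `i`.
-/

set_option autoImplicit false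

open Filter Topology

namespace FreyG2

private lemma st0 (w : Fin 4 → ℂ) : st w 0 = w 0 ^ 2 + w 1 ^ 2 + w 2 ^ 2 + w 3 ^ 2 := rfl

private lemma st1 (w : Fin 4 → ℂ) : st w 1 = 2 * (w 0 * w 1 + w 2 * w 3) := rfl

private lemma st2 (w : Fin 4 → ℂ) : st w 2 = 2 * (w 0 * w 2 + w 1 * w 3) := rfl

private lemma st3 (w : Fin 4 → ℂ) : st w 3 = 2 * (w 0 * w 3 + w 1 * w 2) := rfl

private lemma st_norm_le (w : Fin 4 → ℂ) (b : Fin 4) : ‖st w b‖ ≤ 4 * ‖w‖ ^ 2 := by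
  have h : ∀ i, ‖w i‖ ≤ ‖w‖ := norm_le_pi_norm w
  have h1 : ∀ i j, ‖w i * w j‖ ≤ ‖w‖ ^ 2 := fun i j => by
    rw [norm_mul, sq]
    exact mul_le_mul (h i) (h j) (norm_nonneg _) (norm_nonneg _)
  have h2 : ∀ i j p q, ‖2 * (w i * w j + w p * w q)‖ ≤ 4 * ‖w‖ ^ 2 := fun i j p q => by
    rw [norm_mul]
    have h3 := norm_add_le (w i * w j) (w p * w q)
    have h4 : ‖(2 : ℂ)‖ = 2 := by simp
    rw [h4]
    linarith [h1 i j, h1 p q]
  have h5 : ∀ i, ‖w i ^ 2‖ ≤ ‖w‖ ^ 2 := fun i => by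
    rw [sq]
    exact h1 i i
  fin_cases b
  · show ‖st w 0‖ ≤ _
    rw [st0]
    have h6 := norm_add_le (w 0 ^ 2 + w 1 ^ 2 + w 2 ^ 2) (w 3 ^ 2)
    have h7 := norm_add_le (w 0 ^ 2 + w 1 ^ 2) (w 2 ^ 2)
    have h8 := norm_add_le (w 0 ^ 2) (w 1 ^ 2)
    linarith [h5 0, h5 1, h5 2, h5 3]
  · show ‖st w 1‖ ≤ _
    rw [st1]
    exact h2 0 1 2 3
  · show ‖st w 2‖ ≤ _
    rw [st2]
    exact h2 0 2 1 3
  · show ‖st w 3‖ ≤ _
    rw [st3]
    exact h2 0 3 1 2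

private lemma next_le (w w' : Fin 4 → ℂ) (h : ∀ b, (2 * w' b) ^ 2 = st w b) : ‖w'‖ ≤ ‖w‖ := by
  rw [pi_norm_le_iff_of_nonneg (norm_nonneg _)]
  intro b
  have h1 := st_norm_le w b
  rw [← h b, norm_pow, norm_mul] at h1
  have h4 : ‖(2 : ℂ)‖ = 2 := by simp
  rw [h4] at h1
  have h5 : ‖w' b‖ ^ 2 ≤ ‖w‖ ^ 2 := by nlinarith
  exact le_of_sq_le_sq h5 (norm_nonneg _)

private lemma le_next (w w' : Fin 4 → ℂ) (h : ∀ b, (2 * w' b) ^ 2 = st w b) :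
    ‖w‖ ≤ 4 * ‖w'‖ := by
  have h4 : ‖(2 : ℂ)‖ = 2 := by simp
  have h1 : ∀ b, ‖st w b‖ ≤ 4 * ‖w'‖ ^ 2 := by
    intro b
    rw [← h b, norm_pow, norm_mul, h4]
    have := norm_le_pi_norm w' b
    have h5 : ‖w' b‖ ^ 2 ≤ ‖w'‖ ^ 2 := pow_le_pow_left₀ (norm_nonneg _) this 2
    nlinarith
  have h2 : ∀ (z : ℂ) (e1 e2 e3 : ℂ), ‖e1‖ = 1 → ‖e2‖ = 1 → ‖e3‖ = 1 →
      z ^ 2 = st w 0 + e1 * st w 1 + e2 * st w 2 + e3 * st w 3 → ‖z‖ ≤ 4 * ‖w'‖ := by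
    intro z e1 e2 e3 he1 he2 he3 hz
    have h6 : ‖z‖ ^ 2 ≤ (4 * ‖w'‖) ^ 2 := by
      rw [← norm_pow, hz]
      have a1 := norm_add_le (st w 0 + e1 * st w 1 + e2 * st w 2) (e3 * st w 3)
      have a2 := norm_add_le (st w 0 + e1 * st w 1) (e2 * st w 2)
      have a3 := norm_add_le (st w 0) (e1 * st w 1)
      rw [norm_mul, he3, one_mul] at a1
      rw [norm_mul e2, he2, one_mul] at a2
      rw [norm_mul, he1, one_mul] at a3
      nlinarith [h1 0, h1 1, h1 2, h1 3]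
    exact le_of_sq_le_sq h6 (by positivity)
  have hm1 : ‖(-1 : ℂ)‖ = 1 := by simp
  have hp1 : ‖(1 : ℂ)‖ = 1 := by simp
  have b0 := h2 (w 0 + w 1 + w 2 + w 3) 1 1 1 hp1 hp1 hp1 (by rw [st0, st1, st2, st3]; ring)
  have b1 := h2 (w 0 + w 1 - w 2 - w 3) 1 (-1) (-1) hp1 hm1 hm1 (by rw [st0, st1, st2, st3]; ring)
  have b2 := h2 (w 0 - w 1 + w 2 - w 3) (-1) 1 (-1) hm1 hp1 hm1 (by rw [st0, st1, st2, st3]; ring)
  have b3 := h2 (w 0 - w 1 - w 2 + w 3) (-1) (-1) 1 hm1 hm1 hp1 (by rw [st0, st1, st2, st3]; ring)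
  have h7 : ∀ z e1 e2 e3 : ℂ, ‖e1‖ = 1 → ‖e2‖ = 1 → ‖e3‖ = 1 →
      4 * z = (w 0 + w 1 + w 2 + w 3) + e1 * (w 0 + w 1 - w 2 - w 3) +
        e2 * (w 0 - w 1 + w 2 - w 3) + e3 * (w 0 - w 1 - w 2 + w 3) → ‖z‖ ≤ 4 * ‖w'‖ := by
    intro z e1 e2 e3 he1 he2 he3 hz
    have a0 : ‖(4 : ℂ) * z‖ = 4 * ‖z‖ := by
      rw [norm_mul]
      simp
    rw [hz] at a0
    have a1 := norm_add_le ((w 0 + w 1 + w 2 + w 3) + e1 * (w 0 + w 1 - w 2 - w 3) +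
        e2 * (w 0 - w 1 + w 2 - w 3)) (e3 * (w 0 - w 1 - w 2 + w 3))
    have a2 := norm_add_le ((w 0 + w 1 + w 2 + w 3) + e1 * (w 0 + w 1 - w 2 - w 3))
        (e2 * (w 0 - w 1 + w 2 - w 3))
    have a3 := norm_add_le (w 0 + w 1 + w 2 + w 3) (e1 * (w 0 + w 1 - w 2 - w 3))
    rw [norm_mul e3, he3, one_mul] at a1
    rw [norm_mul e2, he2, one_mul] at a2
    rw [norm_mul e1, he1, one_mul] at a3
    linarith
  rw [pi_norm_le_iff_of_nonneg (by positivity)]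
  intro b
  fin_cases b
  · exact h7 (w 0) 1 1 1 hp1 hp1 hp1 (by ring)
  · exact h7 (w 1) 1 (-1) (-1) hp1 hm1 hm1 (by ring)
  · exact h7 (w 2) (-1) 1 (-1) hm1 hp1 hm1 (by ring)
  · exact h7 (w 3) (-1) (-1) 1 hm1 hm1 hp1 (by ring)

/-- The deviation of the ratios from `1`. -/
private noncomputable def dev (w : Fin 4 → ℂ) : ℝ := ‖fun b => w b / w 0 - 1‖

private lemma dev_le (w : Fin 4 → ℂ) (b : Fin 4) : ‖w b / w 0 - 1‖ ≤ dev w :=
  norm_le_pi_norm (fun b => w b / w 0 - 1) b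

private lemma dev_nonneg (w : Fin 4 → ℂ) : 0 ≤ dev w := norm_nonneg _

private lemma st_scale (w : Fin 4 → ℂ) (h0 : w 0 ≠ 0) (b : Fin 4) :
    st w b = w 0 ^ 2 * st (fun i => w i / w 0) b := by
  fin_cases b
  · show st w 0 = _ * st _ 0
    rw [st0, st0]
    field_simp
  · show st w 1 = _ * st _ 1
    rw [st1, st1]
    field_simp
  · show st w 2 = _ * st _ 2
    rw [st2, st2]
    field_simp
  · show st w 3 = _ * st _ 3
    rw [st3, st3]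
    field_simp

private lemma st_sub (w : Fin 4 → ℂ) (b : Fin 4) :
    ‖st (fun i => w i / w 0) b - st (fun i => w i / w 0) 0‖ ≤ 8 * dev w ^ 2 := by
  have h1 : ∀ i j, ‖(w i / w 0 - w j / w 0) ^ 2‖ ≤ 4 * dev w ^ 2 := by
    intro i j
    have h2 : w i / w 0 - w j / w 0 = (w i / w 0 - 1) - (w j / w 0 - 1) := by ring
    have h3 : ‖w i / w 0 - w j / w 0‖ ≤ 2 * dev w := by
      rw [h2]
      refine (norm_sub_le _ _).trans ?_
      linarith [dev_le w i, dev_le w j]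
    rw [norm_pow]
    calc ‖w i / w 0 - w j / w 0‖ ^ 2 ≤ (2 * dev w) ^ 2 := pow_le_pow_left₀ (norm_nonneg _) h3 2
      _ = 4 * dev w ^ 2 := by ring
  have h4 : ∀ z i j p q, z = -((w i / w 0 - w j / w 0) ^ 2 + (w p / w 0 - w q / w 0) ^ 2) →
      ‖z‖ ≤ 8 * dev w ^ 2 := by
    intro z i j p q hz
    rw [hz, norm_neg]
    refine (norm_add_le _ _).trans ?_
    linarith [h1 i j, h1 p q]
  fin_cases b
  · show ‖st _ 0 - st _ 0‖ ≤ _
    rw [sub_self, norm_zero]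
    positivity
  · show ‖st _ 1 - st _ 0‖ ≤ _
    rw [st0, st1]
    exact h4 _ 0 1 2 3 (by ring)
  · show ‖st _ 2 - st _ 0‖ ≤ _
    rw [st0, st2]
    exact h4 _ 0 2 1 3 (by ring)
  · show ‖st _ 3 - st _ 0‖ ≤ _
    rw [st0, st3]
    exact h4 _ 0 3 1 2 (by ring)

private lemma st_four (w : Fin 4 → ℂ) (hd : dev w ≤ 1) :
    ‖st (fun i => w i / w 0) 0 - 4‖ ≤ 12 * dev w := by
  have h1 : ∀ i, ‖(w i / w 0) ^ 2 - 1‖ ≤ 3 * dev w := by
    intro i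
    have h2 : (w i / w 0) ^ 2 - 1 = (w i / w 0 - 1) * ((w i / w 0 - 1) + 2) := by ring
    have h3 : ‖(w i / w 0 - 1) + 2‖ ≤ 3 := by
      refine (norm_add_le _ _).trans ?_
      have h4 : ‖(2 : ℂ)‖ = 2 := by simp
      linarith [dev_le w i]
    rw [h2, norm_mul, mul_comm]
    exact mul_le_mul h3 (dev_le w i) (norm_nonneg _) (by norm_num)
  rw [st0]
  have h5 : (w 0 / w 0) ^ 2 + (w 1 / w 0) ^ 2 + (w 2 / w 0) ^ 2 + (w 3 / w 0) ^ 2 - 4 =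
    (((w 0 / w 0) ^ 2 - 1) + ((w 1 / w 0) ^ 2 - 1) + ((w 2 / w 0) ^ 2 - 1)) +
      ((w 3 / w 0) ^ 2 - 1) := by ring
  rw [h5]
  have a1 := norm_add_le (((w 0 / w 0) ^ 2 - 1) + ((w 1 / w 0) ^ 2 - 1) + ((w 2 / w 0) ^ 2 - 1))
      ((w 3 / w 0) ^ 2 - 1)
  have a2 := norm_add_le (((w 0 / w 0) ^ 2 - 1) + ((w 1 / w 0) ^ 2 - 1)) ((w 2 / w 0) ^ 2 - 1)
  have a3 := norm_add_le ((w 0 / w 0) ^ 2 - 1) ((w 1 / w 0) ^ 2 - 1)
  linarith [h1 0, h1 1, h1 2, h1 3]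

private lemma one_le_add (z : ℂ) (hz : ‖z - 1‖ ≤ 1) : 1 ≤ ‖z + 1‖ := by
  have h1 : (2 : ℂ) = (z + 1) - (z - 1) := by ring
  have h2 : ‖(2 : ℂ)‖ ≤ ‖z + 1‖ + ‖z - 1‖ := by
    conv_lhs => rw [h1]
    exact norm_sub_le _ _
  have h3 : ‖(2 : ℂ)‖ = 2 := by simp
  linarith

private lemma sub_le_sq (z : ℂ) (hz : ‖z - 1‖ ≤ 1) : ‖z - 1‖ ≤ ‖z ^ 2 - 1‖ := by
  have h1 : z ^ 2 - 1 = (z - 1) * (z + 1) := by ring
  rw [h1, norm_mul]
  nlinarith [one_le_add z hz, norm_nonneg (z - 1)]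

private lemma dev_next (w w' : Fin 4 → ℂ) (h : ∀ b, (2 * w' b) ^ 2 = st w b) (h0 : w 0 ≠ 0)
    (h0' : w' 0 ≠ 0) (hd : dev w ≤ 1 / 64) (hd' : dev w' ≤ 1) : dev w' ≤ 8 * dev w ^ 2 := by
  unfold dev
  rw [pi_norm_le_iff_of_nonneg (by positivity)]
  intro b
  have hx : ‖w' b / w' 0 - 1‖ ≤ 1 := (dev_le w' b).trans hd'
  refine (sub_le_sq _ hx).trans ?_
  set x : Fin 4 → ℂ := fun i => w i / w 0 with hxdef
  have h1 : ‖st x 0‖ ≥ 1 := by
    have h2 := st_four w (by linarith)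
    have h3 : (4 : ℂ) = st x 0 - (st x 0 - 4) := by ring
    have h4 : ‖(4 : ℂ)‖ ≤ ‖st x 0‖ + ‖st x 0 - 4‖ := by
      conv_lhs => rw [h3]
      exact norm_sub_le _ _
    have h5 : ‖(4 : ℂ)‖ = 4 := by simp
    have h6 : ‖st x 0 - 4‖ ≤ 12 * dev w := h2
    linarith
  have h2 : st x 0 ≠ 0 := by
    intro h3
    rw [h3, norm_zero] at h1
    linarith
  have h3 : (w' b / w' 0) ^ 2 - 1 = (st x b - st x 0) / st x 0 := by
    have h4 := h b
    have h5 := h 0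
    rw [st_scale w h0] at h4 h5
    have h6 : (w' b / w' 0) ^ 2 = st x b / st x 0 := by
      rw [div_pow, div_eq_div_iff (pow_ne_zero 2 h0') h2]
      have h7 : w 0 ^ 2 ≠ 0 := pow_ne_zero 2 h0
      apply mul_left_cancel₀ h7
      have h8 : w 0 ^ 2 * (w' b ^ 2 * st x 0) = w' b ^ 2 * (w 0 ^ 2 * st x 0) := by ring
      have h9 : w 0 ^ 2 * (st x b * w' 0 ^ 2) = (w 0 ^ 2 * st x b) * w' 0 ^ 2 := by ring
      rw [h8, h9, ← h4, ← h5]
      ring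
    rw [h6, sub_div, div_self h2]
  rw [h3, norm_div, div_le_iff₀ (by linarith)]
  have h4 := st_sub w b
  have h5 : 8 * dev w ^ 2 ≤ 8 * dev w ^ 2 * ‖st x 0‖ := by
    have h6 : 0 ≤ 8 * dev w ^ 2 := by positivity
    nlinarith
  exact h4.trans h5

/-- The coordinates approach each other, fast. -/
private lemma conv_seq (w : ℕ → Fin 4 → ℂ) (hw : ∀ j b, (2 * w (j + 1) b) ^ 2 = st (w j) b)
    (h0 : ∀ᶠ j in atTop, w j 0 ≠ 0) (hx : ∀ b, Tendsto (fun j => w j b / w j 0) atTop (𝓝 1)) :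
    ∀ᶠ J in atTop, ∀ i b, ‖w (J + i) b - w (J + i) 0‖ ≤ ‖w 0‖ * (1 / 8) ^ i := by
  have hdev : Tendsto (fun j => dev (w j)) atTop (𝓝 0) := by
    have h1 : Tendsto (fun j => fun b => w j b / w j 0 - 1) atTop (𝓝 (0 : Fin 4 → ℂ)) := by
      rw [tendsto_pi_nhds]
      intro b
      have := (hx b).sub_const 1
      rw [sub_self] at this
      exact this
    have h2 := h1.norm
    rw [norm_zero] at h2
    exact h2
  have e1 : ∀ᶠ j in atTop, dev (w j) ≤ 1 / 64 :=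
    hdev.eventually (ge_mem_nhds (by norm_num))
  obtain ⟨j₀, hj₀⟩ := eventually_atTop.1 (e1.and h0)
  filter_upwards [eventually_ge_atTop j₀] with J hJ
  have hd : ∀ i, dev (w (J + i)) ≤ (1 / 8) ^ i := by
    intro i
    induction i with
    | zero =>
      have := (hj₀ J hJ).1
      rw [pow_zero, Nat.add_zero]
      linarith
    | succ i ih =>
      have h1 := hj₀ (J + i) (by omega)
      have h2 := hj₀ (J + i + 1) (by omega)
      have h3 := dev_next (w (J + i)) (w (J + i + 1)) (hw (J + i)) h1.2 h2.2 h1.1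
        (by linarith [h2.1])
      have h4 := dev_nonneg (w (J + i))
      have h5 : 8 * dev (w (J + i)) ^ 2 ≤ 1 / 8 * dev (w (J + i)) := by nlinarith [h1.1]
      rw [pow_succ, ← Nat.add_assoc]
      linarith
  have hbd : ∀ j, ‖w j‖ ≤ ‖w 0‖ := by
    intro j
    induction j with
    | zero => exact le_refl _
    | succ j ih => exact (next_le _ _ (hw j)).trans ih
  intro i b
  have h5 := (hj₀ (J + i) (by omega)).2
  have h2 : w (J + i) b - w (J + i) 0 =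
      w (J + i) 0 * (w (J + i) b / w (J + i) 0 - 1) := by
    field_simp
  rw [h2, norm_mul]
  exact mul_le_mul ((norm_le_pi_norm _ 0).trans (hbd _)) ((dev_le _ b).trans (hd i))
    (norm_nonneg _) (norm_nonneg _)

theorem no_seq {B : ℕ} {V : Set (Fin B → ℂ)} (hV : IsCone V)
    (l : ℕ → Fin 4 → ((Fin B → ℂ) →ₗ[ℂ] ℂ))
    (hl : ∀ j b, ∀ y ∈ V, (2 * l (j + 1) b y) ^ 2 = st (fun i => l j i y) b)
    (h0 : ∀ y ∈ V, (∀ i, l 0 i y = 0) → y = 0)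
    {x₀ : Fin B → ℂ} (hx₀ : x₀ ∈ V) {c : ℝ} (hc : 0 < c) (h1 : ∀ j, c ≤ ‖l j 0 x₀‖)
    (h2 : ∀ b, Tendsto (fun j => l j b x₀ / l j 0 x₀) atTop (𝓝 1)) : False := by
  obtain ⟨S, hSV, hsp, hlow, hrat⟩ := seq_limit hV l hl hx₀ hc h1 h2
  have hev : ∀ᶠ J in atTop, ∀ y ∈ S, ∀ i b,
      ‖l (J + i) b y - l (J + i) 0 y‖ ≤ ‖fun b => l 0 b y‖ * (1 / 8) ^ i := by
    rw [Filter.eventually_all_finset]
    intro y hy
    obtain ⟨c', hc', hlo⟩ := hlow y hy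
    have hne : ∀ᶠ j in atTop, l j 0 y ≠ 0 := by
      filter_upwards [hlo] with j hj h3
      rw [h3, norm_zero] at hj
      linarith
    exact conv_seq (fun j b => l j b y) (fun j b => hl j b y (hSV y hy)) hne (hrat y hy)
  obtain ⟨J, hJ⟩ := hev.exists
  set U : Submodule ℂ (Fin B → ℂ) := Submodule.span ℂ (S : Set (Fin B → ℂ)) with hUdef
  have hU : ∀ y ∈ U, ∃ C : ℝ, ∀ i b, ‖l (J + i) b y - l (J + i) 0 y‖ ≤ C * (1 / 8) ^ i := by
    intro y hy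
    induction hy using Submodule.span_induction with
    | mem y hy => exact ⟨_, hJ y hy⟩
    | zero =>
      refine ⟨0, fun i b => ?_⟩
      rw [map_zero, map_zero, sub_zero, norm_zero, zero_mul]
    | add y z _ _ hy hz =>
      obtain ⟨C₁, h1⟩ := hy
      obtain ⟨C₂, h2⟩ := hz
      refine ⟨C₁ + C₂, fun i b => ?_⟩
      rw [map_add, map_add]
      have h3 : (l (J + i) b y + l (J + i) b z) - (l (J + i) 0 y + l (J + i) 0 z) =
        (l (J + i) b y - l (J + i) 0 y) + (l (J + i) b z - l (J + i) 0 z) := by ring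
      rw [h3, add_mul]
      exact (norm_add_le _ _).trans (add_le_add (h1 i b) (h2 i b))
    | smul t y _ hy =>
      obtain ⟨C₁, h1⟩ := hy
      refine ⟨‖t‖ * C₁, fun i b => ?_⟩
      rw [map_smul, map_smul, smul_eq_mul, smul_eq_mul, ← mul_sub, norm_mul, mul_assoc]
      exact mul_le_mul_of_nonneg_left (h1 i b) (norm_nonneg _)
  set g : ℕ × Fin 4 → (U →L[ℂ] ℂ) := fun p => LinearMap.toContinuousLinearMap
    ((8 : ℂ) ^ p.1 • (l (J + p.1) p.2 - l (J + p.1) 0).domRestrict U) with hg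
  have hgv : ∀ (p : ℕ × Fin 4) (y : U), ‖g p y‖ =
      8 ^ p.1 * ‖l (J + p.1) p.2 y - l (J + p.1) 0 y‖ := by
    intro p y
    have h3 : g p y = (8 : ℂ) ^ p.1 * (l (J + p.1) p.2 y - l (J + p.1) 0 y) := rfl
    rw [h3, norm_mul, norm_pow]
    congr 2
    simp
  have h88 : ∀ i : ℕ, (8 : ℝ) ^ i * (1 / 8) ^ i = 1 := by
    intro i
    rw [← mul_pow]
    norm_num
  obtain ⟨C, hC⟩ := banach_steinhaus (g := g) (by
    intro y
    obtain ⟨C, hC⟩ := hU y y.2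
    refine ⟨C, fun p => ?_⟩
    rw [hgv]
    have h3 := hC p.1 p.2
    calc (8 : ℝ) ^ p.1 * ‖l (J + p.1) p.2 y - l (J + p.1) 0 y‖
        ≤ 8 ^ p.1 * (C * (1 / 8) ^ p.1) := by gcongr
      _ = C * (8 ^ p.1 * (1 / 8) ^ p.1) := by ring
      _ = C := by rw [h88, mul_one])
  have hunif : ∀ i b, ∀ y ∈ V, ‖y‖ = 1 → l (J + i) 0 y = 0 →
      ‖l (J + i) b y‖ ≤ C * (1 / 8) ^ i := by
    intro i b y hy hy1 hy0
    have h3 := (g (i, b)).le_opNorm ⟨y, hsp hy⟩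
    rw [hgv] at h3
    have h4 : ‖(⟨y, hsp hy⟩ : U)‖ = 1 := hy1
    rw [h4, mul_one] at h3
    have h5 : (8 : ℝ) ^ i * ‖l (J + i) b y - l (J + i) 0 y‖ ≤ C := h3.trans (hC (i, b))
    rw [hy0, sub_zero] at h5
    calc ‖l (J + i) b y‖ = ((8 : ℝ) ^ i * ‖l (J + i) b y‖) * (1 / 8) ^ i := by
          rw [mul_assoc, mul_comm ‖l (J + i) b y‖, ← mul_assoc, h88, one_mul]
      _ ≤ C * (1 / 8) ^ i := by gcongr
  have hzero : ∀ i, ∃ y ∈ V, ‖y‖ = 1 ∧ l (J + i) 0 y = 0 := by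
    intro i
    set Λ := l (J + i) 0 with hΛ
    set G : MvPolynomial (Fin B) ℂ := ∑ i, MvPolynomial.C (Λ fun j => if i = j then 1 else 0) *
      MvPolynomial.X i with hG
    have hGe : ∀ y, MvPolynomial.eval y G = Λ y := by
      intro y
      rw [hG, map_sum, LinearMap.pi_apply_eq_sum_univ Λ y]
      apply Finset.sum_congr rfl
      intro i _
      rw [map_mul, MvPolynomial.eval_C, MvPolynomial.eval_X, smul_eq_mul, mul_comm]
    have hGh : G.IsHomogeneous 1 :=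
      MvPolynomial.IsHomogeneous.sum _ _ _ fun i _ => MvPolynomial.isHomogeneous_C_mul_X _ _
    obtain ⟨x, hx, hx0, hxG⟩ := hV.zero 1 G hGh one_ne_zero
    rw [hGe] at hxG
    refine ⟨((‖x‖ : ℂ)⁻¹) • x, hV.smul _ x hx, ?_, ?_⟩
    · rw [norm_smul, norm_inv, Complex.norm_real, norm_norm]
      exact inv_mul_cancel₀ (norm_ne_zero_iff.2 hx0)
    · rw [map_smul, hxG, smul_zero]
  have hK : IsCompact (V ∩ Metric.sphere (0 : Fin B → ℂ) 1) :=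
    (isCompact_sphere 0 1).inter_left hV.closed
  have hne : (V ∩ Metric.sphere (0 : Fin B → ℂ) 1).Nonempty := by
    obtain ⟨y, hy, hy1, -⟩ := hzero 0
    exact ⟨y, hy, by rw [mem_sphere_zero_iff_norm, hy1]⟩
  have hcont : Continuous fun y : Fin B → ℂ => ‖fun b => l 0 b y‖ :=
    (continuous_pi fun b => (l 0 b).continuous_of_finiteDimensional).norm
  obtain ⟨z, hz, hzmin⟩ := hK.exists_isMinOn hne hcont.continuousOn
  have hz1 : ‖z‖ = 1 := by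
    have := hz.2
    rwa [mem_sphere_zero_iff_norm] at this
  have hpos : 0 < ‖fun b => l 0 b z‖ := by
    rw [norm_pos_iff]
    intro h3
    have h4 := h0 z hz.1 fun i => congrFun h3 i
    rw [h4, norm_zero] at hz1
    exact zero_ne_one hz1
  have hgrow : ∀ y ∈ V, ∀ j, ‖fun b => l 0 b y‖ ≤ 4 ^ j * ‖fun b => l j b y‖ := by
    intro y hy j
    induction j with
    | zero => rw [pow_zero, one_mul]
    | succ j ih =>
      have h3 := le_next (fun b => l j b y) (fun b => l (j + 1) b y) (fun b => hl j b y hy)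
      calc _ ≤ 4 ^ j * ‖fun b => l j b y‖ := ih
        _ ≤ 4 ^ j * (4 * ‖fun b => l (j + 1) b y‖) := by gcongr
        _ = 4 ^ (j + 1) * ‖fun b => l (j + 1) b y‖ := by ring
  have hle : ∀ i : ℕ, ‖fun b => l 0 b z‖ ≤ 4 ^ J * C * (1 / 2) ^ i := by
    intro i
    obtain ⟨y, hy, hy1, hy0⟩ := hzero i
    have hmin : ‖fun b => l 0 b z‖ ≤ ‖fun b => l 0 b y‖ :=
      hzmin ⟨hy, by rw [mem_sphere_zero_iff_norm, hy1]⟩
    have h3 : 0 ≤ C * (1 / 8) ^ i := (norm_nonneg _).trans (hunif i 0 y hy hy1 hy0)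
    have h4 : ‖fun b => l (J + i) b y‖ ≤ C * (1 / 8) ^ i :=
      (pi_norm_le_iff_of_nonneg h3).2 fun b => hunif i b y hy hy1 hy0
    calc _ ≤ ‖fun b => l 0 b y‖ := hmin
      _ ≤ 4 ^ (J + i) * ‖fun b => l (J + i) b y‖ := hgrow y hy (J + i)
      _ ≤ 4 ^ (J + i) * (C * (1 / 8) ^ i) := by gcongr
      _ = 4 ^ J * C * (4 ^ i * (1 / 8) ^ i) := by rw [pow_add]; ring
      _ = 4 ^ J * C * (1 / 2) ^ i := by
        rw [← mul_pow]
        norm_num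
  have hz0 : Tendsto (fun i : ℕ => 4 ^ J * C * (1 / 2 : ℝ) ^ i) atTop (𝓝 0) := by
    have := (tendsto_pow_atTop_nhds_zero_of_lt_one (r := (1 / 2 : ℝ)) (by norm_num)
      (by norm_num)).const_mul (4 ^ J * C)
    rwa [mul_zero] at this
  exact absurd (ge_of_tendsto' hz0 hle) (not_le.2 hpos)

end FreyG2
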