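import Pool.Agent.Lib.MP_6babc4_nt.G2.Agm
import Pool.Agent.Lib.MP_6babc4_nt.G2.Sqb
import Pool.Agent.Lib.MP_6babc4_nt.G2.Idn

/-!
# Module Inf: no finite dimensional tree on an infinite set

PROOF. A basis `f_1, .., f_B` of the span `W` (functions on `X`), `φ x = (f_1 x, .., f_B x)`; each `v s · b` is `∑ a_i f_i`: linear
forms `L s b` on `Fin B → ℂ` with `L s b (φ x) = v s x b`. `φ x`, `φ y` are linearly independent for `x ≠ y` (else `v [] x`, `v [] y` are proportional;
note that `φ x ≠ 0` as `NProp`). `cone_exists`: `V`. The relations `(L (g :: s) b y)² = st (act I g (L s · y)) b` hold for `y ∈ V` (homogeneous polynomials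
that vanish on the lines of the `φ x`). If `y ∈ V` and `L [] i y = 0` for all `i` then `y = 0`: by induction all `L s b y = 0`, and the `L s b` span the dual space
(the `f_i` are combinations of the `v s · b`). `hV.zero` for `G = L [] 0 * L [] 3 - L [] 1 * L [] 2` (degree `2`) gives `x₀`. `agm_path` for `L s b x₀`.
`l j b = 2^(-j) act I (h j) (L (s j)) b`. `h0` of `no_seq`: `act_inv` (Idn). `no_seq`.
-/

set_option autoImplicit false

open Filter Topology

namespace FreyG2

section lin

variable {R : Type*} [CommRing R]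

private theorem inf_m6 (ι : R) (j : Fin 6) : ∃ p q r s : R, ∀ x y : R,
    m6 ι j x y = (p * x + q * y, r * x + s * y) := by
  fin_cases j
  · exact ⟨1, 0, 0, 1, fun x y => by simp [m6]⟩
  · exact ⟨1, 0, 0, -1, fun x y => by simp [m6]⟩
  · exact ⟨1, 0, 0, ι, fun x y => by simp [m6]⟩
  · exact ⟨1, 0, 0, -ι, fun x y => by simp [m6]⟩
  · exact ⟨1, 1, 1, -1, fun x y => by simp [m6, sub_eq_add_neg]⟩
  · exact ⟨1, 1, -1, 1, fun x y => by simp [m6, sub_eq_add_neg, add_comm]⟩

/-- The action is linear. -/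
private theorem inf_lin (ι : R) (g : GG) : ∃ M : Fin 4 → Fin 4 → R, ∀ (v : Fin 4 → R) (i : Fin 4),
    act ι g v i = ∑ j, M i j * v j := by
  rcases g with e | ⟨a, b⟩
  · refine ⟨fun i j => if i = j then (if e i then -1 else 1) else 0, fun v i => ?_⟩
    have h1 : ∀ j, (if i = j then (if e i then (-1 : R) else 1) else 0) * v j =
        if i = j then (if e i then -v j else v j) else 0 := by
      intro j
      split_ifs <;> ring
    rw [Finset.sum_congr rfl fun j _ => h1 j, Finset.sum_ite_eq Finset.univ i,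
      if_pos (Finset.mem_univ i)]
    rfl
  · obtain ⟨p, q, r, s, h1⟩ := inf_m6 ι a
    obtain ⟨p', q', r', s', h2⟩ := inf_m6 ι b
    refine ⟨![![p' * p, q' * p, p' * q, q' * q], ![r' * p, s' * p, r' * q, s' * q],
      ![p' * r, q' * r, p' * s, q' * s], ![r' * r, s' * r, r' * s, s' * s]], fun v i => ?_⟩
    have h3 : act ι (Sum.inr (a, b)) v = ![(m6 ι b (m6 ι a (v 0) (v 2)).1 (m6 ι a (v 1) (v 3)).1).1,
      (m6 ι b (m6 ι a (v 0) (v 2)).1 (m6 ι a (v 1) (v 3)).1).2,
      (m6 ι b (m6 ι a (v 0) (v 2)).2 (m6 ι a (v 1) (v 3)).2).1,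
      (m6 ι b (m6 ι a (v 0) (v 2)).2 (m6 ι a (v 1) (v 3)).2).2] := rfl
    rw [h3]
    simp only [h1, h2]
    rw [Fin.sum_univ_four]
    fin_cases i
    · simp only [Fin.zero_eta, Matrix.cons_val_zero, Matrix.cons_val_one, Matrix.cons_val]
      ring
    · simp only [Fin.mk_one, Matrix.cons_val_zero, Matrix.cons_val_one, Matrix.cons_val]
      ring
    · simp only [Fin.reduceFinMk, Matrix.cons_val_zero, Matrix.cons_val_one, Matrix.cons_val]
      ring
    · simp only [Fin.reduceFinMk, Matrix.cons_val_zero, Matrix.cons_val_one, Matrix.cons_val]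
      ring

private theorem inf_act_smul (ι : R) (g : GG) (t : R) (v : Fin 4 → R) :
    act ι g (fun i => t * v i) = fun i => t * act ι g v i := by
  obtain ⟨M, hM⟩ := inf_lin ι g
  funext i
  rw [hM, hM, Finset.mul_sum]
  exact Finset.sum_congr rfl fun j _ => by ring

private theorem inf_act_zero (ι : R) (g : GG) {v : Fin 4 → R} (hv : ∀ i, v i = 0) (i : Fin 4) :
    act ι g v i = 0 := by
  obtain ⟨M, hM⟩ := inf_lin ι g
  rw [hM]
  exact Finset.sum_eq_zero fun j _ => by rw [hv, mul_zero]

private theorem inf_st_zero {v : Fin 4 → R} (hv : ∀ i, v i = 0) (i : Fin 4) : st v i = 0 := by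
  have h1 : v = fun i => (0 : R) * v i := by
    funext i
    rw [zero_mul, hv]
  rw [h1, st_smul]
  ring

private theorem inf_st_map {S : Type*} [CommRing S] (f : R →+* S) (v : Fin 4 → R) (b : Fin 4) :
    st (fun i => f (v i)) b = f (st v b) := by
  have h1 : st (fun i => f (v i)) = ![f (qf v 0), f (qf v 4), f (qf v 6), f (qf v 8)] := by
    unfold st
    rw [qf_map, qf_map, qf_map, qf_map]
  rw [h1]
  fin_cases b <;> rfl

end lin

/-- **The key lemma.** -/
theorem no_infinite {X : Type} [Infinite X] (v : List GG → X → Fin 4 → ℂ)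
    (hv : ∀ s g x b, v (g :: s) x b ^ 2 = st (act Complex.I g (v s x)) b)
    (hfin : FiniteDimensional ℂ
      (Submodule.span ℂ (Set.range fun p : List GG × Fin 4 => fun x => v p.1 x p.2)))
    (hp : ∀ x y, x ≠ y → NProp (v [] x) (v [] y)) : False := by
  classical
  set W : Submodule ℂ (X → ℂ) :=
    Submodule.span ℂ (Set.range fun p : List GG × Fin 4 => fun x => v p.1 x p.2) with hW
  let e := Module.finBasis ℂ W
  let f : List GG → Fin 4 → W := fun s b =>
    ⟨fun x => v s x b, Submodule.subset_span ⟨(s, b), rfl⟩⟩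
  let φ : X → Fin (Module.finrank ℂ W) → ℂ := fun x i => (e i : X → ℂ) x
  let L : List GG → Fin 4 → ((Fin (Module.finrank ℂ W) → ℂ) →ₗ[ℂ] ℂ) := fun s b =>
    ∑ i, (e.repr (f s b) i) • LinearMap.proj i
  have hLa : ∀ s b y, L s b y = ∑ i, e.repr (f s b) i * y i := by
    intro s b y
    change (∑ i, (e.repr (f s b) i) • LinearMap.proj i : (Fin (Module.finrank ℂ W) → ℂ) →ₗ[ℂ] ℂ) y = _
    rw [LinearMap.sum_apply]
    rfl
  have hL : ∀ s b x, L s b (φ x) = v s x b := by
    intro s b x
    rw [hLa]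
    have h1 := e.sum_repr (f s b)
    have h2 : ((∑ i, e.repr (f s b) i • e i : W) : X → ℂ) x = v s x b := by
      rw [h1]
    rw [← h2, Submodule.coe_sum, Finset.sum_apply]
    rfl
  have hind : ∀ x y, x ≠ y → LinearIndependent ℂ ![φ x, φ y] := by
    intro x y hxy
    rw [LinearIndependent.pair_iff]
    intro s t hst
    obtain ⟨i, j, hij⟩ := hp x y hxy
    have h1 : ∀ k, s * v [] x k + t * v [] y k = 0 := by
      intro k
      have h2 := congrArg (L [] k) hst
      rw [map_add, map_smul, map_smul, map_zero, hL, hL] at h2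
      exact h2
    have h3 : v [] x i * v [] y j - v [] x j * v [] y i ≠ 0 := sub_ne_zero.2 hij
    constructor
    · have h4 : s * (v [] x i * v [] y j - v [] x j * v [] y i) = 0 := by
        linear_combination v [] y j * h1 i - v [] y i * h1 j
      exact (mul_eq_zero.1 h4).resolve_right h3
    · have h4 : t * (v [] x i * v [] y j - v [] x j * v [] y i) = 0 := by
        linear_combination v [] x i * h1 j - v [] x j * h1 i
      exact (mul_eq_zero.1 h4).resolve_right h3
  obtain ⟨V, hV, hVf⟩ := cone_exists φ hind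
  -- the linear forms as polynomials
  let P : List GG → Fin 4 → MvPolynomial (Fin (Module.finrank ℂ W)) ℂ := fun s b =>
    ∑ i, MvPolynomial.C (e.repr (f s b) i) * MvPolynomial.X i
  have hP : ∀ s b y, MvPolynomial.eval y (P s b) = L s b y := by
    intro s b y
    rw [hLa]
    change MvPolynomial.eval y (∑ i, MvPolynomial.C (e.repr (f s b) i) * MvPolynomial.X i) = _
    rw [map_sum]
    exact Finset.sum_congr rfl fun i _ => by
      rw [map_mul, MvPolynomial.eval_C, MvPolynomial.eval_X]
  have hPhom : ∀ s b, (P s b).IsHomogeneous 1 := by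
    intro s b
    refine MvPolynomial.IsHomogeneous.sum _ _ _ fun i _ => ?_
    have h1 := (MvPolynomial.isHomogeneous_C (Fin (Module.finrank ℂ W))
      (e.repr (f s b) i)).mul (MvPolynomial.isHomogeneous_X ℂ i)
    rwa [zero_add] at h1
  have hrel : ∀ s g b, ∀ y ∈ V, (L (g :: s) b y) ^ 2 =
      st (act Complex.I g (fun i => L s i y)) b := by
    intro s g b y hy
    have h0 : ∀ z, MvPolynomial.eval z (P (g :: s) b ^ 2 -
        st (act (MvPolynomial.C Complex.I) g (fun i => P s i)) b) =
        (L (g :: s) b z) ^ 2 - st (act Complex.I g (fun i => L s i z)) b := by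
      intro z
      rw [map_sub, map_pow, hP, ← inf_st_map]
      congr 2
      funext i
      rw [← act_map, MvPolynomial.eval_C]
      congr 1
      funext i
      exact hP s i z
    have h1 := hVf (P (g :: s) b ^ 2 -
        st (act (MvPolynomial.C Complex.I) g (fun i => P s i)) b) (by
      intro x t
      rw [h0]
      have h2 : ∀ s b, L s b (t • φ x) = t * v s x b := by
        intro s b
        rw [map_smul, hL, smul_eq_mul]
      rw [h2]
      have h3 : (fun i => L s i (t • φ x)) = fun i => t * v s x i := by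
        funext i
        exact h2 s i
      rw [h3, inf_act_smul, st_smul, mul_pow, hv]
      ring) y hy
    rw [h0] at h1
    exact sub_eq_zero.1 h1
  have hzero : ∀ y ∈ V, (∀ i, L [] i y = 0) → y = 0 := by
    intro y hy h0
    have h1 : ∀ s b, L s b y = 0 := by
      intro s
      induction s with
      | nil => exact h0
      | cons g s ih =>
        intro b
        have h2 := hrel s g b y hy
        rw [inf_st_zero (fun i => inf_act_zero Complex.I g ih i)] at h2
        exact pow_eq_zero_iff (two_ne_zero) |>.1 h2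
    let Λ : W →ₗ[ℂ] ℂ := e.constr ℂ y
    have hΛ : ∀ w : W, Λ w = ∑ i, e.repr w i * y i := by
      intro w
      change e.constr ℂ y w = _
      rw [Module.Basis.constr_apply_fintype]
      rfl
    have h3 : ∀ w : X → ℂ, ∀ hw : w ∈ W, Λ ⟨w, hw⟩ = 0 := by
      intro w hw
      induction hw using Submodule.span_induction with
      | mem w hw =>
        obtain ⟨⟨s, b⟩, rfl⟩ := hw
        have h4 := h1 s b
        rw [hLa] at h4
        rw [hΛ]
        exact h4
      | zero => exact map_zero Λ
      | add a b ha hb iha ihb =>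
        have h4 : Λ (⟨a, ha⟩ + ⟨b, hb⟩) = 0 := by rw [map_add, iha, ihb, add_zero]
        exact h4
      | smul c a ha iha =>
        have h4 : Λ (c • ⟨a, ha⟩) = 0 := by rw [map_smul, iha, smul_zero]
        exact h4
    funext i
    have h5 := h3 (e i : X → ℂ) (e i).2
    have h6 : Λ (e i) = y i := e.constr_basis ℂ y i
    rw [Pi.zero_apply, ← h6]
    exact h5
  obtain ⟨x₀, hx₀, hx0, hG⟩ := hV.zero 2 (P [] 0 * P [] 3 - P [] 1 * P [] 2)
    (((hPhom [] 0).mul (hPhom [] 3)).sub ((hPhom [] 1).mul (hPhom [] 2))) two_ne_zero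
  rw [map_sub, map_mul, map_mul, hP, hP, hP, hP] at hG
  obtain ⟨h, s, hs0, hs, -, ⟨ee, hee⟩, ⟨c, hc, hcj⟩, hlim⟩ := agm_path
    (v := fun s b => L s b x₀) (fun s g b => hrel s g b x₀ hx₀) (sub_eq_zero.1 hG)
    (fun h0 => hx0 (hzero x₀ hx₀ fun i => congrFun h0 i))
  choose M hM using fun j => inf_lin Complex.I (h j)
  let l : ℕ → Fin 4 → ((Fin (Module.finrank ℂ W) → ℂ) →ₗ[ℂ] ℂ) := fun j b =>
    ((2 : ℂ) ^ j)⁻¹ • ∑ k, M j b k • L (s j) k
  have hl : ∀ j b y, l j b y = ((2 : ℂ) ^ j)⁻¹ * act Complex.I (h j) (fun i => L (s j) i y) b := by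
    intro j b y
    rw [hM]
    change (((2 : ℂ) ^ j)⁻¹ • ∑ k, M j b k • L (s j) k :
      (Fin (Module.finrank ℂ W) → ℂ) →ₗ[ℂ] ℂ) y = _
    rw [LinearMap.smul_apply, LinearMap.sum_apply]
    rfl
  have h2j : ∀ j : ℕ, ((2 : ℂ) ^ j)⁻¹ ≠ 0 := fun j => inv_ne_zero (pow_ne_zero _ two_ne_zero)
  refine no_seq hV l ?_ ?_ hx₀ hc ?_ ?_
  · intro j b y hy
    have h1 : (fun i => l j i y) =
        fun i => ((2 : ℂ) ^ j)⁻¹ * act Complex.I (h j) (fun i => L (s j) i y) i := by
      funext i
      exact hl j i y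
    rw [h1, st_smul, hl, ← hrel (s j) (h j) b y hy, ← hs]
    have h3 : act Complex.I (h (j + 1)) (fun i => L (s (j + 1)) i y) b ^ 2 =
        L (s (j + 1)) b y ^ 2 := by
      rw [hee]
      change (if ee j b then -L (s (j + 1)) b y else L (s (j + 1)) b y) ^ 2 = _
      split_ifs
      · rw [neg_sq]
      · rfl
    have h4 : (2 : ℂ) * (((2 : ℂ) ^ (j + 1))⁻¹ *
        act Complex.I (h (j + 1)) (fun i => L (s (j + 1)) i y) b) =
        ((2 : ℂ) ^ j)⁻¹ * act Complex.I (h (j + 1)) (fun i => L (s (j + 1)) i y) b := by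
      rw [pow_succ]
      field_simp
    rw [h4, mul_pow, h3]
  · intro y hy h0
    refine hzero y hy fun i => ?_
    obtain ⟨a, ha⟩ := act_inv (h 0) ℂ Complex.I Complex.I_sq (fun i => L [] i y) i
    have h1 : ∀ k, act Complex.I (h 0) (fun i => L [] i y) k = 0 := by
      intro k
      have h2 := h0 k
      rw [hl, hs0] at h2
      exact (mul_eq_zero.1 h2).resolve_left (h2j 0)
    rw [Finset.sum_eq_zero fun j _ => by rw [h1, mul_zero]] at ha
    exact (mul_eq_zero.1 ha).resolve_left (by norm_num)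
  · intro j
    rw [hl, norm_mul, norm_inv, norm_pow, Complex.norm_ofNat]
    rw [inv_mul_eq_div, le_div_iff₀ (by positivity)]
    exact hcj j
  · intro b
    refine (hlim b).congr fun j => ?_
    rw [hl, hl, mul_div_mul_left _ _ (h2j j)]

end FreyG2
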