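import Pool.Agent.Lib.MP_6babc4_nt.Cyc.KGal
import Pool.Agent.Lib.MP_6babc4_nt.Cyc.KSpl
import Pool.Agent.Lib.MP_6babc4_nt.Cyc.Arc
import Pool.Agent.Lib.MP_6babc4_nt.Cyc.KFld
import Pool.Agent.Lib.MP_6babc4_nt.Cy3.EKRel
import Pool.Agent.Lib.MP_6babc4_nt.Cy3.ECr

/-!
# Module Kmn: from the number of the cross ratios to the theorem, all `N ≥ 2`

`all_of_cr`: `allFrey` of Cy3/EFin with the number of the cross ratios (the conclusion of `cr_countE` of Cy3/ECr, for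
all `ε`) as a hypothesis, and `N ≥ 2` instead of `N ≥ 3`.

PROOF. A copy of Cy3/EKMain and Cy3/EFin: `3 ≤ N` is used there for `cr_countE` only.
-/

set_option autoImplicit false

open Polynomial NumberField IsDedekindDomain Module

namespace FreyCyc

open FreySparse

/-! ### Counting functions on the Galois group -/

private lemma Kmn_one {K : Type} [Field K] [NumberField K] {β : Type} {M : ℕ} {D : ℝ}
    {L : IntermediateField K (AlgebraicClosure K)} (hL : L ∈ SubF K M D) (B : Finset β)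
    (hB : B.Nonempty) :
    ∃ P : Finset ((AlgebraicClosure K ≃ₐ[K] AlgebraicClosure K) → β), P.card ≤ B.card ^ M ∧
      ∀ π : (AlgebraicClosure K ≃ₐ[K] AlgebraicClosure K) → β, (∀ s, π s ∈ B) →
        (∀ s s', (∀ x ∈ L, s x = s' x) → π s = π s') → π ∈ P := by
  classical
  obtain ⟨E, _, _, _, ι, hE, -, hLE⟩ := hL
  obtain ⟨b0, hb0⟩ := hB
  haveI : FiniteDimensional K E := Module.Finite.of_restrictScalars_finite ℚ K E
  haveI : Algebra.IsSeparable K E := inferInstance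
  obtain ⟨R, hR⟩ : ∃ R : (AlgebraicClosure K ≃ₐ[K] AlgebraicClosure K) →
      (E →ₐ[K] AlgebraicClosure K), ∀ s x, R s x = s (ι x) :=
    ⟨fun s => (s : AlgebraicClosure K →ₐ[K] AlgebraicClosure K).comp ι, fun s x => rfl⟩
  have hRe : ∀ s s', R s = R s' → ∀ x ∈ L, s x = s' x := by
    intro s s' h x hx
    rw [hLE] at hx
    obtain ⟨y, rfl⟩ := hx
    have h1 := congrArg (fun φ => φ y) h
    simp only [hR] at h1
    exact h1
  refine ⟨Finset.univ.image (fun ψ : (E →ₐ[K] AlgebraicClosure K) → B => fun s => (ψ (R s) : β)),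
    ?_, fun π hπ1 hπ2 => ?_⟩
  · refine Finset.card_image_le.trans ?_
    rw [Finset.card_univ, Fintype.card_fun, Fintype.card_coe, AlgHom.card K E (AlgebraicClosure K)]
    refine Nat.pow_le_pow_right (Finset.card_pos.2 ⟨b0, hb0⟩) ?_
    have h1 := Module.finrank_mul_finrank ℚ K E
    have h2 : 0 < finrank ℚ K := Module.finrank_pos
    nlinarith
  · rw [Finset.mem_image]
    refine ⟨fun φ => if h : ∃ s, R s = φ then ⟨π h.choose, hπ1 _⟩ else ⟨b0, hb0⟩,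
      Finset.mem_univ _, ?_⟩
    funext s
    have h : ∃ s', R s' = R s := ⟨s, rfl⟩
    beta_reduce
    rw [dif_pos h]
    exact hπ2 _ _ (hRe _ _ h.choose_spec)

private lemma Kmn_pairs {K : Type} [Field K] [NumberField K] {β : Type} {M : ℕ} {D : ℝ}
    (hfin : (SubF K M D).Finite) (B : Finset β) (hB : B.Nonempty) :
    ∃ P : Finset (IntermediateField K (AlgebraicClosure K) ×
        ((AlgebraicClosure K ≃ₐ[K] AlgebraicClosure K) → β)),
      P.card ≤ (SubF K M D).ncard * B.card ^ M ∧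
      ∀ L ∈ SubF K M D, ∀ π : (AlgebraicClosure K ≃ₐ[K] AlgebraicClosure K) → β,
        (∀ s, π s ∈ B) → (∀ s s', (∀ x ∈ L, s x = s' x) → π s = π s') → (L, π) ∈ P := by
  classical
  have h : ∀ L : IntermediateField K (AlgebraicClosure K), ∃ P : Finset
      ((AlgebraicClosure K ≃ₐ[K] AlgebraicClosure K) → β), P.card ≤ B.card ^ M ∧
      (L ∈ SubF K M D → ∀ π : (AlgebraicClosure K ≃ₐ[K] AlgebraicClosure K) → β,
        (∀ s, π s ∈ B) → (∀ s s', (∀ x ∈ L, s x = s' x) → π s = π s') → π ∈ P) := by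
    intro L
    by_cases hL : L ∈ SubF K M D
    · obtain ⟨P, h1, h2⟩ := Kmn_one hL B hB
      exact ⟨P, h1, fun _ => h2⟩
    · exact ⟨∅, by simp, fun h => absurd h hL⟩
  choose P hP1 hP2 using h
  refine ⟨hfin.toFinset.biUnion fun L => (P L).image fun π => (L, π), ?_, ?_⟩
  · rw [Set.ncard_eq_toFinset_card _ hfin]
    refine Finset.card_biUnion_le_card_mul _ _ _ fun L _ => ?_
    exact Finset.card_image_le.trans (hP1 L)
  · intro L hL π h1 h2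
    rw [Finset.mem_biUnion]
    exact ⟨L, hfin.mem_toFinset.2 hL, Finset.mem_image_of_mem _ (hP2 L hL π h1 h2)⟩

/-- The extension of a tuple by zero. -/
private def Kmn_ext {α : Type} [Zero α] (n : ℕ) (w : Fin (n + 1) → α) (j : ℕ) : α :=
  if h : j < n + 1 then w ⟨j, h⟩ else 0

/-- the finite set of the functions with values in `B` and support in `range (n + 1)` -/
private lemma Kmn_funs {α : Type} [Zero α] (n : ℕ) (B : Finset α) :
    ∃ P : Finset (ℕ → α), P.card ≤ B.card ^ (n + 1) ∧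
      ∀ w : ℕ → α, (∀ j, w j ∈ B) → (∀ j, n + 1 ≤ j → w j = 0) → w ∈ P := by
  classical
  refine ⟨(Fintype.piFinset (fun _ : Fin (n + 1) => B)).image (Kmn_ext n), ?_, ?_⟩
  · refine Finset.card_image_le.trans ?_
    rw [Fintype.card_piFinset_const]
  · intro w hw1 hw2
    rw [Finset.mem_image]
    refine ⟨fun i => w i, ?_, ?_⟩
    · rw [Fintype.mem_piFinset]
      exact fun i => hw1 _
    · funext j
      unfold Kmn_ext
      split_ifs with h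
      · rfl
      · exact (hw2 j (by omega)).symm

/-! ### The first code -/

section first

variable {K : Type} [Field K] [NumberField K]

private lemma Kmn_psi {F : Type*} [Field F] (m : ℕ) {w w' : ℕ → ℕ} {r r' : ℕ → OnePoint F}
    (hw : ∀ j < m, w j = w' j) (hr : ∀ j < m, r j = r' j) (x y : F) :
    psi m w r x y = psi m w' r' x y := by
  unfold psi
  refine Finset.prod_congr rfl fun j hj => ?_
  rw [Finset.mem_range] at hj
  rw [hw j hj, hr j hj]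

private lemma Kmn_Std {F : Type*} [Field F] [Algebra (𝓞 K) F] {N : ℕ} {f : ℕ → (𝓞 K)[X]}
    {m : ℕ} {w w' : ℕ → ℕ} {r r' : ℕ → OnePoint F} {A : Matrix (Fin 2) (Fin 2) F} {u : F}
    (hw : ∀ j < m, w j = w' j) (hr : ∀ j < m, r j = r' j) (h : Std N f m w r A u) :
    Std N f m w' r' A u :=
  ⟨h.1, h.2.1, fun x y => by rw [h.2.2 x y, Kmn_psi m hw hr]⟩

private lemma Kmn_norm {N : ℕ} {f : ℕ → (𝓞 K)[X]} {m : ℕ} {w w' : ℕ → ℕ}
    {ρ : ℕ → Spl (tot N f)} {A : Matrix (Fin 2) (Fin 2) (Spl (tot N f))}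
    {u a b c : Spl (tot N f)} (hw : ∀ j < m, w j = w' j) (h : SForm N f m w ρ A u a b c) :
    SForm N f m w' ρ A u a b c where
  hm := h.hm
  hw := fun j hj => by rw [← hw j hj]; exact h.hw j hj
  hW := by
    rw [← Finset.sum_congr rfl fun j hj => hw j (Finset.mem_range.1 hj)]
    exact h.hW
  inj := h.inj
  h0 := h.h0
  h2 := h.h2
  hcr := h.hcr
  ha := h.ha
  hb := h.hb
  hc := h.hc
  hab := h.hab
  hac := h.hac
  hbc := h.hbc
  hstd := fun F _ _ φ => Kmn_Std hw (fun _ _ => rfl) (h.hstd F φ)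
  hu := h.hu
  hg := fun P => by
    rw [h.hg P]
    congr 1
    refine Finset.sum_congr rfl fun j hj => ?_
    rw [hw j (Finset.mem_range.1 (Finset.mem_of_mem_erase hj))]

/-- the first code `(m, w, r, L, π)` belongs to `f` -/
private def Kmn_D (N : ℕ) (f : ℕ → (𝓞 K)[X]) (m : ℕ)
    (w : ℕ → ℕ) (r : ℕ → AlgebraicClosure K) (L : IntermediateField K (AlgebraicClosure K))
    (π : (AlgebraicClosure K ≃ₐ[K] AlgebraicClosure K) → (Fin 3 → ℕ)) : Prop :=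
  ∃ (ρ : ℕ → Spl (tot N f)) (A : Matrix (Fin 2) (Fin 2) (Spl (tot N f)))
    (u a b c : Spl (tot N f)) (ι : Spl (tot N f) →ₐ[K] AlgebraicClosure K),
    SForm N f m w ρ A u a b c ∧ L = ι.fieldRange ∧
    (∀ j, r j = if j < m ∧ j ≠ 1 then ι (ρ j) else 0) ∧
    ∀ s : AlgebraicClosure K ≃ₐ[K] AlgebraicClosure K,
      Function.Injective (π s) ∧ (∀ j, π s j < m) ∧
      Rel (s : AlgebraicClosure K →+* AlgebraicClosure K) (A.map ι) (pts r) (π s)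

private lemma Kmn_pts {F G : Type*} {φ : F → G} {ρ : ℕ → F} {r : ℕ → G} {m : ℕ} {z : G}
    (hr : ∀ j, r j = if j < m ∧ j ≠ 1 then φ (ρ j) else z) (j : ℕ) (hj : j < m) :
    pts (fun j => φ (ρ j)) j = pts r j := by
  unfold pts
  by_cases h1 : j = 1
  · rw [if_pos h1, if_pos h1]
  · rw [if_neg h1, if_neg h1, hr j, if_pos ⟨hj, h1⟩]

private lemma Kmn_inj {F G : Type*} {φ : F → G} (hφ : Function.Injective φ) {ρ : ℕ → F}
    {r : ℕ → G} {m : ℕ} {z : G} (hr : ∀ j, r j = if j < m ∧ j ≠ 1 then φ (ρ j) else z)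
    (h : Set.InjOn ρ (Set.Iio m \ {1})) : Set.InjOn r (Set.Iio m \ {1}) := by
  intro i hi j hj hij
  have hi' : i < m ∧ i ≠ 1 := ⟨hi.1, hi.2⟩
  have hj' : j < m ∧ j ≠ 1 := ⟨hj.1, hj.2⟩
  rw [hr i, hr j, if_pos hi', if_pos hj'] at hij
  exact h hi hj (hφ hij)

private lemma Kmn_first {σ : K →+* ℂ} {σ' : AlgebraicClosure K →+* ℂ}
    (hσ : ∀ x : K, σ' (algebraMap K (AlgebraicClosure K) x) = σ x) {N n : ℕ} (hN : N ≠ 0)
    (hn : 3 ≤ n) {H Y : ℝ} {f : ℕ → (𝓞 K)[X]} (hf : f ∈ FamE K N n H)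
    (hY : |(discr K : ℝ)| * condE N f ≤ Y) :
    ∃ (m : ℕ) (w : ℕ → ℕ) (r : ℕ → AlgebraicClosure K)
      (L : IntermediateField K (AlgebraicClosure K))
      (π : (AlgebraicClosure K ≃ₐ[K] AlgebraicClosure K) → (Fin 3 → ℕ)),
      m ≤ n + 1 ∧ (∀ j, w j < N) ∧ (∀ j, n + 1 ≤ j → w j = 0) ∧
      (∀ j, r j = 0 ∨ r j = 1 ∨ σ' (r j) ∈ CRsetE K σ N n H Y) ∧
      (∀ j, n + 1 ≤ j → r j = 0) ∧
      (∃ ι : Spl (tot N f) →ₐ[K] AlgebraicClosure K, L = ι.fieldRange) ∧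
      (∀ s, π s ∈ Fintype.piFinset (fun _ : Fin 3 => Finset.range (n + 1))) ∧
      (∀ s s', (∀ x ∈ L, s x = s' x) → π s = π s') ∧ Kmn_D N f m w r L π := by
  classical
  obtain ⟨-, hdeg, hsep, -⟩ := id hf
  obtain ⟨m, w0, ρ, A, u, a, b, c, hmn, hS0⟩ := std_exists hn hdeg hsep
  obtain ⟨w, hw⟩ : ∃ w : ℕ → ℕ, ∀ j, w j = if j < m then w0 j else 0 := ⟨_, fun _ => rfl⟩
  have hS := Kmn_norm (w' := w) (fun j hj => by rw [hw, if_pos hj]) hS0
  obtain ⟨ι⟩ : Nonempty (Spl (tot N f) →ₐ[K] AlgebraicClosure K) :=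
    ⟨IsAlgClosed.lift⟩
  obtain ⟨r, hr⟩ : ∃ r : ℕ → AlgebraicClosure K, ∀ j, r j =
      if j < m ∧ j ≠ 1 then ι (ρ j) else 0 := ⟨_, fun _ => rfl⟩
  have hm3 := hS.hm
  have hStd : Std N f m w (pts r) (A.map ι) (ι u) :=
    Kmn_Std (fun _ _ => rfl) (Kmn_pts (φ := ι) hr) (hS.hstd (AlgebraicClosure K) ι)
  have hinj := Kmn_inj ι.injective hr hS.inj
  have hr0 : r 0 = 1 := by
    rw [hr, if_pos ⟨by omega, by omega⟩, hS.h0, map_one]
  have hr2 : r 2 = 0 := by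
    rw [hr, if_pos ⟨by omega, by omega⟩, hS.h2, map_zero]
  obtain ⟨Q, hQ⟩ : ∃ Q : (AlgebraicClosure K ≃ₐ[K] AlgebraicClosure K) → (Fin 3 → ℕ) → Prop,
      ∀ s, Q s = fun k => Function.Injective k ∧ (∀ j, k j < m) ∧
        Rel (s : AlgebraicClosure K →+* AlgebraicClosure K) (A.map ι) (pts r) k :=
    ⟨_, fun _ => rfl⟩
  have hex : ∀ s, ∃ k, Q s k := by
    intro s
    rw [hQ]
    exact gal_perm hm3 (fun j hj => (hS.hw j hj).1) hinj hr0 hr2 hStd s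
  obtain ⟨π, hπ⟩ : ∃ π : (AlgebraicClosure K ≃ₐ[K] AlgebraicClosure K) → (Fin 3 → ℕ),
      ∀ s, π s = Classical.epsilon (Q s) := ⟨_, fun _ => rfl⟩
  have hπQ : ∀ s, Q s (π s) := by
    intro s
    rw [hπ]
    exact Classical.epsilon_spec (hex s)
  have hπ1 : ∀ s, Function.Injective (π s) ∧ (∀ j, π s j < m) ∧
      Rel (s : AlgebraicClosure K →+* AlgebraicClosure K) (A.map ι) (pts r) (π s) := by
    intro s
    have h := hπQ s
    rw [hQ] at h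
    exact h
  refine ⟨m, w, r, ι.fieldRange, π, hmn, ?_, ?_, ?_, ?_, ⟨ι, rfl⟩, ?_, ?_, ?_⟩
  · intro j
    rw [hw]
    split_ifs with h
    · exact (hS0.hw j h).2
    · omega
  · intro j hj
    rw [hw, if_neg (by omega)]
  · intro j
    by_cases hj : j < m ∧ j ≠ 1
    · by_cases h0 : j = 0
      · right; left
        rw [h0, hr0]
      by_cases h2 : j = 2
      · left
        rw [h2, hr2]
      right; right
      rw [hr, if_pos hj]
      obtain ⟨a', ha', b', hb', c', hc', e', he', h1, h2, h3, h4, h5, h6, h7⟩ :=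
        hS.hcr j (by omega) hj.1
      refine ⟨f, hf, hY, σ'.comp (ι : Spl (tot N f) →+* AlgebraicClosure K), fun x => ?_,
        a', ha', b', hb', c', hc', e', he', h1, h2, h3, h4, h5, h6, ?_⟩
      · rw [RingHom.comp_apply]
        have h8 : (ι : Spl (tot N f) →+* AlgebraicClosure K)
            (algebraMap K (Spl (tot N f)) x) = algebraMap K (AlgebraicClosure K) x :=
          ι.commutes x
        rw [h8, hσ]
      · rw [h7]
        rfl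
    · left
      rw [hr, if_neg hj]
  · intro j hj
    rw [hr, if_neg (by omega)]
  · intro s
    rw [Fintype.mem_piFinset]
    intro j
    rw [Finset.mem_range]
    have := (hπ1 s).2.1 j
    omega
  · intro s s' hss
    rw [hπ, hπ]
    congr 1
    rw [hQ, hQ]
    have h1 : (A.map ι).map (s : AlgebraicClosure K →+* AlgebraicClosure K) =
        (A.map ι).map (s' : AlgebraicClosure K →+* AlgebraicClosure K) := by
      ext i j
      simp only [Matrix.map_apply]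
      exact hss _ ⟨A i j, rfl⟩
    funext k
    unfold Rel
    rw [h1]
  · exact ⟨ρ, A, u, a, b, c, ι, hS, rfl, hr, hπ1⟩

end first

/-! ### The second code -/

section second

variable {K : Type} [Field K] [NumberField K]

/-- the second code of `f` relative to `g` -/
private def Kmn_E (N : ℕ) (f g : ℕ → (𝓞 K)[X])
    (χ : (AlgebraicClosure K ≃ₐ[K] AlgebraicClosure K) → AlgebraicClosure K) : Prop :=
  ∃ (a b c e t : K) (x : AlgebraicClosure K), a * e - b * c ≠ 0 ∧ t ≠ 0 ∧ x ≠ 0 ∧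
    x ^ N = algebraMap K (AlgebraicClosure K) t ∧
    (∀ y z : K, form N g (a * y + b * z) (c * y + e * z) = t * form N f y z) ∧
    ∀ s : AlgebraicClosure K ≃ₐ[K] AlgebraicClosure K, χ s = s x / x

private lemma Kmn_iso {N : ℕ} {f f' g : ℕ → (𝓞 K)[X]}
    {χ : (AlgebraicClosure K ≃ₐ[K] AlgebraicClosure K) → AlgebraicClosure K}
    (h : Kmn_E N f g χ) (h' : Kmn_E N f' g χ) : IsoK N f f' := by
  obtain ⟨a, b, c, e, t, x, hdet, ht, hx, hxt, hform, hχ⟩ := h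
  obtain ⟨a', b', c', e', t', x', hdet', ht', hx', hxt', hform', hχ'⟩ := h'
  obtain ⟨k, hk, hkx⟩ := gal_const hx hx' (fun s => by rw [← hχ s, ← hχ' s])
  have htt : t = k ^ N * t' := by
    apply (algebraMap K (AlgebraicClosure K)).injective
    rw [← hxt, hkx, mul_pow, hxt', map_mul, map_pow]
  obtain ⟨D, hD⟩ : ∃ D : K, D = a' * e' - b' * c' := ⟨_, rfl⟩
  rw [← hD] at hdet'
  refine ⟨(e' * a - b' * c) / D, (e' * b - b' * e) / D, (a' * c - c' * a) / D,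
    (a' * e - c' * b) / D, k, ?_, hk, fun y z => ?_⟩
  · have h1 : (e' * a - b' * c) / D * ((a' * e - c' * b) / D) -
        (e' * b - b' * e) / D * ((a' * c - c' * a) / D) = (a * e - b * c) / D := by
      rw [div_mul_div_comm, div_mul_div_comm, ← sub_div, div_eq_div_iff (mul_ne_zero hdet' hdet')
        hdet']
      rw [hD]
      ring
    rw [h1]
    exact div_ne_zero hdet hdet'
  · have h1 := hform' ((e' * a - b' * c) / D * y + (e' * b - b' * e) / D * z)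
      ((a' * c - c' * a) / D * y + (a' * e - c' * b) / D * z)
    have h2 : a' * ((e' * a - b' * c) / D * y + (e' * b - b' * e) / D * z) +
        b' * ((a' * c - c' * a) / D * y + (a' * e - c' * b) / D * z) = a * y + b * z := by
      field_simp
      rw [hD]
      ring
    have h3 : c' * ((e' * a - b' * c) / D * y + (e' * b - b' * e) / D * z) +
        e' * ((a' * c - c' * a) / D * y + (a' * e - c' * b) / D * z) = c * y + e * z := by
      field_simp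
      rw [hD]
      ring
    rw [h2, h3, hform y z] at h1
    apply mul_left_cancel₀ ht'
    rw [← h1, htt]
    ring

private lemma Kmn_mono {M : ℕ} {D D' : ℝ} (h : D ≤ D') : SubF K M D ⊆ SubF K M D' := by
  rintro L ⟨E, i1, i2, i3, ι, h1, h2, h3⟩
  exact ⟨E, i1, i2, i3, ι, h1, h2.trans h, h3⟩

private lemma Kmn_inv {F G : Type*} [Field F] [Field G] (φ : F →+* G)
    (A : Matrix (Fin 2) (Fin 2) F) (hA : (A.map φ).det ≠ 0) : (A.map φ)⁻¹ = A⁻¹.map φ := by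
  have h1 : (A.map φ).det = φ A.det := by
    rw [RingHom.map_det, RingHom.mapMatrix_apply]
  have h2 : IsUnit A.det := by
    rw [isUnit_iff_ne_zero]
    intro h
    rw [h, map_zero] at h1
    exact hA h1
  apply Matrix.inv_eq_left_inv
  rw [← Matrix.map_mul, Matrix.nonsing_inv_mul A h2, Matrix.map_one φ (map_zero φ) (map_one φ)]

private lemma Kmn_second {N : ℕ} (hN : N ≠ 0) {f g : ℕ → (𝓞 K)[X]}
    (hf : ((tot N f).map (algebraMap (𝓞 K) K)).Separable)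
    (hg : ((tot N g).map (algebraMap (𝓞 K) K)).Separable) {Y : ℝ}
    (hfY : |(discr K : ℝ)| * condE N f ≤ Y) (hgY : |(discr K : ℝ)| * condE N g ≤ Y)
    {m : ℕ} {w : ℕ → ℕ} {r : ℕ → AlgebraicClosure K}
    {L : IntermediateField K (AlgebraicClosure K)}
    {π : (AlgebraicClosure K ≃ₐ[K] AlgebraicClosure K) → (Fin 3 → ℕ)}
    (hDf : Kmn_D N f m w r L π) (hDg : Kmn_D N g m w r L π) {A₂ : ℕ}
    (hroot : ∀ c : K, c ≠ 0 → ∀ W : ℕ, W ≠ 0 →
      N ∣ W → (∀ v : HeightOneSpectrum (𝓞 K), (W : 𝓞 K) ∉ v.asIdeal → (N : ℤ) ∣ ord v c) →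
        ∃ L ∈ SubF K A₂ ((A₂ * (|(discr K : ℝ)| * W)) ^ A₂), ∃ e ∈ L, e ≠ 0 ∧
          e ^ N = algebraMap K (AlgebraicClosure K) c) :
    ∃ L ∈ SubF K A₂ ((A₂ * (N * Y ^ 2)) ^ A₂),
      ∃ χ : (AlgebraicClosure K ≃ₐ[K] AlgebraicClosure K) → AlgebraicClosure K,
        (∀ s, χ s ^ N = 1) ∧ (∀ s s', (∀ x ∈ L, s x = s' x) → χ s = χ s') ∧
          Kmn_E N f g χ := by
  classical
  obtain ⟨ρ, A, u, a, b, c, ι, hS, hL, hr, hπ⟩ := hDf
  obtain ⟨ρ', A', u', a', b', c', ι', hS', hL', hr', hπ'⟩ := hDg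
  have hStd : Std N f m w (pts r) (A.map ι) (ι u) :=
    Kmn_Std (fun _ _ => rfl) (Kmn_pts (φ := ι) hr) (hS.hstd (AlgebraicClosure K) ι)
  have hStd' : Std N g m w (pts r) (A'.map ι') (ι' u') :=
    Kmn_Std (fun _ _ => rfl) (Kmn_pts (φ := ι') hr') (hS'.hstd (AlgebraicClosure K) ι')
  have hinj := Kmn_inj ι.injective hr hS.inj
  obtain ⟨a0, b0, c0, e0, t0, p, p', hdet, hpq, ht0, ht, hform⟩ := gal_iso hinj hStd hStd'
    (fun s => ⟨π s, (hπ s).1, (hπ s).2.1, (hπ s).2.2, (hπ' s).2.2⟩)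
  have hι : ι.fieldRange = ι'.fieldRange := hL.symm.trans hL'
  have hmem : ((A'.map ι')⁻¹ * A.map ι) p p' ∈ ι.fieldRange := by
    have h1 : (A'.map ι')⁻¹ = A'⁻¹.map ι' :=
      Kmn_inv (ι' : Spl (tot N g) →+* AlgebraicClosure K) A' hStd'.1
    rw [h1, Matrix.mul_apply]
    refine sum_mem fun k _ => mul_mem ?_ ?_
    · rw [hι]
      exact ⟨A'⁻¹ p k, rfl⟩
    · exact ⟨A k p', rfl⟩
  have hρ : ∀ j < m, j ≠ 1 → ι (ρ j) = ι' (ρ' j) := by
    intro j hj h1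
    have h2 := hr j
    have h3 := hr' j
    rw [if_pos ⟨hj, h1⟩] at h2 h3
    rw [← h2, ← h3]
  have hord := rel_ordE hN hf hg hS hS' ι ι' hι hρ hmem hpq ht0 ht
  have hcf := condE_pos N f
  have hcg := condE_pos N g
  have hW0 : N * condE N f * condE N g ≠ 0 := by positivity
  obtain ⟨L₂, hL₂, x, hxL, hx0, hxN⟩ := hroot t0 ht0 (N * condE N f * condE N g) hW0
    ((dvd_mul_right N _).mul_right _) hord
  have hD : 1 ≤ |(discr K : ℝ)| := by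
    have h := Int.one_le_abs (discr_ne_zero K)
    rw [← Int.cast_abs]
    exact_mod_cast h
  refine ⟨L₂, Kmn_mono ?_ hL₂, fun s => s x / x, fun s => ?_, fun s s' hs => ?_,
    a0, b0, c0, e0, t0, x, hdet, ht0, hx0, hxN, hform, fun s => rfl⟩
  · have hcf' : (1 : ℝ) ≤ condE N f := by exact_mod_cast hcf
    have hcg' : (1 : ℝ) ≤ condE N g := by exact_mod_cast hcg
    refine pow_le_pow_left₀ (by positivity) ?_ _
    refine mul_le_mul_of_nonneg_left ?_ (Nat.cast_nonneg _)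
    push_cast
    have h1 : (condE N g : ℝ) ≤ Y :=
      (le_mul_of_one_le_left (by linarith) hD).trans hgY
    calc |(discr K : ℝ)| * (N * condE N f * condE N g) =
          N * ((|(discr K : ℝ)| * condE N f) * condE N g) := by ring
      _ ≤ N * (Y * Y) := by
          refine mul_le_mul_of_nonneg_left ?_ (Nat.cast_nonneg _)
          exact mul_le_mul hfY h1 (by linarith) ((by positivity :
            0 ≤ |(discr K : ℝ)| * condE N f).trans hfY)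
      _ = N * Y ^ 2 := by ring
  · rw [div_pow, ← map_pow, hxN, s.commutes, div_self]
    rw [← hxN]
    exact pow_ne_zero _ hx0
  · show s x / x = s' x / x
    rw [hs x hxL]

end second

/-! ### The count -/

private lemma Kmn_abs {α X₁ X₂ : Type} (V : Set α) (Z₁ : Finset X₁) (Z₂ : Finset X₂)
    (P : α → X₁ → Prop) (Q : α → α → X₂ → Prop) (R : α → α → Prop)
    (h1 : ∀ f ∈ V, ∃ z ∈ Z₁, P f z)
    (h2 : ∀ f ∈ V, ∀ g ∈ V, ∀ z, P f z → P g z → ∃ y ∈ Z₂, Q f g y)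
    (h3 : ∀ f f' g y, Q f g y → Q f' g y → R f f') :
    ∃ T : Finset α, T.card ≤ Z₁.card * Z₂.card ∧ ∀ f ∈ V, ∃ f' ∈ T, R f f' := by
  classical
  rcases isEmpty_or_nonempty α with hα | hα
  · exact ⟨∅, by simp, fun f _ => (hα.false f).elim⟩
  obtain ⟨rep, hrep⟩ : ∃ rep : X₁ → α, ∀ z, (∃ g, g ∈ V ∧ P g z) → rep z ∈ V ∧ P (rep z) z :=
    ⟨fun z => Classical.epsilon (fun g => g ∈ V ∧ P g z), fun z hz => Classical.epsilon_spec hz⟩
  obtain ⟨rep2, hrep2⟩ : ∃ rep2 : X₁ × X₂ → α, ∀ z, (∃ f, Q f (rep z.1) z.2) →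
      Q (rep2 z) (rep z.1) z.2 :=
    ⟨fun z => Classical.epsilon (fun f => Q f (rep z.1) z.2),
      fun z hz => Classical.epsilon_spec hz⟩
  refine ⟨(Z₁ ×ˢ Z₂).image rep2, Finset.card_image_le.trans (Finset.card_product _ _).le,
    fun f hf => ?_⟩
  obtain ⟨z, hz, hP⟩ := h1 f hf
  obtain ⟨hg, hPg⟩ := hrep z ⟨f, hf, hP⟩
  obtain ⟨y, hy, hQ⟩ := h2 f hf (rep z) hg z hP hPg
  exact ⟨rep2 (z, y), Finset.mem_image_of_mem _ (Finset.mem_product.2 ⟨hz, hy⟩),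
    h3 f (rep2 (z, y)) (rep z) y hQ (hrep2 (z, y) ⟨f, hQ⟩)⟩

private lemma Kmn_embed {K : Type} [Field K] [NumberField K] (σ : K →+* ℂ) :
    ∃ σ' : AlgebraicClosure K →+* ℂ,
      ∀ x : K, σ' (algebraMap K (AlgebraicClosure K) x) = σ x := by
  letI : Algebra K ℂ := σ.toAlgebra
  obtain ⟨τ⟩ : Nonempty (AlgebraicClosure K →ₐ[K] ℂ) := ⟨IsAlgClosed.lift⟩
  exact ⟨τ.toRingHom, fun x => τ.commutes x⟩

private lemma Kmn_classes {d n N : ℕ} (hN : N ≠ 0) (hn : 3 ≤ n) {A₀ A₂ : ℕ}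
    {K : Type} [Field K] [NumberField K] (hd : finrank ℚ K = d) (hA₀ : 1 ≤ A₀)
    (hspl : ∀ f : ℕ → (𝓞 K)[X],
      (tot N f).natDegree = n → ((tot N f).map (algebraMap (𝓞 K) K)).Separable →
        finrank ℚ (Spl (tot N f)) ≤ A₀ ∧
        |(discr (Spl (tot N f)) : ℝ)| ≤ (A₀ * (|(discr K : ℝ)| * condE N f)) ^ A₀)
    (hroot : ∀ c : K, c ≠ 0 → ∀ W : ℕ, W ≠ 0 →
      N ∣ W → (∀ v : HeightOneSpectrum (𝓞 K), (W : 𝓞 K) ∉ v.asIdeal → (N : ℤ) ∣ ord v c) →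
        ∃ L ∈ SubF K A₂ ((A₂ * (|(discr K : ℝ)| * W)) ^ A₂), ∃ e ∈ L, e ≠ 0 ∧
          e ^ N = algebraMap K (AlgebraicClosure K) c) (σ : K →+* ℂ) {H Y : ℝ} (hY : 1 ≤ Y)
    (hfin0 : (SubF K A₀ ((A₀ * Y) ^ A₀)).Finite)
    (hfin2 : (SubF K A₂ ((A₂ * (N * Y ^ 2)) ^ A₂)).Finite)
    (hfinS : (CRsetE K σ N n H Y).Finite) :
    ∃ T : Finset (ℕ → (𝓞 K)[X]), T.card ≤ ((n + 2) * (N ^ (n + 1) *
      (((CRsetE K σ N n H Y).ncard + 2) ^ (n + 1) *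
        ((SubF K A₀ ((A₀ * Y) ^ A₀)).ncard * ((n + 1) ^ 3) ^ A₀)))) *
        ((SubF K A₂ ((A₂ * (N * Y ^ 2)) ^ A₂)).ncard * N ^ A₂) ∧
      ∀ f ∈ FamE K N n H, |(discr K : ℝ)| * condE N f ≤ Y → ∃ g ∈ T, IsoK N f g := by
  classical
  obtain ⟨σ', hσ'⟩ := Kmn_embed σ
  have hD : 1 ≤ |(discr K : ℝ)| := by
    have h := Int.one_le_abs (discr_ne_zero K)
    rw [← Int.cast_abs]
    exact_mod_cast h
  -- the values
  have hpre : {x : AlgebraicClosure K | σ' x ∈ CRsetE K σ N n H Y}.Finite :=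
    hfinS.preimage σ'.injective.injOn
  obtain ⟨S, hS⟩ : ∃ S : Finset (AlgebraicClosure K), S =
      insert 0 (insert 1 hpre.toFinset) := ⟨_, rfl⟩
  have hScard : S.card ≤ (CRsetE K σ N n H Y).ncard + 2 := by
    have h1 : hpre.toFinset.card ≤ (CRsetE K σ N n H Y).ncard := by
      rw [← Set.ncard_eq_toFinset_card _ hpre]
      exact Set.ncard_le_ncard_of_injOn σ' (fun x hx => hx) σ'.injective.injOn hfinS
    rw [hS]
    refine (Finset.card_insert_le _ _).trans ?_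
    have h2 := Finset.card_insert_le (1 : AlgebraicClosure K) hpre.toFinset
    omega
  obtain ⟨B₁, hB₁⟩ : ∃ B₁ : Finset (Fin 3 → ℕ),
      B₁ = Fintype.piFinset (fun _ : Fin 3 => Finset.range (n + 1)) := ⟨_, rfl⟩
  have hB₁c : B₁.card = (n + 1) ^ 3 := by
    rw [hB₁, Fintype.card_piFinset_const, Finset.card_range]
  obtain ⟨P₁, hP₁c, hP₁⟩ := Kmn_pairs hfin0 B₁
    (Finset.card_pos.1 (by rw [hB₁c]; positivity))
  obtain ⟨B₂, hB₂⟩ : ∃ B₂ : Finset (AlgebraicClosure K),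
      B₂ = (nthRoots N (1 : AlgebraicClosure K)).toFinset := ⟨_, rfl⟩
  have hB₂m : ∀ x, x ∈ B₂ ↔ x ^ N = 1 := by
    intro x
    rw [hB₂, Multiset.mem_toFinset, mem_nthRoots (Nat.pos_of_ne_zero hN)]
  have hB₂c : B₂.card ≤ N := by
    rw [hB₂]
    exact (Multiset.toFinset_card_le _).trans (card_nthRoots _ _)
  obtain ⟨P₂, hP₂c, hP₂⟩ := Kmn_pairs hfin2 B₂ ⟨1, (hB₂m 1).2 (one_pow N)⟩
  obtain ⟨W₁, hW₁c, hW₁⟩ := Kmn_funs n (Finset.range N)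
  rw [Finset.card_range] at hW₁c
  obtain ⟨R₁, hR₁c, hR₁⟩ := Kmn_funs n S
  obtain ⟨Z₁, hZ₁⟩ : ∃ Z₁ : Finset (ℕ × (ℕ → ℕ) × (ℕ → AlgebraicClosure K) ×
      (IntermediateField K (AlgebraicClosure K) ×
        ((AlgebraicClosure K ≃ₐ[K] AlgebraicClosure K) → (Fin 3 → ℕ)))),
      Z₁ = Finset.range (n + 2) ×ˢ (W₁ ×ˢ (R₁ ×ˢ P₁)) := ⟨_, rfl⟩
  obtain ⟨V, hV⟩ : ∃ V : Set (ℕ → (𝓞 K)[X]),
      V = {f | f ∈ FamE K N n H ∧ |(discr K : ℝ)| * condE N f ≤ Y} := ⟨_, rfl⟩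
  have hVm : ∀ f, f ∈ V ↔ f ∈ FamE K N n H ∧ |(discr K : ℝ)| * condE N f ≤ Y := by
    intro f
    rw [hV]
    exact Iff.rfl
  have key1 : ∀ f ∈ V, ∃ z ∈ Z₁, Kmn_D N f z.1 z.2.1 z.2.2.1 z.2.2.2.1 z.2.2.2.2 := by
    intro f hfV
    obtain ⟨hf, hfY⟩ := (hVm f).1 hfV
    obtain ⟨-, hdeg, hsep, -⟩ := id hf
    have hfY' : |(discr K : ℝ)| * condE N f ≤ Y := hfY
    obtain ⟨m, w, r, L, π, hm, hw1, hw2, hr1, hr2, ⟨ι, hL⟩, hπ1, hπ2, hDf⟩ :=
      Kmn_first hσ' hN hn hf hfY'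
    refine ⟨(m, w, r, L, π), ?_, hDf⟩
    rw [hZ₁, Finset.mem_product, Finset.mem_product, Finset.mem_product]
    refine ⟨?_, ?_, ?_, ?_⟩
    · rw [Finset.mem_range]
      show m < n + 2
      omega
    · exact hW₁ w (fun j => Finset.mem_range.2 (hw1 j)) hw2
    · refine hR₁ r (fun j => ?_) hr2
      rw [hS, Finset.mem_insert, Finset.mem_insert, Set.Finite.mem_toFinset]
      exact hr1 j
    · refine hP₁ L ?_ π (fun s => ?_) hπ2
      · obtain ⟨h1, h2⟩ := hspl f hdeg hsep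
        refine ⟨Spl (tot N f), inferInstance, inferInstance, inferInstance, ι, h1,
          h2.trans ?_, hL⟩
        refine pow_le_pow_left₀ (by positivity) ?_ _
        exact mul_le_mul_of_nonneg_left hfY' (Nat.cast_nonneg _)
      · rw [hB₁]
        exact hπ1 s
  have key2 : ∀ f ∈ V, ∀ g ∈ V, ∀ z : ℕ × (ℕ → ℕ) × (ℕ → AlgebraicClosure K) ×
      (IntermediateField K (AlgebraicClosure K) ×
        ((AlgebraicClosure K ≃ₐ[K] AlgebraicClosure K) → (Fin 3 → ℕ))),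
      Kmn_D N f z.1 z.2.1 z.2.2.1 z.2.2.2.1 z.2.2.2.2 →
      Kmn_D N g z.1 z.2.1 z.2.2.1 z.2.2.2.1 z.2.2.2.2 → ∃ y ∈ P₂, Kmn_E N f g y.2 := by
    intro f hfV g hgV z hDf hDg
    obtain ⟨hf, hfY⟩ := (hVm f).1 hfV
    obtain ⟨hg, hgY⟩ := (hVm g).1 hgV
    obtain ⟨L₂, hL₂, χ, hχ1, hχ2, hE⟩ := Kmn_second hN hf.2.2.1 hg.2.2.1 hfY hgY hDf hDg hroot
    exact ⟨(L₂, χ), hP₂ L₂ hL₂ χ (fun s => (hB₂m _).2 (hχ1 s)) hχ2, hE⟩
  obtain ⟨T, hTc, hT⟩ := Kmn_abs V Z₁ P₂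
    (fun f z => Kmn_D N f z.1 z.2.1 z.2.2.1 z.2.2.2.1 z.2.2.2.2)
    (fun f g y => Kmn_E N f g y.2) (fun f g => IsoK N f g) key1 key2
    (fun f f' g y h1 h2 => Kmn_iso h1 h2)
  refine ⟨T, hTc.trans ?_, fun f hf hfY => hT f ((hVm f).2 ⟨hf, hfY⟩)⟩
  refine Nat.mul_le_mul ?_ ?_
  · rw [hZ₁, Finset.card_product, Finset.card_product, Finset.card_product, Finset.card_range]
    refine Nat.mul_le_mul_left _ (Nat.mul_le_mul hW₁c (Nat.mul_le_mul ?_ ?_))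
    · exact hR₁c.trans (Nat.pow_le_pow_left hScard _)
    · rw [hB₁c] at hP₁c
      exact hP₁c
  · exact hP₂c.trans (Nat.mul_le_mul_left _ (Nat.pow_le_pow_left hB₂c _))

/-- The number of the curves with coefficients in `Box K H` and small conductor, up to
isomorphism over `K`. -/
theorem count_of_cr (d n N : ℕ) (h2N : 2 ≤ N) (hn : 3 ≤ n)
    (hcr : ∀ ε : ℝ, 0 < ε → ∃ A C : ℝ, 0 < A ∧ 1 ≤ C ∧
      ∀ (K : Type) [Field K] [NumberField K], finrank ℚ K = d →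
        ∀ σ : K →+* ℂ, ∀ H Y : ℝ, 1 ≤ H → 1 ≤ Y → (CRsetE K σ N n H Y).Finite ∧
          ((CRsetE K σ N n H Y).ncard : ℝ) ≤ C * Y ^ A * H ^ ε) {ε : ℝ} (hε : 0 < ε) :
    ∃ A C : ℝ, 0 < A ∧ 1 ≤ C ∧ ∀ (K : Type) [Field K] [NumberField K], finrank ℚ K = d →
      ∀ H Y : ℝ, 1 ≤ H → 1 ≤ Y → ∃ T : Finset (ℕ → (𝓞 K)[X]),
        (T.card : ℝ) ≤ C * Y ^ A * H ^ ε ∧
        ∀ f ∈ FamE K N n H, |(discr K : ℝ)| * condE N f ≤ Y → ∃ g ∈ T, IsoK N f g := by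
  classical
  have hN : N ≠ 0 := by omega
  have hN1 : (1 : ℝ) ≤ N := by exact_mod_cast Nat.one_le_iff_ne_zero.2 hN
  have hn1 : (0 : ℝ) < (n : ℝ) + 1 := by positivity
  obtain ⟨ε', hε'⟩ : ∃ ε' : ℝ, ε' = ε / ((n : ℝ) + 1) := ⟨_, rfl⟩
  have hε'0 : 0 < ε' := by
    rw [hε']
    positivity
  obtain ⟨A₁, C₂, hA₁, hC₂, hcount⟩ := hcr ε' hε'0
  obtain ⟨A₀, hA₀, hspl0⟩ := spl_disc d n N 1 hN
  have hspl : ∀ (K : Type) [Field K] [NumberField K], finrank ℚ K = d → ∀ f : ℕ → (𝓞 K)[X],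
      (tot N f).natDegree = n → ((tot N f).map (algebraMap (𝓞 K) K)).Separable →
        finrank ℚ (Spl (tot N f)) ≤ A₀ ∧
        |(discr (Spl (tot N f)) : ℝ)| ≤ (A₀ * (|(discr K : ℝ)| * condE N f)) ^ A₀ := by
    intro K _ _ hd f hf1 hf2
    obtain ⟨h1, h2⟩ := hspl0 K hd f hf1 hf2
    refine ⟨h1, h2.trans ?_⟩
    have h4 : (cond N 1 f : ℝ) ≤ condE N f := by exact_mod_cast cond_one_le N hf2
    refine pow_le_pow_left₀ (by positivity) ?_ _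
    exact mul_le_mul_of_nonneg_left (mul_le_mul_of_nonneg_left h4 (abs_nonneg _))
      (Nat.cast_nonneg _)
  obtain ⟨A₂, hA₂, hroot⟩ := root_field d N hN
  obtain ⟨A₃, C₃, hC₃, hsub₀⟩ := subF_count A₀
  obtain ⟨A₄, C₄, hC₄, hsub₂⟩ := subF_count A₂
  have hA₀' : (1 : ℝ) ≤ A₀ := by exact_mod_cast hA₀
  have hA₂' : (1 : ℝ) ≤ A₂ := by exact_mod_cast hA₂
  obtain ⟨A₅, hA₅⟩ : ∃ A₅ : ℝ, A₅ = A₁ * (n + 1) + A₀ * A₃ + 2 * A₂ * A₄ := ⟨_, rfl⟩
  have hA₅0 : 0 < A₅ := by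
    rw [hA₅]
    positivity
  obtain ⟨C₅, hC₅⟩ : ∃ C₅ : ℝ, C₅ = (((n : ℝ) + 2) * ((N : ℝ) ^ (n + 1) *
      ((3 * C₂) ^ (n + 1) * (C₃ * (A₀ : ℝ) ^ (A₀ * A₃) * (((n : ℝ) + 1) ^ 3) ^ A₀)))) *
      (C₄ * ((A₂ : ℝ) * N) ^ (A₂ * A₄) * (N : ℝ) ^ A₂) := ⟨_, rfl⟩
  have hC₅0 : 0 ≤ C₅ := by
    rw [hC₅]
    positivity
  refine ⟨A₅, 1 + C₅, hA₅0, by linarith, fun K _ _ hd H Y hH hY1 => ?_⟩
  have hH0 : 0 < H := by linarith
  obtain ⟨σ⟩ : Nonempty (K →+* ℂ) := inferInstance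
  have hY0 : 0 < Y := by linarith
  obtain ⟨hfinS, hcardS⟩ := hcount K hd σ H Y hH hY1
  have hD0 : 1 ≤ ((A₀ : ℝ) * Y) ^ A₀ := one_le_pow₀ (one_le_mul_of_one_le_of_one_le hA₀' hY1)
  have hD2 : 1 ≤ ((A₂ : ℝ) * (N * Y ^ 2)) ^ A₂ :=
    one_le_pow₀ (one_le_mul_of_one_le_of_one_le hA₂'
      (one_le_mul_of_one_le_of_one_le hN1 (one_le_pow₀ hY1)))
  obtain ⟨hfin0, hcard0⟩ := hsub₀ K _ hD0
  obtain ⟨hfin2, hcard2⟩ := hsub₂ K _ hD2
  obtain ⟨T, hT, hTf⟩ := Kmn_classes hN hn hd hA₀ (fun f => hspl K hd f)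
    (fun c => hroot K hd c) σ hY1 hfin0 hfin2 hfinS (H := H) (n := n)
  refine ⟨T, ?_, hTf⟩
  have hT' : (T.card : ℝ) ≤ (((n : ℝ) + 2) * ((N : ℝ) ^ (n + 1) *
      ((((CRsetE K σ N n H Y).ncard : ℝ) + 2) ^ (n + 1) *
        (((SubF K A₀ ((A₀ * Y) ^ A₀)).ncard : ℝ) * (((n : ℝ) + 1) ^ 3) ^ A₀)))) *
        (((SubF K A₂ ((A₂ * (N * Y ^ 2)) ^ A₂)).ncard : ℝ) * (N : ℝ) ^ A₂) := by
    exact_mod_cast hT
  have hYA : 1 ≤ Y ^ A₁ := Real.one_le_rpow hY1 hA₁.le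
  have hHε : 1 ≤ H ^ ε' := Real.one_le_rpow hH hε'0.le
  have h1 : 1 ≤ C₂ * Y ^ A₁ * H ^ ε' :=
    one_le_mul_of_one_le_of_one_le (one_le_mul_of_one_le_of_one_le hC₂ hYA) hHε
  have h2 : ((CRsetE K σ N n H Y).ncard : ℝ) + 2 ≤ 3 * C₂ * (Y ^ A₁ * H ^ ε') := by linarith
  have h5 : ((SubF K A₀ ((A₀ * Y) ^ A₀)).ncard : ℝ) ≤
      C₃ * (A₀ : ℝ) ^ (A₀ * A₃) * Y ^ (A₀ * A₃) := by
    refine hcard0.trans (le_of_eq ?_)
    rw [← pow_mul, mul_pow]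
    ring
  have h6 : ((SubF K A₂ ((A₂ * (N * Y ^ 2)) ^ A₂)).ncard : ℝ) ≤
      C₄ * ((A₂ : ℝ) * N) ^ (A₂ * A₄) * Y ^ (2 * (A₂ * A₄)) := by
    refine hcard2.trans (le_of_eq ?_)
    rw [← pow_mul, ← mul_assoc (A₂ : ℝ), mul_pow, ← pow_mul]
    ring
  have h4 : (Y ^ A₁ * H ^ ε') ^ (n + 1) * Y ^ (A₀ * A₃) * Y ^ (2 * (A₂ * A₄)) =
      Y ^ A₅ * H ^ ε := by
    rw [mul_pow, ← Real.rpow_natCast (H ^ ε'), ← Real.rpow_mul hH0.le,
      ← Real.rpow_natCast (Y ^ A₁), ← Real.rpow_mul hY0.le, ← Real.rpow_natCast Y,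
      ← Real.rpow_natCast Y]
    have h7 : ε' * ((n + 1 : ℕ) : ℝ) = ε := by
      rw [hε']
      push_cast
      field_simp
    rw [h7, hA₅]
    have h8 : A₁ * ((n : ℝ) + 1) + A₀ * A₃ + 2 * A₂ * A₄ =
        A₁ * ((n + 1 : ℕ) : ℝ) + ((A₀ * A₃ : ℕ) : ℝ) + ((2 * (A₂ * A₄) : ℕ) : ℝ) := by
      push_cast
      ring
    rw [h8, Real.rpow_add hY0, Real.rpow_add hY0]
    ring
  calc (T.card : ℝ) ≤ (((n : ℝ) + 2) * ((N : ℝ) ^ (n + 1) *
      ((3 * C₂ * (Y ^ A₁ * H ^ ε')) ^ (n + 1) *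
        ((C₃ * (A₀ : ℝ) ^ (A₀ * A₃) * Y ^ (A₀ * A₃)) * (((n : ℝ) + 1) ^ 3) ^ A₀)))) *
        ((C₄ * ((A₂ : ℝ) * N) ^ (A₂ * A₄) * Y ^ (2 * (A₂ * A₄))) * (N : ℝ) ^ A₂) := by
        refine hT'.trans ?_
        gcongr
    _ = C₅ * ((Y ^ A₁ * H ^ ε') ^ (n + 1) * Y ^ (A₀ * A₃) * Y ^ (2 * (A₂ * A₄))) := by
        rw [hC₅, mul_pow (3 * C₂)]
        ring
    _ = C₅ * (Y ^ A₅ * H ^ ε) := by rw [h4]
    _ ≤ (1 + C₅) * (Y ^ A₅ * H ^ ε) := by
        refine mul_le_mul_of_nonneg_right (by linarith) ?_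
        exact mul_nonneg (Real.rpow_nonneg hY0.le _) (Real.rpow_nonneg hH0.le _)
    _ = (1 + C₅) * Y ^ A₅ * H ^ ε := by ring

private lemma KmnF_one {N : ℕ} {K : Type} [Field K] [NumberField K] (f : ℕ → (𝓞 K)[X]) :
    1 ≤ |(NumberField.discr K : ℝ)| * condE N f ∧
      |(NumberField.discr K : ℝ)| ≤ |(NumberField.discr K : ℝ)| * condE N f := by
  have hD : 1 ≤ |(NumberField.discr K : ℝ)| := by
    have h := Int.one_le_abs (NumberField.discr_ne_zero K)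
    rw [← Int.cast_abs]
    exact_mod_cast h
  have hcd : (1 : ℝ) ≤ condE N f := by exact_mod_cast condE_pos N f
  exact ⟨one_le_mul_of_one_le_of_one_le hD hcd, le_mul_of_one_le_right (by linarith) hcd⟩

private lemma KmnF_vio {N : ℕ} {κ c C C₁ : ℝ} (hκ : 0 < κ) (hc : C ≤ c) {K : Type} [Field K]
    [NumberField K] {H : ℝ} (hH : 1 ≤ H) {f : ℕ → (𝓞 K)[X]}
    (hh : height N f ≤ C₁ * Real.log H + C) (hF : ¬ FreyE N κ c f) :
    |(NumberField.discr K : ℝ)| * condE N f ≤ H ^ (C₁ / κ) := by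
  unfold FreyE at hF
  push Not at hF
  have h1 : κ * Real.log (|(NumberField.discr K : ℝ)| * condE N f) < C₁ * Real.log H := by
    linarith
  have hpos : 0 < |(NumberField.discr K : ℝ)| * condE N f :=
    lt_of_lt_of_le one_pos (KmnF_one f).1
  have hH0 : 0 < H := by linarith
  have h2 : Real.log (|(NumberField.discr K : ℝ)| * condE N f) < C₁ / κ * Real.log H := by
    have h3 : C₁ / κ * Real.log H = (C₁ * Real.log H) / κ := by ring
    rw [h3, lt_div_iff₀ hκ]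
    linarith
  rw [← Real.log_rpow hH0] at h2
  exact ((Real.log_lt_log_iff hpos (Real.rpow_pos_of_pos hH0 _)).1 h2).le

private lemma KmnF_sub (inst : Algebra ℚ (AlgebraicClosure ℚ)) {d A₂ : ℕ} {C₂ Y : ℝ}
    (hfin : (SubF ℚ d Y).Finite) (hcard : ((SubF ℚ d Y).ncard : ℝ) ≤ C₂ * Y ^ A₂) :
    ∃ 𝒦 : Finset (@IntermediateField ℚ (AlgebraicClosure ℚ) _ _ inst),
      (𝒦.card : ℝ) ≤ C₂ * Y ^ A₂ ∧
      ∀ (K : @IntermediateField ℚ (AlgebraicClosure ℚ) _ _ inst) [NumberField K],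
        finrank ℚ K = d → |(discr K : ℝ)| ≤ Y → K ∈ 𝒦 := by
  obtain rfl : inst = AlgebraicClosure.instAlgebra ℚ := Subsingleton.elim _ _
  refine ⟨hfin.toFinset, ?_, ?_⟩
  · rw [← Set.ncard_eq_toFinset_card _ hfin]
    exact hcard
  · intro K _ hd hD
    rw [Set.Finite.mem_toFinset]
    exact ⟨K, inferInstance, inferInstance, inferInstance, K.val, hd.le, hD,
      (IntermediateField.fieldRange_val K).symm⟩

/-- The number of the curves, over all the number fields of degree `d`, with coefficients in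
`Box K H` and `|D_K| condE N f ≤ Y`, up to isomorphism over `K`. -/
private theorem KmnF_all (d n N : ℕ) (hN : 2 ≤ N) (hn : 3 ≤ n)
    (hcr : ∀ ε : ℝ, 0 < ε → ∃ A C : ℝ, 0 < A ∧ 1 ≤ C ∧
      ∀ (K : Type) [Field K] [NumberField K], finrank ℚ K = d →
        ∀ σ : K →+* ℂ, ∀ H Y : ℝ, 1 ≤ H → 1 ≤ Y → (CRsetE K σ N n H Y).Finite ∧
          ((CRsetE K σ N n H Y).ncard : ℝ) ≤ C * Y ^ A * H ^ ε) {ε : ℝ} (hε : 0 < ε) :
    ∃ A C : ℝ, 0 < A ∧ 1 ≤ C ∧ ∀ H Y : ℝ, 1 ≤ H → 1 ≤ Y →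
      ∃ (𝒦 : Finset (IntermediateField ℚ (AlgebraicClosure ℚ)))
        (T : ∀ K : IntermediateField ℚ (AlgebraicClosure ℚ), Finset (ℕ → (𝓞 K)[X])),
        (∑ K ∈ 𝒦, ((T K).card : ℝ)) ≤ C * Y ^ A * H ^ ε ∧
        ∀ (K : IntermediateField ℚ (AlgebraicClosure ℚ)) [NumberField K], finrank ℚ K = d →
          ∀ f ∈ FamE K N n H, |(discr K : ℝ)| * condE N f ≤ Y →
            K ∈ 𝒦 ∧ ∃ g ∈ T K, IsoK N f g := by
  classical
  obtain ⟨A, C, hA, hC, h0⟩ := count_of_cr d n N hN hn hcr hε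
  obtain ⟨A₂, C₂, hC₂, hsub⟩ := subF_count d
  refine ⟨A + A₂, C₂ * C, by positivity, one_le_mul_of_one_le_of_one_le hC₂ hC,
    fun H Y hH hY => ?_⟩
  have hH0 : 0 < H := by linarith
  have hY0 : 0 < Y := by linarith
  obtain ⟨hfin, hcard⟩ := hsub ℚ Y hY
  have hCY : 0 ≤ C * Y ^ A * H ^ ε := by
    have h1 : 0 ≤ Y ^ A := (Real.rpow_pos_of_pos hY0 _).le
    have h2 : 0 ≤ H ^ ε := (Real.rpow_pos_of_pos hH0 _).le
    exact mul_nonneg (mul_nonneg (by linarith) h1) h2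
  have hT : ∀ K : IntermediateField ℚ (AlgebraicClosure ℚ), ∃ T : Finset (ℕ → (𝓞 K)[X]),
      (T.card : ℝ) ≤ C * Y ^ A * H ^ ε ∧ ∀ [NumberField K], finrank ℚ K = d →
        ∀ f ∈ FamE K N n H, |(discr K : ℝ)| * condE N f ≤ Y → ∃ g ∈ T, IsoK N f g := by
    intro K
    by_cases hK : NumberField K
    · by_cases hd : finrank ℚ K = d
      · obtain ⟨T, hT1, hT2⟩ := h0 K hd H Y hH hY
        refine ⟨T, hT1, ?_⟩
        intro _ _
        exact hT2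
      · refine ⟨∅, ?_, ?_⟩
        · rw [Finset.card_empty, Nat.cast_zero]
          exact hCY
        · intro _ hd'
          exact absurd hd' hd
    · refine ⟨∅, ?_, ?_⟩
      · rw [Finset.card_empty, Nat.cast_zero]
        exact hCY
      · intro h _
        exact absurd h hK
  choose T hT1 hT2 using hT
  obtain ⟨𝒦, h𝒦1, h𝒦2⟩ := KmnF_sub _ hfin hcard
  refine ⟨𝒦, T, ?_, ?_⟩
  · have h1 : (∑ K ∈ 𝒦, ((T K).card : ℝ)) ≤ (𝒦.card : ℝ) * (C * Y ^ A * H ^ ε) := by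
      rw [← nsmul_eq_mul]
      exact Finset.sum_le_card_nsmul _ _ _ (fun K _ => hT1 K)
    refine h1.trans ((mul_le_mul_of_nonneg_right h𝒦1 hCY).trans (le_of_eq ?_))
    rw [Real.rpow_add hY0, Real.rpow_natCast]
    ring
  · intro K _ hd f hf hF
    exact ⟨h𝒦2 K hd ((KmnF_one f).2.trans hF), hT2 K hd f hf hF⟩

/-- Frey's inequality, for all `κ > 0`, from the number of the cross ratios. -/
theorem all_of_cr (d n N : ℕ) (hN : 2 ≤ N) (hn : 3 ≤ n)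
    (hcr : ∀ ε : ℝ, 0 < ε → ∃ A C : ℝ, 0 < A ∧ 1 ≤ C ∧
      ∀ (K : Type) [Field K] [NumberField K], finrank ℚ K = d →
        ∀ σ : K →+* ℂ, ∀ H Y : ℝ, 1 ≤ H → 1 ≤ Y → (CRsetE K σ N n H Y).Finite ∧
          ((CRsetE K σ N n H Y).ncard : ℝ) ≤ C * Y ^ A * H ^ ε) {ε : ℝ} (hε : 0 < ε) :
    ∃ B c : ℝ, 0 < B ∧ ∀ κ : ℝ, 0 < κ → ∀ H : ℝ, 1 ≤ H →
      ∃ (𝒦 : Finset (IntermediateField ℚ (AlgebraicClosure ℚ)))
        (T : ∀ K : IntermediateField ℚ (AlgebraicClosure ℚ), Finset (ℕ → (𝓞 K)[X])),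
        (∑ K ∈ 𝒦, ((T K).card : ℝ)) ≤ c * H ^ (B / κ + ε) ∧
        ∀ (K : IntermediateField ℚ (AlgebraicClosure ℚ)) [NumberField K], finrank ℚ K = d →
          ∀ f ∈ FamE K N n H, ¬ FreyE N κ c f → K ∈ 𝒦 ∧ ∃ g ∈ T K, IsoK N f g := by
  obtain ⟨A, C, hA, hC, h0⟩ := KmnF_all d n N hN hn hcr hε
  obtain ⟨C₁, C', hC₁, hC', hh⟩ := height_le n N 1 hn (by omega)
  refine ⟨A * C₁, C + C', by positivity, fun κ hκ H hH => ?_⟩
  have hH0 : 0 < H := by linarith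
  obtain ⟨𝒦, T, h1, h2⟩ := h0 H (H ^ (C₁ / κ)) hH (Real.one_le_rpow hH (by positivity))
  refine ⟨𝒦, T, h1.trans ?_, fun K _ hd f hf hF => h2 K hd f hf
    (KmnF_vio hκ (by linarith) hH (hh K H hH f (mem_famE hf)) hF)⟩
  have h3 : C * (H ^ (C₁ / κ)) ^ A * H ^ ε = C * H ^ (A * C₁ / κ + ε) := by
    rw [← Real.rpow_mul hH0.le, mul_assoc, ← Real.rpow_add hH0]
    congr 2
    ring
  rw [h3]
  exact mul_le_mul_of_nonneg_right (by linarith) (Real.rpow_pos_of_pos hH0 _).le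

end FreyCyc
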