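import Pool.Agent.Lib.MP_6babc4_nt.G2.Idn

/-!
# Module Nbd: at most one form vanishes

* `nb`: over a field with `2 ≠ 0`: if at most one of the ten forms vanishes at `v`, the same holds for `v'`.
PROOF (helper44). Suppose two forms vanish at `v'`; show that two vanish at `v`. `v' = (α, β, γ, δ)`,
`v = (A, B, C, D)`. (two of `q₄..q₉`, different pairs) e.g. `αβ = -γδ`, `αγ = -βδ`: `βγ(α² - δ²) = 0`: either two of
`q₀, q₄, q₆, q₈` vanish at `v`, or `q₀ = q₈`, `q₄ = q₆` at `v`, i.e. `(A-D)² + (B-C)² = 0 = (A-D)(B-C)`, so `A = D`, `B = C`,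
`q₁ = q₂ = 0`. (same pair) `αβ = γδ = 0`: two of `q₀, q₄, q₆, q₈` vanish. (one of `q₀..q₃` and one of `q₄..q₉`) e.g.
`A+B+C+D = 0` and `αβ ± γδ = 0`: `q₀ q₄ = q₆ q₈` and `q₀ + q₄ = -(q₆ + q₈)`, so `q₀ - q₄ = ±(q₆ - q₈)`, so
`q₀ = -q₈, q₄ = -q₆` or `q₀ = -q₆, q₄ = -q₈`: `(A+D)² + (B+C)² = 0 = (A+D)(B+C)` resp. the same for `A+C, B+D`: both are `0`, and two forms
vanish. (two of `q₀..q₃`) two linear forms vanish, e.g. `A + B = 0 = C + D`, `q₂ = q₃ = 0`. The other cases by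
symmetry (or by computer algebra: each case is a `linear_combination`).
-/

set_option autoImplicit false

namespace FreyG2

private theorem nbd_sq {F : Type*} [Field F] {x y : F} (h : x ^ 2 + y ^ 2 = 0) (h' : x * y = 0) :
    x = 0 ∧ y = 0 := by
  rcases mul_eq_zero.mp h' with hx | hy
  · subst hx
    refine ⟨rfl, ?_⟩
    have : y ^ 2 = 0 := by linear_combination h
    exact pow_eq_zero_iff (two_ne_zero) |>.mp this
  · subst hy
    refine ⟨?_, rfl⟩
    have : x ^ 2 = 0 := by linear_combination h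
    exact pow_eq_zero_iff (two_ne_zero) |>.mp this

/-- Everything in terms of the four forms of the step. -/
private structure NbdK {F : Type*} [Field F] (x0 x4 x6 x8 : F) : Prop where
  k4 : ∀ s : F, s ^ 2 = 1 → x0 = s * x4 → x6 = s * x8 → False
  k6 : ∀ s : F, s ^ 2 = 1 → x0 = s * x6 → x4 = s * x8 → False
  k8 : ∀ s : F, s ^ 2 = 1 → x0 = s * x8 → x4 = s * x6 → False
  h04 : x0 = 0 → x4 = 0 → False
  h06 : x0 = 0 → x6 = 0 → False
  h08 : x0 = 0 → x8 = 0 → False
  h46 : x4 = 0 → x6 = 0 → False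
  h48 : x4 = 0 → x8 = 0 → False
  h68 : x6 = 0 → x8 = 0 → False

/-- a linear form and a product -/
private theorem nbd_le {F : Type*} [Field F] {x0 x4 x6 x8 : F} (K : NbdK x0 x4 x6 x8)
    {a b c : F} (ha : a ^ 2 = 1) (hb : b ^ 2 = 1) (hc : c ^ 2 = 1) (habc : a * b = c)
    (hL : x0 + a * x4 + b * x6 + c * x8 = 0)
    (hE : x0 * x4 = x6 * x8 ∨ x0 * x6 = x4 * x8 ∨ x0 * x8 = x4 * x6) : False := by
  have hsa : (-a) ^ 2 = 1 := by rw [neg_sq, ha]
  have hsb : (-b) ^ 2 = 1 := by rw [neg_sq, hb]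
  have hsc : (-c) ^ 2 = 1 := by rw [neg_sq, hc]
  have hac : a * c = b := by rw [← habc]; linear_combination b * ha
  have hbc : b * c = a := by rw [← habc]; linear_combination a * hb
  -- the three disjunctions
  have c4 : x0 = -a * x4 → False := fun h0 => by
    have h1 : b * x6 + c * x8 = 0 := by linear_combination hL - h0
    refine K.k4 (-a) hsa h0 ?_
    linear_combination b * h1 - x6 * hb - x8 * hbc
  have c6 : x0 = -b * x6 → False := fun h0 => by
    have h1 : a * x4 + c * x8 = 0 := by linear_combination hL - h0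
    refine K.k6 (-b) hsb h0 ?_
    linear_combination a * h1 - x4 * ha - x8 * hac
  have c8 : x0 = -c * x8 → False := fun h0 => by
    have h1 : a * x4 + b * x6 = 0 := by linear_combination hL - h0
    refine K.k8 (-c) hsc h0 ?_
    linear_combination a * h1 - x4 * ha - x6 * habc
  rcases hE with hE | hE | hE
  · have h : (x0 + b * x6) * (x0 + c * x8) = 0 := by
      linear_combination x0 * hL - a * hE + x6 * x8 * hbc
    rcases mul_eq_zero.mp h with h | h
    · exact c6 (by linear_combination h)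
    · exact c8 (by linear_combination h)
  · have h : (x0 + a * x4) * (x0 + c * x8) = 0 := by
      linear_combination x0 * hL - b * hE + x4 * x8 * hac
    rcases mul_eq_zero.mp h with h | h
    · exact c4 (by linear_combination h)
    · exact c8 (by linear_combination h)
  · have h : (x0 + a * x4) * (x0 + b * x6) = 0 := by
      linear_combination x0 * hL - c * hE + x4 * x6 * habc
    rcases mul_eq_zero.mp h with h | h
    · exact c4 (by linear_combination h)
    · exact c6 (by linear_combination h)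

private theorem nbd_e46 {F : Type*} [Field F] {x0 x4 x6 x8 : F} (K : NbdK x0 x4 x6 x8)
    (h4 : x0 * x4 = x6 * x8) (h6 : x0 * x6 = x4 * x8) : False := by
  have h : x4 * x6 * ((x0 - x8) * (x0 + x8)) = 0 := by
    linear_combination x0 * x6 * h4 + x6 * x8 * h6
  rcases mul_eq_zero.mp h with h | h
  · rcases mul_eq_zero.mp h with h | h
    · rw [h, mul_zero] at h4
      rcases mul_eq_zero.mp h4.symm with h5 | h5
      · exact K.h46 h h5
      · rw [h, zero_mul] at h6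
        rcases mul_eq_zero.mp h6 with h7 | h7
        · exact K.h08 h7 h5
        · exact K.h46 h h7
    · rw [h, mul_zero] at h6
      rcases mul_eq_zero.mp h6.symm with h5 | h5
      · exact K.h46 h5 h
      · rw [h, zero_mul] at h4
        rcases mul_eq_zero.mp h4 with h7 | h7
        · exact K.h08 h7 h5
        · exact K.h46 h7 h
  · by_cases h8 : x8 = 0
    · have h0 : x0 = 0 := by
        rw [h8, sub_zero, add_zero] at h
        exact mul_self_eq_zero.mp h
      exact K.h08 h0 h8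
    rcases mul_eq_zero.mp h with h | h
    · have h0 : x0 = x8 := by linear_combination h
      refine K.k8 1 (by ring) (by rw [one_mul, h0]) ?_
      have h5 : x8 * (x4 - x6) = 0 := by linear_combination h4 - x4 * h0
      rcases mul_eq_zero.mp h5 with h5 | h5
      · exact absurd h5 h8
      · linear_combination h5
    · have h0 : x0 = -x8 := by linear_combination h
      refine K.k8 (-1) (by ring) (by rw [neg_one_mul, h0]) ?_
      have h5 : x8 * (x4 + x6) = 0 := by linear_combination -h4 + x4 * h0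
      rcases mul_eq_zero.mp h5 with h5 | h5
      · exact absurd h5 h8
      · linear_combination h5

private theorem NbdK.swap68 {F : Type*} [Field F] {x0 x4 x6 x8 : F} (K : NbdK x0 x4 x6 x8) :
    NbdK x0 x4 x8 x6 where
  k4 := fun s hs h h' => K.k4 s hs h (by linear_combination x6 * (-hs) - s * h')
  k6 := K.k8
  k8 := K.k6
  h04 := K.h04
  h06 := K.h08
  h08 := K.h06
  h46 := K.h48
  h48 := K.h46
  h68 := fun a b => K.h68 b a

private theorem NbdK.swap46 {F : Type*} [Field F] {x0 x4 x6 x8 : F} (K : NbdK x0 x4 x6 x8) :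
    NbdK x0 x6 x4 x8 where
  k4 := K.k6
  k6 := K.k4
  k8 := fun s hs h h' => K.k8 s hs h (by linear_combination x4 * (-hs) - s * h')
  h04 := K.h06
  h06 := K.h04
  h08 := K.h08
  h46 := fun a b => K.h46 b a
  h48 := K.h68
  h68 := K.h48

/-- The condition for a linear form. -/
private def NbdL {F : Type*} [Field F] (x0 x4 x6 x8 : F) (m : Fin 10) : Prop :=
  (m = 0 ∧ x0 + x4 + x6 + x8 = 0) ∨ (m = 1 ∧ x0 + x4 - x6 - x8 = 0) ∨
    (m = 2 ∧ x0 - x4 + x6 - x8 = 0) ∨ (m = 3 ∧ x0 - x4 - x6 + x8 = 0)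

private theorem NbdL.prod {F : Type*} [Field F] {x0 x4 x6 x8 : F} (K : NbdK x0 x4 x6 x8)
    {m : Fin 10} (h : NbdL x0 x4 x6 x8 m)
    (hE : x0 * x4 = x6 * x8 ∨ x0 * x6 = x4 * x8 ∨ x0 * x8 = x4 * x6) : False := by
  rcases h with ⟨-, h⟩ | ⟨-, h⟩ | ⟨-, h⟩ | ⟨-, h⟩
  · exact nbd_le K (a := 1) (b := 1) (c := 1) (by ring) (by ring) (by ring) (by ring)
      (by linear_combination h) hE
  · exact nbd_le K (a := 1) (b := -1) (c := -1) (by ring) (by ring) (by ring) (by ring)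
      (by linear_combination h) hE
  · exact nbd_le K (a := -1) (b := 1) (c := -1) (by ring) (by ring) (by ring) (by ring)
      (by linear_combination h) hE
  · exact nbd_le K (a := -1) (b := -1) (c := 1) (by ring) (by ring) (by ring) (by ring)
      (by linear_combination h) hE

private theorem nbd_half {F : Type*} [Field F] (h2 : (2 : F) ≠ 0) {x : F} (h : 2 * x = 0) :
    x = 0 := (mul_eq_zero.mp h).resolve_left h2

private theorem NbdL.lin {F : Type*} [Field F] (h2 : (2 : F) ≠ 0) {x0 x4 x6 x8 : F}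
    (K : NbdK x0 x4 x6 x8) {m m' : Fin 10} (hne : m ≠ m') (h : NbdL x0 x4 x6 x8 m)
    (h' : NbdL x0 x4 x6 x8 m') : False := by
  have l01 : x0 + x4 + x6 + x8 = 0 → x0 + x4 - x6 - x8 = 0 → False := fun a b =>
    K.k4 (-1) (by ring) (by linear_combination nbd_half h2 (x := x0 + x4) (by linear_combination a + b))
      (by linear_combination nbd_half h2 (x := x6 + x8) (by linear_combination a - b))
  have l02 : x0 + x4 + x6 + x8 = 0 → x0 - x4 + x6 - x8 = 0 → False := fun a b =>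
    K.k6 (-1) (by ring) (by linear_combination nbd_half h2 (x := x0 + x6) (by linear_combination a + b))
      (by linear_combination nbd_half h2 (x := x4 + x8) (by linear_combination a - b))
  have l03 : x0 + x4 + x6 + x8 = 0 → x0 - x4 - x6 + x8 = 0 → False := fun a b =>
    K.k8 (-1) (by ring) (by linear_combination nbd_half h2 (x := x0 + x8) (by linear_combination a + b))
      (by linear_combination nbd_half h2 (x := x4 + x6) (by linear_combination a - b))
  have l12 : x0 + x4 - x6 - x8 = 0 → x0 - x4 + x6 - x8 = 0 → False := fun a b =>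
    K.k8 1 (by ring) (by linear_combination nbd_half h2 (x := x0 - x8) (by linear_combination a + b))
      (by linear_combination nbd_half h2 (x := x4 - x6) (by linear_combination a - b))
  have l13 : x0 + x4 - x6 - x8 = 0 → x0 - x4 - x6 + x8 = 0 → False := fun a b =>
    K.k6 1 (by ring) (by linear_combination nbd_half h2 (x := x0 - x6) (by linear_combination a + b))
      (by linear_combination nbd_half h2 (x := x4 - x8) (by linear_combination a - b))
  have l23 : x0 - x4 + x6 - x8 = 0 → x0 - x4 - x6 + x8 = 0 → False := fun a b =>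
    K.k4 1 (by ring) (by linear_combination nbd_half h2 (x := x0 - x4) (by linear_combination a + b))
      (by linear_combination nbd_half h2 (x := x6 - x8) (by linear_combination a - b))
  rcases h with ⟨hm, h⟩ | ⟨hm, h⟩ | ⟨hm, h⟩ | ⟨hm, h⟩ <;>
    rcases h' with ⟨hm', h'⟩ | ⟨hm', h'⟩ | ⟨hm', h'⟩ | ⟨hm', h'⟩
  · exact hne (hm.trans hm'.symm)
  · exact l01 h h'
  · exact l02 h h'
  · exact l03 h h'
  · exact l01 h' h
  · exact hne (hm.trans hm'.symm)
  · exact l12 h h'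
  · exact l13 h h'
  · exact l02 h' h
  · exact l12 h' h
  · exact hne (hm.trans hm'.symm)
  · exact l23 h h'
  · exact l03 h' h
  · exact l13 h' h
  · exact l23 h' h
  · exact hne (hm.trans hm'.symm)

private theorem nbd_K {F : Type*} [Field F] (h2 : (2 : F) ≠ 0) {v : Fin 4 → F}
    (hv : ∃ m₀, ∀ m, m ≠ m₀ → qf v m ≠ 0) : NbdK (qf v 0) (qf v 4) (qf v 6) (qf v 8) := by
  obtain ⟨m₀, hm⟩ := hv
  have H : ∀ i j : Fin 10, i ≠ j → qf v i = 0 → qf v j = 0 → False := by
    intro i j hij hi hj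
    by_cases h : i = m₀
    · exact hm j (fun h' => hij (h.trans h'.symm)) hj
    · exact hm i h hi
  have e0 : qf v 0 = v 0 ^ 2 + v 1 ^ 2 + v 2 ^ 2 + v 3 ^ 2 := rfl
  have e1 : qf v 1 = v 0 ^ 2 + v 1 ^ 2 - v 2 ^ 2 - v 3 ^ 2 := rfl
  have e2 : qf v 2 = v 0 ^ 2 - v 1 ^ 2 + v 2 ^ 2 - v 3 ^ 2 := rfl
  have e3 : qf v 3 = v 0 ^ 2 - v 1 ^ 2 - v 2 ^ 2 + v 3 ^ 2 := rfl
  have e4 : qf v 4 = 2 * (v 0 * v 1 + v 2 * v 3) := rfl
  have e6 : qf v 6 = 2 * (v 0 * v 2 + v 1 * v 3) := rfl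
  have e8 : qf v 8 = 2 * (v 0 * v 3 + v 1 * v 2) := rfl
  refine ⟨?_, ?_, ?_, H 0 4 (by decide), H 0 6 (by decide), H 0 8 (by decide), H 4 6 (by decide),
    H 4 8 (by decide), H 6 8 (by decide)⟩
  · intro s hs h h'
    rw [e0, e4] at h
    rw [e6, e8] at h'
    obtain ⟨hx, hy⟩ := nbd_sq (x := v 0 - s * v 1) (y := v 2 - s * v 3)
      (by linear_combination h + (v 1 ^ 2 + v 3 ^ 2) * hs)
      (nbd_half h2 (by linear_combination h' + 2 * v 1 * v 3 * hs))
    have hA : v 0 = s * v 1 := by linear_combination hx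
    have hC : v 2 = s * v 3 := by linear_combination hy
    refine H 2 3 (by decide) ?_ ?_
    · rw [e2, hA, hC]; linear_combination (v 1 ^ 2 + v 3 ^ 2) * hs
    · rw [e3, hA, hC]; linear_combination (v 1 ^ 2 - v 3 ^ 2) * hs
  · intro s hs h h'
    rw [e0, e6] at h
    rw [e4, e8] at h'
    obtain ⟨hx, hy⟩ := nbd_sq (x := v 0 - s * v 2) (y := v 1 - s * v 3)
      (by linear_combination h + (v 2 ^ 2 + v 3 ^ 2) * hs)
      (nbd_half h2 (by linear_combination h' + 2 * v 2 * v 3 * hs))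
    have hA : v 0 = s * v 2 := by linear_combination hx
    have hC : v 1 = s * v 3 := by linear_combination hy
    refine H 1 3 (by decide) ?_ ?_
    · rw [e1, hA, hC]; linear_combination (v 2 ^ 2 + v 3 ^ 2) * hs
    · rw [e3, hA, hC]; linear_combination (v 2 ^ 2 - v 3 ^ 2) * hs
  · intro s hs h h'
    rw [e0, e8] at h
    rw [e4, e6] at h'
    obtain ⟨hx, hy⟩ := nbd_sq (x := v 0 - s * v 3) (y := v 1 - s * v 2)
      (by linear_combination h + (v 2 ^ 2 + v 3 ^ 2) * hs)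
      (nbd_half h2 (by linear_combination h' + 2 * v 2 * v 3 * hs))
    have hA : v 0 = s * v 3 := by linear_combination hx
    have hC : v 1 = s * v 2 := by linear_combination hy
    refine H 1 2 (by decide) ?_ ?_
    · rw [e1, hA, hC]; linear_combination (v 2 ^ 2 + v 3 ^ 2) * hs
    · rw [e2, hA, hC]; linear_combination (v 3 ^ 2 - v 2 ^ 2) * hs

/-- The condition of one index. -/
private def NbdD {F : Type*} [Field F] (x0 x4 x6 x8 : F) (m : Fin 10) : Prop :=
  NbdL x0 x4 x6 x8 m ∨ ((m = 4 ∨ m = 5) ∧ x0 * x4 = x6 * x8) ∨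
    ((m = 6 ∨ m = 7) ∧ x0 * x6 = x4 * x8) ∨ ((m = 8 ∨ m = 9) ∧ x0 * x8 = x4 * x6)

private theorem nbd_pair {F : Type*} [Field F] (h2 : (2 : F) ≠ 0) {x0 x4 x6 x8 : F}
    (K : NbdK x0 x4 x6 x8) {m m' : Fin 10} (hne : m ≠ m') (h : NbdD x0 x4 x6 x8 m)
    (h' : NbdD x0 x4 x6 x8 m') :
    ((m = 4 ∨ m = 5) ∧ (m' = 4 ∨ m' = 5)) ∨ ((m = 6 ∨ m = 7) ∧ (m' = 6 ∨ m' = 7)) ∨
      ((m = 8 ∨ m = 9) ∧ (m' = 8 ∨ m' = 9)) := by
  have c68 : x0 * x6 = x4 * x8 → x0 * x8 = x4 * x6 → False := fun a b =>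
    nbd_e46 K.swap46.swap68 (by rw [a, mul_comm]) (by rw [b, mul_comm])
  rcases h with h | ⟨hm, h⟩ | ⟨hm, h⟩ | ⟨hm, h⟩ <;>
    rcases h' with h' | ⟨hm', h'⟩ | ⟨hm', h'⟩ | ⟨hm', h'⟩
  · exact (h.lin h2 K hne h').elim
  · exact (h.prod K (Or.inl h')).elim
  · exact (h.prod K (Or.inr (Or.inl h'))).elim
  · exact (h.prod K (Or.inr (Or.inr h'))).elim
  · exact (h'.prod K (Or.inl h)).elim
  · exact Or.inl ⟨hm, hm'⟩
  · exact (nbd_e46 K h h').elim
  · exact (nbd_e46 K.swap68 (by rw [h, mul_comm]) h').elim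
  · exact (h'.prod K (Or.inr (Or.inl h))).elim
  · exact (nbd_e46 K h' h).elim
  · exact Or.inr (Or.inl ⟨hm, hm'⟩)
  · exact (c68 h h').elim
  · exact (h'.prod K (Or.inr (Or.inr h))).elim
  · exact (nbd_e46 K.swap68 (by rw [h', mul_comm]) h).elim
  · exact (c68 h' h).elim
  · exact Or.inr (Or.inr ⟨hm, hm'⟩)

/-- At most one form vanishes. -/
theorem nb {F : Type*} [Field F] (h2 : (2 : F) ≠ 0) {v v' : Fin 4 → F}
    (h : ∀ b, v' b ^ 2 = st v b) (hv : ∃ m₀, ∀ m, m ≠ m₀ → qf v m ≠ 0) :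
    ∃ m₀, ∀ m, m ≠ m₀ → qf v' m ≠ 0 := by
  have K := nbd_K h2 hv
  have hα : v' 0 ^ 2 = qf v 0 := h 0
  have hβ : v' 1 ^ 2 = qf v 4 := h 1
  have hγ : v' 2 ^ 2 = qf v 6 := h 2
  have hδ : v' 3 ^ 2 = qf v 8 := h 3
  have f4 : qf v' 4 = 0 → v' 0 * v' 1 = -(v' 2 * v' 3) := fun hm => by
    have hm' : 2 * (v' 0 * v' 1 + v' 2 * v' 3) = 0 := hm
    linear_combination nbd_half h2 hm'
  have f5 : qf v' 5 = 0 → v' 0 * v' 1 = v' 2 * v' 3 := fun hm => by
    have hm' : 2 * (v' 0 * v' 1 - v' 2 * v' 3) = 0 := hm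
    linear_combination nbd_half h2 hm'
  have f6 : qf v' 6 = 0 → v' 0 * v' 2 = -(v' 1 * v' 3) := fun hm => by
    have hm' : 2 * (v' 0 * v' 2 + v' 1 * v' 3) = 0 := hm
    linear_combination nbd_half h2 hm'
  have f7 : qf v' 7 = 0 → v' 0 * v' 2 = v' 1 * v' 3 := fun hm => by
    have hm' : 2 * (v' 0 * v' 2 - v' 1 * v' 3) = 0 := hm
    linear_combination nbd_half h2 hm'
  have f8 : qf v' 8 = 0 → v' 0 * v' 3 = -(v' 1 * v' 2) := fun hm => by
    have hm' : 2 * (v' 0 * v' 3 + v' 1 * v' 2) = 0 := hm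
    linear_combination nbd_half h2 hm'
  have f9 : qf v' 9 = 0 → v' 0 * v' 3 = v' 1 * v' 2 := fun hm => by
    have hm' : 2 * (v' 0 * v' 3 - v' 1 * v' 2) = 0 := hm
    linear_combination nbd_half h2 hm'
  have s4 : (v' 0 * v' 1) ^ 2 = (v' 2 * v' 3) ^ 2 → qf v 0 * qf v 4 = qf v 6 * qf v 8 :=
    fun e => by rw [← hα, ← hβ, ← hγ, ← hδ]; linear_combination e
  have s6 : (v' 0 * v' 2) ^ 2 = (v' 1 * v' 3) ^ 2 → qf v 0 * qf v 6 = qf v 4 * qf v 8 :=
    fun e => by rw [← hα, ← hβ, ← hγ, ← hδ]; linear_combination e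
  have s8 : (v' 0 * v' 3) ^ 2 = (v' 1 * v' 2) ^ 2 → qf v 0 * qf v 8 = qf v 4 * qf v 6 :=
    fun e => by rw [← hα, ← hβ, ← hγ, ← hδ]; linear_combination e
  have hD : ∀ m, qf v' m = 0 → NbdD (qf v 0) (qf v 4) (qf v 6) (qf v 8) m := by
    intro m hm
    fin_cases m
    · have hm' : v' 0 ^ 2 + v' 1 ^ 2 + v' 2 ^ 2 + v' 3 ^ 2 = 0 := hm
      exact Or.inl (Or.inl ⟨rfl, by linear_combination hm' - hα - hβ - hγ - hδ⟩)
    · have hm' : v' 0 ^ 2 + v' 1 ^ 2 - v' 2 ^ 2 - v' 3 ^ 2 = 0 := hm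
      exact Or.inl (Or.inr (Or.inl ⟨rfl, by linear_combination hm' - hα - hβ + hγ + hδ⟩))
    · have hm' : v' 0 ^ 2 - v' 1 ^ 2 + v' 2 ^ 2 - v' 3 ^ 2 = 0 := hm
      exact Or.inl (Or.inr (Or.inr (Or.inl ⟨rfl, by
        linear_combination hm' - hα + hβ - hγ + hδ⟩)))
    · have hm' : v' 0 ^ 2 - v' 1 ^ 2 - v' 2 ^ 2 + v' 3 ^ 2 = 0 := hm
      exact Or.inl (Or.inr (Or.inr (Or.inr ⟨rfl, by
        linear_combination hm' - hα + hβ + hγ - hδ⟩)))
    · exact Or.inr (Or.inl ⟨Or.inl rfl, s4 (by rw [f4 hm, neg_sq])⟩)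
    · exact Or.inr (Or.inl ⟨Or.inr rfl, s4 (by rw [f5 hm])⟩)
    · exact Or.inr (Or.inr (Or.inl ⟨Or.inl rfl, s6 (by rw [f6 hm, neg_sq])⟩))
    · exact Or.inr (Or.inr (Or.inl ⟨Or.inr rfl, s6 (by rw [f7 hm])⟩))
    · exact Or.inr (Or.inr (Or.inr ⟨Or.inl rfl, s8 (by rw [f8 hm, neg_sq])⟩))
    · exact Or.inr (Or.inr (Or.inr ⟨Or.inr rfl, s8 (by rw [f9 hm])⟩))
  -- the products in one pair
  have z : ∀ {x y : F}, x = -y → x = y → x = 0 ∧ y = 0 := by
    intro x y a b
    have hy : y = 0 := nbd_half h2 (by linear_combination a - b)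
    exact ⟨b.trans hy, hy⟩
  have zz : ∀ {x y : F} {a b : F}, x * y = 0 → x ^ 2 = a → y ^ 2 = b → a = 0 ∨ b = 0 := by
    intro x y a b hxy ha hb
    rcases mul_eq_zero.mp hxy with h0 | h0
    · left; rw [← ha, h0]; ring
    · right; rw [← hb, h0]; ring
  have t45 : qf v' 4 = 0 → qf v' 5 = 0 → False := fun a b => by
    obtain ⟨h1, h3⟩ := z (f4 a) (f5 b)
    rcases zz h1 hα hβ with e | e <;> rcases zz h3 hγ hδ with e' | e'
    · exact K.h06 e e'
    · exact K.h08 e e'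
    · exact K.h46 e e'
    · exact K.h48 e e'
  have t67 : qf v' 6 = 0 → qf v' 7 = 0 → False := fun a b => by
    obtain ⟨h1, h3⟩ := z (f6 a) (f7 b)
    rcases zz h1 hα hγ with e | e <;> rcases zz h3 hβ hδ with e' | e'
    · exact K.h04 e e'
    · exact K.h08 e e'
    · exact K.h46 e' e
    · exact K.h68 e e'
  have t89 : qf v' 8 = 0 → qf v' 9 = 0 → False := fun a b => by
    obtain ⟨h1, h3⟩ := z (f8 a) (f9 b)
    rcases zz h1 hα hδ with e | e <;> rcases zz h3 hβ hγ with e' | e'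
    · exact K.h04 e e'
    · exact K.h06 e e'
    · exact K.h48 e' e
    · exact K.h68 e' e
  by_contra hcon
  push Not at hcon
  obtain ⟨m, -, hm⟩ := hcon 0
  obtain ⟨m', hne, hm'⟩ := hcon m
  rcases nbd_pair h2 K (Ne.symm hne) (hD m hm) (hD m' hm') with ⟨a, b⟩ | ⟨a, b⟩ | ⟨a, b⟩ <;>
    rcases a with a | a <;> rcases b with b | b <;> subst a <;> subst b
  · exact hne rfl
  · exact t45 hm hm'
  · exact t45 hm' hm
  · exact hne rfl
  · exact hne rfl
  · exact t67 hm hm'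
  · exact t67 hm' hm
  · exact hne rfl
  · exact hne rfl
  · exact t89 hm hm'
  · exact t89 hm' hm
  · exact hne rfl

end FreyG2
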