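import Pool.Agent.Lib.MP_6babc4_nt.G2.Goo

/-!
# Module Twr: square roots of finitely many elements; the tree over a good point

`sqrt_list`. PROOF. Induction on `n`, for all `M`: `kummer_step` (Cyc/Kum) with `q = 2`, `ζ = -1` for `b 0` (if `b 0 = 0` nothing to do: `E' = E`, `x = 0`), then the rest over `E'`
(evenness of the orders: `ord_algebraMap` in Cyc/Tow; `w ∈ P` iff `w ∈ P'`). Constants as in `tower` (Cyc/Tow) or `qtower` (Cy3/FTow): copy `tow_bound` and `tow_bound2`.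

`tree_exists`. PROOF. Induction on `k`, for all `M`: level `0`: `F = E`, `v [] = u` (the values at the other words play no role: `0`). From `k` to `k+1`: over `F` (good at all primes not dividing `w`
for all the vectors `v s`, `|s| ≤ k`: `good_map`, `good_act`, `good_step`) adjoin the square roots of all `st (act ι g (v s)) b`, `|s| = k`, with `sqrt_list` (`good_even` and `good_act`). It is
convenient to prove also that all `v s`, `|s| ≤ k`, are good at all `P` with `w ∉ P`. (The words of length `k` are a finite type: `List.Vector` or `Fin k → GG`, or use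
`n = Fintype.card ..` and an equivalence with `Fin n`.)

`tree_int`, `tree_house`. PROOF. Induction on the length: `act` maps integral vectors to integral ones and `‖act ι g v‖_∞ ≤ 4 ‖v‖_∞`, `v s b ^ 2 = st ..` is integral, `‖st w‖ ≤ 4 ‖w‖_∞²`.
-/

set_option autoImplicit false

open NumberField IsDedekindDomain Module

namespace FreyG2

open FreySparse FreyCyc

private lemma twr_one_le (E : Type) [Field E] [NumberField E] : (1 : ℝ) ≤ |(discr E : ℝ)| := by
  have h : (1 : ℤ) ≤ |discr E| := Int.one_le_abs (discr_ne_zero E)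
  exact_mod_cast h

private lemma twr_comp {a b c w : ℕ} {D D' D3 : ℝ} (ha : 1 ≤ a) (hc : 1 ≤ c) (hw : 1 ≤ w)
    (hD : 1 ≤ D) (hD' : 0 ≤ D') (h1 : D' ≤ (a * D * w) ^ b) (h2 : D3 ≤ (c * D' * w) ^ c) :
    D3 ≤ (((a * c * (b + 1) : ℕ) : ℝ) * D * w) ^ (a * c * (b + 1)) := by
  have ha' : (1 : ℝ) ≤ a := by exact_mod_cast ha
  have hc' : (1 : ℝ) ≤ c := by exact_mod_cast hc
  have hw' : (1 : ℝ) ≤ w := by exact_mod_cast hw
  have hD0 : 0 ≤ D := by linarith
  have haD : 1 ≤ (a : ℝ) * D := one_le_mul_of_one_le_of_one_le ha' hD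
  have haDw : 1 ≤ (a : ℝ) * D * w := one_le_mul_of_one_le_of_one_le haD hw'
  set X : ℝ := a * c * D * w with hX
  have hX2 : X = c * (a * D * w) := by rw [hX]; ring
  have hX1 : 1 ≤ X := by
    rw [hX2]
    exact one_le_mul_of_one_le_of_one_le hc' haDw
  have hX3 : (a : ℝ) * D * w ≤ X := by
    rw [hX2]
    exact le_mul_of_one_le_left (by linarith) hc'
  have hX4 : (c : ℝ) * w ≤ X := by
    have h3 : X = (c * w) * (a * D) := by rw [hX]; ring
    rw [h3]
    exact le_mul_of_one_le_right (by positivity) haD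
  have h4 : (c : ℝ) * D' * w ≤ X ^ (b + 1) := by
    calc (c : ℝ) * D' * w = (c * w) * D' := by ring
      _ ≤ X * X ^ b := mul_le_mul hX4 (h1.trans (pow_le_pow_left₀ (by linarith) hX3 b)) hD'
          (by linarith)
      _ = X ^ (b + 1) := by ring
  have h5 : X ≤ ((a * c * (b + 1) : ℕ) : ℝ) * D * w := by
    push_cast
    have h6 : (a : ℝ) * c * (b + 1) * D * w = X * (b + 1) := by rw [hX]; ring
    rw [h6]
    refine le_mul_of_one_le_right (by linarith) ?_
    have : (0 : ℝ) ≤ b := Nat.cast_nonneg b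
    linarith
  calc D3 ≤ (c * D' * w) ^ c := h2
    _ ≤ (X ^ (b + 1)) ^ c := pow_le_pow_left₀ (by positivity) h4 c
    _ = X ^ ((b + 1) * c) := by rw [← pow_mul]
    _ ≤ X ^ (a * c * (b + 1)) := by
        refine pow_le_pow_right₀ hX1 ?_
        calc (b + 1) * c = 1 * (c * (b + 1)) := by ring
          _ ≤ a * (c * (b + 1)) := Nat.mul_le_mul_right _ ha
          _ = a * c * (b + 1) := by ring
    _ ≤ _ := pow_le_pow_left₀ (by linarith) h5 _

private lemma twr_bound {w N M : ℕ} (hw : 1 ≤ w) (hNM : N ≤ M) {D D' : ℝ}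
    (hD : 1 ≤ D) (h : D' ≤ (D * ((2 : ℝ) * w) ^ N) ^ 2) :
    D' ≤ (((2 : ℕ) : ℝ) * D * w) ^ ((M + 1) * 2) := by
  have hw' : (1 : ℝ) ≤ w := by exact_mod_cast hw
  have h1 : (1 : ℝ) ≤ (2 : ℝ) * w := by linarith
  have h2 : (2 : ℝ) * w ≤ 2 * D * w := by nlinarith
  have h4 : D ≤ 2 * D * w := by nlinarith
  refine h.trans ?_
  rw [pow_mul]
  refine pow_le_pow_left₀ (by positivity) ?_ 2
  push_cast
  calc D * ((2 : ℝ) * w) ^ N ≤ D * ((2 : ℝ) * w) ^ M :=
        mul_le_mul_of_nonneg_left (pow_le_pow_right₀ h1 hNM) (by linarith)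
    _ ≤ (2 * D * w) * (2 * D * w) ^ M :=
        mul_le_mul h4 (pow_le_pow_left₀ (by linarith) h2 M) (by positivity) (by positivity)
    _ = (2 * D * w) ^ (M + 1) := by ring

private lemma twr_even {E E' : Type} [Field E] [NumberField E] [Field E'] [NumberField E']
    [Algebra E E'] {w : ℕ} {c : E}
    (h : ∀ P : HeightOneSpectrum (𝓞 E), (w : 𝓞 E) ∉ P.asIdeal → Even (ord P c))
    (P' : HeightOneSpectrum (𝓞 E')) (hP' : (w : 𝓞 E') ∉ P'.asIdeal) :
    Even (ord P' (algebraMap E E' c)) := by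
  obtain ⟨P, e, hab, -, he⟩ := ord_algebraMap (E := E) P'
  rw [he]
  refine (h P fun hw => hP' ?_).mul_left _
  have h1 := (mem_iff_of_above hab (w : 𝓞 E)).mpr hw
  rwa [map_natCast] at h1

/-- one square root -/
private lemma twr_one (M : ℕ) (E : Type) [Field E] [NumberField E] (hM : finrank ℚ E ≤ M) (w : ℕ)
    (hw : w ≠ 0) (h2 : 2 ∣ w) (b : E)
    (h : b ≠ 0 → ∀ P : HeightOneSpectrum (𝓞 E), (w : 𝓞 E) ∉ P.asIdeal → Even (ord P b)) :
    ∃ (E' : Type) (_ : Field E') (_ : NumberField E') (_ : Algebra E E') (x : E'),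
      x ^ 2 = algebraMap E E' b ∧ finrank ℚ E' ≤ 2 * M ∧
      |(discr E' : ℝ)| ≤ (((2 : ℕ) : ℝ) * |(discr E : ℝ)| * w) ^ ((M + 1) * 2) := by
  have hw1 : 1 ≤ w := Nat.one_le_iff_ne_zero.mpr hw
  by_cases hb : b = 0
  · refine ⟨E, inferInstance, inferInstance, Algebra.id E, 0, ?_, by omega, ?_⟩
    · rw [hb, map_zero, zero_pow two_ne_zero]
    · have hw' : (1 : ℝ) ≤ w := by exact_mod_cast hw1
      have hD := twr_one_le E
      have h3 : |(discr E : ℝ)| ≤ ((2 : ℕ) : ℝ) * |(discr E : ℝ)| * w := by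
        push_cast
        nlinarith
      exact h3.trans (le_self_pow₀ (hD.trans h3) (by omega))
  · have hζ : IsPrimitiveRoot (-1 : E) 2 := IsPrimitiveRoot.neg_one 0 (by norm_num)
    obtain ⟨E', i1, i2, i3, x, hx, hdeg, hD⟩ := kummer_step (by norm_num) hζ hb hw h2
      (fun P hP => (h hb P hP).two_dvd)
    refine ⟨E', i1, i2, i3, x, hx, hdeg.trans (Nat.mul_le_mul_left 2 hM), ?_⟩
    refine twr_bound hw1 hM (twr_one_le E) ?_
    exact_mod_cast hD

theorem sqrt_list (n M : ℕ) : ∃ A : ℕ, 1 ≤ A ∧ ∀ (E : Type) [Field E] [NumberField E],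
    finrank ℚ E ≤ M → ∀ w : ℕ, w ≠ 0 → 2 ∣ w → ∀ b : Fin n → E,
      (∀ P : HeightOneSpectrum (𝓞 E), (w : 𝓞 E) ∉ P.asIdeal →
        ∀ i, b i ≠ 0 → Even (ord P (b i))) →
      ∃ (F : Type) (_ : Field F) (_ : NumberField F) (_ : Algebra E F) (x : Fin n → F),
        (∀ i, x i ^ 2 = algebraMap E F (b i)) ∧ finrank ℚ F ≤ A ∧
        |(discr F : ℝ)| ≤ (A * |(discr E : ℝ)| * w) ^ A := by
  induction n generalizing M with
  | zero =>
    refine ⟨M + 1, by omega, ?_⟩
    intro E _ _ hM w hw h2 b hb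
    refine ⟨E, inferInstance, inferInstance, Algebra.id E, fun i => i.elim0, fun i => i.elim0,
      by omega, ?_⟩
    have hw' : (1 : ℝ) ≤ w := by exact_mod_cast Nat.one_le_iff_ne_zero.mpr hw
    have hD := twr_one_le E
    have hM' : (1 : ℝ) ≤ ((M + 1 : ℕ) : ℝ) := by
      push_cast
      have : (0 : ℝ) ≤ M := Nat.cast_nonneg M
      linarith
    have h3 : |(discr E : ℝ)| ≤ ((M + 1 : ℕ) : ℝ) * |(discr E : ℝ)| * w := by
      calc |(discr E : ℝ)| = 1 * |(discr E : ℝ)| * 1 := by ring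
        _ ≤ ((M + 1 : ℕ) : ℝ) * |(discr E : ℝ)| * w :=
            mul_le_mul (mul_le_mul_of_nonneg_right hM' (by linarith)) hw' zero_le_one
              (by positivity)
    exact h3.trans (le_self_pow₀ (hD.trans h3) (by omega))
  | succ n ih =>
    obtain ⟨A, hA, hF⟩ := ih (2 * M)
    refine ⟨2 * A * ((M + 1) * 2 + 1), Nat.one_le_iff_ne_zero.mpr (by positivity), ?_⟩
    intro E _ _ hM w hw h2 b hb
    have hw1 : 1 ≤ w := Nat.one_le_iff_ne_zero.mpr hw
    obtain ⟨E', _, _, _, x, hx, hdeg, hD⟩ := twr_one M E hM w hw h2 (b 0)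
      (fun h0 P hP => hb P hP 0 h0)
    obtain ⟨F, iF, iN, iA, y, hy, hdegF, hDF⟩ := hF E' hdeg w hw h2
      (fun i => algebraMap E E' (b i.succ)) (fun P hP i hi => by
        have hi' : b i.succ ≠ 0 := fun h0 => hi (by rw [h0, map_zero])
        exact twr_even (fun P hP => hb P hP i.succ hi') P hP)
    refine ⟨F, iF, iN, ((algebraMap E' F).comp (algebraMap E E')).toAlgebra,
      Fin.cons (algebraMap E' F x) y, ?_, ?_, ?_⟩
    · intro i
      refine Fin.cases ?_ (fun i => ?_) i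
      · rw [Fin.cons_zero, ← map_pow, hx]
        rfl
      · rw [Fin.cons_succ, hy]
        rfl
    · refine hdegF.trans ?_
      calc A = 1 * A * 1 := by ring
        _ ≤ 2 * A * ((M + 1) * 2 + 1) :=
            Nat.mul_le_mul (Nat.mul_le_mul_right A (by norm_num)) (by omega)
    · exact twr_comp (by norm_num) hA hw1 (twr_one_le E) (abs_nonneg _) hD hDF

private theorem twr_st_map {R S : Type*} [CommRing R] [CommRing S] (f : R →+* S) (v : Fin 4 → R)
    (b : Fin 4) : st (fun i => f (v i)) b = f (st v b) := by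
  have h1 : st (fun i => f (v i)) = ![f (qf v 0), f (qf v 4), f (qf v 6), f (qf v 8)] := by
    unfold st
    rw [qf_map, qf_map, qf_map, qf_map]
  rw [h1]
  fin_cases b <;> rfl

private theorem twr_map {R S : Type*} [CommRing R] [CommRing S] (f : R →+* S) (ι : R) (g : GG)
    (v : Fin 4 → R) (b : Fin 4) :
    st (act (f ι) g (fun i => f (v i))) b = f (st (act ι g v) b) := by
  rw [← twr_st_map]
  congr 1
  funext i
  exact act_map f ι g v i

private lemma twr_two {F : Type} [Field F] [NumberField F] {w : ℕ} (h2 : 2 ∣ w)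
    {P : HeightOneSpectrum (𝓞 F)} (hP : (w : 𝓞 F) ∉ P.asIdeal) : (2 : 𝓞 F) ∉ P.asIdeal := by
  intro h
  obtain ⟨m, rfl⟩ := h2
  apply hP
  rw [Nat.cast_mul]
  exact P.asIdeal.mul_mem_right _ (by exact_mod_cast h)

/-- the new level of the tree -/
private def ext {F F' : Type} (φ : F → F') (k : ℕ) (v : List GG → Fin 4 → F)
    (x : List.Vector GG k × GG × Fin 4 → F') : List GG → Fin 4 → F'
  | [], b => φ (v [] b)
  | (g :: s), b => if h : s.length = k then x (⟨s, h⟩, g, b) else φ (v (g :: s) b)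

private lemma ext_old {F F' : Type} (φ : F → F') (k : ℕ) (v : List GG → Fin 4 → F)
    (x : List.Vector GG k × GG × Fin 4 → F') (s : List GG) (hs : s.length ≤ k) :
    ext φ k v x s = fun b => φ (v s b) := by
  cases s with
  | nil => rfl
  | cons g s =>
    funext b
    have h1 : s.length ≠ k := by
      rw [List.length_cons] at hs
      omega
    exact dif_neg h1

private lemma ext_new {F F' : Type} (φ : F → F') (k : ℕ) (v : List GG → Fin 4 → F)
    (x : List.Vector GG k × GG × Fin 4 → F') (s : List GG) (hs : s.length = k) (g : GG)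
    (b : Fin 4) : ext φ k v x (g :: s) b = x (⟨s, hs⟩, g, b) := dif_pos hs

private theorem twr_tree (k M : ℕ) : ∃ A : ℕ, 1 ≤ A ∧ ∀ (E : Type) [Field E] [NumberField E],
    finrank ℚ E ≤ M → ∀ ι : E, ι ^ 2 = -1 → ∀ w : ℕ, w ≠ 0 → 2 ∣ w → ∀ u : Fin 4 → E,
      (∀ P : HeightOneSpectrum (𝓞 E), (w : 𝓞 E) ∉ P.asIdeal → Good P u) →
      ∃ (F : Type) (_ : Field F) (_ : NumberField F) (_ : Algebra E F)
        (v : List GG → Fin 4 → F),
        Tree (algebraMap E F ι) k (fun i => algebraMap E F (u i)) v ∧ finrank ℚ F ≤ A ∧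
        |(discr F : ℝ)| ≤ (A * |(discr E : ℝ)| * w) ^ A ∧
        ∀ P : HeightOneSpectrum (𝓞 F), (w : 𝓞 F) ∉ P.asIdeal → ∀ s : List GG, s.length ≤ k →
          Good P (v s) := by
  induction k with
  | zero =>
    refine ⟨M + 1, by omega, ?_⟩
    intro E _ _ hM ι hι w hw h2 u hu
    refine ⟨E, inferInstance, inferInstance, Algebra.id E, fun _ => u,
      ⟨rfl, fun s hs => absurd hs (Nat.not_lt_zero _)⟩, by omega, ?_, fun P hP s _ => hu P hP⟩
    have hw' : (1 : ℝ) ≤ w := by exact_mod_cast Nat.one_le_iff_ne_zero.mpr hw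
    have hD := twr_one_le E
    have hM' : (1 : ℝ) ≤ ((M + 1 : ℕ) : ℝ) := by
      push_cast
      have : (0 : ℝ) ≤ M := Nat.cast_nonneg M
      linarith
    have h3 : |(discr E : ℝ)| ≤ ((M + 1 : ℕ) : ℝ) * |(discr E : ℝ)| * w := by
      calc |(discr E : ℝ)| = 1 * |(discr E : ℝ)| * 1 := by ring
        _ ≤ ((M + 1 : ℕ) : ℝ) * |(discr E : ℝ)| * w :=
            mul_le_mul (mul_le_mul_of_nonneg_right hM' (by linarith)) hw' zero_le_one
              (by positivity)
    exact h3.trans (le_self_pow₀ (hD.trans h3) (by omega))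
  | succ k ih =>
    obtain ⟨A, hA, hF⟩ := ih
    obtain ⟨A', hA', hF'⟩ := sqrt_list (Fintype.card (List.Vector GG k × GG × Fin 4)) A
    refine ⟨A * A' * (A + 1), Nat.one_le_iff_ne_zero.mpr (by positivity), ?_⟩
    intro E _ _ hM ι hι w hw h2 u hu
    have hw1 : 1 ≤ w := Nat.one_le_iff_ne_zero.mpr hw
    obtain ⟨F, _, _, _, v, ⟨hv0, hv⟩, hdeg, hD, hgood⟩ := hF E hM ι hι w hw h2 u hu
    have hι' : (algebraMap E F ι) ^ 2 = -1 := by rw [← map_pow, hι, map_neg, map_one]
    let e := Fintype.equivFin (List.Vector GG k × GG × Fin 4)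
    obtain ⟨F', iF, iN, iA, x, hx, hdegF, hDF⟩ := hF' F hdeg w hw h2
      (fun i => st (act (algebraMap E F ι) (e.symm i).2.1 (v (e.symm i).1.1)) (e.symm i).2.2)
      (fun P hP i hi => good_even (good_act (twr_two h2 hP) hι'
        (hgood P hP _ (le_of_eq (e.symm i).1.2)) _) _ hi)
    set ι' : F' := algebraMap F F' (algebraMap E F ι) with hι'def
    have hι'' : ι' ^ 2 = -1 := by rw [hι'def, ← map_pow, hι', map_neg, map_one]
    set v' := ext (algebraMap F F') k v (fun t => x (e t)) with hv'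
    have htree : ∀ s : List GG, s.length < k + 1 → ∀ g b,
        v' (g :: s) b ^ 2 = st (act ι' g (v' s)) b := by
      intro s hs g b
      rw [hv', ext_old _ k v _ s (by omega), hι'def, twr_map]
      rcases (Nat.lt_succ_iff.1 hs).lt_or_eq with h | h
      · rw [ext_old _ k v _ (g :: s) (by rw [List.length_cons]; omega)]
        rw [← hv s h g b, map_pow]
      · rw [ext_new _ k v _ s h g b, hx]
        rw [Equiv.symm_apply_apply]
    refine ⟨F', iF, iN, ((algebraMap F F').comp (algebraMap E F)).toAlgebra, v', ⟨?_, htree⟩,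
      ?_, ?_, ?_⟩
    · rw [hv', ext_old _ k v _ [] (Nat.zero_le _), hv0]
      rfl
    · refine hdegF.trans ?_
      calc A' = 1 * A' * 1 := by ring
        _ ≤ A * A' * (A + 1) := Nat.mul_le_mul (Nat.mul_le_mul_right A' hA) (by omega)
    · exact twr_comp hA hA' hw1 (twr_one_le E) (abs_nonneg _) hD hDF
    · intro P' hP'
      obtain ⟨P, -, hab, -, -⟩ := ord_algebraMap (E := F) P'
      have hPw : (w : 𝓞 F) ∉ P.asIdeal := by
        intro h
        apply hP'
        have h1 := (mem_iff_of_above hab (w : 𝓞 F)).mpr h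
        rwa [map_natCast] at h1
      have hold : ∀ s : List GG, s.length ≤ k → Good P' (v' s) := by
        intro s hs
        rw [hv', ext_old _ k v _ s hs]
        exact good_map hab (hgood P hPw s hs)
      intro s hs
      rcases hs.lt_or_eq with h | h
      · exact hold s (by omega)
      · cases s with
        | nil => simp at h
        | cons g s =>
          have h3 : s.length = k := by
            rw [List.length_cons] at h
            omega
          exact good_step (twr_two h2 hP')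
            (good_act (twr_two h2 hP') hι'' (hold s h3.le) g) (htree s (by omega) g)

theorem tree_exists (k M : ℕ) : ∃ A : ℕ, 1 ≤ A ∧ ∀ (E : Type) [Field E] [NumberField E],
    finrank ℚ E ≤ M → ∀ ι : E, ι ^ 2 = -1 → ∀ w : ℕ, w ≠ 0 → 2 ∣ w → ∀ u : Fin 4 → E,
      (∀ P : HeightOneSpectrum (𝓞 E), (w : 𝓞 E) ∉ P.asIdeal → Good P u) →
      ∃ (F : Type) (_ : Field F) (_ : NumberField F) (_ : Algebra E F)
        (v : List GG → Fin 4 → F),
        Tree (algebraMap E F ι) k (fun i => algebraMap E F (u i)) v ∧ finrank ℚ F ≤ A ∧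
        |(discr F : ℝ)| ≤ (A * |(discr E : ℝ)| * w) ^ A := by
  obtain ⟨A, hA, h⟩ := twr_tree k M
  refine ⟨A, hA, ?_⟩
  intro E _ _ hM ι hι w hw h2 u hu
  obtain ⟨F, i1, i2, i3, v, h3, h4, h5, -⟩ := h E hM ι hι w hw h2 u hu
  exact ⟨F, i1, i2, i3, v, h3, h4, h5⟩

theorem tree_int {F : Type} [Field F] {ι : F} (hι : ι ^ 2 = -1) {k : ℕ} {u : Fin 4 → F}
    {v : List GG → Fin 4 → F} (hv : Tree ι k u v) (hu : ∀ i, IsIntegral ℤ (u i)) (s : List GG)
    (hs : s.length ≤ k) (b : Fin 4) : IsIntegral ℤ (v s b) := by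
  induction s generalizing b with
  | nil =>
    rw [hv.1]
    exact hu b
  | cons g s ih =>
    rw [List.length_cons] at hs
    have h1 := hv.2 s (by omega) g b
    have hι2 : IsIntegral ℤ ι := by
      refine IsIntegral.of_pow (n := 2) (by norm_num) ?_
      rw [hι]
      exact isIntegral_one.neg
    let ι₀ : integralClosure ℤ F := ⟨ι, hι2⟩
    let v₀ : Fin 4 → integralClosure ℤ F := fun i => ⟨v s i, ih (by omega) i⟩
    have h2 := twr_map (algebraMap (integralClosure ℤ F) F) ι₀ g v₀ b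
    refine IsIntegral.of_pow (n := 2) (by norm_num) ?_
    rw [h1]
    have h3 : st (act ι g (v s)) b = algebraMap (integralClosure ℤ F) F (st (act ι₀ g v₀) b) := h2
    rw [h3]
    exact (st (act ι₀ g v₀) b).2

private theorem twr_m6 {ι : ℂ} (hι : ‖ι‖ = 1) (j : Fin 6) {x y : ℂ} {r : ℝ} (hx : ‖x‖ ≤ r)
    (hy : ‖y‖ ≤ r) : ‖(m6 ι j x y).1‖ ≤ 2 * r ∧ ‖(m6 ι j x y).2‖ ≤ 2 * r := by
  have hr : 0 ≤ r := (norm_nonneg x).trans hx
  have h1 : ‖x‖ ≤ 2 * r := by linarith
  have h2 : ‖y‖ ≤ 2 * r := by linarith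
  have h3 : ‖x + y‖ ≤ 2 * r := (norm_add_le x y).trans (by linarith)
  have h4 : ‖x - y‖ ≤ 2 * r := (norm_sub_le x y).trans (by linarith)
  have h5 : ‖y - x‖ ≤ 2 * r := (norm_sub_le y x).trans (by linarith)
  have h6 : ‖ι * y‖ ≤ 2 * r := by rw [norm_mul, hι, one_mul]; exact h2
  fin_cases j
  · exact ⟨h1, h2⟩
  · exact ⟨h1, by change ‖-y‖ ≤ _; rwa [norm_neg]⟩
  · exact ⟨h1, h6⟩
  · exact ⟨h1, by change ‖-(ι * y)‖ ≤ _; rwa [norm_neg]⟩
  · exact ⟨h3, h4⟩
  · exact ⟨h3, h5⟩

private theorem twr_act {ι : ℂ} (hι : ‖ι‖ = 1) (g : GG) {v : Fin 4 → ℂ} {r : ℝ}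
    (hv : ∀ i, ‖v i‖ ≤ r) (i : Fin 4) : ‖act ι g v i‖ ≤ 4 * r := by
  have hr : 0 ≤ r := (norm_nonneg (v 0)).trans (hv 0)
  rcases g with e | ⟨a, b⟩
  · change ‖if e i then -v i else v i‖ ≤ 4 * r
    have h1 : ‖v i‖ ≤ 4 * r := (hv i).trans (by linarith)
    split_ifs
    · rwa [norm_neg]
    · exact h1
  · have h0 := twr_m6 hι a (hv 0) (hv 2)
    have h1 := twr_m6 hι a (hv 1) (hv 3)
    have h2 := twr_m6 hι b h0.1 h1.1
    have h3 := twr_m6 hι b h0.2 h1.2
    have h4 : 2 * (2 * r) = 4 * r := by ring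
    rw [h4] at h2 h3
    fin_cases i
    · exact h2.1
    · exact h2.2
    · exact h3.1
    · exact h3.2

private theorem twr_st {v : Fin 4 → ℂ} {r : ℝ} (hv : ∀ i, ‖v i‖ ≤ r) (b : Fin 4) :
    ‖st v b‖ ≤ 4 * r ^ 2 := by
  have hr : 0 ≤ r := (norm_nonneg (v 0)).trans (hv 0)
  have h1 : ∀ i j, ‖v i * v j‖ ≤ r ^ 2 := by
    intro i j
    rw [norm_mul, pow_two]
    exact mul_le_mul (hv i) (hv j) (norm_nonneg _) hr
  have h2 : ∀ i j l m, ‖2 * (v i * v j + v l * v m)‖ ≤ 4 * r ^ 2 := by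
    intro i j l m
    rw [norm_mul, Complex.norm_ofNat]
    have := norm_add_le (v i * v j) (v l * v m)
    have := h1 i j
    have := h1 l m
    linarith
  fin_cases b
  · change ‖v 0 ^ 2 + v 1 ^ 2 + v 2 ^ 2 + v 3 ^ 2‖ ≤ _
    rw [pow_two, pow_two, pow_two, pow_two]
    have h3 := norm_add_le (v 0 * v 0 + v 1 * v 1 + v 2 * v 2) (v 3 * v 3)
    have h4 := norm_add_le (v 0 * v 0 + v 1 * v 1) (v 2 * v 2)
    have h5 := norm_add_le (v 0 * v 0) (v 1 * v 1)
    have := h1 0 0
    have := h1 1 1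
    have := h1 2 2
    have := h1 3 3
    linarith
  · exact h2 0 1 2 3
  · exact h2 0 2 1 3
  · exact h2 0 3 1 2

theorem tree_house {F : Type} [Field F] {ι : F} (hι : ι ^ 2 = -1) {k : ℕ} {u : Fin 4 → F}
    {v : List GG → Fin 4 → F} (hv : Tree ι k u v) (τ : F →+* ℂ) {R : ℝ} (hu : ∀ i, ‖τ (u i)‖ ≤ R)
    (s : List GG) (hs : s.length ≤ k) (b : Fin 4) : ‖τ (v s b)‖ ≤ 8 ^ k * R := by
  have hR : 0 ≤ R := (norm_nonneg _).trans (hu 0)
  have hι2 : ‖τ ι‖ = 1 := by
    have h1 : ‖τ ι‖ ^ 2 = 1 := by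
      rw [← norm_pow, ← map_pow, hι, map_neg, map_one, norm_neg, norm_one]
    exact (pow_eq_one_iff_of_nonneg (norm_nonneg _) two_ne_zero).1 h1
  have key : ∀ s : List GG, s.length ≤ k → ∀ b, ‖τ (v s b)‖ ≤ 8 ^ s.length * R := by
    intro s
    induction s with
    | nil =>
      intro _ b
      rw [hv.1, List.length_nil, pow_zero, one_mul]
      exact hu b
    | cons g s ih =>
      intro hs b
      rw [List.length_cons] at hs
      have h1 := hv.2 s (by omega) g b
      have h2 := twr_st (twr_act hι2 g (ih (by omega))) b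
      rw [twr_map τ ι g (v s) b, ← h1, map_pow, norm_pow] at h2
      rw [List.length_cons]
      refine (pow_le_pow_iff_left₀ (norm_nonneg _) (by positivity) two_ne_zero).1 ?_
      refine h2.trans (le_of_eq ?_)
      ring
  refine (key s hs b).trans ?_
  exact mul_le_mul_of_nonneg_right (pow_le_pow_right₀ (by norm_num) hs) hR

end FreyG2
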