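import Pool.Agent.Lib.MP_6babc4_nt.G2.Fal
import Pool.Agent.Lib.MP_6babc4_nt.G2.Twr
import Pool.Agent.Lib.MP_6babc4_nt.G2.Pai

/-!
# Module Pnt: the cross ratios of a curve of genus two are in the set `PSet`

PROOF. `L = Spl (tot 2 f)`, `w = 2 condE 2 f`, `α = al b e` (`pts`). `[L : ℚ] ≤ A₀`, `|D_L| ≤ (A₀ |D_K| condE)^A₀` (`spl_disc` with `q = 1` and `cond_one_le`, as in the proof of `countE` in Cy3/EKMain). Each `α i` is a quotient `ν_i/δ_i` of integers with conjugates `≤ (C₁ H)^4`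
(`cr_quot`; for `i = 0, 1` it is `1`, `0`). Put `δ = ∏ δ_i`, `β i = δ α i ∈ 𝓞 L` with conjugates `≤ (C₁ H)^20` (`H ≥ 1`). `Pattern P β` follows from `Pattern P α` (all orders are shifted by `ord δ`). `sqrt_list` for the six elements `-1, ∏_(b ≠ a) (β a - β b)`:
a field `E ⊇ L` with `ι`, `φ a` (`even_of_pattern`; `ord (-1) = 0`; `w` with `2 ∣ w`), `[E : ℚ] ≤ M₀`. In `E` `Pattern P' β` holds for all `P'` with `w ∉ P'` (`ord_algebraMap`: `m, t` are multiplied by `e`). The element `σ ι = ± I`: replace `ι` by `-ι` if necessary.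
`u = spn ι β φ i₀` (`spinor`): its entries are integral with conjugates `≤ (C₁ H)^A'` (`4` products of a difference and three `φ`'s, `‖φ a‖² ≤ (2 (C₁H)^20)^4`). `good_of_pattern`: `u` is good at all `P'` with `w ∉ P'`. `tree_exists` with `k` gives `F`, `v`; `tree_int`, `tree_house`: the tree in `𝓞 F` (define
`v' s b` by the integrality for `|s| ≤ k` and `0` otherwise). Extend `τ : L → ℂ` to `σ : F → ℂ` (`ECr_ext`, private in Cy3/ECr: copy), `lam_rt` for `α (i) = (β i - β 1)/(β 0 - β 1)`, i.e. `b := i, c := 1, a := 0` for `i ≠ 0, 1`. `crC`: here `cr (e 0) b (e 1) z` for `z = e i` is `al b e i`.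
-/

set_option autoImplicit false

open Polynomial NumberField IsDedekindDomain Module

namespace FreyG2

open FreySparse FreyCyc

/-! ### Integers -/

/-- A common denominator. -/
private theorem pnt_int {L : Type} [Field L] [NumberField L] {α : Fin 5 → L} {R : ℝ} (hR : 1 ≤ R)
    (h : ∀ i, ∃ ν δ : 𝓞 L, δ ≠ 0 ∧ α i = (ν : L) / δ ∧ (∀ τ : L →+* ℂ, ‖τ ν‖ ≤ R) ∧
      ∀ τ : L →+* ℂ, ‖τ δ‖ ≤ R) :
    ∃ (δ : L) (β : Fin 5 → 𝓞 L), δ ≠ 0 ∧ (∀ i, (β i : L) = δ * α i) ∧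
      ∀ i (τ : L →+* ℂ), ‖τ (β i)‖ ≤ R ^ 5 := by
  choose ν δ hδ hα hν hδR using h
  have cm : ∀ x y : 𝓞 L, ((x * y : 𝓞 L) : L) = (x : L) * (y : L) :=
    fun x y => map_mul (algebraMap (𝓞 L) L) x y
  refine ⟨((∏ j, δ j : 𝓞 L) : L), fun i => ν i * ∏ j ∈ Finset.univ.erase i, δ j, ?_, ?_, ?_⟩
  · rw [Ne, RingOfIntegers.coe_eq_zero_iff]
    exact Finset.prod_ne_zero_iff.mpr fun i _ => hδ i
  · intro i
    have h1 : (δ i : L) ≠ 0 := by
      rw [Ne, RingOfIntegers.coe_eq_zero_iff]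
      exact hδ i
    rw [← Finset.mul_prod_erase Finset.univ δ (Finset.mem_univ i), hα i]
    simp only [cm]
    field_simp
  · intro i τ
    have hc : (Finset.univ.erase i : Finset (Fin 5)).card = 4 := by
      rw [Finset.card_erase_of_mem (Finset.mem_univ i)]
      rfl
    have h2 : ‖τ ((∏ j ∈ Finset.univ.erase i, δ j : 𝓞 L) : L)‖ ≤ R ^ 4 := by
      have h3 : ((∏ j ∈ Finset.univ.erase i, δ j : 𝓞 L) : L) =
          ∏ j ∈ Finset.univ.erase i, (δ j : L) := map_prod (algebraMap (𝓞 L) L) _ _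
      rw [h3, map_prod, norm_prod, ← hc, ← Finset.prod_const]
      exact Finset.prod_le_prod (fun j _ => norm_nonneg _) fun j _ => hδR j τ
    calc ‖τ ((ν i * ∏ j ∈ Finset.univ.erase i, δ j : 𝓞 L) : L)‖ =
          ‖τ (ν i : L)‖ * ‖τ ((∏ j ∈ Finset.univ.erase i, δ j : 𝓞 L) : L)‖ := by
          rw [cm, map_mul, norm_mul]
      _ ≤ R * R ^ 4 := mul_le_mul (hν i τ) h2 (norm_nonneg _) (by linarith)
      _ = R ^ 5 := by ring

private theorem pnt_scale {L : Type} [Field L] [NumberField L] {P : HeightOneSpectrum (𝓞 L)}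
    {α β : Fin 5 → L} (hα : Function.Injective α) {δ : L} (hδ : δ ≠ 0) (hβ : ∀ i, β i = δ * α i)
    (h : Pattern P α) : Pattern P β := by
  obtain ⟨m, t, S, hS, ht, hev, hab⟩ := h
  refine ⟨ord P δ + m, t, S, hS, ht, hev, fun a b hne => ?_⟩
  rw [hβ, hβ, ← mul_sub, ord_mul P hδ (sub_ne_zero.mpr (hα.ne hne)), hab a b hne]
  split_ifs <;> ring

private theorem pnt_map {L E : Type} [Field L] [NumberField L] [Field E] [NumberField E]
    [Algebra L E] {w : ℕ} {β : Fin 5 → L}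
    (h : ∀ P : HeightOneSpectrum (𝓞 L), (w : 𝓞 L) ∉ P.asIdeal → Pattern P β)
    (P' : HeightOneSpectrum (𝓞 E)) (hP' : (w : 𝓞 E) ∉ P'.asIdeal) :
    Pattern P' (fun i => algebraMap L E (β i)) := by
  obtain ⟨P, e, hab, -, he⟩ := ord_algebraMap (E := L) P'
  have hw : (w : 𝓞 L) ∉ P.asIdeal := by
    intro hw
    have h1 := (mem_iff_of_above hab (w : 𝓞 L)).mpr hw
    rw [map_natCast] at h1
    exact hP' h1
  obtain ⟨m, t, S, hS, ht, hev, hd⟩ := h P hw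
  refine ⟨e * m, e * t, S, hS, by positivity, hev.mul_left _, fun a b hne => ?_⟩
  rw [← map_sub, he, hd a b hne]
  split_ifs <;> ring

/-! ### The vector -/

private theorem pnt_smat_map {R S : Type*} [CommRing R] [CommRing S] (f : R →+* S)
    (q : Fin 10 → R) (i j : Fin 4) : f (smat q i j) = smat (fun m => f (q m)) i j := by
  fin_cases i <;> fin_cases j <;> simp [smat]

private theorem pnt_qv_map {R S : Type*} [CommRing R] [CommRing S] (f : R →+* S) (ι : R)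
    (α φ : Fin 5 → R) (m : Fin 10) :
    f (qv ι α φ m) = qv (f ι) (fun i => f (α i)) (fun i => f (φ i)) m := by
  fin_cases m <;> simp [qv]

private theorem pnt_spn_map {R S : Type*} [CommRing R] [CommRing S] (f : R →+* S) (ι : R)
    (α φ : Fin 5 → R) (i₀ i : Fin 4) :
    f (spn ι α φ i₀ i) = spn (f ι) (fun i => f (α i)) (fun i => f (φ i)) i₀ i := by
  unfold spn
  rw [pnt_smat_map]
  congr 1
  funext m
  exact pnt_qv_map f ι α φ m

private theorem pnt_qv_form {R : Type*} [CommRing R] (ι : R) (α φ : Fin 5 → R) (m : Fin 10) :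
    ∃ (j : ℕ) (a b c d e : Fin 5), qv ι α φ m = ι ^ j * ((α a - α b) * (φ c * φ d * φ e)) := by
  fin_cases m
  · exact ⟨0, 0, 1, 2, 3, 4, by simp [qv]⟩
  · exact ⟨3, 0, 2, 1, 3, 4, by simp [qv]⟩
  · exact ⟨1, 1, 3, 0, 2, 4, by simp [qv]⟩
  · exact ⟨0, 2, 3, 0, 1, 4, by simp [qv]⟩
  · exact ⟨0, 2, 4, 0, 1, 3, by simp [qv]⟩
  · exact ⟨1, 1, 4, 0, 2, 3, by simp [qv]⟩
  · exact ⟨3, 0, 4, 1, 2, 3, by simp [qv]⟩
  · exact ⟨2, 3, 4, 0, 1, 2, by simp [qv]⟩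
  · exact ⟨3, 1, 2, 0, 3, 4, by simp [qv]⟩
  · exact ⟨3, 0, 3, 1, 2, 4, by simp [qv]⟩

private theorem pnt_smat_norm {q : Fin 10 → ℂ} {Q : ℝ} (hQ0 : 0 ≤ Q) (hq : ∀ m, ‖q m‖ ≤ Q)
    (i j : Fin 4) : ‖smat q i j‖ ≤ 4 * Q := by
  have h4 : ∀ {x y z t : ℂ}, ‖x‖ ≤ Q → ‖y‖ ≤ Q → ‖z‖ ≤ Q → ‖t‖ ≤ Q →
      ‖x + y + z + t‖ ≤ 4 * Q := by
    intro x y z t hx hy hz ht
    have h1 := norm_add_le (x + y + z) t
    have h2 := norm_add_le (x + y) z
    have h3 := norm_add_le x y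
    linarith
  have h2 : ∀ {x y : ℂ}, ‖x‖ ≤ Q → ‖y‖ ≤ Q → ‖x + y‖ ≤ 4 * Q := by
    intro x y hx hy
    have h1 := norm_add_le x y
    linarith
  have hn : ∀ m, ‖-q m‖ ≤ Q := fun m => by
    rw [norm_neg]
    exact hq m
  fin_cases i <;> fin_cases j <;> simp only [smat, sub_eq_add_neg] <;>
    first
      | (refine h4 ?_ ?_ ?_ ?_ <;> first | exact hq _ | exact hn _)
      | (refine h2 ?_ ?_ <;> first | exact hq _ | exact hn _)

private theorem pnt_qv_norm {ι : ℂ} (hι : ‖ι‖ = 1) {β φ : Fin 5 → ℂ} {R T : ℝ} (hR0 : 0 ≤ R)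
    (hT0 : 0 ≤ T) (hR : ∀ a, ‖β a‖ ≤ R) (hT : ∀ a, ‖φ a‖ ≤ T) (m : Fin 10) :
    ‖qv ι β φ m‖ ≤ 2 * R * T ^ 3 := by
  obtain ⟨j, a, b, c, d, e, h⟩ := pnt_qv_form ι β φ m
  rw [h, norm_mul, norm_pow, hι, one_pow, one_mul, norm_mul, norm_mul, norm_mul]
  have h1 : ‖β a - β b‖ ≤ 2 * R := by
    have h2 := norm_sub_le (β a) (β b)
    have h3 := hR a
    have h4 := hR b
    linarith
  have h2 : ‖φ c‖ * ‖φ d‖ * ‖φ e‖ ≤ T * T * T :=
    mul_le_mul (mul_le_mul (hT c) (hT d) (norm_nonneg _) hT0) (hT e) (norm_nonneg _)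
      (mul_nonneg hT0 hT0)
  calc ‖β a - β b‖ * (‖φ c‖ * ‖φ d‖ * ‖φ e‖) ≤ (2 * R) * (T * T * T) :=
        mul_le_mul h1 h2 (by positivity) (by positivity)
    _ = 2 * R * T ^ 3 := by ring

private theorem pnt_phi_norm {β φ : Fin 5 → ℂ} {R : ℝ} (hR : ∀ a, ‖β a‖ ≤ R)
    (hφ : ∀ a, φ a ^ 2 = ∏ b ∈ Finset.univ.erase a, (β a - β b)) (a : Fin 5) :
    ‖φ a‖ ≤ (2 * R) ^ 2 := by
  have hR0 : 0 ≤ R := (norm_nonneg _).trans (hR 0)
  have hc : (Finset.univ.erase a : Finset (Fin 5)).card = 4 := by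
    rw [Finset.card_erase_of_mem (Finset.mem_univ a)]
    rfl
  have h1 : ‖φ a‖ ^ 2 ≤ ((2 * R) ^ 2) ^ 2 := by
    rw [← norm_pow, hφ a, norm_prod]
    calc ∏ b ∈ Finset.univ.erase a, ‖β a - β b‖ ≤ (2 * R) ^ (Finset.univ.erase a : Finset (Fin 5)).card := by
          rw [← Finset.prod_const]
          refine Finset.prod_le_prod (fun b _ => norm_nonneg _) fun b _ => ?_
          have h2 := norm_sub_le (β a) (β b)
          have h3 := hR a
          have h4 := hR b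
          linarith
      _ = ((2 * R) ^ 2) ^ 2 := by
          rw [hc]
          ring
  exact (sq_le_sq₀ (norm_nonneg _) (by positivity)).mp h1

private lemma pnt_ext {L F : Type} [Field L] [NumberField L] [Field F] [NumberField F]
    (g : L →+* F) (τ : L →+* ℂ) : ∃ ι : F →+* ℂ, ∀ x, ι (g x) = τ x := by
  let _ : Algebra L F := g.toAlgebra
  let _ : Algebra L ℂ := τ.toAlgebra
  have hA : Algebra.IsAlgebraic L F := Algebra.IsAlgebraic.tower_top (K := ℚ) L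
  let ι : F →ₐ[L] ℂ := IsAlgClosed.lift
  exact ⟨ι.toRingHom, fun x => ι.commutes x⟩

/-- The vector, in the language of integers. -/
private theorem pnt_vec {E : Type} [Field E] [NumberField E] {ι : 𝓞 E} (hι : (ι : E) ^ 2 = -1)
    {β φ : Fin 5 → 𝓞 E} (hβ : Function.Injective fun i => (β i : E))
    (hφ : ∀ a, (φ a : E) ^ 2 = ∏ b ∈ Finset.univ.erase a, ((β a : E) - β b)) {R : ℝ}
    (hR : ∀ i (τ : E →+* ℂ), ‖τ (β i)‖ ≤ R) :
    ∃ u : Fin 4 → 𝓞 E, (∃ i, u i ≠ 0) ∧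
      (∀ P : HeightOneSpectrum (𝓞 E), (2 : 𝓞 E) ∉ P.asIdeal →
        Pattern P (fun i => (β i : E)) → Good P (fun i => (u i : E))) ∧
      (∀ i (τ : E →+* ℂ), ‖τ (u i : E)‖ ≤ 512 * R ^ 7) ∧
      ∀ i : Fin 5, i ≠ 0 → i ≠ 1 → ∃ (m₁ m₂ m₃ m₄ : Fin 10) (j : ℕ),
        ((β i : E) - β 1) / ((β 0 : E) - β 1) =
          qf (fun i => (u i : E)) m₁ * qf (fun i => (u i : E)) m₂ /
            (qf (fun i => (u i : E)) m₃ * qf (fun i => (u i : E)) m₄) * (ι : E) ^ j := by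
  obtain ⟨i₀, κ, hκ, hu⟩ := spinor (two_ne_zero : (2 : E) ≠ 0) hι hβ hφ
  have hcoe : ∀ i, ((spn ι β φ i₀ i : 𝓞 E) : E) =
      spn (ι : E) (fun i => (β i : E)) (fun i => (φ i : E)) i₀ i := fun i =>
    pnt_spn_map (algebraMap (𝓞 E) E) ι β φ i₀ i
  have hfun : (fun i => ((spn ι β φ i₀ i : 𝓞 E) : E)) =
      spn (ι : E) (fun i => (β i : E)) (fun i => (φ i : E)) i₀ := funext hcoe
  have hR0 : 0 ≤ R := by
    obtain ⟨τ⟩ : Nonempty (E →+* ℂ) := inferInstance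
    exact (norm_nonneg _).trans (hR 0 τ)
  have hφ0 : ∀ a, (φ a : E) ≠ 0 := by
    intro a h0
    have h1 := hφ a
    rw [h0, zero_pow two_ne_zero] at h1
    refine Finset.prod_ne_zero_iff.mpr (fun b hb => ?_) h1.symm
    exact sub_ne_zero.mpr (hβ.ne (Finset.ne_of_mem_erase hb).symm)
  refine ⟨fun i => spn ι β φ i₀ i, ?_, ?_, ?_, ?_⟩
  · by_contra hcon
    have hz : ∀ i, spn (ι : E) (fun i => (β i : E)) (fun i => (φ i : E)) i₀ i = 0 := by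
      intro i
      rw [← hcoe]
      have h1 : spn ι β φ i₀ i = 0 := by
        by_contra h
        exact hcon ⟨i, h⟩
      rw [h1]
      exact map_zero (algebraMap (𝓞 E) E)
    have h1 := hu 0 1 (by decide)
    have h2 : qf (spn (ι : E) (fun i => (β i : E)) (fun i => (φ i : E)) i₀) (ix 0 1) = 0 := by
      have h3 := qf_smul (0 : E) (spn (ι : E) (fun i => (β i : E)) (fun i => (φ i : E)) i₀)
        (ix 0 1)
      rw [zero_pow two_ne_zero, zero_mul] at h3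
      rw [← h3]
      congr 1
      funext i
      rw [hz i, mul_zero]
    rw [h2, mul_zero] at h1
    have h4 : (β 0 : E) - β 1 ≠ 0 := sub_ne_zero.mpr (hβ.ne (by decide))
    exact mul_ne_zero hκ (div_ne_zero h4 (mul_ne_zero (hφ0 0) (hφ0 1))) h1.symm
  · intro P h2 hP
    rw [hfun]
    exact good_of_pattern h2 hι hβ hφ hκ hu hP
  · intro i τ
    rw [hcoe, pnt_spn_map τ]
    have hI : ‖τ (ι : E)‖ = 1 := by
      have h1 : ‖τ (ι : E)‖ ^ 2 = 1 := by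
        rw [← norm_pow, ← map_pow, hι, map_neg, map_one, norm_neg, norm_one]
      exact (pow_eq_one_iff_of_nonneg (norm_nonneg _) two_ne_zero).mp h1
    have hphi : ∀ a, ‖τ (φ a : E)‖ ≤ (2 * R) ^ 2 :=
      pnt_phi_norm (β := fun i => τ (β i : E)) (fun a => hR a τ) fun a => by
        rw [← map_pow, hφ a, map_prod]
        exact Finset.prod_congr rfl fun b _ => map_sub _ _ _
    have hq := pnt_qv_norm hI hR0 (by positivity) (fun a => hR a τ) hphi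
    refine (pnt_smat_norm (by positivity) hq i₀ i).trans (le_of_eq ?_)
    ring
  · intro i h0 h1
    rw [hfun]
    exact lam_rt hι hβ hφ hκ hu h0.symm (by decide) h1

private theorem pnt_E {A₀ A₁ : ℕ}
    (hsq : ∀ (E : Type) [Field E] [NumberField E],
      finrank ℚ E ≤ A₀ → ∀ w : ℕ, w ≠ 0 → 2 ∣ w → ∀ b : Fin 6 → E,
      (∀ P : HeightOneSpectrum (𝓞 E), (w : 𝓞 E) ∉ P.asIdeal →
        ∀ i, b i ≠ 0 → Even (ord P (b i))) →
      ∃ (F : Type) (_ : Field F) (_ : NumberField F) (_ : Algebra E F) (x : Fin 6 → F),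
        (∀ i, x i ^ 2 = algebraMap E F (b i)) ∧ finrank ℚ F ≤ A₁ ∧
        |(discr F : ℝ)| ≤ (A₁ * |(discr E : ℝ)| * w) ^ A₁)
    (L : Type) [Field L] [NumberField L] (hL : finrank ℚ L ≤ A₀) {w : ℕ} (hw : w ≠ 0)
    (h2 : 2 ∣ w) (β : Fin 5 → 𝓞 L) (hβ : Function.Injective fun i => (β i : L)) {R : ℝ}
    (hR : ∀ i (τ : L →+* ℂ), ‖τ (β i)‖ ≤ R)
    (hP : ∀ P : HeightOneSpectrum (𝓞 L), (w : 𝓞 L) ∉ P.asIdeal →
      Pattern P (fun i => (β i : L))) (τ : L →+* ℂ) :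
    ∃ (E : Type) (_ : Field E) (_ : NumberField E) (_ : Algebra L E) (σ : E →+* ℂ) (ι : 𝓞 E)
      (u : Fin 4 → 𝓞 E),
      (∀ x, σ (algebraMap L E x) = τ x) ∧ finrank ℚ E ≤ A₁ ∧
      |(discr E : ℝ)| ≤ (A₁ * |(discr L : ℝ)| * w) ^ A₁ ∧ σ (ι : E) = Complex.I ∧
      (ι : E) ^ 2 = -1 ∧ (∃ i, u i ≠ 0) ∧
      (∀ P : HeightOneSpectrum (𝓞 E), (w : 𝓞 E) ∉ P.asIdeal → Good P (fun i => (u i : E))) ∧
      (∀ i (τ' : E →+* ℂ), ‖τ' (u i : E)‖ ≤ 512 * R ^ 7) ∧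
      ∀ i : Fin 5, i ≠ 0 → i ≠ 1 → ∃ (m₁ m₂ m₃ m₄ : Fin 10) (j : ℕ),
        algebraMap L E (((β i : L) - β 1) / ((β 0 : L) - β 1)) =
          qf (fun i => (u i : E)) m₁ * qf (fun i => (u i : E)) m₂ /
            (qf (fun i => (u i : E)) m₃ * qf (fun i => (u i : E)) m₄) * (ι : E) ^ j := by
  obtain ⟨E, _, _, _, x, hx, hE, hD⟩ := hsq L hL w hw h2
    (Fin.cons (-1) fun a => ∏ b ∈ Finset.univ.erase a, ((β a : L) - β b)) (by
      intro P hwP i _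
      refine Fin.cases ?_ (fun a => ?_) i
      · rw [Fin.cons_zero, ord_neg, ord_one]
        exact Even.zero
      · rw [Fin.cons_succ]
        exact even_of_pattern hβ (hP P hwP) a)
  obtain ⟨σ, hσ⟩ := pnt_ext (algebraMap L E) τ
  have hx0 : x 0 ^ 2 = -1 := by
    rw [hx 0, Fin.cons_zero, map_neg, map_one]
  obtain ⟨ι₁, hι₁, hσι⟩ : ∃ ι₁ : E, ι₁ ^ 2 = -1 ∧ σ ι₁ = Complex.I := by
    have hI : σ (x 0) ^ 2 = Complex.I ^ 2 := by
      rw [← map_pow, hx0, map_neg, map_one, Complex.I_sq]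
    rcases sq_eq_sq_iff_eq_or_eq_neg.mp hI with h | h
    · exact ⟨x 0, hx0, h⟩
    · exact ⟨-x 0, by rw [neg_sq, hx0], by rw [map_neg, h, neg_neg]⟩
  have hιi : IsIntegral ℤ ι₁ := IsIntegral.of_pow (n := 2) (by norm_num) (by
    rw [hι₁]
    exact isIntegral_one.neg)
  have hcoe : ∀ y : 𝓞 L, ((algebraMap (𝓞 L) (𝓞 E) y : 𝓞 E) : E) = algebraMap L E (y : L) :=
    fun y => rfl
  have hφ : ∀ a : Fin 5, x a.succ ^ 2 = ∏ b ∈ Finset.univ.erase a,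
      (((algebraMap (𝓞 L) (𝓞 E) (β a) : 𝓞 E) : E) - (algebraMap (𝓞 L) (𝓞 E) (β b) : 𝓞 E)) := by
    intro a
    rw [hx a.succ, Fin.cons_succ, map_prod]
    refine Finset.prod_congr rfl fun b _ => ?_
    rw [map_sub, hcoe, hcoe]
  have hφi : ∀ a : Fin 5, IsIntegral ℤ (x a.succ) := by
    intro a
    refine IsIntegral.of_pow (n := 2) (by norm_num) ?_
    rw [hφ a]
    exact IsIntegral.prod _ fun b _ => (RingOfIntegers.isIntegral_coe _).sub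
      (RingOfIntegers.isIntegral_coe _)
  have hβ' : Function.Injective fun i => ((algebraMap (𝓞 L) (𝓞 E) (β i) : 𝓞 E) : E) := by
    intro i j hij
    apply hβ
    apply (algebraMap L E).injective
    exact hij
  obtain ⟨u, hu0, hug, huR, hur⟩ := pnt_vec (E := E) (ι := ⟨ι₁, hιi⟩) hι₁
    (β := fun i => algebraMap (𝓞 L) (𝓞 E) (β i)) (φ := fun a => ⟨x a.succ, hφi a⟩) hβ' hφ
    (R := R) (fun i τ' => hR i (τ'.comp (algebraMap L E)))
  refine ⟨E, inferInstance, inferInstance, inferInstance, σ, ⟨ι₁, hιi⟩, u, hσ, hE, hD, hσι, hι₁,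
    hu0, ?_, huR, ?_⟩
  · intro P' hP'
    refine hug P' (fun h => hP' ?_) (pnt_map hP P' hP')
    obtain ⟨c, rfl⟩ := h2
    rw [Nat.cast_mul, Nat.cast_ofNat]
    exact P'.asIdeal.mul_mem_right _ h
  · intro i h0 h1
    obtain ⟨m₁, m₂, m₃, m₄, j, h⟩ := hur i h0 h1
    refine ⟨m₁, m₂, m₃, m₄, j, ?_⟩
    rw [← h, map_div₀, map_sub, map_sub]
    rfl

/-! ### The tree, in the language of integers -/

private theorem pnt_F {k A₁ A₂ : ℕ}
    (htree : ∀ (E : Type) [Field E] [NumberField E],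
      finrank ℚ E ≤ A₁ → ∀ ι : E, ι ^ 2 = -1 → ∀ w : ℕ, w ≠ 0 → 2 ∣ w → ∀ u : Fin 4 → E,
        (∀ P : HeightOneSpectrum (𝓞 E), (w : 𝓞 E) ∉ P.asIdeal → Good P u) →
        ∃ (F : Type) (_ : Field F) (_ : NumberField F) (_ : Algebra E F)
          (v : List GG → Fin 4 → F),
          Tree (algebraMap E F ι) k (fun i => algebraMap E F (u i)) v ∧ finrank ℚ F ≤ A₂ ∧
          |(discr F : ℝ)| ≤ (A₂ * |(discr E : ℝ)| * w) ^ A₂)
    (E : Type) [Field E] [NumberField E] (hE : finrank ℚ E ≤ A₁) {w : ℕ} (hw : w ≠ 0)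
    (h2 : 2 ∣ w) {ι : 𝓞 E} {u : Fin 4 → 𝓞 E} (hι : (ι : E) ^ 2 = -1)
    (hg : ∀ P : HeightOneSpectrum (𝓞 E), (w : 𝓞 E) ∉ P.asIdeal → Good P (fun i => (u i : E)))
    (σ : E →+* ℂ) {R : ℝ} (hR : ∀ i (τ' : E →+* ℂ), ‖τ' (u i : E)‖ ≤ R) :
    ∃ (F : Type) (_ : Field F) (_ : NumberField F) (_ : Algebra E F) (σ' : F →+* ℂ) (ι' : 𝓞 F)
      (v : List GG → Fin 4 → 𝓞 F),
      (∀ x, σ' (algebraMap E F x) = σ x) ∧ finrank ℚ F ≤ A₂ ∧
      |(discr F : ℝ)| ≤ (A₂ * |(discr E : ℝ)| * w) ^ A₂ ∧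
      (ι' : F) = algebraMap E F (ι : E) ∧
      Tree ι' k (fun i => algebraMap (𝓞 E) (𝓞 F) (u i)) v ∧
      ∀ s b, s.length ≤ k → ∀ τ : F →+* ℂ, ‖τ (v s b : F)‖ ≤ 8 ^ k * R := by
  classical
  obtain ⟨F, _, _, _, v, hv, hF, hD⟩ := htree E hE (ι : E) hι w hw h2 (fun i => (u i : E)) hg
  obtain ⟨σ', hσ'⟩ := pnt_ext (algebraMap E F) σ
  have hι' : (algebraMap E F (ι : E)) ^ 2 = -1 := by
    rw [← map_pow, hι, map_neg, map_one]
  have hui : ∀ i, IsIntegral ℤ (algebraMap E F (u i : E)) := fun i =>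
    map_isIntegral_int (algebraMap E F) (RingOfIntegers.isIntegral_coe (u i))
  have hint : ∀ (s : List GG), s.length ≤ k → ∀ b, IsIntegral ℤ (v s b) := fun s hs b =>
    tree_int hι' hv hui s hs b
  let v' : List GG → Fin 4 → 𝓞 F := fun s b =>
    if h : s.length ≤ k then ⟨v s b, hint s h b⟩ else 0
  have hv' : ∀ s, s.length ≤ k → ∀ b, (v' s b : F) = v s b := by
    intro s hs b
    have h1 : v' s b = ⟨v s b, hint s hs b⟩ := dif_pos hs
    rw [h1]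
    rfl
  have hinj : ∀ x y : 𝓞 F, (x : F) = y → x = y := fun x y h => RingOfIntegers.ext h
  refine ⟨F, inferInstance, inferInstance, inferInstance, σ', algebraMap (𝓞 E) (𝓞 F) ι, v', hσ',
    hF, hD, rfl, ⟨?_, ?_⟩, ?_⟩
  · funext b
    apply hinj
    rw [hv' [] (Nat.zero_le _) b, hv.1]
    rfl
  · intro s hs g b
    apply hinj
    have h1 := hv.2 s hs g b
    have h3 : ((v' (g :: s) b ^ 2 : 𝓞 F) : F) = (v' (g :: s) b : F) ^ 2 :=
      map_pow (algebraMap (𝓞 F) F) _ _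
    have h4 : ((st (act (algebraMap (𝓞 E) (𝓞 F) ι) g (v' s)) b : 𝓞 F) : F) =
        st (act (algebraMap E F (ι : E)) g (fun i => (v' s i : F))) b := by
      have h5 : ∀ m, ((qf (act (algebraMap (𝓞 E) (𝓞 F) ι) g (v' s)) m : 𝓞 F) : F) =
          qf (act (algebraMap E F (ι : E)) g (fun i => (v' s i : F))) m := by
        intro m
        have h6 := qf_map (algebraMap (𝓞 F) F) (act (algebraMap (𝓞 E) (𝓞 F) ι) g (v' s)) m
        refine h6.symm.trans ?_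
        congr 1
        funext i
        exact (act_map (algebraMap (𝓞 F) F) (algebraMap (𝓞 E) (𝓞 F) ι) g (v' s) i).symm
      fin_cases b
      · exact h5 0
      · exact h5 4
      · exact h5 6
      · exact h5 8
    rw [h3, h4, hv' (g :: s) (by rw [List.length_cons]; exact hs) b, h1]
    congr 2
    funext i
    exact (hv' s hs.le i).symm
  · intro s b hs τ
    rw [hv' s hs b]
    exact tree_house hι' hv τ (R := R) (fun i => hR i (τ.comp (algebraMap E F))) s hs b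

/-! ### The constants -/

private theorem pnt_bound {A₀ A₁ A₂ M : ℕ}
    (hM : M = A₀ + A₁ + A₂ + 2 + (A₀ + 2) * A₁ + ((A₀ + 2) * A₁ + 2) * A₂) {Y w dL dE dF : ℝ}
    (hY : 1 ≤ Y) (hw0 : 0 ≤ w) (hw : w ≤ 2 * Y) (hL0 : 0 ≤ dL) (hE0 : 0 ≤ dE)
    (hL : dL ≤ (A₀ * Y) ^ A₀) (hE : dE ≤ (A₁ * dL * w) ^ A₁)
    (hF : dF ≤ (A₂ * dE * w) ^ A₂) : dE ≤ (M * Y) ^ M ∧ dF ≤ (M * Y) ^ M := by
  have hMA₀ : (A₀ : ℝ) ≤ M := by exact_mod_cast (by omega : A₀ ≤ M)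
  have hMA₁ : (A₁ : ℝ) ≤ M := by exact_mod_cast (by omega : A₁ ≤ M)
  have hMA₂ : (A₂ : ℝ) ≤ M := by exact_mod_cast (by omega : A₂ ≤ M)
  have hM2 : (2 : ℝ) ≤ M := by exact_mod_cast (by omega : 2 ≤ M)
  have hM0 : (0 : ℝ) ≤ M := by linarith
  have hY0 : (0 : ℝ) ≤ Y := by linarith
  obtain ⟨B, hB⟩ : ∃ B : ℝ, B = M * Y := ⟨_, rfl⟩
  rw [← hB]
  have hMB : (M : ℝ) ≤ B := by
    rw [hB]
    exact le_mul_of_one_le_right hM0 hY
  have hB1 : 1 ≤ B := by linarith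
  have hB0 : 0 ≤ B := by linarith
  have h0 : (A₀ : ℝ) * Y ≤ B := by
    rw [hB]
    exact mul_le_mul_of_nonneg_right hMA₀ hY0
  have h1 : (A₁ : ℝ) ≤ B := hMA₁.trans hMB
  have h2 : (A₂ : ℝ) ≤ B := hMA₂.trans hMB
  have h3 : w ≤ B := by
    rw [hB]
    exact hw.trans (mul_le_mul_of_nonneg_right hM2 hY0)
  have hL' : dL ≤ B ^ A₀ := hL.trans (pow_le_pow_left₀ (by positivity) h0 _)
  have hE' : dE ≤ B ^ ((A₀ + 2) * A₁) := by
    refine hE.trans ?_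
    rw [pow_mul]
    refine pow_le_pow_left₀ (by positivity) ?_ _
    calc (A₁ : ℝ) * dL * w ≤ B * B ^ A₀ * B :=
          mul_le_mul (mul_le_mul h1 hL' hL0 hB0) h3 hw0 (by positivity)
      _ = B ^ (A₀ + 2) := by ring
  have hF' : dF ≤ B ^ (((A₀ + 2) * A₁ + 2) * A₂) := by
    refine hF.trans ?_
    rw [pow_mul]
    refine pow_le_pow_left₀ (by positivity) ?_ _
    calc (A₂ : ℝ) * dE * w ≤ B * B ^ ((A₀ + 2) * A₁) * B :=
          mul_le_mul (mul_le_mul h2 hE' hE0 hB0) h3 hw0 (by positivity)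
      _ = B ^ ((A₀ + 2) * A₁ + 2) := by ring
  exact ⟨hE'.trans (pow_le_pow_right₀ hB1 (by omega)),
    hF'.trans (pow_le_pow_right₀ hB1 (by omega))⟩

theorem pnt (d n : ℕ) (hn : n = 5 ∨ n = 6) : ∃ M₀ A' : ℕ, ∃ C₁ : ℝ, 1 ≤ C₁ ∧ ∀ k : ℕ, ∃ M : ℕ, 1 ≤ M ∧
    ∀ (K : Type) [Field K] [NumberField K], finrank ℚ K = d → ∀ H Y : ℝ, 1 ≤ H → 1 ≤ Y →
      ∀ f ∈ FamE K 2 n H, |(discr K : ℝ)| * condE 2 f ≤ Y → ∀ τ : Spl (tot 2 f) →+* ℂ,
        ∃ a ∈ bp 2 f, ∃ b ∈ bp 2 f, ∃ c ∈ bp 2 f, a ≠ b ∧ a ≠ c ∧ b ≠ c ∧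
          ∀ e ∈ bp 2 f, a ≠ e → b ≠ e → c ≠ e →
            τ (cr a b c e) ∈ PSet k M₀ M ((M * Y) ^ M) ((C₁ * H) ^ A') := by
  obtain ⟨A₀, hA₀, hspl⟩ := spl_disc d n 2 1 (by norm_num)
  obtain ⟨C₁, hC₁, hcr⟩ := cr_quot n 2 1 (by norm_num)
  obtain ⟨A₁, hA₁, hsq⟩ := sqrt_list 6 A₀
  refine ⟨A₁, 140, 512 * C₁, by linarith, fun k => ?_⟩
  obtain ⟨A₂, hA₂, htree⟩ := tree_exists k A₁
  obtain ⟨M, hM⟩ : ∃ M : ℕ, M = A₀ + A₁ + A₂ + 2 + (A₀ + 2) * A₁ + ((A₀ + 2) * A₁ + 2) * A₂ :=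
    ⟨_, rfl⟩
  refine ⟨M, by omega, fun K _ _ hK H Y hH hY f hf hfY τ => ?_⟩
  obtain ⟨hL, hLd⟩ := hspl K hK f hf.2.1 hf.2.2.1
  obtain ⟨b, e, he, hb, hbp, hwt⟩ := pts hn hf
  obtain ⟨hal0, hal1, -, -⟩ := al_eq he hb
  have hbm : b ∈ bp 2 f := by
    rw [hbp]
    exact Set.mem_insert _ _
  have hem : ∀ i, e i ∈ bp 2 f := by
    intro i
    rw [hbp]
    exact Set.mem_insert_of_mem _ ⟨i, rfl⟩
  have heb : ∀ i, e i ≠ b := fun i h => hb ⟨i, h⟩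
  have hCH : 1 ≤ C₁ * H := one_le_mul_of_one_le_of_one_le hC₁ hH
  have hR1 : 1 ≤ (C₁ * H) ^ (2 * 2) := one_le_pow₀ hCH
  have hquo : ∀ i, ∃ ν δ : 𝓞 (Spl (tot 2 f)), δ ≠ 0 ∧
      al b e i = (ν : Spl (tot 2 f)) / δ ∧
      (∀ τ : Spl (tot 2 f) →+* ℂ, ‖τ ν‖ ≤ (C₁ * H) ^ (2 * 2)) ∧
      ∀ τ : Spl (tot 2 f) →+* ℂ, ‖τ δ‖ ≤ (C₁ * H) ^ (2 * 2) := by
    intro i
    by_cases hi : i = 1
    · have hz : ((0 : 𝓞 (Spl (tot 2 f))) : Spl (tot 2 f)) = 0 := map_zero (algebraMap _ _)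
      have ho : ((1 : 𝓞 (Spl (tot 2 f))) : Spl (tot 2 f)) = 1 := map_one (algebraMap _ _)
      refine ⟨0, 1, one_ne_zero, ?_, fun τ => ?_, fun τ => ?_⟩
      · rw [hi, hal1, hz, zero_div]
      · rw [hz, map_zero, norm_zero]
        linarith
      · rw [ho, map_one, norm_one]
        exact hR1
    · exact hcr K H hH f (mem_famE hf) (e 0) (hem 0) b hbm (e 1) (hem 1) (e i) (hem i) (heb 0)
        (he.ne (by decide)) (heb i).symm (he.ne (fun h => hi h.symm))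
  obtain ⟨δ, β, hδ, hβ, hβR⟩ := pnt_int hR1 hquo
  have hβinj : Function.Injective fun i => (β i : Spl (tot 2 f)) := by
    intro i j hij
    apply al_inj he hb
    have h1 : (β i : Spl (tot 2 f)) = β j := hij
    rw [hβ, hβ] at h1
    exact mul_left_cancel₀ hδ h1
  have hw : 2 * condE 2 f ≠ 0 := by
    have := condE_pos 2 f
    omega
  have h2w : 2 ∣ 2 * condE 2 f := dvd_mul_right _ _
  have hP : ∀ P : HeightOneSpectrum (𝓞 (Spl (tot 2 f))),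
      ((2 * condE 2 f : ℕ) : 𝓞 (Spl (tot 2 f))) ∉ P.asIdeal →
      Pattern P (fun i => (β i : Spl (tot 2 f))) := fun P hPw =>
    pnt_scale (al_inj he hb) hδ hβ (pattern_pts hn hf he hb hbp hwt P hPw)
  obtain ⟨E, _, _, _, σ, ι, u, hσ, hE, hDE, hσι, hι, hu0, hug, huR, hur⟩ :=
    pnt_E hsq (Spl (tot 2 f)) hL hw h2w β hβinj hβR hP τ
  obtain ⟨F, _, _, _, σ', ι', v, hσ', hF, hDF, hι', hv, hvR⟩ :=
    pnt_F htree E hE hw h2w hι hug σ huR
  -- the constants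
  have hD1 : (1 : ℝ) ≤ |(discr K : ℝ)| := by
    have h : (1 : ℤ) ≤ |discr K| := Int.one_le_abs (discr_ne_zero K)
    exact_mod_cast h
  have hcond : (condE 2 f : ℝ) ≤ Y := by
    refine le_trans ?_ hfY
    exact le_mul_of_one_le_left (Nat.cast_nonneg _) hD1
  have hdL : |(discr (Spl (tot 2 f)) : ℝ)| ≤ (A₀ * Y) ^ A₀ := by
    refine hLd.trans (pow_le_pow_left₀ (by positivity) ?_ _)
    refine mul_le_mul_of_nonneg_left (le_trans ?_ hfY) (by positivity)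
    refine mul_le_mul_of_nonneg_left ?_ (by positivity)
    exact_mod_cast cond_one_le 2 hf.2.2.1
  obtain ⟨hDE', hDF'⟩ := pnt_bound hM (w := ((2 * condE 2 f : ℕ) : ℝ)) hY (by positivity)
    (by push_cast; linarith) (abs_nonneg _) (abs_nonneg _) hdL hDE hDF
  have hRb : (512 : ℝ) * (((C₁ * H) ^ (2 * 2)) ^ 5) ^ 7 ≤ (512 * C₁ * H) ^ 140 := by
    have h1 : (512 * C₁ * H) ^ 140 = (512 : ℝ) ^ 140 * (C₁ * H) ^ 140 := by
      rw [mul_assoc, mul_pow]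
    have h3 : (512 : ℝ) ≤ 512 ^ 140 := by
      calc (512 : ℝ) = 512 ^ 1 := by ring
        _ ≤ 512 ^ 140 := pow_le_pow_right₀ (by norm_num) (by norm_num)
    rw [h1, ← pow_mul, ← pow_mul]
    exact mul_le_mul_of_nonneg_right h3 (by positivity)
  refine ⟨e 0, hem 0, b, hbm, e 1, hem 1, heb 0, he.ne (by decide), (heb 1).symm,
    fun z hz h0z hbz h1z => ?_⟩
  obtain ⟨i, rfl⟩ : ∃ i, e i = z := by
    rw [hbp] at hz
    rcases hz with hz | hz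
    · exact absurd hz.symm hbz
    · exact hz
  have hi0 : i ≠ 0 := fun h => h0z (by rw [h])
  have hi1 : i ≠ 1 := fun h => h1z (by rw [h])
  obtain ⟨m₁, m₂, m₃, m₄, j, h⟩ := hur i hi0 hi1
  refine ⟨E, F, inferInstance, inferInstance, inferInstance, inferInstance, inferInstance, σ', ι',
    u, v, hE, hF.trans (by omega), hDE', hDF', ?_, hu0, hv, ?_, m₁, m₂, m₃, m₄, j, ?_⟩
  · rw [hι', hσ', hσι]
  · intro s b' hs τ'
    exact (hvR s b' hs τ').trans (mul_le_mul_of_nonneg_left hRb (by positivity))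
  · have h1 : cr (e 0) b (e 1) (e i) = ((β i : Spl (tot 2 f)) - β 1) /
        ((β 0 : Spl (tot 2 f)) - β 1) := by
      rw [hβ, hβ, hβ, hal0, hal1]
      change al b e i = _
      field_simp
      ring
    rw [h1, ← hσ, h, map_mul, map_pow, hσι, hσ']
    rfl

end FreyG2
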