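import Pool.Agent.Lib.MP_6babc4_nt.G2.Inf

/-!
# Module Ult: the key lemma, finite form (an ultraproduct)

PROOF. Suppose that for some `B` there is for every `n` a counterexample with `k = N = n`, over `ℂ` (apply `ψ`; the image of `ι` is `±I`, compose with complex
conjugation): points `x_(n,i)`, `i < n + 1` (`i : ℕ`, arbitrary for `i > n`), trees `v_n`. Let `K = Germ (hyperfilter ℕ) ℂ`, a field of characteristic `0`, `#K ≤ 𝔠`. The functions
`v s i b = [n ↦ v_n s (x_(n,i)) b]` on `X = ℕ` satisfy all the relations (for `s` fixed they hold for all large `n`), `NProp` for `i ≠ j`,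
and all `(B+1) × (B+1)` minors are zero. There is a field homomorphism `K → ℂ` mapping `[I]` to `I`: the algebraic closure of `K` has the cardinality of the continuum
(`IsAlgClosed.ringEquiv_of_equiv_of_charZero` or similar) and compose with conjugation. So we get `v : List GG → ℕ → Fin 4 → ℂ`, the relations, `NProp`, and all
`(B+1) × (B+1)` minors `0`: so the span of the functions is finite dimensional (dimension `≤ B`): take a maximal nonzero minor). `no_infinite`.
-/

set_option autoImplicit false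

namespace FreyG2

/-- All minors of size `B` of the values of the functions `v s b`, `|s| ≤ k`, are zero. -/
def RankLt {F X : Type} [Field F] (k B : ℕ) (v : X → List GG → Fin 4 → F) : Prop :=
  ∀ (r : Fin B → List GG × Fin 4) (x : Fin B → X), (∀ i, (r i).1.length ≤ k) →
    Matrix.det (Matrix.of fun i j => v (x j) (r i).1 (r i).2) = 0

private theorem ult_qf_map {R S : Type*} [CommRing R] [CommRing S] (φ : R →+* S) (w : Fin 4 → R)
    (m : Fin 10) : φ (qf w m) = qf (fun i => φ (w i)) m := by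
  have h2 : φ 2 = 2 := map_ofNat φ 2
  fin_cases m <;> simp [qf, h2]

private theorem ult_st_map {R S : Type*} [CommRing R] [CommRing S] (φ : R →+* S) (w : Fin 4 → R)
    (m : Fin 4) : φ (st w m) = st (fun i => φ (w i)) m := by
  fin_cases m
  · exact ult_qf_map φ w 0
  · exact ult_qf_map φ w 4
  · exact ult_qf_map φ w 6
  · exact ult_qf_map φ w 8

private theorem ult_m6_map {R S : Type*} [CommRing R] [CommRing S] (φ : R →+* S) (ι : R)
    (j : Fin 6) (x y : R) :
    (φ (m6 ι j x y).1 = (m6 (φ ι) j (φ x) (φ y)).1) ∧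
      (φ (m6 ι j x y).2 = (m6 (φ ι) j (φ x) (φ y)).2) := by
  fin_cases j <;> simp [m6]

private theorem ult_act_map {R S : Type*} [CommRing R] [CommRing S] (φ : R →+* S) (ι : R) (g : GG)
    (w : Fin 4 → R) (m : Fin 4) : φ (act ι g w m) = act (φ ι) g (fun i => φ (w i)) m := by
  rcases g with e | ⟨a, b⟩
  · simp only [act]
    split_ifs <;> simp
  · fin_cases m
    · simp only [act, Fin.zero_eta, Matrix.cons_val_zero]
      rw [(ult_m6_map φ ι b _ _).1, (ult_m6_map φ ι a _ _).1, (ult_m6_map φ ι a _ _).1]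
    · simp only [act, Fin.mk_one, Matrix.cons_val_one, Matrix.cons_val_zero]
      rw [(ult_m6_map φ ι b _ _).2, (ult_m6_map φ ι a _ _).1, (ult_m6_map φ ι a _ _).1]
    · simp only [act, Fin.reduceFinMk, Matrix.cons_val]
      rw [(ult_m6_map φ ι b _ _).1, (ult_m6_map φ ι a _ _).2, (ult_m6_map φ ι a _ _).2]
    · simp only [act, Fin.reduceFinMk, Matrix.cons_val]
      rw [(ult_m6_map φ ι b _ _).2, (ult_m6_map φ ι a _ _).2, (ult_m6_map φ ι a _ _).2]

private theorem ult_rel_map {R S : Type*} [CommRing R] [CommRing S] (φ : R →+* S) (ι : R) (g : GG)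
    (w : Fin 4 → R) (m : Fin 4) :
    φ (st (act ι g w) m) = st (act (φ ι) g (fun i => φ (w i))) m := by
  rw [ult_st_map]
  congr 1
  funext i
  exact ult_act_map φ ι g w i

private theorem ult_minor {X : Type} (B : ℕ) (g : Fin B → X → ℂ) (hg : LinearIndependent ℂ g) :
    ∃ x : Fin B → X, Matrix.det (Matrix.of fun i j => g i (x j)) ≠ 0 := by
  have hspan : Submodule.span ℂ (Set.range fun x : X => fun i => g i x) = ⊤ := by
    by_contra hne
    obtain ⟨f, hf0, hf⟩ := Submodule.exists_le_ker_of_lt_top _ (lt_top_iff_ne_top.mpr hne)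
    have hfe : ∀ y : Fin B → ℂ, f y = ∑ i, y i * f (Pi.single i 1) := by
      intro y
      conv_lhs => rw [pi_eq_sum_univ' y]
      rw [map_sum]
      refine Finset.sum_congr rfl fun i _ => ?_
      rw [map_smul, smul_eq_mul]
    have hz : ∀ x : X, ∑ i, g i x * f (Pi.single i 1) = 0 := by
      intro x
      have h1 : (fun i => g i x) ∈ LinearMap.ker f :=
        hf (Submodule.subset_span ⟨x, rfl⟩)
      rw [LinearMap.mem_ker, hfe] at h1
      exact h1
    have hc := (Fintype.linearIndependent_iff.mp hg) (fun i => f (Pi.single i 1)) (by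
      funext x
      rw [Finset.sum_apply]
      simp only [Pi.smul_apply, smul_eq_mul, Pi.zero_apply]
      rw [← hz x]
      exact Finset.sum_congr rfl fun i _ => mul_comm _ _)
    apply hf0
    ext y
    simp [hc]
  obtain ⟨b, hb, hbs, hbi⟩ :=
    exists_linearIndependent ℂ (Set.range fun x : X => fun i => g i x)
  rw [hspan] at hbs
  let bas : Module.Basis b ℂ (Fin B → ℂ) := Module.Basis.mk hbi (by
    rw [Subtype.range_coe]; exact hbs.ge)
  let e : b ≃ Fin B := bas.indexEquiv (Pi.basisFun ℂ (Fin B))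
  choose x hx using fun j => hb (e.symm j).2
  have hx' : ∀ j i, g i (x j) = ((e.symm j : b) : Fin B → ℂ) i := fun j i => congrFun (hx j) i
  refine ⟨x, ?_⟩
  have hli : LinearIndependent ℂ (Matrix.of fun j i => g i (x j) : Matrix (Fin B) (Fin B) ℂ).row := by
    have h1 := hbi.comp e.symm e.symm.injective
    have h2 : (Matrix.of fun j i => g i (x j) : Matrix (Fin B) (Fin B) ℂ).row =
        (fun x : b => (x : Fin B → ℂ)) ∘ e.symm := by
      funext j i
      exact hx' j i
    rw [h2]
    exact h1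
  rw [Matrix.linearIndependent_rows_iff_isUnit, Matrix.isUnit_iff_isUnit_det] at hli
  rw [← Matrix.det_transpose]
  exact hli.ne_zero

private theorem ult_fin {P X : Type} (B : ℕ) (f : P → X → ℂ)
    (h : ∀ (r : Fin B → P) (x : Fin B → X),
      Matrix.det (Matrix.of fun i j => f (r i) (x j)) = 0) :
    FiniteDimensional ℂ (Submodule.span ℂ (Set.range f)) := by
  by_contra hfd
  obtain ⟨b, hb, hbs, hbi⟩ := exists_linearIndependent ℂ (Set.range f)
  have hinf : b.Infinite := by
    intro hfin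
    apply hfd
    rw [← hbs]
    exact FiniteDimensional.span_of_finite ℂ hfin
  have : Infinite b := hinf.to_subtype
  let e : Fin B ↪ b := (Fin.valEmbedding).trans (Infinite.natEmbedding b)
  obtain ⟨x, hx⟩ := ult_minor B (fun i => ((e i : b) : X → ℂ)) (hbi.comp e e.injective)
  choose r hr using fun i => hb (e i).2
  apply hx
  rw [← h r x]
  congr 1
  ext i j
  simp [hr]

open Cardinal in
private theorem ult_hom : ∃ Φ : (ℕ → ℂ) →+* ℂ, Φ (fun _ => Complex.I) = Complex.I ∧
    ∀ f, Φ f = 0 ↔ ∀ᶠ n in (Filter.hyperfilter ℕ : Filter ℕ), f n = 0 := by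
  let K : Type := Filter.Germ (Filter.hyperfilter ℕ : Filter ℕ) ℂ
  let _ : Field K := Filter.Germ.instField
  let q : (ℕ → ℂ) →+* K := Filter.Germ.coeRingHom (Filter.hyperfilter ℕ : Filter ℕ)
  have hq0 : ∀ f, q f = 0 ↔ ∀ᶠ n in (Filter.hyperfilter ℕ : Filter ℕ), f n = 0 := by
    intro f
    exact Filter.Germ.coe_eq
  have hqs : Function.Surjective q := fun y => Quotient.inductionOn' y fun f => ⟨f, rfl⟩
  let c : ℂ →+* K := q.comp (Pi.constRingHom ℕ ℂ)
  have : CharZero K := charZero_of_injective_ringHom c.injective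
  have h1 : #K ≤ 𝔠 := by
    refine (Cardinal.mk_le_of_surjective hqs).trans ?_
    simp
  let A := AlgebraicClosure K
  have : CharZero A := charZero_of_injective_ringHom (algebraMap K A).injective
  have h2 : #A = 𝔠 := by
    apply le_antisymm
    · have h := Algebra.IsAlgebraic.cardinalMk_le_max K A
      exact h.trans (max_le h1 aleph0_le_continuum)
    · rw [← Cardinal.mk_complex]
      exact Cardinal.mk_le_of_injective ((algebraMap K A).comp c).injective
  obtain ⟨e⟩ : Nonempty (A ≃+* ℂ) := IsAlgClosed.ringEquiv_of_equiv_of_charZero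
    (by rw [h2]; exact aleph0_lt_continuum)
    (Cardinal.eq.mp (by rw [h2, Cardinal.mk_complex]))
  let Φ : (ℕ → ℂ) →+* ℂ := (e : A →+* ℂ).comp ((algebraMap K A).comp q)
  have hΦ : ∀ f, Φ f = 0 ↔ ∀ᶠ n in (Filter.hyperfilter ℕ : Filter ℕ), f n = 0 := by
    intro f
    rw [← hq0]
    constructor
    · intro h
      have h3 : e (algebraMap K A (q f)) = 0 := h
      rw [map_eq_zero, map_eq_zero] at h3
      exact h3
    · intro h
      change e (algebraMap K A (q f)) = 0
      rw [h, map_zero, map_zero]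
  have hI : Φ (fun _ => Complex.I) ^ 2 = Complex.I ^ 2 := by
    rw [← map_pow]
    have h3 : (fun _ : ℕ => Complex.I) ^ 2 = -1 := by
      funext n
      simp
    rw [h3, map_neg, map_one, Complex.I_sq]
  rcases sq_eq_sq_iff_eq_or_eq_neg.mp hI with h | h
  · exact ⟨Φ, h, hΦ⟩
  · refine ⟨(starRingEnd ℂ).comp Φ, ?_, fun f => ?_⟩
    · rw [RingHom.comp_apply, h]
      simp
    · rw [RingHom.comp_apply, map_eq_zero]
      exact hΦ f

private theorem ult_conj (F : Type) [Field F] (ψ : F →+* ℂ) (ι : F) (hι : ι ^ 2 = -1) :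
    ∃ ψ' : F →+* ℂ, ψ' ι = Complex.I := by
  have hI : ψ ι ^ 2 = Complex.I ^ 2 := by
    rw [← map_pow, hι, map_neg, map_one, Complex.I_sq]
  rcases sq_eq_sq_iff_eq_or_eq_neg.mp hI with h | h
  · exact ⟨ψ, h⟩
  · refine ⟨(starRingEnd ℂ).comp ψ, ?_⟩
    rw [RingHom.comp_apply, h]
    simp

/-- A counterexample, over `ℂ`, with the points indexed by `ℕ`. -/
private theorem ult_ce (n B : ℕ) (F X : Type) [Field F] [Fintype X] (ψ : F →+* ℂ) (ι : F)
    (hι : ι ^ 2 = -1) (u : X → Fin 4 → F) (v : X → List GG → Fin 4 → F)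
    (ht : ∀ x, Tree ι n (u x) (v x)) (hu : ∀ x y, x ≠ y → NProp (u x) (u y)) (hr : RankLt n B v)
    (hc : n < Fintype.card X) : ∃ w : List GG → ℕ → Fin 4 → ℂ,
      (∀ s g i b, s.length < n → w (g :: s) i b ^ 2 = st (act Complex.I g (w s i)) b) ∧
      (∀ i j, i ≤ n → j ≤ n → i ≠ j → NProp (w [] i) (w [] j)) ∧
      (∀ (r : Fin B → List GG × Fin 4) (x : Fin B → ℕ), (∀ i, (r i).1.length ≤ n) →
        Matrix.det (Matrix.of fun i j => w (r i).1 (x j) (r i).2) = 0) := by
  obtain ⟨φ, hφ⟩ := ult_conj F ψ ι hι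
  obtain ⟨E⟩ : Nonempty (Fin (n + 1) ↪ X) :=
    Function.Embedding.nonempty_of_card_le (by rw [Fintype.card_fin]; exact hc)
  let e : ℕ → X := fun i => E ⟨min i n, by omega⟩
  have he : ∀ i j, i ≤ n → j ≤ n → i ≠ j → e i ≠ e j := by
    intro i j hi hj hij h
    have h1 := E.injective h
    rw [Fin.mk.injEq, min_eq_left hi, min_eq_left hj] at h1
    exact hij h1
  refine ⟨fun s i b => φ (v (e i) s b), ?_, ?_, ?_⟩
  · intro s g i b hs
    have h1 := (ht (e i)).2 s hs g b
    change φ (v (e i) (g :: s) b) ^ 2 = _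
    rw [← map_pow, h1, ult_rel_map, hφ]
  · intro i j hi hj hij
    obtain ⟨a, b, hab⟩ := hu _ _ (he i j hi hj hij)
    refine ⟨a, b, fun h => hab ?_⟩
    apply φ.injective
    rw [map_mul, map_mul, ← (ht (e i)).1, ← (ht (e j)).1]
    exact h
  · intro r x hrl
    have h1 := hr r (fun j => e (x j)) hrl
    have h2 := congrArg φ h1
    rw [map_zero, RingHom.map_det] at h2
    rw [← h2]
    rfl

theorem bound_B (B : ℕ) : ∃ k N : ℕ, ∀ (F X : Type) [Field F] [Fintype X] (ψ : F →+* ℂ) (ι : F),
    ι ^ 2 = -1 → ∀ (u : X → Fin 4 → F) (v : X → List GG → Fin 4 → F),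
      (∀ x, Tree ι k (u x) (v x)) → (∀ x y, x ≠ y → NProp (u x) (u y)) → RankLt k B v →
        Fintype.card X ≤ N := by
  by_contra hcon
  have hce : ∀ n : ℕ, ∃ w : List GG → ℕ → Fin 4 → ℂ,
      (∀ s g i b, s.length < n → w (g :: s) i b ^ 2 = st (act Complex.I g (w s i)) b) ∧
      (∀ i j, i ≤ n → j ≤ n → i ≠ j → NProp (w [] i) (w [] j)) ∧
      (∀ (r : Fin B → List GG × Fin 4) (x : Fin B → ℕ), (∀ i, (r i).1.length ≤ n) →
        Matrix.det (Matrix.of fun i j => w (r i).1 (x j) (r i).2) = 0) := by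
    intro n
    by_contra hn
    refine hcon ⟨n, n, fun F X _ _ ψ ι hι u v ht hu hr => ?_⟩
    by_contra hc
    exact hn (ult_ce n B F X ψ ι hι u v ht hu hr (not_le.mp hc))
  choose w hw1 hw2 hw3 using hce
  obtain ⟨Φ, hI, hΦ⟩ := ult_hom
  have hlarge : ∀ m : ℕ, ∀ᶠ n in (Filter.hyperfilter ℕ : Filter ℕ), m ≤ n := fun m =>
    Nat.hyperfilter_le_atTop (Filter.eventually_ge_atTop m)
  refine no_infinite (X := ℕ) (fun s i b => Φ (fun n => w n s i b)) ?_ ?_ ?_
  · intro s g i b
    have h1 := ult_rel_map Φ (fun _ => Complex.I) g (fun b n => w n s i b) b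
    rw [hI] at h1
    rw [← map_pow, ← h1, ← sub_eq_zero, ← map_sub, hΦ]
    filter_upwards [hlarge (s.length + 1)] with n hn
    have h2 := hw1 n s g i b (by omega)
    have h3 := ult_rel_map (Pi.evalRingHom (fun _ : ℕ => ℂ) n) (fun _ => Complex.I) g
      (fun b n => w n s i b) b
    rw [Pi.sub_apply, Pi.pow_apply, h2, sub_eq_zero]
    exact h3.symm
  · refine ult_fin B (fun (p : List GG × Fin 4) (x : ℕ) => Φ (fun n => w n p.1 x p.2)) ?_
    intro r x
    have h1 : Matrix.det (Matrix.of fun i j => Φ (fun n => w n (r i).1 (x j) (r i).2)) =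
        Φ (Matrix.det (Matrix.of fun i j => fun n => w n (r i).1 (x j) (r i).2)) := by
      rw [RingHom.map_det]
      rfl
    rw [h1, hΦ]
    filter_upwards [hlarge (Finset.univ.sup fun i => (r i).1.length)] with n hn
    have h2 := hw3 n r x (fun i => (Finset.le_sup (f := fun i => (r i).1.length)
      (Finset.mem_univ i)).trans hn)
    have h3 := RingHom.map_det (Pi.evalRingHom (fun _ : ℕ => ℂ) n)
      (Matrix.of fun i j => fun n => w n (r i).1 (x j) (r i).2)
    rw [← h2]
    exact h3
  · intro i j hij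
    by_contra hnp
    have h1 : ∀ a b, Φ (fun n => w n [] i a) * Φ (fun n => w n [] j b) =
        Φ (fun n => w n [] i b) * Φ (fun n => w n [] j a) := by
      intro a b
      by_contra h
      exact hnp ⟨a, b, h⟩
    have h2 : ∀ a b, ∀ᶠ n in (Filter.hyperfilter ℕ : Filter ℕ),
        w n [] i a * w n [] j b = w n [] i b * w n [] j a := by
      intro a b
      have h3 := h1 a b
      rw [← map_mul, ← map_mul, ← sub_eq_zero, ← map_sub, hΦ] at h3
      filter_upwards [h3] with n hn
      exact sub_eq_zero.mp hn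
    have h4 : ∀ᶠ n in (Filter.hyperfilter ℕ : Filter ℕ), ∀ a b,
        w n [] i a * w n [] j b = w n [] i b * w n [] j a := by
      rw [Filter.eventually_all]
      intro a
      rw [Filter.eventually_all]
      exact h2 a
    obtain ⟨n, h5, h6⟩ := (h4.and (hlarge (max i j))).exists
    obtain ⟨a, b, hab⟩ := hw2 n i j ((le_max_left _ _).trans h6) ((le_max_right _ _).trans h6) hij
    exact hab (h5 a b)

end FreyG2
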