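import Pool.Agent.Lib.MP_6babc4_nt.G2.App
import Pool.Agent.Lib.MP_6babc4_nt.G2.Ult

/-!
# Module Rnk: the rank on a congruence class; the number of the classes

`rank_lt`. PROOF. `approx` (for a point `x₀ ∈ X`; if `X` is empty the determinant has size `2 t^4`: if `t = 0` then `hbig` is false (`1 < 1`), otherwise there is no `x`)
and `det_dvd` with `π = p`: `p^(t^5)` divides the determinant `Δ ∈ 𝓞 F`. All conjugates of `Δ` are at most `(2t⁴)! R^(2t⁴) < p^(t^5)`, so the integer `Δ / p^(t^5)` has all its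
conjugates `< 1` in absolute value, its norm is `0`, `Δ = 0`.

`classes`. PROOF. `cls x` = the family of the residues of the `v x s b`, `|s| ≤ k`, in `A = 𝓞 F / p`. Number: `v x [] = u x` is determined by the residue of `u x` in
`(𝓞 E / p)^4`, which has `p^(4 [E:ℚ])` elements (`Ideal.absNorm`). Given the residues of `v x s'`, the residue of `v x (g :: s') b` is a square root `y` of a given element of `A`, and it is `0` or a unit of `A`
(`hn`). A unit `a` of `A` has at most `2^[F:ℚ]` square roots: if `y² = z² = a` and `y ≡ z` modulo all maximal ideals of `A` then `y + z ≡ 2y` is a unit, so `y = z`; for each maximal ideal `y ≡ ± z`;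
there are at most `[F:ℚ]` maximal ideals (`2^r ≤ ∏ N(Q) ≤ N(p) = p^[F:ℚ]` with `N(Q) ≥ p`). So at most `1 + 2^D` choices for each of the `4 · #{s : 1 ≤ |s| ≤ k}` numbers. (Or an injection of the
image of `cls` into a finite type, by induction on `k`.)
-/

set_option autoImplicit false

open NumberField Module

namespace FreyG2

private theorem rnk_qf_map {R S : Type*} [CommRing R] [CommRing S] (φ : R →+* S) (w : Fin 4 → R)
    (m : Fin 10) : φ (qf w m) = qf (fun i => φ (w i)) m := by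
  have h2 : φ 2 = 2 := map_ofNat φ 2
  fin_cases m <;> simp [qf, h2]

private theorem rnk_st_map {R S : Type*} [CommRing R] [CommRing S] (φ : R →+* S) (w : Fin 4 → R)
    (m : Fin 4) : φ (st w m) = st (fun i => φ (w i)) m := by
  fin_cases m
  · exact rnk_qf_map φ w 0
  · exact rnk_qf_map φ w 4
  · exact rnk_qf_map φ w 6
  · exact rnk_qf_map φ w 8

private theorem rnk_m6_map {R S : Type*} [CommRing R] [CommRing S] (φ : R →+* S) (ι : R)
    (j : Fin 6) (x y : R) :
    (φ (m6 ι j x y).1 = (m6 (φ ι) j (φ x) (φ y)).1) ∧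
      (φ (m6 ι j x y).2 = (m6 (φ ι) j (φ x) (φ y)).2) := by
  fin_cases j <;> simp [m6]

private theorem rnk_act_map {R S : Type*} [CommRing R] [CommRing S] (φ : R →+* S) (ι : R) (g : GG)
    (w : Fin 4 → R) (m : Fin 4) : φ (act ι g w m) = act (φ ι) g (fun i => φ (w i)) m := by
  rcases g with e | ⟨a, b⟩
  · simp only [act]
    split_ifs <;> simp
  · fin_cases m
    · simp only [act, Fin.zero_eta, Matrix.cons_val_zero]
      rw [(rnk_m6_map φ ι b _ _).1, (rnk_m6_map φ ι a _ _).1, (rnk_m6_map φ ι a _ _).1]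
    · simp only [act, Fin.mk_one, Matrix.cons_val_one, Matrix.cons_val_zero]
      rw [(rnk_m6_map φ ι b _ _).2, (rnk_m6_map φ ι a _ _).1, (rnk_m6_map φ ι a _ _).1]
    · simp only [act, Fin.reduceFinMk, Matrix.cons_val]
      rw [(rnk_m6_map φ ι b _ _).1, (rnk_m6_map φ ι a _ _).2, (rnk_m6_map φ ι a _ _).2]
    · simp only [act, Fin.reduceFinMk, Matrix.cons_val]
      rw [(rnk_m6_map φ ι b _ _).2, (rnk_m6_map φ ι a _ _).2, (rnk_m6_map φ ι a _ _).2]

private theorem rnk_rel_map {R S : Type*} [CommRing R] [CommRing S] (φ : R →+* S) (ι : R) (g : GG)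
    (w : Fin 4 → R) (m : Fin 4) :
    φ (st (act ι g w) m) = st (act (φ ι) g (fun i => φ (w i))) m := by
  rw [rnk_st_map]
  congr 1
  funext i
  exact rnk_act_map φ ι g w i

private theorem rnk_norm {F : Type} [Field F] [NumberField F] (p : ℕ) :
    Algebra.norm ℤ ((p : 𝓞 F)) = (p : ℤ) ^ finrank ℚ F := by
  have h1 : ((p : 𝓞 F)) = algebraMap ℤ (𝓞 F) (p : ℤ) := by simp
  rw [h1, Algebra.norm_algebraMap_of_basis (RingOfIntegers.basis F)]
  congr 1
  rw [← RingOfIntegers.rank F]
  exact (Module.finrank_eq_card_basis (RingOfIntegers.basis F)).symm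

private theorem rnk_not_unit {F : Type} [Field F] [NumberField F] {p : ℕ} (hp : p.Prime) :
    ¬ IsUnit (p : 𝓞 F) := by
  intro h
  have h1 := h.map (Algebra.norm ℤ)
  rw [rnk_norm, isUnit_pow_iff (Module.finrank_pos (R := ℚ) (M := F)).ne',
    Int.isUnit_iff_natAbs_eq, Int.natAbs_natCast] at h1
  exact hp.one_lt.ne' h1

private theorem rnk_two {R : Type} [CommRing R] {p : ℕ} (hp : p.Prime) (hp2 : p ≠ 2) :
    IsCoprime (2 : R) (p : R) := by
  have h1 : Nat.Coprime 2 p := (Nat.coprime_primes Nat.prime_two hp).mpr (Ne.symm hp2)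
  have h2 : IsCoprime ((2 : ℕ) : ℤ) ((p : ℕ) : ℤ) := Nat.isCoprime_iff_coprime.mpr h1
  have h3 := h2.map (Int.castRingHom R)
  simpa using h3

theorem rank_lt {F : Type} [Field F] [NumberField F] {p : ℕ} (hp : p.Prime) (hp2 : p ≠ 2)
    {ι : 𝓞 F} {X : Type} (u : X → Fin 4 → 𝓞 F) (v : X → List GG → Fin 4 → 𝓞 F) {k t : ℕ}
    (hv : ∀ x, Tree ι k (u x) (v x))
    (hc : ∀ x y s b, s.length ≤ k → (p : 𝓞 F) ∣ v x s b - v y s b)
    (hn : ∀ x s b, s ≠ [] → s.length ≤ k → v x s b = 0 ∨ IsCoprime (v x s b) (p : 𝓞 F))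
    {R : ℝ} (hR : ∀ x s b, s.length ≤ k → ∀ τ : F →+* ℂ, ‖τ (v x s b : F)‖ ≤ R)
    (hbig : ((2 * t ^ 4).factorial : ℝ) * R ^ (2 * t ^ 4) < (p : ℝ) ^ (t ^ 5)) :
    RankLt k (2 * t ^ 4) (fun x s b => (v x s b : F)) := by
  intro r x hr
  have ht : t ≠ 0 := by
    rintro rfl
    norm_num at hbig
  have h0 : 0 < 2 * t ^ 4 := by positivity
  obtain ⟨Q, hQ⟩ := det_dvd (π := (p : 𝓞 F)) (t := t)
    (fun y i => u y i - u (x ⟨0, h0⟩) i)
    (fun y i => by
      have h1 := hc y (x ⟨0, h0⟩) [] i (Nat.zero_le k)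
      rw [(hv y).1, (hv (x ⟨0, h0⟩)).1] at h1
      exact h1)
    (fun j y => v y (r j).1 (r j).2) x
    (fun j => approx (rnk_two hp hp2) (rnk_not_unit hp) u v hv (x ⟨0, h0⟩)
      (fun y s b hs => hc y (x ⟨0, h0⟩) s b hs) hn (t ^ 5) (r j).1 (hr j) (r j).2)
  have hdet : Matrix.det (Matrix.of fun i j => ((v (x j) (r i).1 (r i).2 : 𝓞 F) : F)) =
      ((p : F)) ^ (t ^ 5) * (Q : F) := by
    have h1 := congrArg (algebraMap (𝓞 F) F) hQ
    rw [RingHom.map_det, map_mul, map_pow, map_natCast] at h1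
    exact h1
  have hQ0 : Q = 0 := by
    by_contra hQ0
    have hlt : ∀ w : InfinitePlace F, w (Q : F) < 1 := by
      intro w
      have h1 : ‖w.embedding (Matrix.det (Matrix.of fun i j =>
          ((v (x j) (r i).1 (r i).2 : 𝓞 F) : F)))‖ ≤
          ((2 * t ^ 4).factorial : ℝ) * R ^ (2 * t ^ 4) := by
        rw [RingHom.map_det]
        have h2 := Matrix.det_le (abv := (NormedField.toAbsoluteValue ℂ))
          (A := (w.embedding.mapMatrix (Matrix.of fun i j =>
          ((v (x j) (r i).1 (r i).2 : 𝓞 F) : F)))) (x := R)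
          (fun i j => hR (x j) (r i).1 (r i).2 (hr i) w.embedding)
        rw [Fintype.card_fin, nsmul_eq_mul] at h2
        exact h2
      rw [hdet, map_mul, map_pow, map_natCast, norm_mul, norm_pow, Complex.norm_natCast] at h1
      have h3 : (0 : ℝ) < (p : ℝ) ^ (t ^ 5) := by
        have := hp.pos
        positivity
      have h4 : w (Q : F) = ‖w.embedding (Q : F)‖ := (InfinitePlace.norm_embedding_eq w _).symm
      rw [h4]
      by_contra h5
      rw [not_lt] at h5
      have h6 : (p : ℝ) ^ (t ^ 5) ≤ (p : ℝ) ^ (t ^ 5) * ‖w.embedding (Q : F)‖ :=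
        le_mul_of_one_le_right h3.le h5
      linarith
    obtain ⟨w⟩ : Nonempty (InfinitePlace F) := inferInstance
    have h7 : 1 ≤ w (Q : F) := InfinitePlace.one_le_of_lt_one hQ0 (fun z _ => hlt z)
    exact absurd (hlt w) (not_lt.mpr h7)
  change Matrix.det (Matrix.of fun i j => ((v (x j) (r i).1 (r i).2 : 𝓞 F) : F)) = 0
  rw [hdet, hQ0]
  simp

private theorem rnk_card {F : Type} [Field F] [NumberField F] {p : ℕ} (hp : p.Prime) :
    ∃ _ : Finite (𝓞 F ⧸ Ideal.span {(p : 𝓞 F)}),
      Nat.card (𝓞 F ⧸ Ideal.span {(p : 𝓞 F)}) = p ^ finrank ℚ F := by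
  have h1 : Nat.card (𝓞 F ⧸ Ideal.span {(p : 𝓞 F)}) = p ^ finrank ℚ F := by
    have h2 := Ideal.absNorm_span_singleton (p : 𝓞 F)
    rw [rnk_norm, Int.natAbs_pow, Int.natAbs_natCast] at h2
    rw [← h2, Ideal.absNorm_apply]
    rfl
  refine ⟨Nat.finite_of_card_ne_zero ?_, h1⟩
  rw [h1]
  exact pow_ne_zero _ hp.ne_zero

/-- The number of the square roots which are zero or units. -/
private theorem rnk_roots {A : Type} [CommRing A] [Finite A] {p n : ℕ} (hp : p.Prime) (hp2 : p ≠ 2)
    (hcard : Nat.card A = p ^ n) (a : A) :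
    {y : A | y ^ 2 = a ∧ (y = 0 ∨ IsUnit y)}.ncard ≤ 1 + 2 ^ n := by
  classical
  have : Fintype (MaximalSpectrum A) := Fintype.ofFinite _
  have hMS : Nat.card (MaximalSpectrum A) ≤ n := by
    have h1 : p ^ Nat.card (MaximalSpectrum A) ≤ p ^ n := by
      calc p ^ Nat.card (MaximalSpectrum A)
          ≤ ∏ m : MaximalSpectrum A, Nat.card (A ⧸ m.asIdeal) := by
            rw [Nat.card_eq_fintype_card, ← Finset.card_univ, ← Finset.prod_const]
            refine Finset.prod_le_prod' fun m _ => ?_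
            have hm : Nat.card (A ⧸ m.asIdeal) ∣ p ^ n := by
              rw [← hcard]
              exact AddSubgroup.card_quotient_dvd_card (m.asIdeal.toAddSubgroup)
            obtain ⟨i, _, hi⟩ := (Nat.dvd_prime_pow hp).mp hm
            have hne : Nontrivial (A ⧸ m.asIdeal) :=
              Ideal.Quotient.nontrivial_iff.mpr m.isMaximal.ne_top
            have hfin : Finite (A ⧸ m.asIdeal) :=
              Finite.of_surjective _ (Ideal.Quotient.mk_surjective (I := m.asIdeal))
            have h2 : 1 < Nat.card (A ⧸ m.asIdeal) := Finite.one_lt_card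
            rw [hi] at h2 ⊢
            have hi0 : i ≠ 0 := by
              rintro rfl
              simp at h2
            exact Nat.le_self_pow hi0 p
        _ = Nat.card (∀ m : MaximalSpectrum A, A ⧸ m.asIdeal) := Nat.card_pi.symm
        _ = Nat.card (A ⧸ nilradical A) :=
            (Nat.card_congr (IsArtinianRing.quotNilradicalEquivPi A).toEquiv).symm
        _ ≤ Nat.card A :=
            Nat.card_le_card_of_surjective _ (Ideal.Quotient.mk_surjective (I := nilradical A))
        _ = p ^ n := hcard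
    exact (Nat.pow_le_pow_iff_right hp.one_lt).mp h1
  have h2u : IsUnit (2 : A) := by
    have h1 : ((p : ℕ) : A) ^ n = 0 := by
      have h2 : (Nat.card A) • (1 : A) = 0 := card_nsmul_eq_zero'
      rw [hcard, nsmul_eq_mul, mul_one, Nat.cast_pow] at h2
      exact h2
    have h3 : IsCoprime (2 : A) ((p : A) ^ n) := (rnk_two hp hp2).pow_right
    rw [h1, isCoprime_zero_right] at h3
    exact h3
  have hU : {y : A | y ^ 2 = a ∧ IsUnit y}.ncard ≤ 2 ^ n := by
    rcases Set.eq_empty_or_nonempty {y : A | y ^ 2 = a ∧ IsUnit y} with he | ⟨y₀, hy₀⟩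
    · rw [he, Set.ncard_empty]
      exact Nat.zero_le _
    · have h1 : {y : A | y ^ 2 = a ∧ IsUnit y}.ncard ≤
          (Set.univ : Set (Set (MaximalSpectrum A))).ncard := by
        refine Set.ncard_le_ncard_of_injOn (fun y => {m | y - y₀ ∈ m.asIdeal})
          (fun _ _ => Set.mem_univ _) ?_
        intro y hy z hz hyz
        have hmem : ∀ m : MaximalSpectrum A, y - y₀ ∈ m.asIdeal ↔ z - y₀ ∈ m.asIdeal :=
          fun m => Set.ext_iff.mp hyz m
        have halt : ∀ (w : A), w ^ 2 = a → ∀ m : MaximalSpectrum A,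
            w - y₀ ∉ m.asIdeal → w + y₀ ∈ m.asIdeal := by
          intro w hw m hm
          have h2 : (w - y₀) * (w + y₀) ∈ m.asIdeal := by
            have h3 : (w - y₀) * (w + y₀) = 0 := by
              have h4 : (w - y₀) * (w + y₀) = w ^ 2 - y₀ ^ 2 := by ring
              rw [h4, hw, hy₀.1, sub_self]
            rw [h3]
            exact m.asIdeal.zero_mem
          exact (m.isMaximal.isPrime.mem_or_mem h2).resolve_left hm
        have hd : ∀ m : MaximalSpectrum A, y - z ∈ m.asIdeal := by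
          intro m
          by_cases hm : y - y₀ ∈ m.asIdeal
          · have h2 := m.asIdeal.sub_mem hm ((hmem m).mp hm)
            rwa [sub_sub_sub_cancel_right] at h2
          · have h2 := m.asIdeal.sub_mem (halt y hy.1 m hm)
              (halt z hz.1 m (fun h => hm ((hmem m).mpr h)))
            rwa [add_sub_add_right_eq_sub] at h2
        have hs : IsUnit (y + z) := by
          by_contra hs
          obtain ⟨m, hm, hmz⟩ := exists_max_ideal_of_mem_nonunits (show y + z ∈ nonunits A from hs)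
          have h2 := m.add_mem hmz (hd ⟨m, hm⟩)
          have h3 : y + z + (y - z) = 2 * y := by ring
          rw [h3] at h2
          exact hm.ne_top (Ideal.eq_top_of_isUnit_mem m h2 (h2u.mul hy.2))
        have h4 : (y - z) * (y + z) = 0 := by
          have h5 : (y - z) * (y + z) = y ^ 2 - z ^ 2 := by ring
          rw [h5, hy.1, hz.1, sub_self]
        exact sub_eq_zero.mp ((hs.mul_left_eq_zero).mp h4)
      rw [Set.ncard_univ] at h1
      have h2 : Nat.card (Set (MaximalSpectrum A)) = 2 ^ Nat.card (MaximalSpectrum A) := by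
        rw [Nat.card_eq_fintype_card, Nat.card_eq_fintype_card, Fintype.card_set]
      rw [h2] at h1
      exact h1.trans (Nat.pow_le_pow_right (by norm_num) hMS)
  have hsub : {y : A | y ^ 2 = a ∧ (y = 0 ∨ IsUnit y)} ⊆
      {0} ∪ {y : A | y ^ 2 = a ∧ IsUnit y} := by
    rintro y ⟨h1, h2 | h2⟩
    · exact Or.inl h2
    · exact Or.inr ⟨h1, h2⟩
  calc {y : A | y ^ 2 = a ∧ (y = 0 ∨ IsUnit y)}.ncard
      ≤ ({0} ∪ {y : A | y ^ 2 = a ∧ IsUnit y}).ncard := Set.ncard_le_ncard hsub
    _ ≤ ({0} : Set A).ncard + {y : A | y ^ 2 = a ∧ IsUnit y}.ncard := Set.ncard_union_le _ _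
    _ ≤ 1 + 2 ^ n := by
        rw [Set.ncard_singleton]
        exact Nat.add_le_add_left hU 1

/-- A numbering of the square roots. -/
private theorem rnk_idx {A : Type} [CommRing A] [Finite A] {p n D : ℕ} (hp : p.Prime) (hp2 : p ≠ 2)
    (hcard : Nat.card A = p ^ n) (hn : n ≤ D) :
    ∃ idx : A → A → Fin (1 + 2 ^ D), ∀ a y z : A, y ^ 2 = a → z ^ 2 = a →
      (y = 0 ∨ IsUnit y) → (z = 0 ∨ IsUnit z) → idx a y = idx a z → y = z := by
  have h1 : ∀ a : A, ∃ f : A → Fin (1 + 2 ^ D), ∀ y z : A, y ^ 2 = a → z ^ 2 = a →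
      (y = 0 ∨ IsUnit y) → (z = 0 ∨ IsUnit z) → f y = f z → y = z := by
    intro a
    classical
    have h2 : Nat.card {y : A // y ^ 2 = a ∧ (y = 0 ∨ IsUnit y)} ≤ Nat.card (Fin (1 + 2 ^ D)) := by
      rw [Nat.card_fin]
      exact (rnk_roots hp hp2 hcard a).trans
        (Nat.add_le_add_left (Nat.pow_le_pow_right (by norm_num) hn) 1)
    have hft : Fintype {y : A // y ^ 2 = a ∧ (y = 0 ∨ IsUnit y)} := Fintype.ofFinite _
    rw [Nat.card_eq_fintype_card, Nat.card_eq_fintype_card] at h2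
    obtain ⟨e⟩ := Function.Embedding.nonempty_of_card_le h2
    refine ⟨fun y => if h : y ^ 2 = a ∧ (y = 0 ∨ IsUnit y) then e ⟨y, h⟩ else
      ⟨0, by positivity⟩, ?_⟩
    intro y z hy hz hy' hz' hyz
    have h3 : y ^ 2 = a ∧ (y = 0 ∨ IsUnit y) := ⟨hy, hy'⟩
    have h4 : z ^ 2 = a ∧ (z = 0 ∨ IsUnit z) := ⟨hz, hz'⟩
    simp only [h3, h4, dite_true, and_self] at hyz
    exact congrArg Subtype.val (e.injective hyz)
  choose idx hidx using h1
  exact ⟨idx, hidx⟩

theorem classes (k D : ℕ) : ∃ C : ℕ, ∀ (E F : Type) [Field E] [NumberField E] [Field F]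
    [NumberField F] [Algebra E F], finrank ℚ F ≤ D → ∀ p : ℕ, p.Prime → p ≠ 2 →
      ∀ (ι : 𝓞 F) (X : Type) (u : X → Fin 4 → 𝓞 E) (v : X → List GG → Fin 4 → 𝓞 F),
        (∀ x, Tree ι k (fun i => algebraMap (𝓞 E) (𝓞 F) (u x i)) (v x)) →
        (∀ x s b, s ≠ [] → s.length ≤ k → v x s b = 0 ∨ IsCoprime (v x s b) (p : 𝓞 F)) →
        ∃ (α : Type) (_ : Fintype α) (cls : X → α), Fintype.card α ≤ C * p ^ (4 * finrank ℚ E) ∧
          ∀ x y, cls x = cls y → ∀ s b, s.length ≤ k → (p : 𝓞 F) ∣ v x s b - v y s b := by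
  classical
  have : Finite {s : List GG // s.length < k} := (List.finite_length_lt GG k).to_subtype
  refine ⟨Nat.card ({s : List GG // s.length < k} × GG × Fin 4 → Fin (1 + 2 ^ D)), ?_⟩
  intro E F _ _ _ _ _ hD p hp hp2 ι X u v hv hn
  obtain ⟨fE, hcE⟩ := rnk_card (F := E) hp
  obtain ⟨fF, hcF⟩ := rnk_card (F := F) hp
  obtain ⟨idx, hidx⟩ := rnk_idx (D := D) hp hp2 hcF hD
  refine ⟨(Fin 4 → 𝓞 E ⧸ Ideal.span {(p : 𝓞 E)}) ×
    ({s : List GG // s.length < k} × GG × Fin 4 → Fin (1 + 2 ^ D)), Fintype.ofFinite _,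
    fun x => (fun i => Ideal.Quotient.mk _ (u x i), fun q =>
      idx (Ideal.Quotient.mk _ (st (act ι q.2.1 (v x q.1.1)) q.2.2))
        (Ideal.Quotient.mk _ (v x (q.2.1 :: q.1.1) q.2.2))), ?_, ?_⟩
  · rw [← @Nat.card_eq_fintype_card _ (Fintype.ofFinite _), Nat.card_prod, mul_comm]
    refine Nat.mul_le_mul_left _ (le_of_eq ?_)
    rw [Nat.card_fun, hcE, Nat.card_fin, ← pow_mul, mul_comm]
  · intro x y hxy s
    rw [Prod.mk.injEq] at hxy
    have hmk : ∀ a b : 𝓞 F, Ideal.Quotient.mk (Ideal.span {(p : 𝓞 F)}) a =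
        Ideal.Quotient.mk (Ideal.span {(p : 𝓞 F)}) b ↔ (p : 𝓞 F) ∣ a - b := by
      intro a b
      rw [Ideal.Quotient.eq, Ideal.mem_span_singleton]
    have key : s.length ≤ k → ∀ b, Ideal.Quotient.mk (Ideal.span {(p : 𝓞 F)}) (v x s b) =
        Ideal.Quotient.mk (Ideal.span {(p : 𝓞 F)}) (v y s b) := by
      induction s with
      | nil =>
        intro _ b
        rw [(hv x).1, (hv y).1, hmk]
        have h1 := congrFun hxy.1 b
        rw [Ideal.Quotient.eq, Ideal.mem_span_singleton] at h1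
        have h2 := map_dvd (algebraMap (𝓞 E) (𝓞 F)) h1
        rw [map_natCast, map_sub] at h2
        exact h2
      | cons g s ih =>
        intro hs b
        rw [List.length_cons] at hs
        have hs' : s.length < k := hs
        have h1 := congrFun hxy.2 (⟨s, hs'⟩, g, b)
        have h2 : Ideal.Quotient.mk (Ideal.span {(p : 𝓞 F)}) (st (act ι g (v x s)) b) =
            Ideal.Quotient.mk (Ideal.span {(p : 𝓞 F)}) (st (act ι g (v y s)) b) := by
          rw [rnk_rel_map, rnk_rel_map]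
          simp only [ih hs'.le]
        have hu : ∀ z : X, Ideal.Quotient.mk (Ideal.span {(p : 𝓞 F)}) (v z (g :: s) b) = 0 ∨
            IsUnit (Ideal.Quotient.mk (Ideal.span {(p : 𝓞 F)}) (v z (g :: s) b)) := by
          intro z
          rcases hn z (g :: s) b (List.cons_ne_nil _ _) hs with h | ⟨c, d, h⟩
          · left
            rw [h, map_zero]
          · right
            have h3 := congrArg (Ideal.Quotient.mk (Ideal.span {(p : 𝓞 F)})) h
            rw [map_add, map_mul, map_mul, map_one] at h3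
            have h4 : Ideal.Quotient.mk (Ideal.span {(p : 𝓞 F)}) (p : 𝓞 F) = 0 :=
              Ideal.Quotient.eq_zero_iff_mem.mpr (Ideal.mem_span_singleton_self _)
            rw [h4, mul_zero, add_zero] at h3
            exact IsUnit.of_mul_eq_one _ ((mul_comm _ _).trans h3)
        refine hidx _ _ _ ?_ ?_ (hu x) (hu y) (h1.trans ?_)
        · rw [← map_pow, (hv x).2 s hs' g b]
        · rw [← map_pow, (hv y).2 s hs' g b, h2]
        · simp only [h2]
    intro b hs
    exact (hmk _ _).mp (key hs b)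

end FreyG2
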