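import Pool.Agent.Lib.MP_6babc4_nt.G2.Idn

/-!
# Module Spn: from five points of the line to the vector `u`

`α a` (`a : Fin 5`) distinct, `φ a ^ 2 = ∏_(b ≠ a) (α a - α b)` `= f'(α a)`. `Q a b = (α a - α b) / (φ a φ b)`, `Φ` = product of the `φ a`. `qv` are the numbers `Φ Q a b` up to powers of `ι`
(`ι ^ ex a b * qv (ix a b) = Φ Q a b` for `a ≠ b`: 20 cases), `smat` the matrix `4 u_i u_j` that corresponds to `qv` (linear), `spn i₀` its row `i₀`.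

`smat_rank`: `S i j * S k l = S i l * S k j`. PROOF. Follows from the 20 relations between the `qv m`:
(i) the five Pluecker relations `q₀₁ q₂₃ - q₀₂ q₁₃ + q₀₃ q₁₂ = 0` (`Q` has rank two), (ii) `∑_c Q a c Q b c = 0` for all `a, b` (including `a = b`): after division by `φ`'s these
are `∑_c (α a - α c)(α b - α c)/f'(α c) = 0`, where for `a = b` `∑_(c ≠ a) (α c - α a)/∏_(d ≠ a, c) (α c - α d) = 0` (Lagrange, four points), for `a ≠ b` `∑_(c ≠ a,b) 1/∏_(d ≠ a,b,c) (α c - α d) = 0` (three points).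
In terms of `qf` the 20 relations are (checked by computer; indices `0..9`; they hold for `qf u`, and each `2 × 2` minor of `smat` is a combination of them with coefficients `±1, ±1/2 ..`):
`q0 q1 = q2 q3 + q4 q5`, `q0 q2 = q1 q3 + q6 q7`, `q0 q3 = q1 q2 + q8 q9`, `q0 q4 = q1 q5 + q6 q8`, `q0 q5 = q1 q4 + q7 q9 ..` (15 of this type) and `q0² = q1² + q6² + q9²` etc. (5 of the rows).
(Let a computer algebra system find the coefficients; or prove `smat_rank` directly: with `φ a ^ 2` replaced, each entry identity is `ring` after `field_simp`.)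

`spinor`. PROOF. `spn i₀ i * spn i₀ j = S i₀ i₀ * S i j` by `smat_rank`, so `qf (spn i₀) m = 4 S i₀ i₀ qv m`. Some `S i₀ i₀ ≠ 0`: otherwise all `S i j ^ 2 = S i i S j j = 0`, so `qv = 0`, but `qv 0 ≠ 0`. `κ = 4 S i₀ i₀ Φ`.
`lam_rt`. PROOF. `φ a ^ 2 = ∏`: `Q a d Q a e / (Q b d Q b e) = - (α b - α c)/(α a - α c)` for `{a,b,c,d,e} = Fin 5`; `Q = κ' ι ^ ex * qf`.
-/

set_option autoImplicit false

namespace FreyG2

/-- The index of the pair `a, b`. -/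
def ix (a b : Fin 5) : Fin 10 :=
  (![![0, 0, 1, 9, 6], ![0, 0, 8, 2, 5], ![1, 8, 0, 3, 4], ![9, 2, 3, 0, 7], ![6, 5, 4, 7, 0]] a) b

/-- The exponent of `ι` of the pair `a, b`. -/
def ex (a b : Fin 5) : ℕ :=
  (![![0, 0, 1, 1, 1], ![2, 0, 1, 3, 3], ![3, 3, 0, 0, 0], ![3, 1, 2, 0, 2], ![3, 1, 2, 0, 0]] a) b

section

variable {R : Type*} [CommRing R]

/-- The ten numbers `Φ Q a b`, up to powers of `ι`. -/
def qv (ι : R) (α φ : Fin 5 → R) : Fin 10 → R :=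
  ![(α 0 - α 1) * (φ 2 * φ 3 * φ 4), ι ^ 3 * ((α 0 - α 2) * (φ 1 * φ 3 * φ 4)),
    ι * ((α 1 - α 3) * (φ 0 * φ 2 * φ 4)), (α 2 - α 3) * (φ 0 * φ 1 * φ 4),
    (α 2 - α 4) * (φ 0 * φ 1 * φ 3), ι * ((α 1 - α 4) * (φ 0 * φ 2 * φ 3)),
    ι ^ 3 * ((α 0 - α 4) * (φ 1 * φ 2 * φ 3)), ι ^ 2 * ((α 3 - α 4) * (φ 0 * φ 1 * φ 2)),
    ι ^ 3 * ((α 1 - α 2) * (φ 0 * φ 3 * φ 4)), ι ^ 3 * ((α 0 - α 3) * (φ 1 * φ 2 * φ 4))]

/-- The matrix `4 u_i u_j`. -/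
def smat (q : Fin 10 → R) : Fin 4 → Fin 4 → R :=
  ![![q 0 + q 1 + q 2 + q 3, q 4 + q 5, q 6 + q 7, q 8 + q 9],
    ![q 4 + q 5, q 0 + q 1 - q 2 - q 3, q 8 - q 9, q 6 - q 7],
    ![q 6 + q 7, q 8 - q 9, q 0 - q 1 + q 2 - q 3, q 4 - q 5],
    ![q 8 + q 9, q 6 - q 7, q 4 - q 5, q 0 - q 1 - q 2 + q 3]]

/-- The vector `u`. -/
def spn (ι : R) (α φ : Fin 5 → R) (i₀ : Fin 4) : Fin 4 → R := smat (qv ι α φ) i₀

end

private theorem prs4 (P : Fin 4 → Fin 4 → Prop) (h01 : P 0 1) (h02 : P 0 2) (h03 : P 0 3)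
    (h12 : P 1 2) (h13 : P 1 3) (h23 : P 2 3) : ∀ i k : Fin 4, i < k → P i k := by
  intro i k h
  fin_cases i <;> fin_cases k <;> first | assumption | exact absurd h (by decide)

/-- The twenty relations between the ten numbers. -/
structure Rel20 {R : Type*} [CommRing R] (q : Fin 10 → R) : Prop where
  hpl0 : q 3 * q 5 + q 7 * q 8 = q 2 * q 4
  hpl1 : q 1 * q 7 + q 4 * q 9 = q 3 * q 6
  hpl2 : q 0 * q 7 + q 5 * q 9 = q 2 * q 6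
  hpl3 : q 0 * q 4 = q 1 * q 5 + q 6 * q 8
  hpl4 : q 0 * q 3 = q 1 * q 2 + q 8 * q 9
  ho01 : q 1 * q 8 = q 2 * q 9 + q 5 * q 6
  ho02 : q 0 * q 8 = q 3 * q 9 + q 4 * q 6
  ho03 : q 0 * q 2 = q 1 * q 3 + q 6 * q 7
  ho04 : q 0 * q 5 + q 7 * q 9 = q 1 * q 4
  ho12 : q 0 * q 1 = q 2 * q 3 + q 4 * q 5
  ho13 : q 0 * q 9 + q 5 * q 7 = q 3 * q 8
  ho14 : q 0 * q 6 = q 2 * q 7 + q 4 * q 8
  ho23 : q 1 * q 9 + q 4 * q 7 = q 2 * q 8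
  ho24 : q 1 * q 6 = q 3 * q 7 + q 5 * q 8
  ho34 : q 2 * q 5 + q 6 * q 9 = q 3 * q 4
  hs1 : q 0 * q 0 = q 2 * q 2 + q 5 * q 5 + q 8 * q 8
  hs2 : q 1 * q 1 + q 8 * q 8 = q 3 * q 3 + q 4 * q 4
  hs3 : q 2 * q 2 + q 9 * q 9 = q 3 * q 3 + q 7 * q 7
  hs4 : q 5 * q 5 + q 6 * q 6 = q 4 * q 4 + q 7 * q 7
  hs5 : q 6 * q 6 + q 9 * q 9 = q 7 * q 7 + q 8 * q 8

theorem rel20_core {R : Type*} [CommRing R] {ι d01 d02 d03 d04 d12 d13 d14 d23 d24 d34 f0 f1 f2 f3 f4 : R} (hι : ι ^ 2 = -1)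
    (h0 : f0 ^ 2 = (d01 * d02 * d03 * d04))
    (h1 : f1 ^ 2 = (-(d01 * d12 * d13 * d14)))
    (h2 : f2 ^ 2 = (d02 * d12 * d23 * d24))
    (h3 : f3 ^ 2 = (-(d03 * d13 * d23 * d34)))
    (h4 : f4 ^ 2 = (d04 * d14 * d24 * d34))
    (t012 : d02 = d01 + d12)
    (t013 : d03 = d01 + d13)
    (t014 : d04 = d01 + d14)
    (t023 : d03 = d02 + d23)
    (t024 : d04 = d02 + d24)
    (t034 : d04 = d03 + d34)
    (t123 : d13 = d12 + d23)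
    (t124 : d14 = d12 + d24)
    (t134 : d14 = d13 + d34)
    (t234 : d24 = d23 + d34)
    (p0 : d12 * d34 - d13 * d24 + d14 * d23 = 0)
    (p1 : d02 * d34 - d03 * d24 + d04 * d23 = 0)
    (p2 : d01 * d34 - d03 * d14 + d04 * d13 = 0)
    (p3 : d01 * d24 - d02 * d14 + d04 * d12 = 0)
    (p4 : d01 * d23 - d02 * d13 + d03 * d12 = 0)
    (s1 : (-1) * (d01 * (d23 * d24 * d34)) + (-1) * (d12 * (d03 * d04 * d34)) + (1) * (d13 * (d02 * d04 * d24)) + (-1) * (d14 * (d02 * d03 * d23)) = 0)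
    (s2 : (-1) * (d02 * (d13 * d14 * d34)) + (1) * (d12 * (d03 * d04 * d34)) + (1) * (d23 * (d01 * d04 * d14)) + (-1) * (d24 * (d01 * d03 * d13)) = 0)
    (s3 : (1) * (d03 * (d12 * d14 * d24)) + (-1) * (d13 * (d02 * d04 * d24)) + (1) * (d23 * (d01 * d04 * d14)) + (1) * (d34 * (d01 * d02 * d12)) = 0)
    (s4 : (-1) * (d04 * (d12 * d13 * d23)) + (1) * (d14 * (d02 * d03 * d23)) + (-1) * (d24 * (d01 * d03 * d13)) + (1) * (d34 * (d01 * d02 * d12)) = 0)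
    (s5 : (-1) * (d04 * (d12 * d13 * d23)) + (1) * (d03 * (d12 * d14 * d24)) + (1) * (d34 * (d01 * d02 * d12)) + (-1) * (d12 * (d03 * d04 * d34)) = 0)
    : Rel20 ![d01 * (f2 * f3 * f4),
      ι ^ 3 * (d02 * (f1 * f3 * f4)),
      ι * (d13 * (f0 * f2 * f4)),
      d23 * (f0 * f1 * f4),
      d24 * (f0 * f1 * f3),
      ι * (d14 * (f0 * f2 * f3)),
      ι ^ 3 * (d04 * (f1 * f2 * f3)),
      ι ^ 2 * (d34 * (f0 * f1 * f2)),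
      ι ^ 3 * (d12 * (f0 * f3 * f4)),
      ι ^ 3 * (d03 * (f1 * f2 * f4))] where
  hpl0 := by
    show (d23 * (f0 * f1 * f4)) * (ι * (d14 * (f0 * f2 * f3))) + (ι ^ 2 * (d34 * (f0 * f1 * f2))) * (ι ^ 3 * (d12 * (f0 * f3 * f4))) =
      (ι * (d13 * (f0 * f2 * f4))) * (d24 * (f0 * f1 * f3))
    linear_combination (1) * (d34 * (f0 * f1 * f2)) * (d12 * (f0 * f3 * f4)) * ι * ((-1) * ι ^ 0 + ι ^ 2) * hι +
      (1) * ι * (f0 * f1 * f2 * f3 * f4 * f0) * p0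
  hpl1 := by
    show (ι ^ 3 * (d02 * (f1 * f3 * f4))) * (ι ^ 2 * (d34 * (f0 * f1 * f2))) + (d24 * (f0 * f1 * f3)) * (ι ^ 3 * (d03 * (f1 * f2 * f4))) =
      (d23 * (f0 * f1 * f4)) * (ι ^ 3 * (d04 * (f1 * f2 * f3)))
    linear_combination (1) * (d02 * (f1 * f3 * f4)) * (d34 * (f0 * f1 * f2)) * ι * ((-1) * ι ^ 0 + ι ^ 2) * hι +
      (1) * (d24 * (f0 * f1 * f3)) * (d03 * (f1 * f2 * f4)) * ι * (ι ^ 0) * hι +
      (-1) * (d23 * (f0 * f1 * f4)) * (d04 * (f1 * f2 * f3)) * ι * (ι ^ 0) * hι +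
      (1) * ι * (f0 * f1 * f2 * f3 * f4 * f1) * p1
  hpl2 := by
    show (d01 * (f2 * f3 * f4)) * (ι ^ 2 * (d34 * (f0 * f1 * f2))) + (ι * (d14 * (f0 * f2 * f3))) * (ι ^ 3 * (d03 * (f1 * f2 * f4))) =
      (ι * (d13 * (f0 * f2 * f4))) * (ι ^ 3 * (d04 * (f1 * f2 * f3)))
    linear_combination (1) * (d01 * (f2 * f3 * f4)) * (d34 * (f0 * f1 * f2)) * (ι ^ 0) * hι +
      (1) * (d14 * (f0 * f2 * f3)) * (d03 * (f1 * f2 * f4)) * ((-1) * ι ^ 0 + ι ^ 2) * hι +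
      (-1) * (d13 * (f0 * f2 * f4)) * (d04 * (f1 * f2 * f3)) * ((-1) * ι ^ 0 + ι ^ 2) * hι +
      (-1) * (f0 * f1 * f2 * f3 * f4 * f2) * p2
  hpl3 := by
    show (d01 * (f2 * f3 * f4)) * (d24 * (f0 * f1 * f3)) =
      (ι ^ 3 * (d02 * (f1 * f3 * f4))) * (ι * (d14 * (f0 * f2 * f3))) + (ι ^ 3 * (d04 * (f1 * f2 * f3))) * (ι ^ 3 * (d12 * (f0 * f3 * f4)))
    linear_combination (-1) * (d02 * (f1 * f3 * f4)) * (d14 * (f0 * f2 * f3)) * ((-1) * ι ^ 0 + ι ^ 2) * hι +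
      (-1) * (d04 * (f1 * f2 * f3)) * (d12 * (f0 * f3 * f4)) * (ι ^ 0 + (-1) * ι ^ 2 + ι ^ 4) * hι +
      (1) * (f0 * f1 * f2 * f3 * f4 * f3) * p3
  hpl4 := by
    show (d01 * (f2 * f3 * f4)) * (d23 * (f0 * f1 * f4)) =
      (ι ^ 3 * (d02 * (f1 * f3 * f4))) * (ι * (d13 * (f0 * f2 * f4))) + (ι ^ 3 * (d12 * (f0 * f3 * f4))) * (ι ^ 3 * (d03 * (f1 * f2 * f4)))
    linear_combination (-1) * (d02 * (f1 * f3 * f4)) * (d13 * (f0 * f2 * f4)) * ((-1) * ι ^ 0 + ι ^ 2) * hι +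
      (-1) * (d12 * (f0 * f3 * f4)) * (d03 * (f1 * f2 * f4)) * (ι ^ 0 + (-1) * ι ^ 2 + ι ^ 4) * hι +
      (1) * (f0 * f1 * f2 * f3 * f4 * f4) * p4
  ho01 := by
    show (ι ^ 3 * (d02 * (f1 * f3 * f4))) * (ι ^ 3 * (d12 * (f0 * f3 * f4))) =
      (ι * (d13 * (f0 * f2 * f4))) * (ι ^ 3 * (d03 * (f1 * f2 * f4))) + (ι * (d14 * (f0 * f2 * f3))) * (ι ^ 3 * (d04 * (f1 * f2 * f3)))
    linear_combination (1) * (d02 * (f1 * f3 * f4)) * (d12 * (f0 * f3 * f4)) * (ι ^ 0 + (-1) * ι ^ 2 + ι ^ 4) * hι +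
      (-1) * (d13 * (f0 * f2 * f4)) * (d03 * (f1 * f2 * f4)) * ((-1) * ι ^ 0 + ι ^ 2) * hι +
      (-1) * (d14 * (f0 * f2 * f3)) * (d04 * (f1 * f2 * f3)) * ((-1) * ι ^ 0 + ι ^ 2) * hι +
      (-1) * (d02 * d12 * f0 * f1) * (f4 ^ 2 * h3 + (-(d03 * d13 * d23 * d34)) * h4) +
      (-1) * (d03 * d13 * f0 * f1) * (f4 ^ 2 * h2 + (d02 * d12 * d23 * d24) * h4) +
      (-1) * (d04 * d14 * f0 * f1) * (f3 ^ 2 * h2 + (d02 * d12 * d23 * d24) * h3) +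
      (-1) * (f0 * f1) * (d02 * d03 * d04 * d12 * d13 * d14 * (d23 * d24 * d34)) * t234
  ho02 := by
    show (d01 * (f2 * f3 * f4)) * (ι ^ 3 * (d12 * (f0 * f3 * f4))) =
      (d23 * (f0 * f1 * f4)) * (ι ^ 3 * (d03 * (f1 * f2 * f4))) + (d24 * (f0 * f1 * f3)) * (ι ^ 3 * (d04 * (f1 * f2 * f3)))
    linear_combination (1) * (d01 * (f2 * f3 * f4)) * (d12 * (f0 * f3 * f4)) * ι * (ι ^ 0) * hι +
      (-1) * (d23 * (f0 * f1 * f4)) * (d03 * (f1 * f2 * f4)) * ι * (ι ^ 0) * hι +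
      (-1) * (d24 * (f0 * f1 * f3)) * (d04 * (f1 * f2 * f3)) * ι * (ι ^ 0) * hι +
      (-1) * ι * (d01 * d12 * f0 * f2) * (f4 ^ 2 * h3 + (-(d03 * d13 * d23 * d34)) * h4) +
      (1) * ι * (d03 * d23 * f0 * f2) * (f4 ^ 2 * h1 + (-(d01 * d12 * d13 * d14)) * h4) +
      (1) * ι * (d04 * d24 * f0 * f2) * (f3 ^ 2 * h1 + (-(d01 * d12 * d13 * d14)) * h3) +
      (-1) * ι * (f0 * f2) * (d01 * d03 * d04 * d12 * d23 * d24 * (d13 * d14 * d34)) * t134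
  ho03 := by
    show (d01 * (f2 * f3 * f4)) * (ι * (d13 * (f0 * f2 * f4))) =
      (ι ^ 3 * (d02 * (f1 * f3 * f4))) * (d23 * (f0 * f1 * f4)) + (ι ^ 3 * (d04 * (f1 * f2 * f3))) * (ι ^ 2 * (d34 * (f0 * f1 * f2)))
    linear_combination (-1) * (d02 * (f1 * f3 * f4)) * (d23 * (f0 * f1 * f4)) * ι * (ι ^ 0) * hι +
      (-1) * (d04 * (f1 * f2 * f3)) * (d34 * (f0 * f1 * f2)) * ι * ((-1) * ι ^ 0 + ι ^ 2) * hι +
      (1) * ι * (d01 * d13 * f0 * f3) * (f4 ^ 2 * h2 + (d02 * d12 * d23 * d24) * h4) +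
      (1) * ι * (d02 * d23 * f0 * f3) * (f4 ^ 2 * h1 + (-(d01 * d12 * d13 * d14)) * h4) +
      (-1) * ι * (d04 * d34 * f0 * f3) * (f2 ^ 2 * h1 + (-(d01 * d12 * d13 * d14)) * h2) +
      (-1) * ι * (f0 * f3) * (d01 * d02 * d04 * d13 * d23 * d34 * (d12 * d14 * d24)) * t124
  ho04 := by
    show (d01 * (f2 * f3 * f4)) * (ι * (d14 * (f0 * f2 * f3))) + (ι ^ 2 * (d34 * (f0 * f1 * f2))) * (ι ^ 3 * (d03 * (f1 * f2 * f4))) =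
      (ι ^ 3 * (d02 * (f1 * f3 * f4))) * (d24 * (f0 * f1 * f3))
    linear_combination (-1) * (d02 * (f1 * f3 * f4)) * (d24 * (f0 * f1 * f3)) * ι * (ι ^ 0) * hι +
      (1) * (d34 * (f0 * f1 * f2)) * (d03 * (f1 * f2 * f4)) * ι * ((-1) * ι ^ 0 + ι ^ 2) * hι +
      (1) * ι * (d01 * d14 * f0 * f4) * (f3 ^ 2 * h2 + (d02 * d12 * d23 * d24) * h3) +
      (1) * ι * (d02 * d24 * f0 * f4) * (f3 ^ 2 * h1 + (-(d01 * d12 * d13 * d14)) * h3) +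
      (1) * ι * (d03 * d34 * f0 * f4) * (f2 ^ 2 * h1 + (-(d01 * d12 * d13 * d14)) * h2) +
      (1) * ι * (f0 * f4) * (d01 * d02 * d03 * d14 * d24 * d34 * (d12 * d13 * d23)) * t123
  ho12 := by
    show (d01 * (f2 * f3 * f4)) * (ι ^ 3 * (d02 * (f1 * f3 * f4))) =
      (ι * (d13 * (f0 * f2 * f4))) * (d23 * (f0 * f1 * f4)) + (d24 * (f0 * f1 * f3)) * (ι * (d14 * (f0 * f2 * f3)))
    linear_combination (1) * (d01 * (f2 * f3 * f4)) * (d02 * (f1 * f3 * f4)) * ι * (ι ^ 0) * hι +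
      (-1) * ι * (d01 * d02 * f1 * f2) * (f4 ^ 2 * h3 + (-(d03 * d13 * d23 * d34)) * h4) +
      (-1) * ι * (d13 * d23 * f1 * f2) * (f4 ^ 2 * h0 + (d01 * d02 * d03 * d04) * h4) +
      (-1) * ι * (d14 * d24 * f1 * f2) * (f3 ^ 2 * h0 + (d01 * d02 * d03 * d04) * h3) +
      (-1) * ι * (f1 * f2) * (d01 * d13 * d14 * d02 * d23 * d24 * (d03 * d04 * d34)) * t034
  ho13 := by
    show (d01 * (f2 * f3 * f4)) * (ι ^ 3 * (d03 * (f1 * f2 * f4))) + (ι * (d14 * (f0 * f2 * f3))) * (ι ^ 2 * (d34 * (f0 * f1 * f2))) =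
      (d23 * (f0 * f1 * f4)) * (ι ^ 3 * (d12 * (f0 * f3 * f4)))
    linear_combination (1) * (d01 * (f2 * f3 * f4)) * (d03 * (f1 * f2 * f4)) * ι * (ι ^ 0) * hι +
      (-1) * (d23 * (f0 * f1 * f4)) * (d12 * (f0 * f3 * f4)) * ι * (ι ^ 0) * hι +
      (1) * (d14 * (f0 * f2 * f3)) * (d34 * (f0 * f1 * f2)) * ι * (ι ^ 0) * hι +
      (-1) * ι * (d01 * d03 * f1 * f3) * (f4 ^ 2 * h2 + (d02 * d12 * d23 * d24) * h4) +
      (1) * ι * (d12 * d23 * f1 * f3) * (f4 ^ 2 * h0 + (d01 * d02 * d03 * d04) * h4) +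
      (-1) * ι * (d14 * d34 * f1 * f3) * (f2 ^ 2 * h0 + (d01 * d02 * d03 * d04) * h2) +
      (1) * ι * (f1 * f3) * (d01 * d12 * d14 * d03 * d23 * d34 * (d02 * d04 * d24)) * t024
  ho14 := by
    show (d01 * (f2 * f3 * f4)) * (ι ^ 3 * (d04 * (f1 * f2 * f3))) =
      (ι * (d13 * (f0 * f2 * f4))) * (ι ^ 2 * (d34 * (f0 * f1 * f2))) + (d24 * (f0 * f1 * f3)) * (ι ^ 3 * (d12 * (f0 * f3 * f4)))
    linear_combination (1) * (d01 * (f2 * f3 * f4)) * (d04 * (f1 * f2 * f3)) * ι * (ι ^ 0) * hι +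
      (-1) * (d24 * (f0 * f1 * f3)) * (d12 * (f0 * f3 * f4)) * ι * (ι ^ 0) * hι +
      (-1) * (d13 * (f0 * f2 * f4)) * (d34 * (f0 * f1 * f2)) * ι * (ι ^ 0) * hι +
      (-1) * ι * (d01 * d04 * f1 * f4) * (f3 ^ 2 * h2 + (d02 * d12 * d23 * d24) * h3) +
      (1) * ι * (d12 * d24 * f1 * f4) * (f3 ^ 2 * h0 + (d01 * d02 * d03 * d04) * h3) +
      (1) * ι * (d13 * d34 * f1 * f4) * (f2 ^ 2 * h0 + (d01 * d02 * d03 * d04) * h2) +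
      (-1) * ι * (f1 * f4) * (d01 * d12 * d13 * d04 * d24 * d34 * (d02 * d03 * d23)) * t023
  ho23 := by
    show (ι ^ 3 * (d02 * (f1 * f3 * f4))) * (ι ^ 3 * (d03 * (f1 * f2 * f4))) + (d24 * (f0 * f1 * f3)) * (ι ^ 2 * (d34 * (f0 * f1 * f2))) =
      (ι * (d13 * (f0 * f2 * f4))) * (ι ^ 3 * (d12 * (f0 * f3 * f4)))
    linear_combination (1) * (d02 * (f1 * f3 * f4)) * (d03 * (f1 * f2 * f4)) * (ι ^ 0 + (-1) * ι ^ 2 + ι ^ 4) * hι +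
      (-1) * (d13 * (f0 * f2 * f4)) * (d12 * (f0 * f3 * f4)) * ((-1) * ι ^ 0 + ι ^ 2) * hι +
      (1) * (d24 * (f0 * f1 * f3)) * (d34 * (f0 * f1 * f2)) * (ι ^ 0) * hι +
      (-1) * (d02 * d03 * f2 * f3) * (f4 ^ 2 * h1 + (-(d01 * d12 * d13 * d14)) * h4) +
      (-1) * (d12 * d13 * f2 * f3) * (f4 ^ 2 * h0 + (d01 * d02 * d03 * d04) * h4) +
      (-1) * (d24 * d34 * f2 * f3) * (f1 ^ 2 * h0 + (d01 * d02 * d03 * d04) * h1) +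
      (-1) * (f2 * f3) * (d02 * d12 * d24 * d03 * d13 * d34 * (d01 * d04 * d14)) * t014
  ho24 := by
    show (ι ^ 3 * (d02 * (f1 * f3 * f4))) * (ι ^ 3 * (d04 * (f1 * f2 * f3))) =
      (d23 * (f0 * f1 * f4)) * (ι ^ 2 * (d34 * (f0 * f1 * f2))) + (ι * (d14 * (f0 * f2 * f3))) * (ι ^ 3 * (d12 * (f0 * f3 * f4)))
    linear_combination (1) * (d02 * (f1 * f3 * f4)) * (d04 * (f1 * f2 * f3)) * (ι ^ 0 + (-1) * ι ^ 2 + ι ^ 4) * hι +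
      (-1) * (d14 * (f0 * f2 * f3)) * (d12 * (f0 * f3 * f4)) * ((-1) * ι ^ 0 + ι ^ 2) * hι +
      (-1) * (d23 * (f0 * f1 * f4)) * (d34 * (f0 * f1 * f2)) * (ι ^ 0) * hι +
      (-1) * (d02 * d04 * f2 * f4) * (f3 ^ 2 * h1 + (-(d01 * d12 * d13 * d14)) * h3) +
      (-1) * (d12 * d14 * f2 * f4) * (f3 ^ 2 * h0 + (d01 * d02 * d03 * d04) * h3) +
      (1) * (d23 * d34 * f2 * f4) * (f1 ^ 2 * h0 + (d01 * d02 * d03 * d04) * h1) +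
      (1) * (f2 * f4) * (d02 * d12 * d23 * d04 * d14 * d34 * (d01 * d03 * d13)) * t013
  ho34 := by
    show (ι * (d13 * (f0 * f2 * f4))) * (ι * (d14 * (f0 * f2 * f3))) + (ι ^ 3 * (d04 * (f1 * f2 * f3))) * (ι ^ 3 * (d03 * (f1 * f2 * f4))) =
      (d23 * (f0 * f1 * f4)) * (d24 * (f0 * f1 * f3))
    linear_combination (1) * (d04 * (f1 * f2 * f3)) * (d03 * (f1 * f2 * f4)) * (ι ^ 0 + (-1) * ι ^ 2 + ι ^ 4) * hι +
      (1) * (d13 * (f0 * f2 * f4)) * (d14 * (f0 * f2 * f3)) * (ι ^ 0) * hι +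
      (-1) * (d03 * d04 * f3 * f4) * (f2 ^ 2 * h1 + (-(d01 * d12 * d13 * d14)) * h2) +
      (-1) * (d13 * d14 * f3 * f4) * (f2 ^ 2 * h0 + (d01 * d02 * d03 * d04) * h2) +
      (-1) * (d23 * d24 * f3 * f4) * (f1 ^ 2 * h0 + (d01 * d02 * d03 * d04) * h1) +
      (-1) * (f3 * f4) * (d03 * d13 * d23 * d04 * d14 * d24 * (d01 * d02 * d12)) * t012
  hs1 := by
    show (d01 * (f2 * f3 * f4)) * (d01 * (f2 * f3 * f4)) =
      (ι * (d13 * (f0 * f2 * f4))) * (ι * (d13 * (f0 * f2 * f4))) + (ι * (d14 * (f0 * f2 * f3))) * (ι * (d14 * (f0 * f2 * f3))) + (ι ^ 3 * (d12 * (f0 * f3 * f4))) * (ι ^ 3 * (d12 * (f0 * f3 * f4)))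
    linear_combination (-1) * (d12 * (f0 * f3 * f4)) * (d12 * (f0 * f3 * f4)) * (ι ^ 0 + (-1) * ι ^ 2 + ι ^ 4) * hι +
      (-1) * (d13 * (f0 * f2 * f4)) * (d13 * (f0 * f2 * f4)) * (ι ^ 0) * hι +
      (-1) * (d14 * (f0 * f2 * f3)) * (d14 * (f0 * f2 * f3)) * (ι ^ 0) * hι +
      (1) * d01 ^ 2 * (f3 ^ 2 * f4 ^ 2 * h2 + (d02 * d12 * d23 * d24) * f4 ^ 2 * h3 + (d02 * d12 * d23 * d24) * (-(d03 * d13 * d23 * d34)) * h4) +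
      (1) * d12 ^ 2 * (f3 ^ 2 * f4 ^ 2 * h0 + (d01 * d02 * d03 * d04) * f4 ^ 2 * h3 + (d01 * d02 * d03 * d04) * (-(d03 * d13 * d23 * d34)) * h4) +
      (1) * d13 ^ 2 * (f2 ^ 2 * f4 ^ 2 * h0 + (d01 * d02 * d03 * d04) * f4 ^ 2 * h2 + (d01 * d02 * d03 * d04) * (d02 * d12 * d23 * d24) * h4) +
      (1) * d14 ^ 2 * (f2 ^ 2 * f3 ^ 2 * h0 + (d01 * d02 * d03 * d04) * f3 ^ 2 * h2 + (d01 * d02 * d03 * d04) * (d02 * d12 * d23 * d24) * h3) +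
      (d01 * d02 * d03 * d04 * d12 * d13 * d14 * d23 * d24 * d34) * s1
  hs2 := by
    show (ι ^ 3 * (d02 * (f1 * f3 * f4))) * (ι ^ 3 * (d02 * (f1 * f3 * f4))) + (ι ^ 3 * (d12 * (f0 * f3 * f4))) * (ι ^ 3 * (d12 * (f0 * f3 * f4))) =
      (d23 * (f0 * f1 * f4)) * (d23 * (f0 * f1 * f4)) + (d24 * (f0 * f1 * f3)) * (d24 * (f0 * f1 * f3))
    linear_combination (1) * (d02 * (f1 * f3 * f4)) * (d02 * (f1 * f3 * f4)) * (ι ^ 0 + (-1) * ι ^ 2 + ι ^ 4) * hι +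
      (1) * (d12 * (f0 * f3 * f4)) * (d12 * (f0 * f3 * f4)) * (ι ^ 0 + (-1) * ι ^ 2 + ι ^ 4) * hι +
      (-1) * d02 ^ 2 * (f3 ^ 2 * f4 ^ 2 * h1 + (-(d01 * d12 * d13 * d14)) * f4 ^ 2 * h3 + (-(d01 * d12 * d13 * d14)) * (-(d03 * d13 * d23 * d34)) * h4) +
      (-1) * d12 ^ 2 * (f3 ^ 2 * f4 ^ 2 * h0 + (d01 * d02 * d03 * d04) * f4 ^ 2 * h3 + (d01 * d02 * d03 * d04) * (-(d03 * d13 * d23 * d34)) * h4) +
      (-1) * d23 ^ 2 * (f1 ^ 2 * f4 ^ 2 * h0 + (d01 * d02 * d03 * d04) * f4 ^ 2 * h1 + (d01 * d02 * d03 * d04) * (-(d01 * d12 * d13 * d14)) * h4) +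
      (-1) * d24 ^ 2 * (f1 ^ 2 * f3 ^ 2 * h0 + (d01 * d02 * d03 * d04) * f3 ^ 2 * h1 + (d01 * d02 * d03 * d04) * (-(d01 * d12 * d13 * d14)) * h3) +
      (d01 * d02 * d03 * d04 * d12 * d13 * d14 * d23 * d24 * d34) * s2
  hs3 := by
    show (ι * (d13 * (f0 * f2 * f4))) * (ι * (d13 * (f0 * f2 * f4))) + (ι ^ 3 * (d03 * (f1 * f2 * f4))) * (ι ^ 3 * (d03 * (f1 * f2 * f4))) =
      (d23 * (f0 * f1 * f4)) * (d23 * (f0 * f1 * f4)) + (ι ^ 2 * (d34 * (f0 * f1 * f2))) * (ι ^ 2 * (d34 * (f0 * f1 * f2)))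
    linear_combination (1) * (d03 * (f1 * f2 * f4)) * (d03 * (f1 * f2 * f4)) * (ι ^ 0 + (-1) * ι ^ 2 + ι ^ 4) * hι +
      (1) * (d13 * (f0 * f2 * f4)) * (d13 * (f0 * f2 * f4)) * (ι ^ 0) * hι +
      (-1) * (d34 * (f0 * f1 * f2)) * (d34 * (f0 * f1 * f2)) * ((-1) * ι ^ 0 + ι ^ 2) * hι +
      (-1) * d03 ^ 2 * (f2 ^ 2 * f4 ^ 2 * h1 + (-(d01 * d12 * d13 * d14)) * f4 ^ 2 * h2 + (-(d01 * d12 * d13 * d14)) * (d02 * d12 * d23 * d24) * h4) +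
      (-1) * d13 ^ 2 * (f2 ^ 2 * f4 ^ 2 * h0 + (d01 * d02 * d03 * d04) * f4 ^ 2 * h2 + (d01 * d02 * d03 * d04) * (d02 * d12 * d23 * d24) * h4) +
      (-1) * d23 ^ 2 * (f1 ^ 2 * f4 ^ 2 * h0 + (d01 * d02 * d03 * d04) * f4 ^ 2 * h1 + (d01 * d02 * d03 * d04) * (-(d01 * d12 * d13 * d14)) * h4) +
      (-1) * d34 ^ 2 * (f1 ^ 2 * f2 ^ 2 * h0 + (d01 * d02 * d03 * d04) * f2 ^ 2 * h1 + (d01 * d02 * d03 * d04) * (-(d01 * d12 * d13 * d14)) * h2) +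
      (d01 * d02 * d03 * d04 * d12 * d13 * d14 * d23 * d24 * d34) * s3
  hs4 := by
    show (ι * (d14 * (f0 * f2 * f3))) * (ι * (d14 * (f0 * f2 * f3))) + (ι ^ 3 * (d04 * (f1 * f2 * f3))) * (ι ^ 3 * (d04 * (f1 * f2 * f3))) =
      (d24 * (f0 * f1 * f3)) * (d24 * (f0 * f1 * f3)) + (ι ^ 2 * (d34 * (f0 * f1 * f2))) * (ι ^ 2 * (d34 * (f0 * f1 * f2)))
    linear_combination (1) * (d04 * (f1 * f2 * f3)) * (d04 * (f1 * f2 * f3)) * (ι ^ 0 + (-1) * ι ^ 2 + ι ^ 4) * hι +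
      (1) * (d14 * (f0 * f2 * f3)) * (d14 * (f0 * f2 * f3)) * (ι ^ 0) * hι +
      (-1) * (d34 * (f0 * f1 * f2)) * (d34 * (f0 * f1 * f2)) * ((-1) * ι ^ 0 + ι ^ 2) * hι +
      (-1) * d04 ^ 2 * (f2 ^ 2 * f3 ^ 2 * h1 + (-(d01 * d12 * d13 * d14)) * f3 ^ 2 * h2 + (-(d01 * d12 * d13 * d14)) * (d02 * d12 * d23 * d24) * h3) +
      (-1) * d14 ^ 2 * (f2 ^ 2 * f3 ^ 2 * h0 + (d01 * d02 * d03 * d04) * f3 ^ 2 * h2 + (d01 * d02 * d03 * d04) * (d02 * d12 * d23 * d24) * h3) +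
      (-1) * d24 ^ 2 * (f1 ^ 2 * f3 ^ 2 * h0 + (d01 * d02 * d03 * d04) * f3 ^ 2 * h1 + (d01 * d02 * d03 * d04) * (-(d01 * d12 * d13 * d14)) * h3) +
      (-1) * d34 ^ 2 * (f1 ^ 2 * f2 ^ 2 * h0 + (d01 * d02 * d03 * d04) * f2 ^ 2 * h1 + (d01 * d02 * d03 * d04) * (-(d01 * d12 * d13 * d14)) * h2) +
      (d01 * d02 * d03 * d04 * d12 * d13 * d14 * d23 * d24 * d34) * s4
  hs5 := by
    show (ι ^ 3 * (d04 * (f1 * f2 * f3))) * (ι ^ 3 * (d04 * (f1 * f2 * f3))) + (ι ^ 3 * (d03 * (f1 * f2 * f4))) * (ι ^ 3 * (d03 * (f1 * f2 * f4))) =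
      (ι ^ 2 * (d34 * (f0 * f1 * f2))) * (ι ^ 2 * (d34 * (f0 * f1 * f2))) + (ι ^ 3 * (d12 * (f0 * f3 * f4))) * (ι ^ 3 * (d12 * (f0 * f3 * f4)))
    linear_combination (1) * (d04 * (f1 * f2 * f3)) * (d04 * (f1 * f2 * f3)) * (ι ^ 0 + (-1) * ι ^ 2 + ι ^ 4) * hι +
      (1) * (d03 * (f1 * f2 * f4)) * (d03 * (f1 * f2 * f4)) * (ι ^ 0 + (-1) * ι ^ 2 + ι ^ 4) * hι +
      (-1) * (d34 * (f0 * f1 * f2)) * (d34 * (f0 * f1 * f2)) * ((-1) * ι ^ 0 + ι ^ 2) * hι +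
      (-1) * (d12 * (f0 * f3 * f4)) * (d12 * (f0 * f3 * f4)) * (ι ^ 0 + (-1) * ι ^ 2 + ι ^ 4) * hι +
      (-1) * d04 ^ 2 * (f2 ^ 2 * f3 ^ 2 * h1 + (-(d01 * d12 * d13 * d14)) * f3 ^ 2 * h2 + (-(d01 * d12 * d13 * d14)) * (d02 * d12 * d23 * d24) * h3) +
      (-1) * d03 ^ 2 * (f2 ^ 2 * f4 ^ 2 * h1 + (-(d01 * d12 * d13 * d14)) * f4 ^ 2 * h2 + (-(d01 * d12 * d13 * d14)) * (d02 * d12 * d23 * d24) * h4) +
      (-1) * d34 ^ 2 * (f1 ^ 2 * f2 ^ 2 * h0 + (d01 * d02 * d03 * d04) * f2 ^ 2 * h1 + (d01 * d02 * d03 * d04) * (-(d01 * d12 * d13 * d14)) * h2) +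
      (1) * d12 ^ 2 * (f3 ^ 2 * f4 ^ 2 * h0 + (d01 * d02 * d03 * d04) * f4 ^ 2 * h3 + (d01 * d02 * d03 * d04) * (-(d03 * d13 * d23 * d34)) * h4) +
      (d01 * d02 * d03 * d04 * d12 * d13 * d14 * d23 * d24 * d34) * s5

theorem smat_rank_rel {R : Type*} [CommRing R] {q : Fin 10 → R} (h : Rel20 q) :
    ∀ i k : Fin 4, i < k → ∀ j l : Fin 4, j < l →
      smat q i j * smat q k l = smat q i l * smat q k j := by
  refine prs4 _ ?_ ?_ ?_ ?_ ?_ ?_ <;> refine prs4 _ ?_ ?_ ?_ ?_ ?_ ?_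
  · show (q 0 + q 1 + q 2 + q 3) * (q 0 + q 1 - q 2 - q 3) = (q 4 + q 5) * (q 4 + q 5)
    linear_combination (2) * h.ho12 + (1) * h.hs1 + (1) * h.hs2
  · show (q 0 + q 1 + q 2 + q 3) * (q 8 - q 9) = (q 6 + q 7) * (q 4 + q 5)
    linear_combination (1) * h.ho01 + (1) * h.ho02 + (-1) * h.ho13 + (-1) * h.ho23
  · show (q 0 + q 1 + q 2 + q 3) * (q 6 - q 7) = (q 8 + q 9) * (q 4 + q 5)
    linear_combination (-1) * h.hpl1 + (-1) * h.hpl2 + (1) * h.ho14 + (1) * h.ho24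
  · show (q 4 + q 5) * (q 8 - q 9) = (q 6 + q 7) * (q 0 + q 1 - q 2 - q 3)
    linear_combination (-1) * h.hpl1 + (-1) * h.hpl2 + (-1) * h.ho14 + (-1) * h.ho24
  · show (q 4 + q 5) * (q 6 - q 7) = (q 8 + q 9) * (q 0 + q 1 - q 2 - q 3)
    linear_combination (-1) * h.ho01 + (-1) * h.ho02 + (-1) * h.ho13 + (-1) * h.ho23
  · show (q 6 + q 7) * (q 6 - q 7) = (q 8 + q 9) * (q 8 - q 9)
    linear_combination (1) * h.hs5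
  · show (q 0 + q 1 + q 2 + q 3) * (q 8 - q 9) = (q 4 + q 5) * (q 6 + q 7)
    linear_combination (1) * h.ho01 + (1) * h.ho02 + (-1) * h.ho13 + (-1) * h.ho23
  · show (q 0 + q 1 + q 2 + q 3) * (q 0 - q 1 + q 2 - q 3) = (q 6 + q 7) * (q 6 + q 7)
    linear_combination (2) * h.ho03 + (1) * h.hs1 + (-1) * h.hs2 + (2) * h.hs3 + (1) * h.hs4 + (-2) * h.hs5
  · show (q 0 + q 1 + q 2 + q 3) * (q 4 - q 5) = (q 8 + q 9) * (q 6 + q 7)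
    linear_combination (-1) * h.hpl0 + (1) * h.hpl3 + (-1) * h.ho04 + (-1) * h.ho34
  · show (q 4 + q 5) * (q 0 - q 1 + q 2 - q 3) = (q 6 + q 7) * (q 8 - q 9)
    linear_combination (-1) * h.hpl0 + (1) * h.hpl3 + (1) * h.ho04 + (1) * h.ho34
  · show (q 4 + q 5) * (q 4 - q 5) = (q 8 + q 9) * (q 8 - q 9)
    linear_combination (-1) * h.hs4 + (1) * h.hs5
  · show (q 6 + q 7) * (q 4 - q 5) = (q 8 + q 9) * (q 0 - q 1 + q 2 - q 3)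
    linear_combination (1) * h.ho01 + (-1) * h.ho02 + (-1) * h.ho13 + (1) * h.ho23
  · show (q 0 + q 1 + q 2 + q 3) * (q 6 - q 7) = (q 4 + q 5) * (q 8 + q 9)
    linear_combination (-1) * h.hpl1 + (-1) * h.hpl2 + (1) * h.ho14 + (1) * h.ho24
  · show (q 0 + q 1 + q 2 + q 3) * (q 4 - q 5) = (q 6 + q 7) * (q 8 + q 9)
    linear_combination (-1) * h.hpl0 + (1) * h.hpl3 + (-1) * h.ho04 + (-1) * h.ho34
  · show (q 0 + q 1 + q 2 + q 3) * (q 0 - q 1 - q 2 + q 3) = (q 8 + q 9) * (q 8 + q 9)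
    linear_combination (2) * h.hpl4 + (1) * h.hs1 + (-1) * h.hs2 + (1) * h.hs4 + (-1) * h.hs5
  · show (q 4 + q 5) * (q 4 - q 5) = (q 6 + q 7) * (q 6 - q 7)
    linear_combination (-1) * h.hs4
  · show (q 4 + q 5) * (q 0 - q 1 - q 2 + q 3) = (q 8 + q 9) * (q 6 - q 7)
    linear_combination (1) * h.hpl0 + (1) * h.hpl3 + (1) * h.ho04 + (-1) * h.ho34
  · show (q 6 + q 7) * (q 0 - q 1 - q 2 + q 3) = (q 8 + q 9) * (q 4 - q 5)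
    linear_combination (-1) * h.hpl1 + (1) * h.hpl2 + (1) * h.ho14 + (-1) * h.ho24
  · show (q 4 + q 5) * (q 8 - q 9) = (q 0 + q 1 - q 2 - q 3) * (q 6 + q 7)
    linear_combination (-1) * h.hpl1 + (-1) * h.hpl2 + (-1) * h.ho14 + (-1) * h.ho24
  · show (q 4 + q 5) * (q 0 - q 1 + q 2 - q 3) = (q 8 - q 9) * (q 6 + q 7)
    linear_combination (-1) * h.hpl0 + (1) * h.hpl3 + (1) * h.ho04 + (1) * h.ho34
  · show (q 4 + q 5) * (q 4 - q 5) = (q 6 - q 7) * (q 6 + q 7)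
    linear_combination (-1) * h.hs4
  · show (q 0 + q 1 - q 2 - q 3) * (q 0 - q 1 + q 2 - q 3) = (q 8 - q 9) * (q 8 - q 9)
    linear_combination (-2) * h.hpl4 + (1) * h.hs1 + (-1) * h.hs2 + (1) * h.hs4 + (-1) * h.hs5
  · show (q 0 + q 1 - q 2 - q 3) * (q 4 - q 5) = (q 6 - q 7) * (q 8 - q 9)
    linear_combination (1) * h.hpl0 + (1) * h.hpl3 + (-1) * h.ho04 + (1) * h.ho34
  · show (q 8 - q 9) * (q 4 - q 5) = (q 6 - q 7) * (q 0 - q 1 + q 2 - q 3)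
    linear_combination (-1) * h.hpl1 + (1) * h.hpl2 + (-1) * h.ho14 + (1) * h.ho24
  · show (q 4 + q 5) * (q 6 - q 7) = (q 0 + q 1 - q 2 - q 3) * (q 8 + q 9)
    linear_combination (-1) * h.ho01 + (-1) * h.ho02 + (-1) * h.ho13 + (-1) * h.ho23
  · show (q 4 + q 5) * (q 4 - q 5) = (q 8 - q 9) * (q 8 + q 9)
    linear_combination (-1) * h.hs4 + (1) * h.hs5
  · show (q 4 + q 5) * (q 0 - q 1 - q 2 + q 3) = (q 6 - q 7) * (q 8 + q 9)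
    linear_combination (1) * h.hpl0 + (1) * h.hpl3 + (1) * h.ho04 + (-1) * h.ho34
  · show (q 0 + q 1 - q 2 - q 3) * (q 4 - q 5) = (q 8 - q 9) * (q 6 - q 7)
    linear_combination (1) * h.hpl0 + (1) * h.hpl3 + (-1) * h.ho04 + (1) * h.ho34
  · show (q 0 + q 1 - q 2 - q 3) * (q 0 - q 1 - q 2 + q 3) = (q 6 - q 7) * (q 6 - q 7)
    linear_combination (-2) * h.ho03 + (1) * h.hs1 + (-1) * h.hs2 + (2) * h.hs3 + (1) * h.hs4 + (-2) * h.hs5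
  · show (q 8 - q 9) * (q 0 - q 1 - q 2 + q 3) = (q 6 - q 7) * (q 4 - q 5)
    linear_combination (-1) * h.ho01 + (1) * h.ho02 + (-1) * h.ho13 + (1) * h.ho23
  · show (q 6 + q 7) * (q 6 - q 7) = (q 8 - q 9) * (q 8 + q 9)
    linear_combination (1) * h.hs5
  · show (q 6 + q 7) * (q 4 - q 5) = (q 0 - q 1 + q 2 - q 3) * (q 8 + q 9)
    linear_combination (1) * h.ho01 + (-1) * h.ho02 + (-1) * h.ho13 + (1) * h.ho23
  · show (q 6 + q 7) * (q 0 - q 1 - q 2 + q 3) = (q 4 - q 5) * (q 8 + q 9)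
    linear_combination (-1) * h.hpl1 + (1) * h.hpl2 + (1) * h.ho14 + (-1) * h.ho24
  · show (q 8 - q 9) * (q 4 - q 5) = (q 0 - q 1 + q 2 - q 3) * (q 6 - q 7)
    linear_combination (-1) * h.hpl1 + (1) * h.hpl2 + (-1) * h.ho14 + (1) * h.ho24
  · show (q 8 - q 9) * (q 0 - q 1 - q 2 + q 3) = (q 4 - q 5) * (q 6 - q 7)
    linear_combination (-1) * h.ho01 + (1) * h.ho02 + (-1) * h.ho13 + (1) * h.ho23
  · show (q 0 - q 1 + q 2 - q 3) * (q 0 - q 1 - q 2 + q 3) = (q 4 - q 5) * (q 4 - q 5)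
    linear_combination (-2) * h.ho12 + (1) * h.hs1 + (1) * h.hs2

variable {E : Type} [Field E]

private theorem prod_e {α φ : Fin 5 → E} (hφ : ∀ a, φ a ^ 2 = ∏ b ∈ Finset.univ.erase a, (α a - α b))
    {a b c d e : Fin 5} (h : (Finset.univ : Finset (Fin 5)).erase a = {b, c, d, e} ∧ b ≠ c ∧
      b ≠ d ∧ b ≠ e ∧ c ≠ d ∧ c ≠ e ∧ d ≠ e) :
    φ a ^ 2 = (α a - α b) * ((α a - α c) * ((α a - α d) * (α a - α e))) := by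
  obtain ⟨h, hbc, hbd, hbe, hcd, hce, hde⟩ := h
  rw [hφ a, h, Finset.prod_insert (by simp [hbc, hbd, hbe]),
    Finset.prod_insert (by simp [hcd, hce]), Finset.prod_insert (by simp [hde]),
    Finset.prod_singleton]

theorem rel20_qv {ι : E} (hι : ι ^ 2 = -1) {α φ : Fin 5 → E}
    (hφ : ∀ a, φ a ^ 2 = ∏ b ∈ Finset.univ.erase a, (α a - α b)) : Rel20 (qv ι α φ) := by
  have h0 := prod_e hφ (a := 0) (b := 1) (c := 2) (d := 3) (e := 4) (by decide)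
  have h1 := prod_e hφ (a := 1) (b := 0) (c := 2) (d := 3) (e := 4) (by decide)
  have h2 := prod_e hφ (a := 2) (b := 0) (c := 1) (d := 3) (e := 4) (by decide)
  have h3 := prod_e hφ (a := 3) (b := 0) (c := 1) (d := 2) (e := 4) (by decide)
  have h4 := prod_e hφ (a := 4) (b := 0) (c := 1) (d := 2) (e := 3) (by decide)
  refine rel20_core (d01 := α 0 - α 1) (d02 := α 0 - α 2) (d03 := α 0 - α 3) (d04 := α 0 - α 4)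
    (d12 := α 1 - α 2) (d13 := α 1 - α 3) (d14 := α 1 - α 4) (d23 := α 2 - α 3)
    (d24 := α 2 - α 4) (d34 := α 3 - α 4) (f0 := φ 0) (f1 := φ 1) (f2 := φ 2) (f3 := φ 3)
    (f4 := φ 4) hι ?_ ?_ ?_ ?_ ?_ ?_ ?_ ?_ ?_ ?_ ?_ ?_ ?_ ?_ ?_ ?_ ?_ ?_ ?_ ?_ ?_ ?_ ?_ ?_ ?_
  · linear_combination h0
  · linear_combination h1
  · linear_combination h2
  · linear_combination h3
  · linear_combination h4
  all_goals ring

theorem smat_symm {R : Type*} [CommRing R] (q : Fin 10 → R) : ∀ i j, smat q i j = smat q j i := by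
  intro i j
  fin_cases i <;> fin_cases j <;> rfl

theorem smat_rank {ι : E} (hι : ι ^ 2 = -1) {α φ : Fin 5 → E} (hα : Function.Injective α)
    (hφ : ∀ a, φ a ^ 2 = ∏ b ∈ Finset.univ.erase a, (α a - α b)) (i j k l : Fin 4) :
    smat (qv ι α φ) i j * smat (qv ι α φ) k l = smat (qv ι α φ) i l * smat (qv ι α φ) k j := by
  have h := smat_rank_rel (rel20_qv hι hφ)
  rcases lt_trichotomy i k with hik | rfl | hik
  · rcases lt_trichotomy j l with hjl | rfl | hjl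
    · exact h i k hik j l hjl
    · rfl
    · exact (h i k hik l j hjl).symm
  · exact mul_comm _ _
  · rcases lt_trichotomy j l with hjl | rfl | hjl
    · rw [mul_comm, ← h k i hik j l hjl, mul_comm]
    · rfl
    · rw [mul_comm, h k i hik l j hjl, mul_comm]

private theorem pairs5 (P : Fin 5 → Fin 5 → Prop)
    (h01 : P 0 1) (h02 : P 0 2) (h03 : P 0 3) (h04 : P 0 4)
    (h10 : P 1 0) (h12 : P 1 2) (h13 : P 1 3) (h14 : P 1 4)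
    (h20 : P 2 0) (h21 : P 2 1) (h23 : P 2 3) (h24 : P 2 4)
    (h30 : P 3 0) (h31 : P 3 1) (h32 : P 3 2) (h34 : P 3 4)
    (h40 : P 4 0) (h41 : P 4 1) (h42 : P 4 2) (h43 : P 4 3) :
    ∀ a b : Fin 5, a ≠ b → P a b := by
  intro a b h
  fin_cases a <;> fin_cases b <;> first | assumption | exact absurd rfl h

private theorem m10 (P : Fin 10 → Prop) (h0 : P 0) (h1 : P 1) (h2 : P 2) (h3 : P 3) (h4 : P 4)
    (h5 : P 5) (h6 : P 6) (h7 : P 7) (h8 : P 8) (h9 : P 9) : ∀ m, P m := by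
  intro m
  fin_cases m
  exacts [h0, h1, h2, h3, h4, h5, h6, h7, h8, h9]

theorem qf_row {R : Type*} [CommRing R] {q : Fin 10 → R} {u : Fin 4 → R} {s : R}
    (h : ∀ i j, u i * u j = s * smat q i j) : ∀ m, qf u m = 4 * s * q m := by
  have h00 : u 0 * u 0 = s * (q 0 + q 1 + q 2 + q 3) := h 0 0
  have h11 : u 1 * u 1 = s * (q 0 + q 1 - q 2 - q 3) := h 1 1
  have h22 : u 2 * u 2 = s * (q 0 - q 1 + q 2 - q 3) := h 2 2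
  have h33 : u 3 * u 3 = s * (q 0 - q 1 - q 2 + q 3) := h 3 3
  have h01 : u 0 * u 1 = s * (q 4 + q 5) := h 0 1
  have h23 : u 2 * u 3 = s * (q 4 - q 5) := h 2 3
  have h02 : u 0 * u 2 = s * (q 6 + q 7) := h 0 2
  have h13 : u 1 * u 3 = s * (q 6 - q 7) := h 1 3
  have h03 : u 0 * u 3 = s * (q 8 + q 9) := h 0 3
  have h12 : u 1 * u 2 = s * (q 8 - q 9) := h 1 2
  refine m10 _ ?_ ?_ ?_ ?_ ?_ ?_ ?_ ?_ ?_ ?_
  · show u 0 ^ 2 + u 1 ^ 2 + u 2 ^ 2 + u 3 ^ 2 = _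
    linear_combination h00 + h11 + h22 + h33
  · show u 0 ^ 2 + u 1 ^ 2 - u 2 ^ 2 - u 3 ^ 2 = _
    linear_combination h00 + h11 - h22 - h33
  · show u 0 ^ 2 - u 1 ^ 2 + u 2 ^ 2 - u 3 ^ 2 = _
    linear_combination h00 - h11 + h22 - h33
  · show u 0 ^ 2 - u 1 ^ 2 - u 2 ^ 2 + u 3 ^ 2 = _
    linear_combination h00 - h11 - h22 + h33
  · show 2 * (u 0 * u 1 + u 2 * u 3) = _
    linear_combination 2 * h01 + 2 * h23
  · show 2 * (u 0 * u 1 - u 2 * u 3) = _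
    linear_combination 2 * h01 - 2 * h23
  · show 2 * (u 0 * u 2 + u 1 * u 3) = _
    linear_combination 2 * h02 + 2 * h13
  · show 2 * (u 0 * u 2 - u 1 * u 3) = _
    linear_combination 2 * h02 - 2 * h13
  · show 2 * (u 0 * u 3 + u 1 * u 2) = _
    linear_combination 2 * h03 + 2 * h12
  · show 2 * (u 0 * u 3 - u 1 * u 2) = _
    linear_combination 2 * h03 - 2 * h12

theorem qv_ix {ι : E} (hι : ι ^ 2 = -1) {α φ : Fin 5 → E} (h0 : ∀ a, φ a ≠ 0) :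
    ∀ a b : Fin 5, a ≠ b → ι ^ ex a b * qv ι α φ (ix a b) =
      (φ 0 * φ 1 * φ 2 * φ 3 * φ 4) * ((α a - α b) / (φ a * φ b)) := by
  have g0 := h0 0
  have g1 := h0 1
  have g2 := h0 2
  have g3 := h0 3
  have g4 := h0 4
  have i4 : ι ^ 4 = 1 := by linear_combination (ι ^ 2 - 1) * hι
  refine pairs5 _ ?_ ?_ ?_ ?_ ?_ ?_ ?_ ?_ ?_ ?_ ?_ ?_ ?_ ?_ ?_ ?_ ?_ ?_ ?_ ?_
  · show ι ^ 0 * ((α 0 - α 1) * (φ 2 * φ 3 * φ 4)) = (φ 0 * φ 1 * φ 2 * φ 3 * φ 4) * ((α 0 - α 1) / (φ 0 * φ 1))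
    have e : (φ 0 * φ 1 * φ 2 * φ 3 * φ 4) * ((α 0 - α 1) / (φ 0 * φ 1)) = (α 0 - α 1) * (φ 2 * φ 3 * φ 4) := by field_simp
    rw [e]
    linear_combination (α 0 - α 1) * (φ 2 * φ 3 * φ 4) * 0 * hι
  · show ι ^ 1 * (ι ^ 3 * ((α 0 - α 2) * (φ 1 * φ 3 * φ 4))) = (φ 0 * φ 1 * φ 2 * φ 3 * φ 4) * ((α 0 - α 2) / (φ 0 * φ 2))
    have e : (φ 0 * φ 1 * φ 2 * φ 3 * φ 4) * ((α 0 - α 2) / (φ 0 * φ 2)) = (α 0 - α 2) * (φ 1 * φ 3 * φ 4) := by field_simp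
    rw [e]
    linear_combination (α 0 - α 2) * (φ 1 * φ 3 * φ 4) * ((-1) * ι ^ 0 + ι ^ 2) * hι
  · show ι ^ 1 * (ι ^ 3 * ((α 0 - α 3) * (φ 1 * φ 2 * φ 4))) = (φ 0 * φ 1 * φ 2 * φ 3 * φ 4) * ((α 0 - α 3) / (φ 0 * φ 3))
    have e : (φ 0 * φ 1 * φ 2 * φ 3 * φ 4) * ((α 0 - α 3) / (φ 0 * φ 3)) = (α 0 - α 3) * (φ 1 * φ 2 * φ 4) := by field_simp
    rw [e]
    linear_combination (α 0 - α 3) * (φ 1 * φ 2 * φ 4) * ((-1) * ι ^ 0 + ι ^ 2) * hι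
  · show ι ^ 1 * (ι ^ 3 * ((α 0 - α 4) * (φ 1 * φ 2 * φ 3))) = (φ 0 * φ 1 * φ 2 * φ 3 * φ 4) * ((α 0 - α 4) / (φ 0 * φ 4))
    have e : (φ 0 * φ 1 * φ 2 * φ 3 * φ 4) * ((α 0 - α 4) / (φ 0 * φ 4)) = (α 0 - α 4) * (φ 1 * φ 2 * φ 3) := by field_simp
    rw [e]
    linear_combination (α 0 - α 4) * (φ 1 * φ 2 * φ 3) * ((-1) * ι ^ 0 + ι ^ 2) * hι
  · show ι ^ 2 * ((α 0 - α 1) * (φ 2 * φ 3 * φ 4)) = (φ 0 * φ 1 * φ 2 * φ 3 * φ 4) * ((α 1 - α 0) / (φ 1 * φ 0))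
    have e : (φ 0 * φ 1 * φ 2 * φ 3 * φ 4) * ((α 1 - α 0) / (φ 1 * φ 0)) = (α 1 - α 0) * (φ 2 * φ 3 * φ 4) := by field_simp
    rw [e]
    linear_combination (α 0 - α 1) * (φ 2 * φ 3 * φ 4) * (ι ^ 0) * hι
  · show ι ^ 1 * (ι ^ 3 * ((α 1 - α 2) * (φ 0 * φ 3 * φ 4))) = (φ 0 * φ 1 * φ 2 * φ 3 * φ 4) * ((α 1 - α 2) / (φ 1 * φ 2))
    have e : (φ 0 * φ 1 * φ 2 * φ 3 * φ 4) * ((α 1 - α 2) / (φ 1 * φ 2)) = (α 1 - α 2) * (φ 0 * φ 3 * φ 4) := by field_simp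
    rw [e]
    linear_combination (α 1 - α 2) * (φ 0 * φ 3 * φ 4) * ((-1) * ι ^ 0 + ι ^ 2) * hι
  · show ι ^ 3 * (ι * ((α 1 - α 3) * (φ 0 * φ 2 * φ 4))) = (φ 0 * φ 1 * φ 2 * φ 3 * φ 4) * ((α 1 - α 3) / (φ 1 * φ 3))
    have e : (φ 0 * φ 1 * φ 2 * φ 3 * φ 4) * ((α 1 - α 3) / (φ 1 * φ 3)) = (α 1 - α 3) * (φ 0 * φ 2 * φ 4) := by field_simp
    rw [e]
    linear_combination (α 1 - α 3) * (φ 0 * φ 2 * φ 4) * ((-1) * ι ^ 0 + ι ^ 2) * hι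
  · show ι ^ 3 * (ι * ((α 1 - α 4) * (φ 0 * φ 2 * φ 3))) = (φ 0 * φ 1 * φ 2 * φ 3 * φ 4) * ((α 1 - α 4) / (φ 1 * φ 4))
    have e : (φ 0 * φ 1 * φ 2 * φ 3 * φ 4) * ((α 1 - α 4) / (φ 1 * φ 4)) = (α 1 - α 4) * (φ 0 * φ 2 * φ 3) := by field_simp
    rw [e]
    linear_combination (α 1 - α 4) * (φ 0 * φ 2 * φ 3) * ((-1) * ι ^ 0 + ι ^ 2) * hι
  · show ι ^ 3 * (ι ^ 3 * ((α 0 - α 2) * (φ 1 * φ 3 * φ 4))) = (φ 0 * φ 1 * φ 2 * φ 3 * φ 4) * ((α 2 - α 0) / (φ 2 * φ 0))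
    have e : (φ 0 * φ 1 * φ 2 * φ 3 * φ 4) * ((α 2 - α 0) / (φ 2 * φ 0)) = (α 2 - α 0) * (φ 1 * φ 3 * φ 4) := by field_simp
    rw [e]
    linear_combination (α 0 - α 2) * (φ 1 * φ 3 * φ 4) * (ι ^ 0 + (-1) * ι ^ 2 + ι ^ 4) * hι
  · show ι ^ 3 * (ι ^ 3 * ((α 1 - α 2) * (φ 0 * φ 3 * φ 4))) = (φ 0 * φ 1 * φ 2 * φ 3 * φ 4) * ((α 2 - α 1) / (φ 2 * φ 1))
    have e : (φ 0 * φ 1 * φ 2 * φ 3 * φ 4) * ((α 2 - α 1) / (φ 2 * φ 1)) = (α 2 - α 1) * (φ 0 * φ 3 * φ 4) := by field_simp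
    rw [e]
    linear_combination (α 1 - α 2) * (φ 0 * φ 3 * φ 4) * (ι ^ 0 + (-1) * ι ^ 2 + ι ^ 4) * hι
  · show ι ^ 0 * ((α 2 - α 3) * (φ 0 * φ 1 * φ 4)) = (φ 0 * φ 1 * φ 2 * φ 3 * φ 4) * ((α 2 - α 3) / (φ 2 * φ 3))
    have e : (φ 0 * φ 1 * φ 2 * φ 3 * φ 4) * ((α 2 - α 3) / (φ 2 * φ 3)) = (α 2 - α 3) * (φ 0 * φ 1 * φ 4) := by field_simp
    rw [e]
    linear_combination (α 2 - α 3) * (φ 0 * φ 1 * φ 4) * 0 * hι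
  · show ι ^ 0 * ((α 2 - α 4) * (φ 0 * φ 1 * φ 3)) = (φ 0 * φ 1 * φ 2 * φ 3 * φ 4) * ((α 2 - α 4) / (φ 2 * φ 4))
    have e : (φ 0 * φ 1 * φ 2 * φ 3 * φ 4) * ((α 2 - α 4) / (φ 2 * φ 4)) = (α 2 - α 4) * (φ 0 * φ 1 * φ 3) := by field_simp
    rw [e]
    linear_combination (α 2 - α 4) * (φ 0 * φ 1 * φ 3) * 0 * hι
  · show ι ^ 3 * (ι ^ 3 * ((α 0 - α 3) * (φ 1 * φ 2 * φ 4))) = (φ 0 * φ 1 * φ 2 * φ 3 * φ 4) * ((α 3 - α 0) / (φ 3 * φ 0))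
    have e : (φ 0 * φ 1 * φ 2 * φ 3 * φ 4) * ((α 3 - α 0) / (φ 3 * φ 0)) = (α 3 - α 0) * (φ 1 * φ 2 * φ 4) := by field_simp
    rw [e]
    linear_combination (α 0 - α 3) * (φ 1 * φ 2 * φ 4) * (ι ^ 0 + (-1) * ι ^ 2 + ι ^ 4) * hι
  · show ι ^ 1 * (ι * ((α 1 - α 3) * (φ 0 * φ 2 * φ 4))) = (φ 0 * φ 1 * φ 2 * φ 3 * φ 4) * ((α 3 - α 1) / (φ 3 * φ 1))
    have e : (φ 0 * φ 1 * φ 2 * φ 3 * φ 4) * ((α 3 - α 1) / (φ 3 * φ 1)) = (α 3 - α 1) * (φ 0 * φ 2 * φ 4) := by field_simp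
    rw [e]
    linear_combination (α 1 - α 3) * (φ 0 * φ 2 * φ 4) * (ι ^ 0) * hι
  · show ι ^ 2 * ((α 2 - α 3) * (φ 0 * φ 1 * φ 4)) = (φ 0 * φ 1 * φ 2 * φ 3 * φ 4) * ((α 3 - α 2) / (φ 3 * φ 2))
    have e : (φ 0 * φ 1 * φ 2 * φ 3 * φ 4) * ((α 3 - α 2) / (φ 3 * φ 2)) = (α 3 - α 2) * (φ 0 * φ 1 * φ 4) := by field_simp
    rw [e]
    linear_combination (α 2 - α 3) * (φ 0 * φ 1 * φ 4) * (ι ^ 0) * hι
  · show ι ^ 2 * (ι ^ 2 * ((α 3 - α 4) * (φ 0 * φ 1 * φ 2))) = (φ 0 * φ 1 * φ 2 * φ 3 * φ 4) * ((α 3 - α 4) / (φ 3 * φ 4))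
    have e : (φ 0 * φ 1 * φ 2 * φ 3 * φ 4) * ((α 3 - α 4) / (φ 3 * φ 4)) = (α 3 - α 4) * (φ 0 * φ 1 * φ 2) := by field_simp
    rw [e]
    linear_combination (α 3 - α 4) * (φ 0 * φ 1 * φ 2) * ((-1) * ι ^ 0 + ι ^ 2) * hι
  · show ι ^ 3 * (ι ^ 3 * ((α 0 - α 4) * (φ 1 * φ 2 * φ 3))) = (φ 0 * φ 1 * φ 2 * φ 3 * φ 4) * ((α 4 - α 0) / (φ 4 * φ 0))
    have e : (φ 0 * φ 1 * φ 2 * φ 3 * φ 4) * ((α 4 - α 0) / (φ 4 * φ 0)) = (α 4 - α 0) * (φ 1 * φ 2 * φ 3) := by field_simp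
    rw [e]
    linear_combination (α 0 - α 4) * (φ 1 * φ 2 * φ 3) * (ι ^ 0 + (-1) * ι ^ 2 + ι ^ 4) * hι
  · show ι ^ 1 * (ι * ((α 1 - α 4) * (φ 0 * φ 2 * φ 3))) = (φ 0 * φ 1 * φ 2 * φ 3 * φ 4) * ((α 4 - α 1) / (φ 4 * φ 1))
    have e : (φ 0 * φ 1 * φ 2 * φ 3 * φ 4) * ((α 4 - α 1) / (φ 4 * φ 1)) = (α 4 - α 1) * (φ 0 * φ 2 * φ 3) := by field_simp
    rw [e]
    linear_combination (α 1 - α 4) * (φ 0 * φ 2 * φ 3) * (ι ^ 0) * hι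
  · show ι ^ 2 * ((α 2 - α 4) * (φ 0 * φ 1 * φ 3)) = (φ 0 * φ 1 * φ 2 * φ 3 * φ 4) * ((α 4 - α 2) / (φ 4 * φ 2))
    have e : (φ 0 * φ 1 * φ 2 * φ 3 * φ 4) * ((α 4 - α 2) / (φ 4 * φ 2)) = (α 4 - α 2) * (φ 0 * φ 1 * φ 3) := by field_simp
    rw [e]
    linear_combination (α 2 - α 4) * (φ 0 * φ 1 * φ 3) * (ι ^ 0) * hι
  · show ι ^ 0 * (ι ^ 2 * ((α 3 - α 4) * (φ 0 * φ 1 * φ 2))) = (φ 0 * φ 1 * φ 2 * φ 3 * φ 4) * ((α 4 - α 3) / (φ 4 * φ 3))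
    have e : (φ 0 * φ 1 * φ 2 * φ 3 * φ 4) * ((α 4 - α 3) / (φ 4 * φ 3)) = (α 4 - α 3) * (φ 0 * φ 1 * φ 2) := by field_simp
    rw [e]
    linear_combination (α 3 - α 4) * (φ 0 * φ 1 * φ 2) * (ι ^ 0) * hι

theorem spinor (h2 : (2 : E) ≠ 0) {ι : E} (hι : ι ^ 2 = -1) {α φ : Fin 5 → E}
    (hα : Function.Injective α) (hφ : ∀ a, φ a ^ 2 = ∏ b ∈ Finset.univ.erase a, (α a - α b)) :
    ∃ (i₀ : Fin 4) (κ : E), κ ≠ 0 ∧ ∀ a b, a ≠ b →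
      ι ^ ex a b * qf (spn ι α φ i₀) (ix a b) = κ * ((α a - α b) / (φ a * φ b)) := by
  have h0 : ∀ a, φ a ≠ 0 := by
    intro a ha
    have h := hφ a
    rw [ha, zero_pow two_ne_zero] at h
    obtain ⟨b, hb, hb'⟩ := Finset.prod_eq_zero_iff.1 h.symm
    exact (Finset.ne_of_mem_erase hb) (hα (sub_eq_zero.1 hb')).symm
  have h4 : (4 : E) ≠ 0 := by
    have : (4 : E) = 2 * 2 := by norm_num
    rw [this]
    exact mul_ne_zero h2 h2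
  have hS : ∃ i₀, smat (qv ι α φ) i₀ i₀ ≠ 0 := by
    by_contra hc
    push Not at hc
    have e0 : qv ι α φ 0 + qv ι α φ 1 + qv ι α φ 2 + qv ι α φ 3 = 0 := hc 0
    have e1 : qv ι α φ 0 + qv ι α φ 1 - qv ι α φ 2 - qv ι α φ 3 = 0 := hc 1
    have e2 : qv ι α φ 0 - qv ι α φ 1 + qv ι α φ 2 - qv ι α φ 3 = 0 := hc 2
    have e3 : qv ι α φ 0 - qv ι α φ 1 - qv ι α φ 2 + qv ι α φ 3 = 0 := hc 3
    have e4 : 4 * qv ι α φ 0 = 0 := by linear_combination e0 + e1 + e2 + e3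
    have e5 : (α 0 - α 1) * (φ 2 * φ 3 * φ 4) = 0 := (mul_eq_zero.1 e4).resolve_left h4
    rcases mul_eq_zero.1 e5 with h | h
    · exact absurd (hα (sub_eq_zero.1 h)) (by decide)
    · exact mul_ne_zero (mul_ne_zero (h0 2) (h0 3)) (h0 4) h
  obtain ⟨i₀, hi₀⟩ := hS
  refine ⟨i₀, 4 * smat (qv ι α φ) i₀ i₀ * (φ 0 * φ 1 * φ 2 * φ 3 * φ 4),
    mul_ne_zero (mul_ne_zero h4 hi₀) (mul_ne_zero (mul_ne_zero (mul_ne_zero (mul_ne_zero (h0 0)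
      (h0 1)) (h0 2)) (h0 3)) (h0 4)), fun a b hab => ?_⟩
  have hrow := qf_row (q := qv ι α φ) (u := spn ι α φ i₀) (s := smat (qv ι α φ) i₀ i₀) (by
    intro i j
    show smat (qv ι α φ) i₀ i * smat (qv ι α φ) i₀ j = smat (qv ι α φ) i₀ i₀ * smat (qv ι α φ) i j
    rw [smat_symm _ i₀ i, smat_rank hι hα hφ i i₀ i₀ j, mul_comm])
  rw [hrow, mul_assoc (4 * smat (qv ι α φ) i₀ i₀), ← qv_ix hι h0 a b hab]
  ring

private theorem five : ∀ a b c : Fin 5, a ≠ b → a ≠ c → b ≠ c → ∃ d e : Fin 5, a ≠ d ∧ a ≠ e ∧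
    b ≠ d ∧ b ≠ e ∧ ((Finset.univ : Finset (Fin 5)).erase a = {b, c, d, e} ∧ b ≠ c ∧
      b ≠ d ∧ b ≠ e ∧ c ≠ d ∧ c ≠ e ∧ d ≠ e) ∧ ((Finset.univ : Finset (Fin 5)).erase b =
      {a, c, d, e} ∧ a ≠ c ∧ a ≠ d ∧ a ≠ e ∧ c ≠ d ∧ c ≠ e ∧ d ≠ e) := by
  decide

/-- The quotients of differences are ratios of products of two forms. -/
theorem lam_rt {ι : E} (hι : ι ^ 2 = -1) {α φ : Fin 5 → E}
    (hα : Function.Injective α) (hφ : ∀ a, φ a ^ 2 = ∏ b ∈ Finset.univ.erase a, (α a - α b))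
    {u : Fin 4 → E} {κ : E} (hκ : κ ≠ 0) (hu : ∀ a b, a ≠ b →
      ι ^ ex a b * qf u (ix a b) = κ * ((α a - α b) / (φ a * φ b))) {a b c : Fin 5} (hab : a ≠ b)
    (hac : a ≠ c) (hbc : b ≠ c) :
    ∃ (m₁ m₂ m₃ m₄ : Fin 10) (j : ℕ), (α b - α c) / (α a - α c) =
      qf u m₁ * qf u m₂ / (qf u m₃ * qf u m₄) * ι ^ j := by
  have h0 : ∀ a, φ a ≠ 0 := by
    intro a ha
    have h := hφ a
    rw [ha, zero_pow two_ne_zero] at h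
    obtain ⟨b, hb, hb'⟩ := Finset.prod_eq_zero_iff.1 h.symm
    exact (Finset.ne_of_mem_erase hb) (hα (sub_eq_zero.1 hb')).symm
  have hιn : ι ≠ 0 := by
    rintro rfl
    norm_num at hι
  have i4 : ι ^ 4 = 1 := by linear_combination (ι ^ 2 - 1) * hι
  obtain ⟨d, e, had, hae, hbd, hbe, hA, hB⟩ := five a b c hab hac hbc
  have ea := prod_e hφ hA
  have eb := prod_e hφ hB
  have hn : ∀ {x y : Fin 5}, x ≠ y → α x - α y ≠ 0 := fun h h' => h (hα (sub_eq_zero.1 h'))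
  refine ⟨ix a d, ix a e, ix b d, ix b e, ex a d + ex a e + 3 * (ex b d + ex b e) + 2, ?_⟩
  have k1 := hu a d had
  have k2 := hu a e hae
  have k3 := hu b d hbd
  have k4 := hu b e hbe
  have q3 : qf u (ix b d) ≠ 0 := by
    intro h
    rw [h, mul_zero] at k3
    exact mul_ne_zero hκ (div_ne_zero (hn hbd) (mul_ne_zero (h0 b) (h0 d))) k3.symm
  have q4 : qf u (ix b e) ≠ 0 := by
    intro h
    rw [h, mul_zero] at k4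
    exact mul_ne_zero hκ (div_ne_zero (hn hbe) (mul_ne_zero (h0 b) (h0 e))) k4.symm
  have hp : ∀ n : ℕ, ι ^ n * ι ^ (3 * n) = 1 := by
    intro n
    rw [← pow_add, show n + 3 * n = 4 * n by ring, pow_mul, i4, one_pow]
  have key : qf u (ix a d) * qf u (ix a e) * ι ^ (ex a d + ex a e + 3 * (ex b d + ex b e) + 2) *
      (α a - α c) = (α b - α c) * (qf u (ix b d) * qf u (ix b e)) := by
    have c1 : (ι ^ ex a d * qf u (ix a d)) * (ι ^ ex a e * qf u (ix a e)) * (α a - α c) *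
        ((α a - α b) * ((α a - α d) * (α a - α e))) =
      (-1) * (α b - α c) * ((ι ^ ex b d * qf u (ix b d)) * (ι ^ ex b e * qf u (ix b e))) *
        ((α a - α b) * ((α a - α d) * (α a - α e))) := by
      have l1 : κ * ((α a - α d) / (φ a * φ d)) * (κ * ((α a - α e) / (φ a * φ e))) * (α a - α c) *
          ((α a - α b) * ((α a - α d) * (α a - α e))) =
          κ ^ 2 * (α a - α d) * (α a - α e) / (φ d * φ e) * (((α a - α b) * ((α a - α c) *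
            ((α a - α d) * (α a - α e)))) / φ a ^ 2) := by ring
      have l2 : (-1) * (α b - α c) * (κ * ((α b - α d) / (φ b * φ d)) *
          (κ * ((α b - α e) / (φ b * φ e)))) * ((α a - α b) * ((α a - α d) * (α a - α e))) =
          κ ^ 2 * (α a - α d) * (α a - α e) / (φ d * φ e) * (((α b - α a) * ((α b - α c) *
            ((α b - α d) * (α b - α e)))) / φ b ^ 2) := by ring
      rw [k1, k2, k3, k4, l1, l2, ← ea, ← eb, div_self (pow_ne_zero 2 (h0 a)),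
        div_self (pow_ne_zero 2 (h0 b))]
    have c2 := mul_right_cancel₀ (mul_ne_zero (hn hab) (mul_ne_zero (hn had) (hn hae))) c1
    have p3 := hp (ex b d)
    have p4 := hp (ex b e)
    linear_combination ι ^ (3 * ex b d + 3 * ex b e + 2) * c2 -
      (α b - α c) * qf u (ix b d) * qf u (ix b e) *
        (ι ^ 2 * (ι ^ ex b e * ι ^ (3 * ex b e)) * p3 + ι ^ 2 * p4 + hι)
  rw [div_mul_eq_mul_div, div_eq_div_iff (hn hac) (mul_ne_zero q3 q4)]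
  linear_combination -key

end FreyG2
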