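import Pool.Agent.Lib.MP_6babc4_nt.G2.Defs
import Pool.Agent.Lib.MP_6babc4_nt.G2.Ctb

/-!
# Module Sqa: limits of the sequence of linear forms

PROOF. `U` = span of `V`. (1) `‖st w b‖ ≤ 4 ‖w‖_∞²`, so `‖l (j+1) y‖_∞ ≤ ‖l j y‖_∞` for `y ∈ V` (sup over the four
coordinates): the sequence `l j` is bounded on each `y ∈ V`, hence on each `y ∈ U` (linear combinations of elements
of `V`), so bounded in the finite dimensional space of the restrictions to `U`: subsequences converge (or: take a basis of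
`U` in `V`, and compactness in the finite product of the values at the basis).
(2) Let `λ`, `λ⁺` be limits of `l (j_i)`, `l (j_i + 1)` on `U` along one subsequence. For `y ∈ V`: `μ(y) := lim ‖l j y‖_∞` exists (antitone),
`‖λ y‖_∞ = μ(y) = ‖λ⁺ y‖_∞`, `(2 λ⁺_b y)² = st (λ y) b`. So for some `b` `4 μ² = ‖st (λ y) b‖`: each of `st` is a sum of four products of
two coordinates, so all `‖λ_i y‖ = μ(y)`. By `hV.ratio` and `h2` (at `x₀`, `λ_0 x₀ ≠ 0` by `h1`): `λ_i = λ_0` on `V`, for all `i`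
(extend `λ_i` to linear forms on `Fin B → ℂ`: `LinearMap.exists_extend`).
(3) By `hV.prime` the set `{y ∈ V | λ_0 y ≠ 0}` spans `U` (if a linear form `h` vanishes there, `h λ_0 = 0` on `V`, so `h = 0` on `V`).
Choose a finite `S` in it that spans `U`. `μ(y) = ‖λ_0 y‖ > 0` for `y ∈ S`. By (2) for ALL subsequences (every limit point of `l j y` has equal coordinates
of modulus `μ(y)`) `‖l j 0 y‖ → μ(y)`, `l j b y / l j 0 y → 1` and `(l (j+1) 0 y / l j 0 y)² → 1`.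
(4) the sign does not depend on `y ∈ S` for large `j`: otherwise for a subsequence with limits `λ, λ⁺`, and two `y, y' ∈ S` (finite: the same pair for
infinitely many `j`), `λ⁺_0 y = λ_0 y`, `λ⁺_0 y' = - λ_0 y'`; but `(λ⁺_0)² = (λ_0)²` on `V` (`st (λ) 0 = 4 λ_0²` as all `λ_i = λ_0`), so by `hV.prime`
`λ⁺_0 = ± λ_0` on `V`. (`S` is not empty as `x₀ ≠ 0`; take the sign of one `y`.)
-/

set_option autoImplicit false

open Filter Topology

namespace FreyG2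

private lemma sqa_n0 (w : Fin 4 → ℂ) :
    ‖st w 0‖ ≤ ‖w 0‖ ^ 2 + ‖w 1‖ ^ 2 + ‖w 2‖ ^ 2 + ‖w 3‖ ^ 2 := by
  have e : st w 0 = w 0 ^ 2 + w 1 ^ 2 + w 2 ^ 2 + w 3 ^ 2 := rfl
  rw [e]
  refine (norm_add_le _ _).trans (add_le_add ((norm_add_le _ _).trans
    (add_le_add ((norm_add_le _ _).trans (add_le_add ?_ ?_)) ?_)) ?_) <;> rw [norm_pow]

private lemma sqa_np (x y z t : ℂ) :
    ‖2 * (x * y + z * t)‖ ≤ 2 * (‖x‖ * ‖y‖ + ‖z‖ * ‖t‖) := by
  have h2 : ‖(2 : ℂ)‖ = 2 := by simp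
  rw [norm_mul, h2]
  refine mul_le_mul_of_nonneg_left ((norm_add_le _ _).trans ?_) two_pos.le
  rw [norm_mul, norm_mul]

private lemma sqa_two {a b M : ℝ} (ha : 0 ≤ a) (hb : 0 ≤ b) (haM : a ≤ M) (hbM : b ≤ M)
    (h : M ^ 2 ≤ a * b) : a = M ∧ b = M := by
  rcases eq_or_lt_of_le (ha.trans haM) with hM | hM
  · constructor <;> linarith
  · constructor
    · refine le_antisymm haM ?_
      by_contra hlt
      push Not at hlt
      nlinarith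
    · refine le_antisymm hbM ?_
      by_contra hlt
      push Not at hlt
      nlinarith

/-- bound for the forms, and the case of equality for the products -/
private lemma sqa_prod {x y z t : ℂ} {M : ℝ} (hx : ‖x‖ ≤ M) (hy : ‖y‖ ≤ M) (hz : ‖z‖ ≤ M)
    (ht : ‖t‖ ≤ M) : ‖2 * (x * y + z * t)‖ ≤ 4 * M ^ 2 ∧
      (4 * M ^ 2 ≤ ‖2 * (x * y + z * t)‖ → ‖x‖ = M ∧ ‖y‖ = M ∧ ‖z‖ = M ∧ ‖t‖ = M) := by
  have h0 := sqa_np x y z t
  have hM : 0 ≤ M := (norm_nonneg x).trans hx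
  have p1 : ‖x‖ * ‖y‖ ≤ M * M := mul_le_mul hx hy (norm_nonneg _) hM
  have p2 : ‖z‖ * ‖t‖ ≤ M * M := mul_le_mul hz ht (norm_nonneg _) hM
  refine ⟨by nlinarith, fun h => ?_⟩
  have q1 := sqa_two (norm_nonneg x) (norm_nonneg y) hx hy (by nlinarith)
  have q2 := sqa_two (norm_nonneg z) (norm_nonneg t) hz ht (by nlinarith)
  exact ⟨q1.1, q1.2, q2.1, q2.2⟩

private lemma sqa_st {w : Fin 4 → ℂ} {M : ℝ} (hM : ∀ i, ‖w i‖ ≤ M) (b : Fin 4) :
    ‖st w b‖ ≤ 4 * M ^ 2 ∧ (4 * M ^ 2 ≤ ‖st w b‖ → ∀ i, ‖w i‖ = M) := by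
  have hM0 : 0 ≤ M := (norm_nonneg (w 0)).trans (hM 0)
  have key : ∀ b : Fin 4, ‖st w b‖ ≤ 4 * M ^ 2 ∧ (4 * M ^ 2 ≤ ‖st w b‖ →
      ‖w 0‖ = M ∧ ‖w 1‖ = M ∧ ‖w 2‖ = M ∧ ‖w 3‖ = M) := by
    intro b
    have hsq : ∀ i, ‖w i‖ ^ 2 ≤ M ^ 2 := fun i => pow_le_pow_left₀ (norm_nonneg _) (hM i) 2
    have hb : b = 0 ∨ b = 1 ∨ b = 2 ∨ b = 3 := by
      revert b
      decide
    rcases hb with rfl | rfl | rfl | rfl
    · have h0 := sqa_n0 w
      refine ⟨by linarith [hsq 0, hsq 1, hsq 2, hsq 3], fun h => ?_⟩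
      have hs : ∀ i, M ^ 2 ≤ ‖w i‖ ^ 2 → ‖w i‖ = M := by
        intro i hi
        refine le_antisymm (hM i) ?_
        by_contra hlt
        push Not at hlt
        have := norm_nonneg (w i)
        nlinarith
      exact ⟨hs 0 (by linarith [hsq 0, hsq 1, hsq 2, hsq 3]),
        hs 1 (by linarith [hsq 0, hsq 1, hsq 2, hsq 3]),
        hs 2 (by linarith [hsq 0, hsq 1, hsq 2, hsq 3]),
        hs 3 (by linarith [hsq 0, hsq 1, hsq 2, hsq 3])⟩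
    · exact sqa_prod (x := w 0) (y := w 1) (z := w 2) (t := w 3) (hM 0) (hM 1) (hM 2) (hM 3)
    · have h := sqa_prod (x := w 0) (y := w 2) (z := w 1) (t := w 3) (hM 0) (hM 2) (hM 1) (hM 3)
      exact ⟨h.1, fun h' => ⟨(h.2 h').1, (h.2 h').2.2.1, (h.2 h').2.1, (h.2 h').2.2.2⟩⟩
    · have h := sqa_prod (x := w 0) (y := w 3) (z := w 1) (t := w 2) (hM 0) (hM 3) (hM 1) (hM 2)
      exact ⟨h.1, fun h' => ⟨(h.2 h').1, (h.2 h').2.2.1, (h.2 h').2.2.2, (h.2 h').2.1⟩⟩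
  refine ⟨(key b).1, fun h i => ?_⟩
  obtain ⟨k0, k1, k2, k3⟩ := (key b).2 h
  have hi : i = 0 ∨ i = 1 ∨ i = 2 ∨ i = 3 := by
    revert i
    decide
  rcases hi with rfl | rfl | rfl | rfl <;> assumption

private lemma sqa_cont (b : Fin 4) : Continuous fun w : Fin 4 → ℂ => st w b := by
  have hb : b = 0 ∨ b = 1 ∨ b = 2 ∨ b = 3 := by
    revert b
    decide
  rcases hb with rfl | rfl | rfl | rfl
  · show Continuous fun w : Fin 4 → ℂ => w 0 ^ 2 + w 1 ^ 2 + w 2 ^ 2 + w 3 ^ 2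
    fun_prop
  · show Continuous fun w : Fin 4 → ℂ => 2 * (w 0 * w 1 + w 2 * w 3)
    fun_prop
  · show Continuous fun w : Fin 4 → ℂ => 2 * (w 0 * w 2 + w 1 * w 3)
    fun_prop
  · show Continuous fun w : Fin 4 → ℂ => 2 * (w 0 * w 3 + w 1 * w 2)
    fun_prop

/-- the forms decrease -/
private lemma sqa_anti {B : ℕ} {V : Set (Fin B → ℂ)}
    (l : ℕ → Fin 4 → ((Fin B → ℂ) →ₗ[ℂ] ℂ))
    (hl : ∀ j b, ∀ y ∈ V, (2 * l (j + 1) b y) ^ 2 = st (fun i => l j i y) b)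
    {y : Fin B → ℂ} (hy : y ∈ V) : Antitone fun j => ‖(fun b => l j b y : Fin 4 → ℂ)‖ := by
  refine antitone_nat_of_succ_le fun j => ?_
  rw [pi_norm_le_iff_of_nonneg (norm_nonneg _)]
  intro b
  have h1 := (sqa_st (w := fun b => l j b y) (M := ‖(fun b => l j b y : Fin 4 → ℂ)‖)
    (fun i => norm_le_pi_norm (fun b => l j b y : Fin 4 → ℂ) i) b).1
  rw [← hl j b y hy, norm_pow, norm_mul] at h1
  have h2 : ‖(2 : ℂ)‖ = 2 := by simp
  rw [h2] at h1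
  by_contra hlt
  push Not at hlt
  have h3 := norm_nonneg (fun b => l j b y : Fin 4 → ℂ)
  nlinarith

private lemma sqa_bdd {B : ℕ} {V : Set (Fin B → ℂ)}
    (l : ℕ → Fin 4 → ((Fin B → ℂ) →ₗ[ℂ] ℂ))
    (hl : ∀ j b, ∀ y ∈ V, (2 * l (j + 1) b y) ^ 2 = st (fun i => l j i y) b)
    {y : Fin B → ℂ} (hy : y ∈ Submodule.span ℂ V) : ∃ C : ℝ, ∀ j b, ‖l j b y‖ ≤ C := by
  induction hy using Submodule.span_induction with
  | mem y hy =>
    refine ⟨‖(fun b => l 0 b y : Fin 4 → ℂ)‖, fun j b => ?_⟩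
    exact (norm_le_pi_norm (fun b => l j b y : Fin 4 → ℂ) b).trans
      (sqa_anti l hl hy (Nat.zero_le j))
  | zero => exact ⟨0, fun j b => by rw [map_zero, norm_zero]⟩
  | add x y _ _ hx hy =>
    obtain ⟨C, hC⟩ := hx
    obtain ⟨D, hD⟩ := hy
    refine ⟨C + D, fun j b => ?_⟩
    rw [map_add]
    exact (norm_add_le _ _).trans (add_le_add (hC j b) (hD j b))
  | smul t y _ hy =>
    obtain ⟨D, hD⟩ := hy
    refine ⟨‖t‖ * D, fun j b => ?_⟩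
    rw [map_smul, smul_eq_mul, norm_mul]
    exact mul_le_mul_of_nonneg_left (hD j b) (norm_nonneg _)

/-- limits along an ultrafilter -/
private lemma sqa_form {B : ℕ} {V : Set (Fin B → ℂ)}
    (l : ℕ → Fin 4 → ((Fin B → ℂ) →ₗ[ℂ] ℂ))
    (hb : ∀ y ∈ Submodule.span ℂ V, ∃ C : ℝ, ∀ j b, ‖l j b y‖ ≤ C) (F : Ultrafilter ℕ)
    (b : Fin 4) : ∃ m : (Fin B → ℂ) →ₗ[ℂ] ℂ, ∀ y ∈ V,
      Tendsto (fun j => l j b y) F (𝓝 (m y)) := by
  obtain ⟨g, hg⟩ := (Submodule.span ℂ V).subtype.exists_leftInverse_of_injective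
    (Submodule.ker_subtype _)
  have hlim : ∀ y : Fin B → ℂ, ∃ z : ℂ,
      Tendsto (fun j => ((l j b) ∘ₗ (Submodule.span ℂ V).subtype ∘ₗ g) y) F (𝓝 z) := by
    intro y
    obtain ⟨C, hC⟩ := hb (g y) (g y).2
    obtain ⟨z, _, hz⟩ := (isCompact_closedBall (0 : ℂ) C).ultrafilter_le_nhds
      (F.map fun j => ((l j b) ∘ₗ (Submodule.span ℂ V).subtype ∘ₗ g) y) (by
        rw [Ultrafilter.coe_map, Filter.le_principal_iff, Filter.mem_map]
        refine Filter.univ_mem' fun j => ?_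
        rw [Set.mem_preimage, mem_closedBall_zero_iff]
        exact hC j b)
    exact ⟨z, hz⟩
  choose m0 hm0 using hlim
  refine ⟨linearMapOfTendsto m0 (fun j => (l j b) ∘ₗ (Submodule.span ℂ V).subtype ∘ₗ g)
    (l := (F : Filter ℕ)) (tendsto_pi_nhds.2 hm0), fun y hy => ?_⟩
  have h1 := hm0 y
  have h2 : ∀ j, ((l j b) ∘ₗ (Submodule.span ℂ V).subtype ∘ₗ g) y = l j b y := by
    intro j
    have h3 := LinearMap.congr_fun hg (⟨y, Submodule.subset_span hy⟩ : Submodule.span ℂ V)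
    rw [LinearMap.comp_apply, LinearMap.comp_apply]
    rw [LinearMap.comp_apply, LinearMap.id_apply] at h3
    have h4 : g y = (⟨y, Submodule.subset_span hy⟩ : Submodule.span ℂ V) := h3
    rw [h4]
    rfl
  simp only [h2] at h1
  exact h1

private lemma sqa_lim {B : ℕ} {V : Set (Fin B → ℂ)} (hV : IsCone V)
    (l : ℕ → Fin 4 → ((Fin B → ℂ) →ₗ[ℂ] ℂ))
    (hl : ∀ j b, ∀ y ∈ V, (2 * l (j + 1) b y) ^ 2 = st (fun i => l j i y) b)
    {x₀ : Fin B → ℂ} (hx₀ : x₀ ∈ V) {c : ℝ} (hc : 0 < c) (h1 : ∀ j, c ≤ ‖l j 0 x₀‖)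
    (h2 : ∀ b, Tendsto (fun j => l j b x₀ / l j 0 x₀) atTop (𝓝 1))
    (F : Ultrafilter ℕ) (hF : (F : Filter ℕ) ≤ atTop) :
    ∃ m : (Fin B → ℂ) →ₗ[ℂ] ℂ, (∀ y ∈ V, ∀ b, Tendsto (fun j => l j b y) F (𝓝 (m y))) ∧
      c ≤ ‖m x₀‖ ∧
      ∀ y ∈ V, ‖m y‖ = ⨅ j, ‖(fun b => l j b y : Fin 4 → ℂ)‖ := by
  have hb : ∀ y ∈ Submodule.span ℂ V, ∃ C : ℝ, ∀ j b, ‖l j b y‖ ≤ C :=
    fun y hy => sqa_bdd l hl hy
  have hsucc : Tendsto (fun j : ℕ => j + 1) F ((F.map fun j : ℕ => j + 1 : Ultrafilter ℕ) : Filter ℕ) :=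
    le_of_eq (Ultrafilter.coe_map _ _).symm
  have hF' : ((F.map fun j : ℕ => j + 1 : Ultrafilter ℕ) : Filter ℕ) ≤ atTop := by
    rw [Ultrafilter.coe_map]
    exact (tendsto_add_atTop_nat 1).mono_left hF
  choose u hu using fun b => sqa_form l hb F b
  choose u' hu' using fun b => sqa_form l hb (F.map fun j : ℕ => j + 1) b
  have hmu : ∀ y ∈ V, Tendsto (fun j => ‖(fun b => l j b y : Fin 4 → ℂ)‖) atTop
      (𝓝 (⨅ j, ‖(fun b => l j b y : Fin 4 → ℂ)‖)) := by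
    intro y hy
    refine tendsto_atTop_ciInf (sqa_anti l hl hy) ⟨0, ?_⟩
    rintro _ ⟨j, rfl⟩
    exact norm_nonneg _
  have hn : ∀ y ∈ V, ‖(fun b => u b y : Fin 4 → ℂ)‖ =
      ⨅ j, ‖(fun b => l j b y : Fin 4 → ℂ)‖ := by
    intro y hy
    have h3 : Tendsto (fun j => (fun b => l j b y : Fin 4 → ℂ)) F (𝓝 fun b => u b y) :=
      tendsto_pi_nhds.2 fun b => hu b y hy
    exact tendsto_nhds_unique h3.norm ((hmu y hy).mono_left hF)
  have hn' : ∀ y ∈ V, ‖(fun b => u' b y : Fin 4 → ℂ)‖ =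
      ⨅ j, ‖(fun b => l j b y : Fin 4 → ℂ)‖ := by
    intro y hy
    have h3 : Tendsto (fun j => (fun b => l j b y : Fin 4 → ℂ))
        ((F.map fun j : ℕ => j + 1 : Ultrafilter ℕ) : Filter ℕ) (𝓝 fun b => u' b y) :=
      tendsto_pi_nhds.2 fun b => hu' b y hy
    exact tendsto_nhds_unique h3.norm ((hmu y hy).mono_left hF')
  have heq : ∀ y ∈ V, ∀ b, (2 * u' b y) ^ 2 = st (fun i => u i y) b := by
    intro y hy b
    have h3 : Tendsto (fun j => (2 * l (j + 1) b y) ^ 2) F (𝓝 ((2 * u' b y) ^ 2)) :=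
      (((hu' b y hy).comp hsucc).const_mul 2).pow 2
    have h4 : Tendsto (fun j => st (fun i => l j i y) b) F (𝓝 (st (fun i => u i y) b)) :=
      ((sqa_cont b).tendsto _).comp (tendsto_pi_nhds.2 fun i => hu i y hy)
    have h5 : (fun j => (2 * l (j + 1) b y) ^ 2) = fun j => st (fun i => l j i y) b :=
      funext fun j => hl j b y hy
    rw [h5] at h3
    exact tendsto_nhds_unique h3 h4
  have hall : ∀ y ∈ V, ∀ i, ‖u i y‖ = ⨅ j, ‖(fun b => l j b y : Fin 4 → ℂ)‖ := by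
    intro y hy
    obtain ⟨b, hbm⟩ := Finite.exists_max (fun b => ‖u' b y‖)
    have h3 : ‖(fun b => u' b y : Fin 4 → ℂ)‖ ≤ ‖u' b y‖ :=
      (pi_norm_le_iff_of_nonneg (norm_nonneg _)).2 hbm
    rw [hn' y hy] at h3
    rw [← hn y hy] at h3 ⊢
    refine (sqa_st (w := fun i => u i y) (fun i => norm_le_pi_norm (fun i => u i y : Fin 4 → ℂ) i)
      b).2 ?_
    rw [← heq y hy b, norm_pow, norm_mul]
    have h4 : ‖(2 : ℂ)‖ = 2 := by simp
    rw [h4]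
    have h5 := norm_nonneg (fun i => u i y : Fin 4 → ℂ)
    nlinarith
  have hx0 : c ≤ ‖u 0 x₀‖ := ge_of_tendsto (hu 0 x₀ hx₀).norm (Filter.Eventually.of_forall h1)
  have hx0' : u 0 x₀ ≠ 0 := by
    intro h
    rw [h, norm_zero] at hx0
    linarith
  refine ⟨u 0, fun y hy b => ?_, hx0, fun y hy => hall y hy 0⟩
  obtain ⟨t, ht⟩ := hV.ratio (u b) (u 0) (fun y hy => by rw [hall y hy b, hall y hy 0])
  have h3 : Tendsto (fun j => l j b x₀ / l j 0 x₀) F (𝓝 (u b x₀ / u 0 x₀)) :=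
    (hu b x₀ hx₀).div (hu 0 x₀ hx₀) hx0'
  have h4 := tendsto_nhds_unique h3 ((h2 b).mono_left hF)
  rw [ht x₀ hx₀, mul_div_cancel_right₀ _ hx0'] at h4
  have h5 := hu b y hy
  rw [ht y hy, h4, one_mul] at h5
  exact h5

/-- the polynomial of a linear form -/
private noncomputable def sqaPoly {B : ℕ} (m : (Fin B → ℂ) →ₗ[ℂ] ℂ) : MvPolynomial (Fin B) ℂ :=
  ∑ i, MvPolynomial.X i * MvPolynomial.C (m fun j => if i = j then 1 else 0)

private lemma sqaPoly_eval {B : ℕ} (m : (Fin B → ℂ) →ₗ[ℂ] ℂ) (y : Fin B → ℂ) :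
    MvPolynomial.eval y (sqaPoly m) = m y := by
  rw [LinearMap.pi_apply_eq_sum_univ m y, sqaPoly, map_sum]
  refine Finset.sum_congr rfl fun i _ => ?_
  rw [map_mul, MvPolynomial.eval_X, MvPolynomial.eval_C, smul_eq_mul]

private lemma sqa_prime {B : ℕ} {V : Set (Fin B → ℂ)} (hV : IsCone V)
    (f g : (Fin B → ℂ) →ₗ[ℂ] ℂ) (h : ∀ y ∈ V, f y * g y = 0) :
    (∀ y ∈ V, f y = 0) ∨ ∀ y ∈ V, g y = 0 := by
  have h1 := hV.prime (sqaPoly f) (sqaPoly g) (fun y hy => by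
    rw [sqaPoly_eval, sqaPoly_eval]
    exact h y hy)
  simpa only [sqaPoly_eval] using h1

theorem seq_limit {B : ℕ} {V : Set (Fin B → ℂ)} (hV : IsCone V)
    (l : ℕ → Fin 4 → ((Fin B → ℂ) →ₗ[ℂ] ℂ))
    (hl : ∀ j b, ∀ y ∈ V, (2 * l (j + 1) b y) ^ 2 = st (fun i => l j i y) b)
    {x₀ : Fin B → ℂ} (hx₀ : x₀ ∈ V) {c : ℝ} (hc : 0 < c) (h1 : ∀ j, c ≤ ‖l j 0 x₀‖)
    (h2 : ∀ b, Tendsto (fun j => l j b x₀ / l j 0 x₀) atTop (𝓝 1)) :
    ∃ S : Finset (Fin B → ℂ), (∀ y ∈ S, y ∈ V) ∧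
      V ⊆ (Submodule.span ℂ (S : Set (Fin B → ℂ)) : Set (Fin B → ℂ)) ∧
      (∀ y ∈ S, ∃ c' : ℝ, 0 < c' ∧ ∀ᶠ j in atTop, c' ≤ ‖l j 0 y‖) ∧
      ∀ y ∈ S, ∀ b, Tendsto (fun j => l j b y / l j 0 y) atTop (𝓝 1) := by
  classical
  have hyp : ((hyperfilter ℕ : Ultrafilter ℕ) : Filter ℕ) ≤ atTop := Nat.hyperfilter_le_atTop
  obtain ⟨m, hm, hmx, hmn⟩ := sqa_lim hV l hl hx₀ hc h1 h2 (hyperfilter ℕ) hyp
  have hmx0 : m x₀ ≠ 0 := by
    intro h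
    rw [h, norm_zero] at hmx
    linarith
  -- the span
  have hspan : V ⊆ (Submodule.span ℂ {y | y ∈ V ∧ m y ≠ 0} : Set (Fin B → ℂ)) := by
    intro v hv
    by_contra hnot
    obtain ⟨f, hf, hf2⟩ := Submodule.exists_le_ker_of_notMem (p := Submodule.span ℂ
      {y | y ∈ V ∧ m y ≠ 0}) hnot
    rcases sqa_prime hV f m (fun y hy => by
      by_cases h : m y = 0
      · rw [h, mul_zero]
      · have h3 : f y = 0 := LinearMap.mem_ker.1 (hf2 (Submodule.subset_span ⟨hy, h⟩))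
        rw [h3, zero_mul]) with h | h
    · exact hf (h v hv)
    · exact hmx0 (h x₀ hx₀)
  obtain ⟨S, hS1, hS2⟩ := (Submodule.fg_span_iff_fg_span_finset_subset (R := ℂ)
    {y : Fin B → ℂ | y ∈ V ∧ m y ≠ 0}).1 (IsNoetherian.noetherian _)
  -- limits along another ultrafilter
  have hne : ∀ (m' : (Fin B → ℂ) →ₗ[ℂ] ℂ), (∀ y ∈ V, ‖m' y‖ =
      ⨅ j, ‖(fun b => l j b y : Fin 4 → ℂ)‖) → ∀ y ∈ V, m y ≠ 0 → m' y ≠ 0 := by
    intro m' h y hy hmy h0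
    apply hmy
    rw [← norm_eq_zero, hmn y hy, ← h y hy, h0, norm_zero]
  refine ⟨S, fun y hy => (hS1 hy).1, ?_, ?_, ?_⟩
  · rw [← hS2]
    exact hspan
  · intro y hy
    obtain ⟨hyV, hym⟩ := hS1 hy
    have hpos : 0 < ‖m y‖ := norm_pos_iff.2 hym
    refine ⟨‖m y‖ / 2, by linarith, ?_⟩
    have h3 : Tendsto (fun j => ‖l j 0 y‖) atTop (𝓝 ‖m y‖) := by
      rw [tendsto_iff_ultrafilter]
      intro F hF
      obtain ⟨m', hm', _, hmn'⟩ := sqa_lim hV l hl hx₀ hc h1 h2 F hF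
      have h4 := (hm' y hyV 0).norm
      rw [hmn' y hyV, ← hmn y hyV] at h4
      exact h4
    exact h3.eventually_const_le (by linarith)
  · intro y hy b
    obtain ⟨hyV, hym⟩ := hS1 hy
    rw [tendsto_iff_ultrafilter]
    intro F hF
    obtain ⟨m', hm', _, hmn'⟩ := sqa_lim hV l hl hx₀ hc h1 h2 F hF
    have h4 := (hm' y hyV b).div (hm' y hyV 0) (hne m' hmn' y hyV hym)
    rw [div_self (hne m' hmn' y hyV hym)] at h4
    exact h4

end FreyG2
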