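import Pool.Agent.Lib.MP_6babc4_nt.G2.Defs
import Pool.Agent.Lib.MP_6babc4_nt.G2.Ctb

/-!
# Module Sqc: no fast convergent sequence of linear forms on a cone

If the four forms `l j b` differ on a spanning set by at most `C * q ^ (2 ^ j)`, then at a zero `x` of `l j 0`
of norm one all of them are at most `C' * q ^ (2 ^ j)`, but the recursion gives at least `4 ^ (-j) * c₀`.
-/

set_option autoImplicit false

open Filter Topology

namespace FreyG2

/-- Descent: the four coordinates of a vector are bounded by the values of the four forms. -/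
theorem norm_le_of_st (w : Fin 4 → ℂ) {t : ℝ} (ht : 0 ≤ t) (h : ∀ b, ‖st w b‖ ≤ 4 * t ^ 2) :
    ‖w‖ ≤ 4 * t := by
  have key : ∀ z : ℂ, ‖z ^ 2‖ ≤ 16 * t ^ 2 → ‖z‖ ≤ 4 * t := by
    intro z hz
    rw [norm_pow] at hz
    have h1 : ‖z‖ ^ 2 ≤ (4 * t) ^ 2 := by nlinarith
    exact le_of_sq_le_sq h1 (by positivity)
  have b0 := h 0
  have b1 := h 1
  have b2 := h 2
  have b3 := h 3
  have n4 : ∀ a b c d : ℂ, ‖a‖ ≤ 4 * t ^ 2 → ‖b‖ ≤ 4 * t ^ 2 → ‖c‖ ≤ 4 * t ^ 2 → ‖d‖ ≤ 4 * t ^ 2 →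
      ‖a + b + c + d‖ ≤ 16 * t ^ 2 := by
    intro a b c d ha hb hc hd
    have h1 := norm_add_le (a + b + c) d
    have h2 := norm_add_le (a + b) c
    have h3 := norm_add_le a b
    linarith
  have e1 : (w 0 + w 1 + w 2 + w 3) ^ 2 = st w 0 + st w 1 + st w 2 + st w 3 := by
    simp only [st, qf, Matrix.cons_val]
    ring
  have e2 : (w 0 + w 1 - w 2 - w 3) ^ 2 = st w 0 + st w 1 + -st w 2 + -st w 3 := by
    simp only [st, qf, Matrix.cons_val]
    ring
  have e3 : (w 0 - w 1 + w 2 - w 3) ^ 2 = st w 0 + -st w 1 + st w 2 + -st w 3 := by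
    simp only [st, qf, Matrix.cons_val]
    ring
  have e4 : (w 0 - w 1 - w 2 + w 3) ^ 2 = st w 0 + -st w 1 + -st w 2 + st w 3 := by
    simp only [st, qf, Matrix.cons_val]
    ring
  have f1 : ‖w 0 + w 1 + w 2 + w 3‖ ≤ 4 * t :=
    key _ (by rw [e1]; exact n4 _ _ _ _ b0 b1 b2 b3)
  have f2 : ‖w 0 + w 1 - w 2 - w 3‖ ≤ 4 * t :=
    key _ (by rw [e2]; exact n4 _ _ _ _ b0 b1 (by rwa [norm_neg]) (by rwa [norm_neg]))
  have f3 : ‖w 0 - w 1 + w 2 - w 3‖ ≤ 4 * t :=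
    key _ (by rw [e3]; exact n4 _ _ _ _ b0 (by rwa [norm_neg]) b2 (by rwa [norm_neg]))
  have f4 : ‖w 0 - w 1 - w 2 + w 3‖ ≤ 4 * t :=
    key _ (by rw [e4]; exact n4 _ _ _ _ b0 (by rwa [norm_neg]) (by rwa [norm_neg]) b3)
  have quarter : ∀ x a b c d : ℂ, 4 * x = a + b + c + d → ‖a‖ ≤ 4 * t → ‖b‖ ≤ 4 * t →
      ‖c‖ ≤ 4 * t → ‖d‖ ≤ 4 * t → ‖x‖ ≤ 4 * t := by
    intro x a b c d hx ha hb hc hd
    have h1 := norm_add_le (a + b + c) d
    have h2 := norm_add_le (a + b) c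
    have h3 := norm_add_le a b
    have h4 : ‖4 * x‖ = 4 * ‖x‖ := by
      rw [norm_mul]
      norm_num
    rw [hx] at h4
    linarith
  rw [pi_norm_le_iff_of_nonneg (by positivity)]
  intro i
  fin_cases i
  · exact quarter (w 0) _ _ _ _ (by ring) f1 f2 f3 f4
  · exact quarter (w 1) _ _ (-(w 0 - w 1 + w 2 - w 3)) (-(w 0 - w 1 - w 2 + w 3)) (by ring) f1 f2
      (by rwa [norm_neg]) (by rwa [norm_neg])
  · exact quarter (w 2) _ (-(w 0 + w 1 - w 2 - w 3)) _ (-(w 0 - w 1 - w 2 + w 3)) (by ring) f1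
      (by rwa [norm_neg]) f3 (by rwa [norm_neg])
  · exact quarter (w 3) _ (-(w 0 + w 1 - w 2 - w 3)) (-(w 0 - w 1 + w 2 - w 3)) _ (by ring) f1
      (by rwa [norm_neg]) (by rwa [norm_neg]) f4

/-- Coordinates in a finite spanning set are bounded. -/
theorem coord_bound {B : ℕ} (S : Finset (Fin B → ℂ)) :
    ∃ K : ℝ, 0 ≤ K ∧ ∀ y ∈ Submodule.span ℂ (S : Set (Fin B → ℂ)), ∃ c : S → ℂ,
      y = ∑ s, c s • (s : Fin B → ℂ) ∧ ∀ s, ‖c s‖ ≤ K * ‖y‖ := by
  classical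
  let Φ : (S → ℂ) →ₗ[ℂ] (Fin B → ℂ) := Fintype.linearCombination ℂ (fun s : S => (s : Fin B → ℂ))
  have hr : LinearMap.range Φ = Submodule.span ℂ (S : Set (Fin B → ℂ)) := by
    rw [Fintype.range_linearCombination]
    congr 1
    ext x
    simp
  obtain ⟨σ, hσ⟩ := Φ.rangeRestrict.exists_rightInverse_of_surjective
    (LinearMap.range_eq_top.2 Φ.surjective_rangeRestrict)
  let σc := LinearMap.toContinuousLinearMap σ
  refine ⟨‖σc‖, norm_nonneg σc, fun y hy => ?_⟩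
  rw [← hr] at hy
  refine ⟨σ ⟨y, hy⟩, ?_, fun s => ?_⟩
  · have h1 := congrArg (fun F => ((F ⟨y, hy⟩ : LinearMap.range Φ) : Fin B → ℂ)) hσ
    simp only [LinearMap.comp_apply, LinearMap.id_apply, LinearMap.codRestrict_apply,
      LinearMap.rangeRestrict] at h1
    exact h1.symm
  · have h1 : ‖σc ⟨y, hy⟩‖ ≤ ‖σc‖ * ‖(⟨y, hy⟩ : LinearMap.range Φ)‖ := σc.le_opNorm _
    exact (norm_le_pi_norm (σ ⟨y, hy⟩) s).trans h1

/-- A zero of norm one of a linear form on a cone. -/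
theorem exists_unit_zero {B : ℕ} {V : Set (Fin B → ℂ)} (hV : IsCone V)
    (l : (Fin B → ℂ) →ₗ[ℂ] ℂ) : ∃ y ∈ V, ‖y‖ = 1 ∧ l y = 0 := by
  classical
  obtain ⟨y, hy, hy0, hl⟩ := hV.zero 1
    (∑ i, MvPolynomial.C (l (Pi.single i 1)) * MvPolynomial.X i)
    (MvPolynomial.IsHomogeneous.sum _ _ _ fun i _ =>
      (MvPolynomial.isHomogeneous_X ℂ i).C_mul _) one_ne_zero
  have h1 : l y = 0 := by
    rw [← hl, map_sum, LinearMap.pi_apply_eq_sum_univ l y]
    refine Finset.sum_congr rfl fun i _ => ?_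
    rw [map_mul, MvPolynomial.eval_C, MvPolynomial.eval_X, smul_eq_mul, mul_comm]
    congr 2
    ext k
    by_cases h : k = i
    · subst h
      simp
    · simp [h, Ne.symm h]
  refine ⟨((‖y‖⁻¹ : ℝ) : ℂ) • y, hV.smul _ y hy, ?_, ?_⟩
  · rw [norm_smul]
    simp [norm_ne_zero_iff.2 hy0]
  · rw [map_smul, h1, smul_zero]

/-- No fast convergent sequence. -/
theorem no_fast {B : ℕ} {V : Set (Fin B → ℂ)} (hV : IsCone V)
    (l : ℕ → Fin 4 → ((Fin B → ℂ) →ₗ[ℂ] ℂ))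
    (hl : ∀ j b, ∀ y ∈ V, (2 * l (j + 1) b y) ^ 2 = st (fun i => l j i y) b)
    (h0 : ∀ y ∈ V, (∀ i, l 0 i y = 0) → y = 0) (S : Finset (Fin B → ℂ))
    (hS : V ⊆ (Submodule.span ℂ (S : Set (Fin B → ℂ)) : Set (Fin B → ℂ)))
    {q C : ℝ} (hq0 : 0 ≤ q) (hq : q < 1)
    (h : ∀ y ∈ S, ∀ j b, ‖l j b y - l j 0 y‖ ≤ C * q ^ (2 ^ j)) : False := by
  classical
  set N : ℕ → (Fin B → ℂ) → ℝ := fun j y => ‖(fun i => l j i y : Fin 4 → ℂ)‖ with hN
  have hdesc : ∀ j, ∀ y ∈ V, N j y ≤ 4 * N (j + 1) y := by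
    intro j y hy
    refine norm_le_of_st _ (norm_nonneg _) fun b => ?_
    rw [← hl j b y hy, norm_pow, norm_mul]
    have h1 : ‖l (j + 1) b y‖ ≤ N (j + 1) y := norm_le_pi_norm (fun i => l (j + 1) i y : Fin 4 → ℂ) b
    have h2 : ‖(2 : ℂ)‖ = 2 := by norm_num
    rw [h2, mul_pow]
    have h3 := norm_nonneg (l (j + 1) b y)
    nlinarith
  have hdesc' : ∀ j, ∀ y ∈ V, N 0 y ≤ 4 ^ j * N j y := by
    intro j
    induction j with
    | zero =>
      intro y hy
      simp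
    | succ j ih =>
      intro y hy
      have h1 := ih y hy
      have h2 := hdesc j y hy
      have h3 : (0 : ℝ) < 4 ^ j := by positivity
      calc N 0 y ≤ 4 ^ j * N j y := h1
        _ ≤ 4 ^ j * (4 * N (j + 1) y) := mul_le_mul_of_nonneg_left h2 h3.le
        _ = 4 ^ (j + 1) * N (j + 1) y := by ring
  obtain ⟨K, hK0, hK⟩ := coord_bound S
  -- bound on the unit sphere of the cone
  have hbd : ∀ j, ∀ y ∈ V, ‖y‖ = 1 → l j 0 y = 0 →
      N j y ≤ (S.card : ℝ) * (K * C) * q ^ (2 ^ j) := by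
    intro j y hy hy1 hly
    obtain ⟨c, hc, hcK⟩ := hK y (hS hy)
    have hterm : ∀ b, ‖l j b y‖ ≤ (S.card : ℝ) * (K * C) * q ^ (2 ^ j) := by
      intro b
      have h1 : l j b y = ∑ s : S, c s * (l j b s - l j 0 s) := by
        have e1 : l j b y = ∑ s : S, c s * l j b s := by
          conv_lhs => rw [hc]
          rw [map_sum]
          exact Finset.sum_congr rfl fun s _ => by rw [map_smul, smul_eq_mul]
        have e2 : l j 0 y = ∑ s : S, c s * l j 0 s := by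
          conv_lhs => rw [hc]
          rw [map_sum]
          exact Finset.sum_congr rfl fun s _ => by rw [map_smul, smul_eq_mul]
        rw [← sub_zero (l j b y), ← hly, e1, e2, ← Finset.sum_sub_distrib]
        exact Finset.sum_congr rfl fun s _ => by ring
      rw [h1]
      calc ‖∑ s : S, c s * (l j b s - l j 0 s)‖ ≤ ∑ s : S, ‖c s * (l j b s - l j 0 s)‖ :=
            norm_sum_le _ _
        _ ≤ ∑ _s : S, (K * C) * q ^ (2 ^ j) := by
            refine Finset.sum_le_sum fun s _ => ?_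
            rw [norm_mul]
            have a1 := hcK s
            rw [hy1, mul_one] at a1
            have a2 := h s s.2 j b
            calc ‖c s‖ * ‖l j b s - l j 0 s‖ ≤ K * (C * q ^ (2 ^ j)) :=
                  mul_le_mul a1 a2 (norm_nonneg _) hK0
              _ = (K * C) * q ^ (2 ^ j) := by ring
        _ = (S.card : ℝ) * (K * C) * q ^ (2 ^ j) := by
            rw [Finset.sum_const, Finset.card_univ, Fintype.card_coe, nsmul_eq_mul]
            ring
    rw [hN]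
    exact (pi_norm_le_iff_of_nonneg ((norm_nonneg _).trans (hterm 0))).2 hterm
  -- minimum on the sphere
  have hcomp : IsCompact (V ∩ Metric.sphere (0 : Fin B → ℂ) 1) :=
    (isCompact_sphere _ _).inter_left hV.closed
  have hcont : Continuous fun y : Fin B → ℂ => N 0 y := by
    rw [hN]
    refine continuous_norm.comp (continuous_pi fun i => ?_)
    exact (l 0 i).continuous_of_finiteDimensional
  obtain ⟨z, hz, hz1, -⟩ := exists_unit_zero hV (l 0 0)
  obtain ⟨m, hm, hmin⟩ := hcomp.exists_isMinOn ⟨z, hz, by simpa using hz1⟩ hcont.continuousOn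
  have hm1 : ‖m‖ = 1 := by simpa using hm.2
  have hpos : 0 < N 0 m := by
    rw [hN, norm_pos_iff]
    intro h1
    have h2 := h0 m hm.1 fun i => congrFun h1 i
    rw [h2, norm_zero] at hm1
    exact zero_ne_one hm1
  -- the limit
  have hlim : Tendsto (fun j : ℕ => (S.card : ℝ) * (K * C) * (((2 : ℝ) ^ j) ^ 2 * q ^ (2 ^ j))) atTop
      (𝓝 0) := by
    have h1 : Tendsto (fun n : ℕ => (n : ℝ) ^ 2 * q ^ n) atTop (𝓝 0) :=
      tendsto_pow_const_mul_const_pow_of_abs_lt_one 2 (by rwa [abs_of_nonneg hq0])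
    have h2 : Tendsto (fun j : ℕ => 2 ^ j) atTop atTop :=
      tendsto_pow_atTop_atTop_of_one_lt one_lt_two
    have h3 := (h1.comp h2).const_mul ((S.card : ℝ) * (K * C))
    rw [mul_zero] at h3
    refine h3.congr fun j => ?_
    simp
  obtain ⟨j, hj⟩ := (hlim.eventually_lt_const hpos).exists
  obtain ⟨y, hy, hy1, hly⟩ := exists_unit_zero hV (l j 0)
  have h1 : N 0 m ≤ N 0 y := hmin ⟨hy, by simpa using hy1⟩
  have h2 := hdesc' j y hy
  have h3 := hbd j y hy hy1 hly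
  have h4 : (0 : ℝ) ≤ 4 ^ j := by positivity
  have h5 : (4 : ℝ) ^ j * ((S.card : ℝ) * (K * C) * q ^ (2 ^ j)) =
      (S.card : ℝ) * (K * C) * (((2 : ℝ) ^ j) ^ 2 * q ^ (2 ^ j)) := by
    rw [← pow_mul, mul_comm j 2, pow_mul]
    norm_num
    ring
  have h6 := mul_le_mul_of_nonneg_left h3 h4
  rw [h5] at h6
  linarith

end FreyG2
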