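import Pool.Agent.Lib.MP_6babc4_nt.G2.Spn
import Pool.Agent.Lib.MP_6babc4_nt.G2.Goo
import Pool.Agent.Lib.MP_6babc4_nt.Cy3.EInv
import Pool.Agent.Lib.MP_6babc4_nt.Cy3.ECnd

/-!
# Module Val: the vector of a fitting configuration of six points is good

`Pattern P α`: all `ord P (α a - α b)` are equal, or there are three indices such that the differences between them have order `m + t`, `t > 0` even, and all the others have order `m`.

`pattern_of`. PROOF. `m` = the minimum of all `ord P (α a - α b)`, `a ≠ b`. `a ~ b` iff `a = b` or `ord P (α a - α b) > m`: an equivalence relation (ultrametric inequality), at least two classes. If all classes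
have one element: first case. Otherwise let `S` be a class with at least two elements, `t` = min of `ord P (α a - α b) - m` in `S`: `hs` applies to `S, t` (for `i, j ∈ S`, `k, l ∉ S`: `ord P (α i - α k) = m`,
`ord P (α k - α l) ≥ m`; for the third condition `k ∉ S`, `i, j` where the minimum is attained): `#S` is odd, so `#S = 3` (`S ≠ univ`), `t` even. There is only one such class (`3 + 3 > 5`; a class of two elements is not odd).
In `S` all orders are `m + t`: otherwise, `S = {i, j, k}` with `ord P (α i - α j) = m + t + t'`, `t' > 0`, and the other two orders `m + t` (two of three are equal to the minimum): `hs` applies to `{i, j}, t'`, but `2` is not odd.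

`good_of_pattern`. PROOF. From `hφ`: `2 ord (φ a) = ∑_(b ≠ a) ord (α a - α b)`: `ord (φ a) = 2 m`, resp. `2 m + t` for the three indices and `2 m` for the other two. So `ord Q a b = m - 4m = -3m` in the first case; in the second case for
`a, b` both outside `-3m`, one outside `m - 4m - t = -3m - t`, both inside `m + t - 4m - 2t = -3m - t`. So `ord (qf u m)` is `ord κ - 3m - t =: e` (`t = 0` in the first case) for nine of the ten forms, `e + t` for the tenth (`ix` is a bijection between the ten pairs `a < b` and `Fin 10`).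
And with `μ = min ord (u i)` over `u i ≠ 0`: `e = 2 μ`: `ord (qf u m) ≥ 2 μ`, and `4 (u i)^2` is a combination of the forms `0..3` with coefficients `±1` (so `2 μ ≥ min ord (qf u m) = e`; `ord P 4 = 0`).
(`u i = 0` is allowed for some `i`; `ord P 0 = 0` by definition, so treat `0` separately.)
-/

set_option autoImplicit false

open NumberField IsDedekindDomain Module

namespace FreyG2

open FreySparse FreyCyc

variable {E : Type} [Field E] [NumberField E]

def Pattern (P : HeightOneSpectrum (𝓞 E)) (α : Fin 5 → E) : Prop :=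
  ∃ m t : ℤ, ∃ S : Finset (Fin 5), (S.card = 3 ∨ S = ∅) ∧ 0 ≤ t ∧ Even t ∧
    ∀ a b, a ≠ b → ord P (α a - α b) = if a ∈ S ∧ b ∈ S then m + t else m

/-- The combinatorial part of `pattern_of`. -/
private theorem val_abs (o : Fin 5 → Fin 5 → ℤ) (hsym : ∀ a b, o a b = o b a)
    (hult : ∀ a b c, a ≠ b → b ≠ c → a ≠ c → min (o a b) (o b c) ≤ o a c)
    (hs : ∀ (S : Finset (Fin 5)) (t : ℤ), 0 < t → 2 ≤ S.card →
      (∀ i ∈ S, ∀ j ∈ S, ∀ k ∉ S, i ≠ j → t ≤ o i j - o i k) →
      (∀ i ∈ S, ∀ j ∈ S, ∀ k ∉ S, ∀ l ∉ S, i ≠ j → k ≠ l →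
        t ≤ o i j + o k l - o i k - o j l) →
      (∃ i ∈ S, ∃ j ∈ S, ∃ k ∉ S, i ≠ j ∧ t = o i j - o i k) →
      Odd S.card ∧ Even t) :
    ∃ m t : ℤ, ∃ S : Finset (Fin 5), (S.card = 3 ∨ S = ∅) ∧ 0 ≤ t ∧ Even t ∧
      ∀ a b, a ≠ b → o a b = if a ∈ S ∧ b ∈ S then m + t else m := by
  classical
  obtain ⟨p, hp, hmin⟩ := Finset.exists_min_image
    ((Finset.univ : Finset (Fin 5 × Fin 5)).filter fun p => p.1 ≠ p.2) (fun p => o p.1 p.2)
    ⟨(0, 1), by simp⟩
  have hpn : p.1 ≠ p.2 := (Finset.mem_filter.1 hp).2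
  obtain ⟨m, hm⟩ : ∃ m, m = o p.1 p.2 := ⟨_, rfl⟩
  have hge : ∀ a b, a ≠ b → m ≤ o a b := fun a b hab => by
    rw [hm]
    exact hmin (a, b) (Finset.mem_filter.2 ⟨Finset.mem_univ _, hab⟩)
  by_cases hall : ∀ a b, a ≠ b → o a b = m
  · refine ⟨m, 0, ∅, Or.inr rfl, le_refl _, ⟨0, rfl⟩, fun a b hab => ?_⟩
    rw [hall a b hab]
    simp
  push Not at hall
  obtain ⟨a₁, b₁, hab₁, hne₁⟩ := hall
  obtain ⟨cl, hcl⟩ : ∃ cl : Fin 5 → Finset (Fin 5), ∀ a b, b ∈ cl a ↔ (a = b ∨ m < o a b) :=
    ⟨fun a => Finset.univ.filter fun b => a = b ∨ m < o a b, fun a b => by simp⟩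
  have hself : ∀ a, a ∈ cl a := fun a => (hcl a a).2 (Or.inl rfl)
  have hrs : ∀ a b, b ∈ cl a → a ∈ cl b := by
    intro a b h
    rcases (hcl a b).1 h with h | h
    · exact (hcl b a).2 (Or.inl h.symm)
    · exact (hcl b a).2 (Or.inr (by rw [hsym b a]; exact h))
  have hrt : ∀ a b c, b ∈ cl a → c ∈ cl b → c ∈ cl a := by
    intro a b c h1 h2
    rcases (hcl a b).1 h1 with h | h
    · rw [h]; exact h2
    rcases (hcl b c).1 h2 with h' | h'
    · rw [← h']; exact h1
    by_cases hac : a = c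
    · exact (hcl a c).2 (Or.inl hac)
    by_cases hab : a = b
    · rw [hab]; exact h2
    by_cases hbc : b = c
    · rw [← hbc]; exact h1
    refine (hcl a c).2 (Or.inr (lt_of_lt_of_le (lt_min h h') (hult a b c hab hbc hac)))
  have hpp : ∀ a, ∃ k, k ∉ cl a := by
    intro a
    by_contra hcon
    push Not at hcon
    have h1 := hrt p.1 a p.2 (hrs a p.1 (hcon p.1)) (hcon p.2)
    rcases (hcl _ _).1 h1 with h | h
    · exact hpn h
    · rw [← hm] at h
      exact lt_irrefl _ h
  have key : ∀ a b, a ≠ b → b ∈ cl a → (cl a).card = 3 ∧ ∃ t, 0 < t ∧ Even t ∧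
      ∀ x ∈ cl a, ∀ y ∈ cl a, x ≠ y → o x y = m + t := by
    intro a b hab hb
    have hin : ∀ x ∈ cl a, ∀ y ∈ cl a, x ≠ y → m < o x y := by
      intro x hx y hy hxy
      rcases (hcl x y).1 (hrt x a y (hrs a x hx) hy) with h | h
      · exact absurd h hxy
      · exact h
    have hout : ∀ x ∈ cl a, ∀ k ∉ cl a, o x k = m := by
      intro x hx k hk
      have hxk : x ≠ k := fun h => hk (h ▸ hx)
      refine le_antisymm ?_ (hge x k hxk)
      by_contra hcon
      exact hk (hrt a x k hx ((hcl x k).2 (Or.inr (not_le.1 hcon))))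
    obtain ⟨q, hq, hqmin⟩ := Finset.exists_min_image (cl a).offDiag (fun p => o p.1 p.2)
      ⟨(a, b), Finset.mem_offDiag.2 ⟨hself a, hb, hab⟩⟩
    obtain ⟨hq1, hq2, hqn⟩ := Finset.mem_offDiag.1 hq
    obtain ⟨k₀, hk₀⟩ := hpp a
    obtain ⟨t, ht⟩ : ∃ t, t = o q.1 q.2 - m := ⟨_, rfl⟩
    have ht0 : 0 < t := by
      have := hin q.1 hq1 q.2 hq2 hqn
      omega
    have htle : ∀ x ∈ cl a, ∀ y ∈ cl a, x ≠ y → m + t ≤ o x y := by
      intro x hx y hy hxy
      have := hqmin (x, y) (Finset.mem_offDiag.2 ⟨hx, hy, hxy⟩)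
      simp only at this
      omega
    have h2c : 2 ≤ (cl a).card := by
      have h1 : ({a, b} : Finset (Fin 5)) ⊆ cl a := by
        intro x hx
        rcases Finset.mem_insert.1 hx with h | h
        · rw [h]; exact hself a
        · rw [Finset.mem_singleton.1 h]; exact hb
      calc 2 = ({a, b} : Finset (Fin 5)).card := (Finset.card_pair hab).symm
        _ ≤ (cl a).card := Finset.card_le_card h1
    obtain ⟨hodd, heven⟩ := hs (cl a) t ht0 h2c
      (by
        intro i hi j hj k hk hij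
        have h1 := htle i hi j hj hij
        have h2 := hout i hi k hk
        omega)
      (by
        intro i hi j hj k hk l hl hij hkl
        have h1 := htle i hi j hj hij
        have h2 := hout i hi k hk
        have h3 := hout j hj l hl
        have h4 := hge k l hkl
        omega)
      ⟨q.1, hq1, q.2, hq2, k₀, hk₀, hqn, by rw [hout q.1 hq1 k₀ hk₀]; exact ht⟩
    have h5c : (cl a).card < 5 := by
      have h1 : cl a ⊂ Finset.univ := by
        refine Finset.ssubset_univ_iff.2 ?_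
        intro h
        rw [h] at hk₀
        exact hk₀ (Finset.mem_univ _)
      have := Finset.card_lt_card h1
      simpa using this
    have h3c : (cl a).card = 3 := by
      obtain ⟨r, hr⟩ := hodd
      omega
    refine ⟨h3c, t, ht0, heven, ?_⟩
    intro x hx y hy hxy
    by_contra hcon
    have hgt : m + t < o x y := lt_of_le_of_ne (htle x hx y hy hxy) (Ne.symm hcon)
    have hcard1 : (((cl a).erase x).erase y).card = 1 := by
      rw [Finset.card_erase_of_mem (Finset.mem_erase.2 ⟨Ne.symm hxy, hy⟩),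
        Finset.card_erase_of_mem hx, h3c]
    obtain ⟨z, hz⟩ := Finset.card_eq_one.1 hcard1
    have hzm : z ∈ ((cl a).erase x).erase y := by rw [hz]; exact Finset.mem_singleton_self z
    obtain ⟨hzy, hz2⟩ := Finset.mem_erase.1 hzm
    obtain ⟨hzx, hza⟩ := Finset.mem_erase.1 hz2
    have hthree : ∀ w ∈ cl a, w = x ∨ w = y ∨ w = z := by
      intro w hw
      by_cases h1 : w = x
      · exact Or.inl h1
      by_cases h2 : w = y
      · exact Or.inr (Or.inl h2)
      refine Or.inr (Or.inr ?_)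
      have : w ∈ ((cl a).erase x).erase y :=
        Finset.mem_erase.2 ⟨h2, Finset.mem_erase.2 ⟨h1, hw⟩⟩
      rw [hz] at this
      exact Finset.mem_singleton.1 this
    have hxz : m + t ≤ o x z := htle x hx z hza (Ne.symm hzx)
    have hyz : m + t ≤ o y z := htle y hy z hza (Ne.symm hzy)
    have hqv : o q.1 q.2 = m + t := by omega
    have hone : o x z = m + t ∨ o y z = m + t := by
      rcases hthree q.1 hq1 with h1 | h1 | h1 <;> rcases hthree q.2 hq2 with h2 | h2 | h2
      · exact absurd (h1.trans h2.symm) hqn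
      · rw [h1, h2] at hqv; omega
      · rw [h1, h2] at hqv; exact Or.inl hqv
      · rw [h1, h2, hsym] at hqv; omega
      · exact absurd (h1.trans h2.symm) hqn
      · rw [h1, h2] at hqv; exact Or.inr hqv
      · rw [h1, h2, hsym] at hqv; exact Or.inl hqv
      · rw [h1, h2, hsym] at hqv; exact Or.inr hqv
      · exact absurd (h1.trans h2.symm) hqn
    have hboth : o x z = m + t ∧ o y z = m + t := by
      rcases hone with h | h
      · have h1 := hult x y z hxy (Ne.symm hzy) (Ne.symm hzx)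
        rcases min_le_iff.1 h1 with h2 | h2
        · omega
        · exact ⟨h, by omega⟩
      · have h1 := hult y x z (Ne.symm hxy) (Ne.symm hzx) (Ne.symm hzy)
        rcases min_le_iff.1 h1 with h2 | h2
        · rw [hsym y x] at h2; omega
        · exact ⟨by omega, h⟩
    have hxle : ∀ k, k ≠ x → k ≠ y → o x k ≤ m + t := by
      intro k h1 h2
      by_cases hk : k ∈ cl a
      · rcases hthree k hk with h | h | h
        · exact absurd h h1
        · exact absurd h h2
        · rw [h]; exact le_of_eq hboth.1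
      · rw [hout x hx k hk]; omega
    have hyle : ∀ k, k ≠ x → k ≠ y → o y k ≤ m + t := by
      intro k h1 h2
      by_cases hk : k ∈ cl a
      · rcases hthree k hk with h | h | h
        · exact absurd h h1
        · exact absurd h h2
        · rw [h]; exact le_of_eq hboth.2
      · rw [hout y hy k hk]; omega
    have hsum : ∀ k l, k ≠ x → k ≠ y → l ≠ x → l ≠ y → k ≠ l →
        o x k + o y l ≤ o k l + m + t := by
      intro k l hkx hky hlx hly hkl
      have h4 := hge k l hkl
      by_cases hk : k ∈ cl a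
      · by_cases hl : l ∈ cl a
        · exfalso
          rcases hthree k hk with h | h | h
          · exact hkx h
          · exact hky h
          rcases hthree l hl with h' | h' | h'
          · exact hlx h'
          · exact hly h'
          · exact hkl (h.trans h'.symm)
        · have h1 := hxle k hkx hky
          have h2 := hout y hy l hl
          omega
      · have h1 := hyle l hlx hly
        have h2 := hout x hx k hk
        omega
    have hfin := hs {x, y} (o x y - (m + t)) (by omega) (by rw [Finset.card_pair hxy])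
      (by
        intro i hi j hj k hk hij
        have hkx : k ≠ x := fun h => hk (by rw [h]; exact Finset.mem_insert_self _ _)
        have hky : k ≠ y := fun h => hk (by
          rw [h]; exact Finset.mem_insert_of_mem (Finset.mem_singleton_self _))
        have h1 := hxle k hkx hky
        have h2 := hyle k hkx hky
        rcases Finset.mem_insert.1 hi with hi | hi <;> rcases Finset.mem_insert.1 hj with hj | hj
        · exact absurd (hi.trans hj.symm) hij
        · rw [hi, Finset.mem_singleton.1 hj]; omega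
        · rw [Finset.mem_singleton.1 hi, hj, hsym y x]; omega
        · exact absurd ((Finset.mem_singleton.1 hi).trans (Finset.mem_singleton.1 hj).symm) hij)
      (by
        intro i hi j hj k hk l hl hij hkl
        have hkx : k ≠ x := fun h => hk (by rw [h]; exact Finset.mem_insert_self _ _)
        have hky : k ≠ y := fun h => hk (by
          rw [h]; exact Finset.mem_insert_of_mem (Finset.mem_singleton_self _))
        have hlx : l ≠ x := fun h => hl (by rw [h]; exact Finset.mem_insert_self _ _)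
        have hly : l ≠ y := fun h => hl (by
          rw [h]; exact Finset.mem_insert_of_mem (Finset.mem_singleton_self _))
        have h1 := hsum k l hkx hky hlx hly hkl
        have h2 := hsum l k hlx hly hkx hky (Ne.symm hkl)
        rw [hsym l k] at h2
        rcases Finset.mem_insert.1 hi with hi | hi <;> rcases Finset.mem_insert.1 hj with hj | hj
        · exact absurd (hi.trans hj.symm) hij
        · rw [hi, Finset.mem_singleton.1 hj]; omega
        · rw [Finset.mem_singleton.1 hi, hj, hsym y x]; omega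
        · exact absurd ((Finset.mem_singleton.1 hi).trans (Finset.mem_singleton.1 hj).symm) hij)
      ⟨x, Finset.mem_insert_self _ _, y, Finset.mem_insert_of_mem (Finset.mem_singleton_self _),
        z, by
          intro h
          rcases Finset.mem_insert.1 h with h | h
          · exact hzx h
          · exact hzy (Finset.mem_singleton.1 h), hxy, by rw [hboth.1]⟩
    rw [Finset.card_pair hxy] at hfin
    obtain ⟨r, hr⟩ := hfin.1
    omega
  have hb₁ : b₁ ∈ cl a₁ :=
    (hcl a₁ b₁).2 (Or.inr (lt_of_le_of_ne (hge a₁ b₁ hab₁) (Ne.symm hne₁)))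
  obtain ⟨hc3, t, ht0, hte, hin⟩ := key a₁ b₁ hab₁ hb₁
  refine ⟨m, t, cl a₁, Or.inl hc3, ht0.le, hte, fun a b hab => ?_⟩
  by_cases h : a ∈ cl a₁ ∧ b ∈ cl a₁
  · rw [if_pos h]
    exact hin a h.1 b h.2 hab
  rw [if_neg h]
  by_contra hne
  have hb : b ∈ cl a := (hcl a b).2 (Or.inr (lt_of_le_of_ne (hge a b hab) (Ne.symm hne)))
  have ha : a ∉ cl a₁ := fun ha => h ⟨ha, hrt a₁ a b ha hb⟩
  obtain ⟨hc3', -⟩ := key a b hab hb
  have hdis : Disjoint (cl a) (cl a₁) := by
    rw [Finset.disjoint_left]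
    intro w hw hw'
    exact ha (hrt a₁ w a hw' (hrs a w hw))
  have h6 := Finset.card_union_of_disjoint hdis
  rw [hc3, hc3'] at h6
  have h5 := Finset.card_le_univ (cl a ∪ cl a₁)
  rw [h6] at h5
  simp at h5

theorem pattern_of {P : HeightOneSpectrum (𝓞 E)} {α : Fin 5 → E} (hα : Function.Injective α)
    (hs : ∀ (S : Finset (Fin 5)) (t : ℤ), 0 < t → 2 ≤ S.card →
      (∀ i ∈ S, ∀ j ∈ S, ∀ k ∉ S, i ≠ j → t ≤ ord P (α i - α j) - ord P (α i - α k)) →
      (∀ i ∈ S, ∀ j ∈ S, ∀ k ∉ S, ∀ l ∉ S, i ≠ j → k ≠ l →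
        t ≤ ord P (α i - α j) + ord P (α k - α l) - ord P (α i - α k) - ord P (α j - α l)) →
      (∃ i ∈ S, ∃ j ∈ S, ∃ k ∉ S, i ≠ j ∧ t = ord P (α i - α j) - ord P (α i - α k)) →
      Odd S.card ∧ Even t) : Pattern P α := by
  have hne : ∀ a b : Fin 5, a ≠ b → α a - α b ≠ 0 := fun a b hab h =>
    hab (hα (sub_eq_zero.1 h))
  refine val_abs (fun a b => ord P (α a - α b)) (fun a b => ?_) (fun a b c hab hbc hac => ?_) hs
  · rw [← ord_neg P (α a - α b), neg_sub]
  · have h := le_ord_add P (hne a b hab) (hne b c hbc)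
      (by rw [sub_add_sub_cancel]; exact hne a c hac)
    rwa [sub_add_sub_cancel] at h

/-- The sum of the orders of the differences with one point. -/
private theorem val_sum {P : HeightOneSpectrum (𝓞 E)} {α : Fin 5 → E} {m t : ℤ}
    {S : Finset (Fin 5)} (hS : S.card = 3 ∨ S = ∅)
    (ho : ∀ a b, a ≠ b → ord P (α a - α b) = if a ∈ S ∧ b ∈ S then m + t else m) (a : Fin 5) :
    ∑ b ∈ Finset.univ.erase a, ord P (α a - α b) = if a ∈ S then 4 * m + 2 * t else 4 * m := by
  classical
  have h1 : ∑ b ∈ Finset.univ.erase a, ord P (α a - α b) =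
      ∑ b ∈ Finset.univ.erase a, (m + if a ∈ S ∧ b ∈ S then t else 0) := by
    refine Finset.sum_congr rfl fun b hb => ?_
    rw [ho a b (Ne.symm (Finset.ne_of_mem_erase hb))]
    split_ifs <;> ring
  have hc : (Finset.univ.erase a : Finset (Fin 5)).card = 4 := by
    rw [Finset.card_erase_of_mem (Finset.mem_univ _)]
    rfl
  rw [h1, Finset.sum_add_distrib, Finset.sum_const, hc]
  by_cases ha : a ∈ S
  · have h3 : S.card = 3 := by
      rcases hS with h | h
      · exact h
      · rw [h] at ha; exact absurd ha (Finset.notMem_empty a)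
    rw [if_pos ha]
    have h4 : ∑ b ∈ Finset.univ.erase a, (if a ∈ S ∧ b ∈ S then t else 0) = 2 * t := by
      rw [← Finset.sum_filter, Finset.sum_const]
      have h5 : (Finset.univ.erase a).filter (fun b => a ∈ S ∧ b ∈ S) = S.erase a := by
        ext b
        simp only [Finset.mem_filter, Finset.mem_erase, Finset.mem_univ, and_true]
        exact ⟨fun h => ⟨h.1, h.2.2⟩, fun h => ⟨h.1, ha, h.2⟩⟩
      rw [h5, Finset.card_erase_of_mem ha, h3]
      simp
    rw [h4]
    simp
  · rw [if_neg ha]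
    have h4 : ∑ b ∈ Finset.univ.erase a, (if a ∈ S ∧ b ∈ S then t else 0) = 0 := by
      refine Finset.sum_eq_zero fun b _ => ?_
      rw [if_neg (fun h => ha h.1)]
    rw [h4]
    simp

private theorem val_add {P : HeightOneSpectrum (𝓞 E)} {c : ℤ} {x y : E}
    (hx : x = 0 ∨ c ≤ ord P x) (hy : y = 0 ∨ c ≤ ord P y) : x + y = 0 ∨ c ≤ ord P (x + y) := by
  by_cases hx0 : x = 0
  · rw [hx0, zero_add]; exact hy
  by_cases hy0 : y = 0
  · rw [hy0, add_zero]; exact hx
  by_cases hxy : x + y = 0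
  · exact Or.inl hxy
  refine Or.inr (le_trans (le_min ?_ ?_) (le_ord_add P hx0 hy0 hxy))
  · exact hx.resolve_left hx0
  · exact hy.resolve_left hy0

private theorem val_neg {P : HeightOneSpectrum (𝓞 E)} {c : ℤ} {x : E}
    (hx : x = 0 ∨ c ≤ ord P x) : -x = 0 ∨ c ≤ ord P (-x) := by
  rcases hx with h | h
  · exact Or.inl (by rw [h, neg_zero])
  · exact Or.inr (by rw [ord_neg]; exact h)

private theorem val_sub {P : HeightOneSpectrum (𝓞 E)} {c : ℤ} {x y : E}
    (hx : x = 0 ∨ c ≤ ord P x) (hy : y = 0 ∨ c ≤ ord P y) : x - y = 0 ∨ c ≤ ord P (x - y) := by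
  rw [sub_eq_add_neg]
  exact val_add hx (val_neg hy)

private theorem val_mul {P : HeightOneSpectrum (𝓞 E)} {c d : ℤ} {x y : E}
    (hx : x = 0 ∨ c ≤ ord P x) (hy : y = 0 ∨ d ≤ ord P y) :
    x * y = 0 ∨ c + d ≤ ord P (x * y) := by
  by_cases hx0 : x = 0
  · exact Or.inl (by rw [hx0, zero_mul])
  by_cases hy0 : y = 0
  · exact Or.inl (by rw [hy0, mul_zero])
  refine Or.inr ?_
  rw [ord_mul P hx0 hy0]
  exact add_le_add (hx.resolve_left hx0) (hy.resolve_left hy0)

private theorem val_two {P : HeightOneSpectrum (𝓞 E)} (h2 : (2 : 𝓞 E) ∉ P.asIdeal) :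
    ord P (2 : E) = 0 := by
  have h := ord_nonneg P (2 : 𝓞 E)
  have h3 : (2 : 𝓞 E) ≠ 0 := two_ne_zero
  have h4 := (ord_pos_iff P h3).not.2 h2
  have h5 : algebraMap (𝓞 E) E 2 = 2 := map_ofNat _ 2
  rw [h5] at h h4
  omega

/-- The two inequalities between the forms and the coordinates. -/
private theorem val_low {P : HeightOneSpectrum (𝓞 E)} (h2 : (2 : 𝓞 E) ∉ P.asIdeal)
    {u : Fin 4 → E} {μ : ℤ} (hμ : ∀ i, u i = 0 ∨ μ ≤ ord P (u i)) (m : Fin 10) :
    qf u m = 0 ∨ 2 * μ ≤ ord P (qf u m) := by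
  have hsq : ∀ i, u i ^ 2 = 0 ∨ 2 * μ ≤ ord P (u i ^ 2) := by
    intro i
    have h := val_mul (hμ i) (hμ i)
    rw [← pow_two, ← two_mul] at h
    exact h
  have hpr : ∀ i j, u i * u j = 0 ∨ 2 * μ ≤ ord P (u i * u j) := by
    intro i j
    have h := val_mul (hμ i) (hμ j)
    rw [← two_mul] at h
    exact h
  have htw : ∀ x : E, (x = 0 ∨ 2 * μ ≤ ord P x) → (2 * x = 0 ∨ 2 * μ ≤ ord P (2 * x)) := by
    intro x hx
    have h := val_mul (P := P) (c := 0) (Or.inr (le_of_eq (val_two h2).symm) :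
      (2 : E) = 0 ∨ (0 : ℤ) ≤ ord P (2 : E)) hx
    rw [zero_add] at h
    exact h
  fin_cases m
  · exact val_add (val_add (val_add (hsq 0) (hsq 1)) (hsq 2)) (hsq 3)
  · exact val_sub (val_sub (val_add (hsq 0) (hsq 1)) (hsq 2)) (hsq 3)
  · exact val_sub (val_add (val_sub (hsq 0) (hsq 1)) (hsq 2)) (hsq 3)
  · exact val_add (val_sub (val_sub (hsq 0) (hsq 1)) (hsq 2)) (hsq 3)
  · exact htw _ (val_add (hpr 0 1) (hpr 2 3))
  · exact htw _ (val_sub (hpr 0 1) (hpr 2 3))
  · exact htw _ (val_add (hpr 0 2) (hpr 1 3))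
  · exact htw _ (val_sub (hpr 0 2) (hpr 1 3))
  · exact htw _ (val_add (hpr 0 3) (hpr 1 2))
  · exact htw _ (val_sub (hpr 0 3) (hpr 1 2))

private theorem val_high {P : HeightOneSpectrum (𝓞 E)} (h2 : (2 : 𝓞 E) ∉ P.asIdeal)
    {u : Fin 4 → E} {e : ℤ} (he : ∀ m, qf u m = 0 ∨ e ≤ ord P (qf u m)) (i : Fin 4)
    (hi : u i ≠ 0) : e ≤ 2 * ord P (u i) := by
  have h20 : (2 : E) ≠ 0 := two_ne_zero
  have h4 : ord P ((2 * 2) * u i ^ 2) = 2 * ord P (u i) := by
    rw [ord_mul P (mul_ne_zero h20 h20) (pow_ne_zero 2 hi), ord_mul P h20 h20, val_two h2,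
      ord_pow P hi]
    push_cast
    ring
  have h5 : (2 * 2) * u i ^ 2 = 0 ∨ e ≤ ord P ((2 * 2) * u i ^ 2) := by
    fin_cases i
    · have h : (2 * 2) * u 0 ^ 2 = qf u 0 + qf u 1 + qf u 2 + qf u 3 := by
        simp [qf]; ring
      change (2 * 2) * u 0 ^ 2 = 0 ∨ e ≤ ord P ((2 * 2) * u 0 ^ 2)
      rw [h]
      exact val_add (val_add (val_add (he 0) (he 1)) (he 2)) (he 3)
    · have h : (2 * 2) * u 1 ^ 2 = qf u 0 + qf u 1 - qf u 2 - qf u 3 := by
        simp [qf]; ring
      change (2 * 2) * u 1 ^ 2 = 0 ∨ e ≤ ord P ((2 * 2) * u 1 ^ 2)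
      rw [h]
      exact val_sub (val_sub (val_add (he 0) (he 1)) (he 2)) (he 3)
    · have h : (2 * 2) * u 2 ^ 2 = qf u 0 - qf u 1 + qf u 2 - qf u 3 := by
        simp [qf]; ring
      change (2 * 2) * u 2 ^ 2 = 0 ∨ e ≤ ord P ((2 * 2) * u 2 ^ 2)
      rw [h]
      exact val_sub (val_add (val_sub (he 0) (he 1)) (he 2)) (he 3)
    · have h : (2 * 2) * u 3 ^ 2 = qf u 0 - qf u 1 - qf u 2 + qf u 3 := by
        simp [qf]; ring
      change (2 * 2) * u 3 ^ 2 = 0 ∨ e ≤ ord P ((2 * 2) * u 3 ^ 2)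
      rw [h]
      exact val_add (val_sub (val_sub (he 0) (he 1)) (he 2)) (he 3)
  rcases h5 with h5 | h5
  · exact absurd h5 (mul_ne_zero (mul_ne_zero h20 h20) (pow_ne_zero 2 hi))
  · rw [h4] at h5
    exact h5

/-- Nine forms of the same order and one form of a larger order of the same parity. -/
private theorem val_good {P : HeightOneSpectrum (𝓞 E)} (h2 : (2 : 𝓞 E) ∉ P.asIdeal)
    {u : Fin 4 → E} (hnz : ∀ m, qf u m ≠ 0) {e t : ℤ} (ht : 0 ≤ t) (hte : Even t) (m₀ : Fin 10)
    (h0 : ord P (qf u m₀) = e + t) (h1 : ∀ m, m ≠ m₀ → ord P (qf u m) = e) : Good P u := by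
  classical
  have hex : ∃ i, u i ≠ 0 := by
    by_contra hcon
    push Not at hcon
    refine hnz 0 ?_
    simp [qf, hcon]
  obtain ⟨i₁, hi₁⟩ := hex
  obtain ⟨i₀, hi₀, hmin⟩ := Finset.exists_min_image
    ((Finset.univ : Finset (Fin 4)).filter fun i => u i ≠ 0) (fun i => ord P (u i))
    ⟨i₁, Finset.mem_filter.2 ⟨Finset.mem_univ _, hi₁⟩⟩
  have hi₀' : u i₀ ≠ 0 := (Finset.mem_filter.1 hi₀).2
  have hmin' : ∀ i, u i ≠ 0 → ord P (u i₀) ≤ ord P (u i) := fun i hi =>
    hmin i (Finset.mem_filter.2 ⟨Finset.mem_univ _, hi⟩)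
  have hge : ∀ m, qf u m = 0 ∨ e ≤ ord P (qf u m) := by
    intro m
    by_cases hm : m = m₀
    · rw [hm, h0]; exact Or.inr (by omega)
    · rw [h1 m hm]; exact Or.inr (le_refl _)
  have hup := val_high h2 hge i₀ hi₀'
  have hμ : ∀ i, u i = 0 ∨ ord P (u i₀) ≤ ord P (u i) := fun i => by
    by_cases hi : u i = 0
    · exact Or.inl hi
    · exact Or.inr (hmin' i hi)
  obtain ⟨m₁, hm₁⟩ : ∃ m₁ : Fin 10, m₁ ≠ m₀ := by
    by_cases h : m₀ = 0
    · exact ⟨1, by rw [h]; decide⟩
    · exact ⟨0, Ne.symm h⟩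
  have hlo := (val_low h2 hμ m₁).resolve_left (hnz m₁)
  rw [h1 m₁ hm₁] at hlo
  have he : e = 2 * ord P (u i₀) := le_antisymm hup hlo
  refine ⟨ord P (u i₀), hmin', ⟨i₀, hi₀', rfl⟩, m₀, fun m hm => ⟨hnz m, ?_⟩, fun _ => ?_⟩
  · rw [h1 m hm, he]
  · rw [h0, he]
    exact (even_two_mul _).add hte

private theorem val_ix : ∀ m : Fin 10, ∃ a b : Fin 5, a ≠ b ∧ ix a b = m := by decide

private theorem val_ixs : ∀ a b : Fin 5, ix a b = ix b a := by decide

theorem good_of_pattern {P : HeightOneSpectrum (𝓞 E)} (h2 : (2 : 𝓞 E) ∉ P.asIdeal) {ι : E}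
    (hι : ι ^ 2 = -1) {α φ : Fin 5 → E} (hα : Function.Injective α)
    (hφ : ∀ a, φ a ^ 2 = ∏ b ∈ Finset.univ.erase a, (α a - α b)) {u : Fin 4 → E} {κ : E}
    (hκ : κ ≠ 0) (hu : ∀ a b, a ≠ b →
      ι ^ ex a b * qf u (ix a b) = κ * ((α a - α b) / (φ a * φ b))) (hp : Pattern P α) :
    Good P u := by
  classical
  obtain ⟨m, t, S, hS, ht, hte, ho⟩ := hp
  have hne : ∀ a b : Fin 5, a ≠ b → α a - α b ≠ 0 := fun a b hab h =>
    hab (hα (sub_eq_zero.1 h))
  have hι0 : ι ≠ 0 := by
    intro h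
    rw [h] at hι
    norm_num at hι
  have hιo : ord P ι = 0 := by
    have h := ord_pow P hι0 2
    rw [hι, ord_neg, ord_one] at h
    push_cast at h
    omega
  have hφ2 : ∀ a, φ a ^ 2 ≠ 0 := fun a => by
    rw [hφ a]
    exact Finset.prod_ne_zero_iff.2 fun b hb => hne a b (Ne.symm (Finset.ne_of_mem_erase hb))
  have hφ0 : ∀ a, φ a ≠ 0 := fun a h => hφ2 a (by rw [h]; ring)
  have hφo : ∀ a, ord P (φ a) = if a ∈ S then 2 * m + t else 2 * m := by
    intro a
    have h := ord_pow P (hφ0 a) 2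
    rw [hφ a, ord_prod P _ _ (fun b hb => hne a b (Ne.symm (Finset.ne_of_mem_erase hb))),
      val_sum hS ho a] at h
    push_cast at h
    split_ifs with ha
    · rw [if_pos ha] at h; omega
    · rw [if_neg ha] at h; omega
  have hqn : ∀ a b, a ≠ b → qf u (ix a b) ≠ 0 := by
    intro a b hab h
    have h1 := hu a b hab
    rw [h, mul_zero] at h1
    exact mul_ne_zero hκ (div_ne_zero (hne a b hab) (mul_ne_zero (hφ0 a) (hφ0 b))) h1.symm
  have hqo : ∀ a b, a ≠ b → ord P (qf u (ix a b)) =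
      ord P κ + ord P (α a - α b) - ord P (φ a) - ord P (φ b) := by
    intro a b hab
    have h1 : ι ^ ex a b * qf u (ix a b) * (φ a * φ b) = κ * (α a - α b) := by
      rw [hu a b hab, mul_assoc, div_mul_cancel₀ _ (mul_ne_zero (hφ0 a) (hφ0 b))]
    have h3 := congrArg (ord P) h1
    rw [ord_mul P (mul_ne_zero (pow_ne_zero _ hι0) (hqn a b hab)) (mul_ne_zero (hφ0 a) (hφ0 b)),
      ord_mul P (pow_ne_zero _ hι0) (hqn a b hab), ord_mul P (hφ0 a) (hφ0 b), ord_pow P hι0,
      ord_mul P hκ (hne a b hab), hιo] at h3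
    simp only [mul_zero, zero_add] at h3
    omega
  have hnz : ∀ m, qf u m ≠ 0 := by
    intro m
    obtain ⟨a, b, hab, hm⟩ := val_ix m
    rw [← hm]
    exact hqn a b hab
  rcases hS with hS3 | hS0
  · have hcc : (Sᶜ).card = 2 := by
      rw [Finset.card_compl, hS3]
      rfl
    obtain ⟨a₀, b₀, hab₀, hSc⟩ := Finset.card_eq_two.1 hcc
    have hmem : ∀ w, w ∉ S ↔ (w = a₀ ∨ w = b₀) := by
      intro w
      rw [← Finset.mem_compl, hSc, Finset.mem_insert, Finset.mem_singleton]
    have ha₀ : a₀ ∉ S := (hmem a₀).2 (Or.inl rfl)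
    have hb₀ : b₀ ∉ S := (hmem b₀).2 (Or.inr rfl)
    refine val_good h2 hnz ht hte (ix a₀ b₀) (e := ord P κ - 3 * m - t) ?_ ?_
    · rw [hqo a₀ b₀ hab₀, ho a₀ b₀ hab₀, if_neg (fun h => ha₀ h.1), hφo, hφo, if_neg ha₀,
        if_neg hb₀]
      ring
    · intro n hn
      obtain ⟨a, b, hab, hm⟩ := val_ix n
      rw [← hm, hqo a b hab, ho a b hab, hφo, hφo]
      by_cases ha : a ∈ S
      · by_cases hb : b ∈ S
        · rw [if_pos ⟨ha, hb⟩, if_pos ha, if_pos hb]; ring
        · rw [if_neg (fun h => hb h.2), if_pos ha, if_neg hb]; ring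
      · by_cases hb : b ∈ S
        · rw [if_neg (fun h => ha h.1), if_neg ha, if_pos hb]; ring
        · exfalso
          apply hn
          rw [← hm]
          rcases (hmem a).1 ha with h1 | h1 <;> rcases (hmem b).1 hb with h3 | h3
          · exact absurd (h1.trans h3.symm) hab
          · rw [h1, h3]
          · rw [h1, h3, val_ixs]
          · exact absurd (h1.trans h3.symm) hab
  · have hno : ∀ w, w ∉ S := fun w => by rw [hS0]; exact Finset.notMem_empty w
    have hall : ∀ n, ord P (qf u n) = ord P κ - 3 * m := by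
      intro n
      obtain ⟨a, b, hab, hm⟩ := val_ix n
      rw [← hm, hqo a b hab, ho a b hab, hφo, hφo, if_neg (fun h => hno a h.1), if_neg (hno a),
        if_neg (hno b)]
      ring
    refine val_good h2 hnz (le_refl (0 : ℤ)) ⟨0, rfl⟩ 0 (e := ord P κ - 3 * m) ?_ ?_
    · rw [hall 0, add_zero]
    · intro n _
      exact hall n

/-- The products whose square roots are the `φ a` have even order. -/
theorem even_of_pattern {P : HeightOneSpectrum (𝓞 E)} {α : Fin 5 → E}
    (hα : Function.Injective α) (hp : Pattern P α) (a : Fin 5) :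
    Even (ord P (∏ b ∈ Finset.univ.erase a, (α a - α b))) := by
  obtain ⟨m, t, S, hS, ht, hte, ho⟩ := hp
  have hne : ∀ a b : Fin 5, a ≠ b → α a - α b ≠ 0 := fun a b hab h =>
    hab (hα (sub_eq_zero.1 h))
  rw [ord_prod P _ _ (fun b hb => hne a b (Ne.symm (Finset.ne_of_mem_erase hb))),
    val_sum hS ho a]
  split_ifs
  · exact ⟨2 * m + t, by ring⟩
  · exact ⟨2 * m, by ring⟩

end FreyG2
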